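import Pool.Agent.TH575.OM.WinO

/-!
The main theorem for real and complex valued sequences.
-/

set_option autoImplicit false

namespace Pool.Agent.TH575.OM

open Finset ArithmeticFunction

lemma DI_eq (a b : ℕ → ℝ) (h N : ℕ) : DI a b h N = (∑ n ∈ Icc 1 N, a (cardFactors n) * b (cardFactors (n + h))) / N -
    ((∑ n ∈ Icc 1 N, a (cardFactors n)) / N) * ((∑ n ∈ Icc 1 N, b (cardFactors n)) / N) := rfl

lemma DI_add_left (a a' b : ℕ → ℝ) (h N : ℕ) : DI (fun l => a l + a' l) b h N = DI a b h N + DI a' b h N := by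
  unfold DI
  simp only [add_mul, sum_add_distrib, add_div]
  ring

lemma DI_add_right (a b b' : ℕ → ℝ) (h N : ℕ) : DI a (fun l => b l + b' l) h N = DI a b h N + DI a b' h N := by
  unfold DI
  simp only [mul_add, sum_add_distrib, add_div]
  ring

lemma DI_smul_left (c : ℝ) (a b : ℕ → ℝ) (h N : ℕ) : DI (fun l => c * a l) b h N = c * DI a b h N := by
  unfold DI
  simp only [mul_assoc, ← mul_sum, mul_div_assoc, ← mul_sub]

lemma DI_smul_right (c : ℝ) (a b : ℕ → ℝ) (h N : ℕ) : DI a (fun l => c * b l) h N = c * DI a b h N := by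
  unfold DI
  have h1 : ∀ n, a (cardFactors n) * (c * b (cardFactors (n + h))) = c * (a (cardFactors n) * b (cardFactors (n + h))) :=
    fun n => by ring
  simp only [h1, ← mul_sum]
  ring

lemma DI_sum_left {ι : Type*} (s : Finset ι) (a : ι → ℕ → ℝ) (b : ℕ → ℝ) (h N : ℕ) :
    DI (fun l => ∑ j ∈ s, a j l) b h N = ∑ j ∈ s, DI (a j) b h N := by
  classical
  induction s using Finset.induction_on with
  | empty =>
    simp only [sum_empty]
    unfold DI
    simp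
  | insert j s hj ih =>
    rw [sum_insert hj, ← ih, ← DI_add_left]
    congr 1
    funext l
    rw [sum_insert hj]

lemma DI_sum_right {ι : Type*} (s : Finset ι) (a : ℕ → ℝ) (b : ι → ℕ → ℝ) (h N : ℕ) :
    DI a (fun l => ∑ j ∈ s, b j l) h N = ∑ j ∈ s, DI a (b j) h N := by
  classical
  induction s using Finset.induction_on with
  | empty =>
    simp only [sum_empty]
    unfold DI
    simp
  | insert j s hj ih =>
    rw [sum_insert hj, ← ih, ← DI_add_right]
    congr 1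
    funext l
    rw [sum_insert hj]

lemma DI_bd (a b : ℕ → ℝ) (α β : ℝ) (hα : 0 ≤ α) (hβ : 0 ≤ β) (ha : ∀ l, |a l| ≤ α) (hb : ∀ l, |b l| ≤ β) (h N : ℕ) :
    |DI a b h N| ≤ 2 * (α * β) := by
  rcases Nat.eq_zero_or_pos N with hN | hN
  · rw [hN]
    unfold DI
    simp only [Nat.cast_zero, div_zero, mul_zero, sub_zero, abs_zero]
    positivity
  have hN0 : (0 : ℝ) < N := by exact_mod_cast hN
  have h1 : ∀ (u : ℕ → ℝ) (γ : ℝ), (∀ n, |u n| ≤ γ) → |(∑ n ∈ Icc 1 N, u n) / N| ≤ γ := by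
    intro u γ hu
    rw [abs_div, abs_of_pos hN0, div_le_iff₀ hN0]
    refine (abs_sum_le_sum_abs _ _).trans ((sum_le_sum fun n _ => hu n).trans (le_of_eq ?_))
    rw [sum_const, Nat.card_Icc, nsmul_eq_mul, Nat.add_sub_cancel, mul_comm]
  unfold DI
  refine (abs_sub _ _).trans ?_
  have e1 := h1 (fun n => a (cardFactors n) * b (cardFactors (n + h))) (α * β) (by
    intro n
    rw [abs_mul]
    exact mul_le_mul (ha _) (hb _) (abs_nonneg _) hα)
  have e2 : |((∑ n ∈ Icc 1 N, a (cardFactors n)) / N) * ((∑ n ∈ Icc 1 N, b (cardFactors n)) / N)| ≤ α * β := by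
    rw [abs_mul]
    exact mul_le_mul (h1 (fun n => a (cardFactors n)) α fun n => ha _) (h1 (fun n => b (cardFactors n)) β fun n => hb _)
      (abs_nonneg _) hα
  linarith

/-- the layers of a real sequence -/
noncomputable def lay (m : ℕ) (a : ℕ → ℝ) (s : ℕ) : ℕ → ℤ := fun l => if s < ⌊(m : ℝ) * (1 + a l) / 2⌋₊ then 1 else -1

lemma lay_b (m : ℕ) (a : ℕ → ℝ) (s l : ℕ) : |lay m a s l| ≤ 1 := by
  unfold lay
  split_ifs <;> simp

lemma lay_sum (m : ℕ) (hm : 1 ≤ m) (a : ℕ → ℝ) (ha : ∀ l, |a l| ≤ 1) (l : ℕ) :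
    |a l - 1 / m * ∑ s ∈ range m, (lay m a s l : ℝ)| ≤ 2 / m := by
  have hm0 : (0 : ℝ) < m := by exact_mod_cast hm
  have hal := abs_le.1 (ha l)
  set k := ⌊(m : ℝ) * (1 + a l) / 2⌋₊ with hk
  have hk0 : 0 ≤ (m : ℝ) * (1 + a l) / 2 := by
    have : 0 ≤ 1 + a l := by linarith [hal.1]
    positivity
  have hkle : (k : ℝ) ≤ (m : ℝ) * (1 + a l) / 2 := Nat.floor_le hk0
  have hklt : (m : ℝ) * (1 + a l) / 2 < k + 1 := Nat.lt_floor_add_one _
  have hkm : k ≤ m := by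
    have : (k : ℝ) ≤ m := by nlinarith [hal.2]
    exact_mod_cast this
  have e1 : ∑ s ∈ range m, (lay m a s l : ℝ) = 2 * k - m := by
    have e2 : ∀ s ∈ range m, (lay m a s l : ℝ) = 2 * (if s < k then (1 : ℝ) else 0) - 1 := by
      intro s _
      unfold lay
      rw [← hk]
      split_ifs <;> push_cast <;> ring
    rw [sum_congr rfl e2, sum_sub_distrib, ← mul_sum, ← sum_filter, sum_const, sum_const, card_range]
    have e3 : (range m).filter (fun s => s < k) = range k := by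
      ext s
      simp only [mem_filter, mem_range]
      omega
    rw [e3, card_range]
    simp
  rw [e1]
  have e4 : a l - 1 / (m : ℝ) * (2 * k - m) = (2 / m) * ((m : ℝ) * (1 + a l) / 2 - k) := by
    field_simp
    ring
  rw [e4, abs_mul, abs_of_nonneg (by positivity : (0 : ℝ) ≤ 2 / m)]
  have e5 : |(m : ℝ) * (1 + a l) / 2 - k| ≤ 1 := by
    rw [abs_le]
    constructor <;> linarith
  calc (2 / (m : ℝ)) * |(m : ℝ) * (1 + a l) / 2 - k| ≤ (2 / m) * 1 := mul_le_mul_of_nonneg_left e5 (by positivity)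
    _ = _ := mul_one _

lemma DI_lay (m : ℕ) (hm : 1 ≤ m) (a b : ℕ → ℝ) (ha : ∀ l, |a l| ≤ 1) (hb : ∀ l, |b l| ≤ 1) (h N : ℕ) :
    |DI a b h N| ≤ 8 / m + 1 / m ^ 2 * ∑ s ∈ range m, ∑ t ∈ range m, |DI (rl (lay m a s)) (rl (lay m b t)) h N| := by
  have hm0 : (0 : ℝ) < m := by exact_mod_cast hm
  set a' : ℕ → ℝ := fun l => 1 / m * ∑ s ∈ range m, (lay m a s l : ℝ) with ha'
  set b' : ℕ → ℝ := fun l => 1 / m * ∑ s ∈ range m, (lay m b s l : ℝ) with hb'
  have havg : ∀ c : ℕ → ℝ, ∀ l, |1 / (m : ℝ) * ∑ s ∈ range m, (lay m c s l : ℝ)| ≤ 1 := by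
    intro c l
    rw [abs_mul, abs_of_nonneg (by positivity : (0 : ℝ) ≤ 1 / m), one_div, inv_mul_le_iff₀ hm0, mul_one]
    refine (abs_sum_le_sum_abs _ _).trans ?_
    have : ∀ s ∈ range m, |(lay m c s l : ℝ)| ≤ 1 := fun s _ => by exact_mod_cast lay_b m c s l
    refine (sum_le_sum this).trans (le_of_eq ?_)
    simp
  have e1 : DI a b h N = DI (fun l => a l - a' l) b h N + DI a' b h N := by
    rw [← DI_add_left]
    congr 1
    funext l
    ring
  have e2 : DI a' b h N = DI a' (fun l => b l - b' l) h N + DI a' b' h N := by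
    rw [← DI_add_right]
    congr 1
    funext l
    ring
  have e3 : DI a' b' h N = 1 / m ^ 2 * ∑ s ∈ range m, ∑ t ∈ range m, DI (rl (lay m a s)) (rl (lay m b t)) h N := by
    rw [ha', hb', DI_smul_left, DI_smul_right]
    have e4 : DI (fun l => ∑ s ∈ range m, (lay m a s l : ℝ)) (fun l => ∑ s ∈ range m, (lay m b s l : ℝ)) h N =
        ∑ s ∈ range m, ∑ t ∈ range m, DI (rl (lay m a s)) (rl (lay m b t)) h N := by
      rw [DI_sum_left]
      apply sum_congr rfl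
      intro s _
      rw [DI_sum_right]
      rfl
    rw [e4]
    ring
  have f1 := DI_bd (fun l => a l - a' l) b (2 / m) 1 (by positivity) zero_le_one (fun l => lay_sum m hm a ha l) hb h N
  have f2 := DI_bd a' (fun l => b l - b' l) 1 (2 / m) zero_le_one (by positivity) (fun l => havg a l)
    (fun l => lay_sum m hm b hb l) h N
  have f3 : |DI a' b' h N| ≤ 1 / m ^ 2 * ∑ s ∈ range m, ∑ t ∈ range m, |DI (rl (lay m a s)) (rl (lay m b t)) h N| := by
    rw [e3, abs_mul, abs_of_nonneg (by positivity : (0 : ℝ) ≤ 1 / m ^ 2)]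
    apply mul_le_mul_of_nonneg_left _ (by positivity)
    refine (abs_sum_le_sum_abs _ _).trans (sum_le_sum fun s _ => abs_sum_le_sum_abs _ _)
  rw [e1, e2]
  have g1 := abs_add_le (DI (fun l => a l - a' l) b h N) (DI a' (fun l => b l - b' l) h N + DI a' b' h N)
  have g2 := abs_add_le (DI a' (fun l => b l - b' l) h N) (DI a' b' h N)
  have g3 : (8 : ℝ) / m = 2 * (2 / m * 1) + 2 * (1 * (2 / m)) := by ring
  rw [g3]
  linarith

/-- the main theorem for real sequences -/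
theorem mainR (h : ℕ) (hh : 1 ≤ h) (ε : ℝ) (hε : 0 < ε) : ∃ C : ℝ, 0 ≤ C ∧ ∀ J : ℕ, ∃ y0 : ℕ, ∀ y : ℕ, y0 ≤ y →
    ∀ a b : ℕ → ℝ, (∀ l, |a l| ≤ 1) → (∀ l, |b l| ≤ 1) →
    ∑ i ∈ (Icc 1 J).filter (fun i => ε < |DI a b h (y / 2 ^ i)|), 1 / (i : ℝ) ≤ C := by
  obtain ⟨C, hC, hw⟩ := mainZ h hh (ε / 4) (by positivity)
  obtain ⟨m, hm⟩ := exists_nat_ge (max 1 (16 / ε))
  have hm1R : (1 : ℝ) ≤ m := (le_max_left _ _).trans hm
  have hm2 : 16 / ε ≤ m := (le_max_right _ _).trans hm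
  have hm1 : 1 ≤ m := by exact_mod_cast hm1R
  have hm0 : (0 : ℝ) < m := by linarith
  refine ⟨8 / ε * C, by positivity, fun J => ?_⟩
  obtain ⟨y0, hy0⟩ := hw J
  refine ⟨y0, fun y hy a b ha hb => ?_⟩
  set Bad := (Icc 1 J).filter (fun i => ε < |DI a b h (y / 2 ^ i)|) with hBad
  have key : ∀ i ∈ Bad, 1 ≤ 8 / ε * (1 / m ^ 2 * ∑ s ∈ range m, ∑ t ∈ range m,
      if ε / 4 < |DI (rl (lay m a s)) (rl (lay m b t)) h (y / 2 ^ i)| then (1 : ℝ) else 0) := by
    intro i hi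
    rw [hBad, mem_filter] at hi
    have h1 := DI_lay m hm1 a b ha hb h (y / 2 ^ i)
    have h2 : ∀ s ∈ range m, ∀ t ∈ range m, |DI (rl (lay m a s)) (rl (lay m b t)) h (y / 2 ^ i)| ≤
        ε / 4 + 2 * (if ε / 4 < |DI (rl (lay m a s)) (rl (lay m b t)) h (y / 2 ^ i)| then (1 : ℝ) else 0) := by
      intro s _ t _
      split_ifs with hc
      · have := DI_bd (rl (lay m a s)) (rl (lay m b t)) 1 1 zero_le_one zero_le_one (rl_B0 (lay_b m a s))
          (rl_B0 (lay_b m b t)) h (y / 2 ^ i)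
        linarith
      · rw [not_lt] at hc
        linarith
    have h3 := sum_le_sum fun s hs => sum_le_sum (h2 s hs)
    simp only [sum_add_distrib, sum_const, card_range, nsmul_eq_mul, ← mul_sum] at h3
    set Z := ∑ s ∈ range m, ∑ t ∈ range m,
      if ε / 4 < |DI (rl (lay m a s)) (rl (lay m b t)) h (y / 2 ^ i)| then (1 : ℝ) else 0 with hZ
    have h4 : 1 / (m : ℝ) ^ 2 * ∑ s ∈ range m, ∑ t ∈ range m, |DI (rl (lay m a s)) (rl (lay m b t)) h (y / 2 ^ i)| ≤
        ε / 4 + 2 * (1 / m ^ 2 * Z) := by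
      have := mul_le_mul_of_nonneg_left h3 (by positivity : (0 : ℝ) ≤ 1 / m ^ 2)
      refine this.trans (le_of_eq ?_)
      field_simp
    have h5 : (8 : ℝ) / m ≤ ε / 2 := by
      rw [div_le_iff₀ hε] at hm2
      rw [div_le_iff₀ hm0]
      linarith
    have h6 : ε / 8 ≤ 1 / m ^ 2 * Z := by linarith [hi.2]
    have h7 := mul_le_mul_of_nonneg_left h6 (by positivity : 0 ≤ 8 / ε)
    have h8 : 8 / ε * (ε / 8) = 1 := by field_simp
    linarith
  calc ∑ i ∈ Bad, 1 / (i : ℝ) ≤ ∑ i ∈ Bad, 1 / (i : ℝ) * (8 / ε * (1 / m ^ 2 * ∑ s ∈ range m, ∑ t ∈ range m,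
      if ε / 4 < |DI (rl (lay m a s)) (rl (lay m b t)) h (y / 2 ^ i)| then (1 : ℝ) else 0)) := by
        apply sum_le_sum
        intro i hi
        exact le_mul_of_one_le_right (by positivity) (key i hi)
    _ = 8 / ε * (1 / m ^ 2 * ∑ s ∈ range m, ∑ t ∈ range m, ∑ i ∈ Bad, 1 / (i : ℝ) *
      if ε / 4 < |DI (rl (lay m a s)) (rl (lay m b t)) h (y / 2 ^ i)| then (1 : ℝ) else 0) := by
        have e1 : ∀ i ∈ Bad, 1 / (i : ℝ) * (8 / ε * (1 / m ^ 2 * ∑ s ∈ range m, ∑ t ∈ range m,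
          if ε / 4 < |DI (rl (lay m a s)) (rl (lay m b t)) h (y / 2 ^ i)| then (1 : ℝ) else 0)) =
          8 / ε * (1 / m ^ 2 * ∑ s ∈ range m, ∑ t ∈ range m, 1 / (i : ℝ) *
          if ε / 4 < |DI (rl (lay m a s)) (rl (lay m b t)) h (y / 2 ^ i)| then (1 : ℝ) else 0) := by
          intro i _
          simp only [← mul_sum]
          ring
        rw [sum_congr rfl e1, ← mul_sum, ← mul_sum]
        congr 2
        rw [sum_comm]
        apply sum_congr rfl
        intro s _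
        rw [sum_comm]
    _ ≤ 8 / ε * (1 / m ^ 2 * ∑ s ∈ range m, ∑ t ∈ range m, C) := by
        apply mul_le_mul_of_nonneg_left _ (by positivity)
        apply mul_le_mul_of_nonneg_left _ (by positivity)
        apply sum_le_sum
        intro s _
        apply sum_le_sum
        intro t _
        refine le_trans ?_ (hy0 y hy (lay m a s) (lay m b t) (lay_b m a s) (lay_b m b t))
        simp only [mul_ite, mul_one, mul_zero]
        rw [← sum_filter]
        apply sum_le_sum_of_subset_of_nonneg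
        · intro i hi
          rw [mem_filter, hBad, mem_filter] at hi
          rw [mem_filter]
          exact ⟨hi.1.1, hi.2⟩
        · intro i _ _
          positivity
    _ = 8 / ε * C := by
        simp only [sum_const, card_range, nsmul_eq_mul]
        field_simp

/-- the discrepancy of two complex valued sequences at `N` -/
noncomputable def DC (a b : ℕ → ℂ) (h N : ℕ) : ℂ :=
  (∑ n ∈ Icc 1 N, a (cardFactors n) * b (cardFactors (n + h))) / N -
    ((∑ n ∈ Icc 1 N, a (cardFactors n)) / N) * ((∑ n ∈ Icc 1 N, b (cardFactors n)) / N)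

lemma DC_split (a b : ℕ → ℂ) (h N : ℕ) : DC a b h N =
    ((DI (fun l => (a l).re) (fun l => (b l).re) h N : ℝ) : ℂ) - ((DI (fun l => (a l).im) (fun l => (b l).im) h N : ℝ) : ℂ) +
    (((DI (fun l => (a l).re) (fun l => (b l).im) h N : ℝ) : ℂ) + ((DI (fun l => (a l).im) (fun l => (b l).re) h N : ℝ) : ℂ)) *
      Complex.I := by
  have h1 : ∀ c : ℕ → ℂ, ∀ n, c n = ((c n).re : ℂ) + ((c n).im : ℂ) * Complex.I := fun c n => (Complex.re_add_im _).symm
  unfold DC DI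
  have e1 : ∑ n ∈ Icc 1 N, a (cardFactors n) * b (cardFactors (n + h)) =
      ∑ n ∈ Icc 1 N, ((((a (cardFactors n)).re * (b (cardFactors (n + h))).re : ℝ) : ℂ) -
        (((a (cardFactors n)).im * (b (cardFactors (n + h))).im : ℝ) : ℂ) +
        ((((a (cardFactors n)).re * (b (cardFactors (n + h))).im : ℝ) : ℂ) +
        (((a (cardFactors n)).im * (b (cardFactors (n + h))).re : ℝ) : ℂ)) * Complex.I) := by
    apply sum_congr rfl
    intro n _
    conv_lhs => rw [h1 a, h1 b]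
    push_cast
    linear_combination ((a (cardFactors n)).im : ℂ) * ((b (cardFactors (n + h))).im : ℂ) * Complex.I_sq
  have e2 : ∀ c : ℕ → ℂ, ∑ n ∈ Icc 1 N, c (cardFactors n) = ((∑ n ∈ Icc 1 N, (c (cardFactors n)).re : ℝ) : ℂ) +
      ((∑ n ∈ Icc 1 N, (c (cardFactors n)).im : ℝ) : ℂ) * Complex.I := by
    intro c
    push_cast
    rw [sum_mul, ← sum_add_distrib]
    apply sum_congr rfl
    intro n _
    exact h1 c _
  rw [e1, e2 a, e2 b]
  simp only [sum_add_distrib, sum_sub_distrib, ← sum_mul]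
  push_cast
  set ar := ∑ n ∈ Icc 1 N, ((a (cardFactors n)).re : ℂ)
  set ai := ∑ n ∈ Icc 1 N, ((a (cardFactors n)).im : ℂ)
  set br := ∑ n ∈ Icc 1 N, ((b (cardFactors n)).re : ℂ)
  set bi := ∑ n ∈ Icc 1 N, ((b (cardFactors n)).im : ℂ)
  linear_combination (-(ai / N * (bi / N))) * Complex.I_sq

/-- the main theorem -/
theorem mainC (h : ℕ) (hh : 1 ≤ h) (ε : ℝ) (hε : 0 < ε) : ∃ C : ℝ, ∀ J : ℕ, ∃ y0 : ℕ, ∀ y : ℕ, y0 ≤ y →
    ∀ a b : ℕ → ℂ, (∀ l, ‖a l‖ ≤ 1) → (∀ l, ‖b l‖ ≤ 1) →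
    ∑ i ∈ (Icc 1 J).filter (fun i => ε < ‖DC a b h (y / 2 ^ i)‖), 1 / (i : ℝ) ≤ C := by
  obtain ⟨C, hC, hw⟩ := mainR h hh (ε / 4) (by positivity)
  refine ⟨4 * C, fun J => ?_⟩
  obtain ⟨y0, hy0⟩ := hw J
  refine ⟨y0, fun y hy a b ha hb => ?_⟩
  have har : ∀ l, |(a l).re| ≤ 1 := fun l => (Complex.abs_re_le_norm _).trans (ha l)
  have hai : ∀ l, |(a l).im| ≤ 1 := fun l => (Complex.abs_im_le_norm _).trans (ha l)
  have hbr : ∀ l, |(b l).re| ≤ 1 := fun l => (Complex.abs_re_le_norm _).trans (hb l)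
  have hbi : ∀ l, |(b l).im| ≤ 1 := fun l => (Complex.abs_im_le_norm _).trans (hb l)
  have k1 := hy0 y hy _ _ har hbr
  have k2 := hy0 y hy _ _ hai hbi
  have k3 := hy0 y hy _ _ har hbi
  have k4 := hy0 y hy _ _ hai hbr
  set B1 := (Icc 1 J).filter (fun i => ε / 4 < |DI (fun l => (a l).re) (fun l => (b l).re) h (y / 2 ^ i)|)
  set B2 := (Icc 1 J).filter (fun i => ε / 4 < |DI (fun l => (a l).im) (fun l => (b l).im) h (y / 2 ^ i)|)
  set B3 := (Icc 1 J).filter (fun i => ε / 4 < |DI (fun l => (a l).re) (fun l => (b l).im) h (y / 2 ^ i)|)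
  set B4 := (Icc 1 J).filter (fun i => ε / 4 < |DI (fun l => (a l).im) (fun l => (b l).re) h (y / 2 ^ i)|)
  have hsub : (Icc 1 J).filter (fun i => ε < ‖DC a b h (y / 2 ^ i)‖) ⊆ (B1 ∪ B2) ∪ (B3 ∪ B4) := by
    intro i hi
    rw [mem_filter] at hi
    by_contra hcon
    simp only [mem_union, not_or] at hcon
    obtain ⟨⟨c1, c2⟩, c3, c4⟩ := hcon
    have d1 : |DI (fun l => (a l).re) (fun l => (b l).re) h (y / 2 ^ i)| ≤ ε / 4 := by
      by_contra hh
      exact c1 (mem_filter.2 ⟨hi.1, not_le.1 hh⟩)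
    have d2 : |DI (fun l => (a l).im) (fun l => (b l).im) h (y / 2 ^ i)| ≤ ε / 4 := by
      by_contra hh
      exact c2 (mem_filter.2 ⟨hi.1, not_le.1 hh⟩)
    have d3 : |DI (fun l => (a l).re) (fun l => (b l).im) h (y / 2 ^ i)| ≤ ε / 4 := by
      by_contra hh
      exact c3 (mem_filter.2 ⟨hi.1, not_le.1 hh⟩)
    have d4 : |DI (fun l => (a l).im) (fun l => (b l).re) h (y / 2 ^ i)| ≤ ε / 4 := by
      by_contra hh
      exact c4 (mem_filter.2 ⟨hi.1, not_le.1 hh⟩)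
    have e1 := hi.2
    rw [DC_split] at e1
    refine absurd e1 (not_lt.2 ?_)
    refine (norm_add_le _ _).trans ?_
    rw [norm_mul, Complex.norm_I, mul_one]
    have e2 := norm_sub_le ((DI (fun l => (a l).re) (fun l => (b l).re) h (y / 2 ^ i) : ℝ) : ℂ)
      ((DI (fun l => (a l).im) (fun l => (b l).im) h (y / 2 ^ i) : ℝ) : ℂ)
    have e3 := norm_add_le ((DI (fun l => (a l).re) (fun l => (b l).im) h (y / 2 ^ i) : ℝ) : ℂ)
      ((DI (fun l => (a l).im) (fun l => (b l).re) h (y / 2 ^ i) : ℝ) : ℂ)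
    simp only [Complex.norm_real, Real.norm_eq_abs] at e2 e3
    linarith
  have hnn : ∀ i : ℕ, (0 : ℝ) ≤ 1 / (i : ℝ) := fun i => by positivity
  have hun : ∀ S T : Finset ℕ, ∑ i ∈ S ∪ T, 1 / (i : ℝ) ≤ ∑ i ∈ S, 1 / (i : ℝ) + ∑ i ∈ T, 1 / (i : ℝ) := by
    intro S T
    have := sum_union_inter (s₁ := S) (s₂ := T) (f := fun i : ℕ => 1 / (i : ℝ))
    have h2 : 0 ≤ ∑ i ∈ S ∩ T, 1 / (i : ℝ) := sum_nonneg fun i _ => hnn i
    linarith
  refine (sum_le_sum_of_subset_of_nonneg hsub fun i _ _ => hnn i).trans ?_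
  have u1 := hun (B1 ∪ B2) (B3 ∪ B4)
  have u2 := hun B1 B2
  have u3 := hun B3 B4
  linarith

end Pool.Agent.TH575.OM
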