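import Mathlib
import Pool.Agent.TH575.CW.Eng

/-!
The engine for functions of the number of prime factors: for functions with `F' (p m) = F m`,
`G' (p m) = G m` for all primes `p`, a bound for the average over the primes `p` of the
correlations of `F'`, `G'` with shift `h p`, with main term, gives a bound for the correlations of
`F`, `G` with shift `h` at all but few of the scales `y / 2^i`.
-/

set_option autoImplicit false

namespace Pool.Agent.TH575.OM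

open Finset
open Pool.Agent.TH575.CW

/-- the correlation sum -/
noncomputable def CS (F G : ℕ → ℤ) (t y : ℕ) : ℝ := ∑ n ∈ Icc 1 y, (F n : ℝ) * G (n + t)

/-- `F' (p m) = F m` -/
def Dil (F' F : ℕ → ℤ) : Prop := ∀ p m : ℕ, p.Prime → 1 ≤ m → F' (p * m) = F m

lemma bcast {F : ℕ → ℤ} (hF : ∀ n, |F n| ≤ 1) (n : ℕ) : |(F n : ℝ)| ≤ 1 := by
  have := hF n
  exact_mod_cast this

lemma bprod {F G : ℕ → ℤ} (hF : ∀ n, |F n| ≤ 1) (hG : ∀ n, |G n| ≤ 1) (m n : ℕ) : |(F m : ℝ) * G n| ≤ 1 := by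
  rw [abs_mul]
  exact mul_le_one₀ (bcast hF m) (abs_nonneg _) (bcast hG n)

lemma CS_slow {F G : ℕ → ℤ} (hF : ∀ n, |F n| ≤ 1) (hG : ∀ n, |G n| ≤ 1) (h u v : ℕ) (huv : u ≤ v) :
    |CS F G h v - CS F G h u| ≤ (v : ℝ) - u := by
  unfold CS
  have h1 : Icc 1 v = Icc 1 u ∪ Ioc u v := by
    ext n; simp only [mem_Icc, mem_union, mem_Ioc]; omega
  have h2 : Disjoint (Icc 1 u) (Ioc u v) := by
    rw [disjoint_left]; intro n; simp only [mem_Icc, mem_Ioc]; omega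
  rw [h1, sum_union h2, add_sub_cancel_left]
  refine (abs_sum_le_sum_abs _ _).trans ?_
  refine (sum_le_sum (fun n _ => bprod hF hG n (n + h))).trans ?_
  rw [sum_const, Nat.card_Ioc, nsmul_eq_mul, mul_one, Nat.cast_sub huv]

lemma CS_dil {F' F G' G : ℕ → ℤ} (hF : Dil F' F) (hG : Dil G' G) (h y p : ℕ) (hp : p.Prime) :
    ∑ n ∈ Icc 1 y, (if p ∣ n then (1 : ℝ) else 0) * ((F' n : ℝ) * G' (n + h * p)) = CS F G h (y / p) := by
  rw [sum_mult p y hp.pos]
  unfold CS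
  apply sum_congr rfl
  intro m hm
  rw [mem_Icc] at hm
  have e4 : p * m + h * p = p * (m + h) := by ring
  rw [e4, hF p m hp hm.1, hG p (m + h) hp (by omega)]

section zeta

variable (F G : ℕ → ℤ) (h i N : ℕ) (δ : ℝ)

/-- the alphabet -/
abbrev A2 : Type := SignType × SignType

/-- the sequence -/
noncomputable def sqO (n : ℕ) : A2 := (SignType.sign (F (n % N)), SignType.sign (G (n % N)))

/-- entry of a window -/
def gtO {W : ℕ} (d : Fin W → A2) (k : ℕ) : A2 := if hk : k < W then d ⟨k, hk⟩ else (0, 0)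

/-- the product -/
noncomputable def PhO {W : ℕ} (p : ℕ) (d : Fin W → A2) (j : ℕ) : ℝ :=
  (((gtO d j).1 : ℤ) : ℝ) * (((gtO d (j + h * p)).2 : ℤ) : ℝ)

/-- the indicator function -/
noncomputable def kpO (p : ℕ) : ℝ := if p ∈ PL δ i then 1 else 0

/-- the function of window and residue -/
noncomputable def zeO {W : ℕ} (p : ℕ) (d : Fin W → A2) (r : ℕ) : ℝ :=
  kpO i δ p * ∑ j ∈ range (2 ^ i), if p ∣ r + j then PhO h p d j else 0

/-- the cyclic summand -/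
noncomputable def cyO (p n : ℕ) : ℝ := (F (n % N) : ℝ) * G ((n + h * p) % N)

variable {F G h i N δ}

lemma sqO_per (n : ℕ) : sqO F G N (n + N) = sqO F G N n := by
  unfold sqO
  rw [Nat.add_mod_right n N]

lemma cyO_per (p n : ℕ) : cyO F G h N p (n + N) = cyO F G h N p n := by
  unfold cyO
  have h3 : (n + N + h * p) % N = (n + h * p) % N := by
    have : n + N + h * p = n + h * p + N := by ring
    rw [this, Nat.add_mod_right]
  rw [Nat.add_mod_right n N, h3]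

lemma PhO_abs {W : ℕ} (p : ℕ) (d : Fin W → A2) (j : ℕ) : |PhO h p d j| ≤ 1 := by
  unfold PhO
  rw [abs_mul]
  exact mul_le_one₀ (sg_abs _) (abs_nonneg _) (sg_abs _)

lemma cyO_abs (hF : ∀ n, |F n| ≤ 1) (hG : ∀ n, |G n| ≤ 1) (p n : ℕ) : |cyO F G h N p n| ≤ 1 := bprod hF hG _ _

lemma zeO_abs {W : ℕ} (p : ℕ) (d : Fin W → A2) (r : ℕ) : |zeO h i δ p d r| ≤ 1 := by
  unfold zeO
  by_cases hp : p ∈ PL δ i
  · rw [abs_mul]
    apply mul_le_one₀ _ (abs_nonneg _) (one_mult p _ (PL_lt hp).1 r _ (fun j => PhO_abs p d j))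
    unfold kpO
    rw [if_pos hp, abs_one]
  · unfold kpO
    rw [if_neg hp]
    simp

lemma PhO_win (hF : ∀ n, |F n| ≤ 1) (hG : ∀ n, |G n| ≤ 1) (p n j : ℕ) (hp : p ≤ 2 ^ (i + 1)) (hj : j < 2 ^ i) :
    PhO h p (win ((2 * h + 1) * 2 ^ i) (sqO F G N) n) j = cyO F G h N p (n + j) := by
  have h1 : h * p ≤ h * 2 ^ (i + 1) := Nat.mul_le_mul_left _ hp
  have h2 : (2 * h + 1) * 2 ^ i = h * 2 ^ (i + 1) + 2 ^ i := by rw [pow_succ]; ring
  have h3 : j < (2 * h + 1) * 2 ^ i := by omega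
  have h4 : j + h * p < (2 * h + 1) * 2 ^ i := by omega
  unfold PhO gtO
  rw [dif_pos h3, dif_pos h4]
  unfold win sqO cyO
  simp only
  rw [sg_sign (hF _), sg_sign (hG _)]
  have e1 : n + (j + h * p) = n + j + h * p := by ring
  rw [e1]

/-- the decoupled sum -/
lemma decO (hF : ∀ n, |F n| ≤ 1) (hG : ∀ n, |G n| ≤ 1) (hd : ∀ p ∈ QD i (i + 1), p ∣ N) (ε : ℝ)
    (H : ∑ n ∈ range N, |∑ p ∈ QD i (i + 1), Real.log p / 2 ^ i *
        (zeO h i δ p (win ((2 * h + 1) * 2 ^ i) (sqO F G N) n) (n % p) -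
          (∑ r ∈ range p, zeO h i δ p (win ((2 * h + 1) * 2 ^ i) (sqO F G N) n) r) / p)| ≤
        ε * N) :
    |∑ p ∈ PL δ i, Real.log p * ∑ n ∈ range N, cyO F G h N p n *
      ((if p ∣ n then (1 : ℝ) else 0) - 1 / p)| ≤ ε * N := by
  refine le_trans (le_of_eq ?_) ((abs_sum_le_sum_abs _ _).trans H)
  congr 1
  rw [sum_comm]
  have h1 : ∀ p ∈ QD i (i + 1), ∑ n ∈ range N, Real.log p / 2 ^ i *
        (zeO h i δ p (win ((2 * h + 1) * 2 ^ i) (sqO F G N) n) (n % p) -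
          (∑ r ∈ range p, zeO h i δ p (win ((2 * h + 1) * 2 ^ i) (sqO F G N) n) r) / p) =
      if p ∈ PL δ i then Real.log p * ∑ n ∈ range N, cyO F G h N p n *
      ((if p ∣ n then (1 : ℝ) else 0) - 1 / p) else 0 := by
    intro p hp
    have hpp := QD_prime hp
    have hp2 : p ≤ 2 ^ (i + 1) := by
      unfold QD at hp
      rw [mem_filter, mem_Ioc] at hp
      exact hp.1.2
    have h2 := cyc N p (2 ^ i) (hd p hp) (cyO F G h N p) (cyO_per p)
    have h3 : ∀ n ∈ range N, Real.log p / 2 ^ i *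
        (zeO h i δ p (win ((2 * h + 1) * 2 ^ i) (sqO F G N) n) (n % p) -
          (∑ r ∈ range p, zeO h i δ p (win ((2 * h + 1) * 2 ^ i) (sqO F G N) n) r) / p) =
        Real.log p / 2 ^ i * kpO i δ p * ∑ j ∈ range (2 ^ i), cyO F G h N p (n + j) *
          ((if p ∣ n % p + j then (1 : ℝ) else 0) - 1 / p) := by
      intro n _
      unfold zeO
      rw [← mul_sum, avg_r p _ hpp.pos]
      rw [mul_div_assoc, ← mul_sub, mul_assoc, sum_div, ← sum_sub_distrib]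
      congr 2
      apply sum_congr rfl
      intro j hj
      rw [mem_range] at hj
      rw [PhO_win hF hG p n j hp2 hj]
      split_ifs <;> ring
    rw [sum_congr rfl h3, ← mul_sum, h2]
    unfold kpO
    split_ifs with h4
    · push_cast
      field_simp
    · ring
  rw [sum_congr rfl h1, ← sum_filter]
  apply sum_congr
  · ext p
    unfold PL
    simp only [mem_filter]
    tauto
  · intro _ _
    rfl

end zeta

/-- the bound at a good scale -/
lemma goodO {F' F G' G : ℕ → ℤ} (hF'1 : ∀ n, |F' n| ≤ 1) (hG'1 : ∀ n, |G' n| ≤ 1)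
    (hF1 : ∀ n, |F n| ≤ 1) (hG1 : ∀ n, |G n| ≤ 1) (hF : Dil F' F) (hG : Dil G' G)
    (h i y N M : ℕ) (hN : 1 ≤ N) (hNy : N ≤ y) (hyM : y < N + M) (A : ℝ) (hA : |A| ≤ 1)
    (δ ε' ε1 : ℝ) (hδ : 0 < δ) (hδ1 : δ ≤ 1)
    (hθ : δ / 2 * 2 ^ i ≤ ∑ p ∈ PL δ i, Real.log p) (hε' : 0 ≤ ε')
    (H : |∑ p ∈ PL δ i, Real.log p * ∑ n ∈ range N, cyO F' G' h N p n *
      ((if p ∣ n then (1 : ℝ) else 0) - 1 / p)| ≤ ε' * N)
    (Hav : ∑ p ∈ QD i (i + 1), Real.log p / 2 ^ i *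
      |CS F' G' (h * p) y - A * y| ≤ ε1 * y) :
    |CS F G h (y / 2 ^ i) - A * (y / 2 ^ i)| ≤ (y : ℝ) / 2 ^ i * (2 * (ε' + ε1) / δ + 2 * δ) +
      (2 * (2 * (h * 2 ^ (i + 1)) + 1 + M) + 1) := by
  set θ := ∑ p ∈ PL δ i, Real.log p with hθd
  have h2i : (0 : ℝ) < 2 ^ i := by positivity
  have hθ0 : 0 < θ := lt_of_lt_of_le (by positivity) hθ
  have hy0 : (0 : ℝ) ≤ y := Nat.cast_nonneg y
  set K : ℝ := 2 * (h * 2 ^ (i + 1)) + 1 + M with hK
  -- the decomposition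
  have hdec : ∀ p ∈ PL δ i, ∃ e : ℝ, |e| ≤ 2 * K + 1 + 2 * δ * (y / 2 ^ i) ∧
      CS F G h (y / 2 ^ i) - A * (y / 2 ^ i) = ∑ n ∈ range N, cyO F' G' h N p n *
        ((if p ∣ n then (1 : ℝ) else 0) - 1 / p) +
        (CS F' G' (h * p) y - A * y) / p + e := by
    intro p hp
    obtain ⟨hp1, hp2, hpp⟩ := PL_lt hp
    have hpδ : (p : ℝ) ≤ (1 + δ) * 2 ^ i := (mem_filter.1 hp).2
    have hp0' : (0 : ℝ) < p := by exact_mod_cast hpp.pos
    have hp1' : (2 : ℝ) ^ i < p := by exact_mod_cast hp1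
    have hpos1 : (1 : ℝ) ≤ p := by exact_mod_cast hpp.one_lt.le
    have hpy : y / p ≤ y / 2 ^ i := Nat.div_le_div_left hp1.le (by positivity)
    have k1 := CS_slow hF1 hG1 h (y / p) (y / 2 ^ i) hpy
    have k2 := CS_dil hF hG h y p hpp
    have hcast : ((h * p : ℕ) : ℝ) ≤ h * 2 ^ (i + 1) := by
      have : h * p ≤ h * 2 ^ (i + 1) := Nat.mul_le_mul_left _ hp2
      exact_mod_cast this
    have heq : ∀ n, n + h * p < N → cyO F' G' h N p n = (F' n : ℝ) * G' (n + h * p) := by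
      intro n hn
      unfold cyO
      rw [Nat.mod_eq_of_lt hn, Nat.mod_eq_of_lt (by omega)]
    have k3 := cmp N y M (h * p) hNy hyM (cyO F' G' h N p) (fun n => (F' n : ℝ) * G' (n + h * p))
      (fun n => if p ∣ n then (1 : ℝ) else 0) (cyO_abs hF'1 hG'1 p) (fun n => bprod hF'1 hG'1 _ _)
      (fun n => ite_abs _) heq
    have k4 := cmp N y M (h * p) hNy hyM (cyO F' G' h N p) (fun n => (F' n : ℝ) * G' (n + h * p))
      (fun n => 1) (cyO_abs hF'1 hG'1 p) (fun n => bprod hF'1 hG'1 _ _)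
      (fun n => by simp) heq
    simp only [one_mul] at k4
    set B := ∑ n ∈ Icc 1 y, (if p ∣ n then (1 : ℝ) else 0) * ((F' n : ℝ) * G' (n + h * p)) with hB
    set B' := ∑ n ∈ range N, (if p ∣ n then (1 : ℝ) else 0) * cyO F' G' h N p n with hB'
    have hD : ∑ n ∈ Icc 1 y, (F' n : ℝ) * G' (n + h * p) = CS F' G' (h * p) y := rfl
    rw [hD] at k4
    set D := CS F' G' (h * p) y with hDd
    set D' := ∑ n ∈ range N, cyO F' G' h N p n with hD'
    set T1 := CS F G h (y / p) with hT1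
    set T0 := CS F G h (y / 2 ^ i) with hT0
    have e1 : ∑ n ∈ range N, cyO F' G' h N p n * ((if p ∣ n then (1 : ℝ) else 0) - 1 / p) = B' - D' / p := by
      rw [hB', hD', sum_div, ← sum_sub_distrib]
      apply sum_congr rfl
      intro n _
      ring
    rw [e1]
    refine ⟨T0 - A * (y / 2 ^ i) - ((B' - D' / p) + (D - A * y) / p), ?_, by ring⟩
    have e2 : T0 - A * (y / 2 ^ i) - ((B' - D' / p) + (D - A * y) / p) = (T0 - T1) + (B - B') +
        (D' - D) / p + A * (y / p - y / 2 ^ i) := by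
      rw [← k2]
      field_simp
      ring
    rw [e2]
    have f2 : |B - B'| ≤ K := by
      calc |B - B'| = |B' - B| := abs_sub_comm _ _
        _ ≤ _ := k3
        _ ≤ K := by rw [hK]; push_cast at hcast ⊢; linarith
    have f3 : |(D' - D) / p| ≤ K := by
      rw [abs_div, abs_of_pos hp0']
      have g1 : |D' - D| / p ≤ |D' - D| := div_le_self (abs_nonneg _) hpos1
      calc |D' - D| / p ≤ |D' - D| := g1
        _ ≤ _ := k4
        _ ≤ K := by rw [hK]; push_cast at hcast ⊢; linarith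
    have g3 : (y : ℝ) / ((1 + δ) * 2 ^ i) ≤ y / p := div_le_div_of_nonneg_left hy0 hp0' hpδ
    have g4 : (1 - δ) * (y / 2 ^ i) ≤ (y : ℝ) / ((1 + δ) * 2 ^ i) := by
      rw [le_div_iff₀ (by positivity)]
      have : (1 - δ) * ((y : ℝ) / 2 ^ i) * ((1 + δ) * 2 ^ i) = (1 - δ ^ 2) * y := by
        field_simp
        ring
      rw [this]
      have h9 : 0 ≤ δ ^ 2 * y := by positivity
      have h10 : (1 - δ ^ 2) * (y : ℝ) = y - δ ^ 2 * y := by ring
      rw [h10]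
      linarith
    have g5 : (1 - δ) * ((y : ℝ) / 2 ^ i) = y / 2 ^ i - δ * (y / 2 ^ i) := by ring
    rw [g5] at g4
    have f5 : |T0 - T1| ≤ δ * (y / 2 ^ i) + 1 := by
      refine k1.trans ?_
      have g1 : ((y / 2 ^ i : ℕ) : ℝ) ≤ y / 2 ^ i := by
        calc ((y / 2 ^ i : ℕ) : ℝ) ≤ (y : ℝ) / ((2 ^ i : ℕ) : ℝ) := Nat.cast_div_le
          _ = _ := by push_cast; rfl
      have g2 : (y : ℝ) / p - 1 ≤ ((y / p : ℕ) : ℝ) := by
        have := Nat.lt_div_mul_add (a := y) hpp.pos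
        have g3 : (y : ℝ) < ((y / p : ℕ) : ℝ) * p + p := by exact_mod_cast this
        have g4 : (y : ℝ) / p < ((y / p : ℕ) : ℝ) + 1 := by
          rw [div_lt_iff₀ hp0']
          linarith
        linarith
      linarith
    have f6 : |A * (y / p - y / 2 ^ i)| ≤ δ * (y / 2 ^ i) := by
      rw [abs_mul]
      have g6 : (y : ℝ) / p ≤ y / 2 ^ i := div_le_div_of_nonneg_left hy0 h2i hp1'.le
      have g7 : |(y : ℝ) / p - y / 2 ^ i| ≤ δ * (y / 2 ^ i) := by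
        rw [abs_le]
        have : 0 ≤ δ * ((y : ℝ) / 2 ^ i) := by positivity
        constructor <;> linarith
      calc |A| * |(y : ℝ) / p - y / 2 ^ i| ≤ 1 * (δ * (y / 2 ^ i)) :=
            mul_le_mul hA g7 (abs_nonneg _) zero_le_one
        _ = _ := one_mul _
    have g1 := abs_add_le ((T0 - T1) + (B - B') + (D' - D) / p) (A * (y / p - y / 2 ^ i))
    have g2 := abs_add_le ((T0 - T1) + (B - B')) ((D' - D) / p)
    have g3 := abs_add_le (T0 - T1) (B - B')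
    linarith
  choose! e he1 he2 using hdec
  have hlog : ∀ p ∈ PL δ i, 0 ≤ Real.log p := fun p hp =>
    Real.log_nonneg (by exact_mod_cast (PL_lt hp).2.2.one_lt.le)
  set E0 : ℝ := 2 * K + 1 + 2 * δ * (y / 2 ^ i) with hE0
  set TT := CS F G h (y / 2 ^ i) - A * (y / 2 ^ i) with hTT
  have s1 : θ * TT = ∑ p ∈ PL δ i, Real.log p *
      ∑ n ∈ range N, cyO F' G' h N p n * ((if p ∣ n then (1 : ℝ) else 0) - 1 / p) +
      ∑ p ∈ PL δ i, Real.log p / p * (CS F' G' (h * p) y - A * y) +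
      ∑ p ∈ PL δ i, Real.log p * e p := by
    rw [hθd, sum_mul, ← sum_add_distrib, ← sum_add_distrib]
    apply sum_congr rfl
    intro p hp
    conv_lhs => rw [he2 p hp]
    ring
  have s2 : |∑ p ∈ PL δ i, Real.log p / p * (CS F' G' (h * p) y - A * y)| ≤ ε1 * y := by
    refine (abs_sum_le_sum_abs _ _).trans (le_trans ?_ Hav)
    calc ∑ p ∈ PL δ i, |Real.log p / p * (CS F' G' (h * p) y - A * y)| ≤
        ∑ p ∈ PL δ i, Real.log p / 2 ^ i * |CS F' G' (h * p) y - A * y| := by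
          apply sum_le_sum
          intro p hp
          have hp1' : (2 : ℝ) ^ i < p := by exact_mod_cast (PL_lt hp).1
          have hp0' : (0 : ℝ) < p := h2i.trans hp1'
          rw [abs_mul, abs_div, abs_of_nonneg (hlog p hp), abs_of_pos hp0']
          have a1 : Real.log p / p ≤ Real.log p / 2 ^ i :=
            div_le_div_of_nonneg_left (hlog p hp) h2i hp1'.le
          exact mul_le_mul_of_nonneg_right a1 (abs_nonneg _)
      _ ≤ _ := by
          apply sum_le_sum_of_subset_of_nonneg (filter_subset _ _)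
          intro p hp _
          have : 0 ≤ Real.log p := Real.log_nonneg (by exact_mod_cast (QD_prime hp).one_lt.le)
          positivity
  have s3 : |∑ p ∈ PL δ i, Real.log p * e p| ≤ θ * E0 := by
    refine (abs_sum_le_sum_abs _ _).trans ?_
    rw [hθd, sum_mul]
    apply sum_le_sum
    intro p hp
    rw [abs_mul, abs_of_nonneg (hlog p hp)]
    exact mul_le_mul_of_nonneg_left (he1 p hp) (hlog p hp)
  have s4 : θ * |TT| ≤ (ε' + ε1) * y + θ * E0 := by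
    rw [← abs_of_pos hθ0, ← abs_mul, abs_of_pos hθ0, s1]
    have g1 := abs_add_le (∑ p ∈ PL δ i, Real.log p *
      ∑ n ∈ range N, cyO F' G' h N p n * ((if p ∣ n then (1 : ℝ) else 0) - 1 / p) +
      ∑ p ∈ PL δ i, Real.log p / p * (CS F' G' (h * p) y - A * y))
      (∑ p ∈ PL δ i, Real.log p * e p)
    have g2 := abs_add_le (∑ p ∈ PL δ i, Real.log p *
      ∑ n ∈ range N, cyO F' G' h N p n * ((if p ∣ n then (1 : ℝ) else 0) - 1 / p))
      (∑ p ∈ PL δ i, Real.log p / p * (CS F' G' (h * p) y - A * y))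
    have g3 : ε' * N ≤ ε' * y := mul_le_mul_of_nonneg_left (by exact_mod_cast hNy) hε'
    linarith
  have hε1 : 0 ≤ (ε' + ε1) * y := by
    have a1 : 0 ≤ ∑ p ∈ QD i (i + 1), Real.log p / 2 ^ i * |CS F' G' (h * p) y - A * y| := by
      apply sum_nonneg
      intro p hp
      have : 0 ≤ Real.log p := Real.log_nonneg (by exact_mod_cast (QD_prime hp).one_lt.le)
      positivity
    have a2 : 0 ≤ ε' * y := by positivity
    nlinarith
  have s5 : |TT| ≤ (ε' + ε1) * y / θ + E0 := by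
    have : |TT| = θ * |TT| / θ := by field_simp
    rw [this, ← mul_div_cancel_left₀ E0 hθ0.ne', ← add_div]
    exact div_le_div_of_nonneg_right s4 hθ0.le
  have s6 : (ε' + ε1) * y / θ ≤ (ε' + ε1) * y / (δ / 2 * 2 ^ i) :=
    div_le_div_of_nonneg_left hε1 (by positivity) hθ
  refine s5.trans ?_
  have s7 : (ε' + ε1) * y / (δ / 2 * 2 ^ i) = (y : ℝ) / 2 ^ i * (2 * (ε' + ε1) / δ) := by
    field_simp
  rw [hE0]
  have s8 : (y : ℝ) / 2 ^ i * (2 * (ε' + ε1) / δ + 2 * δ) + (2 * K + 1) =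
      (y : ℝ) / 2 ^ i * (2 * (ε' + ε1) / δ) + (2 * K + 1 + 2 * δ * (y / 2 ^ i)) := by
    ring
  rw [s8]
  linarith

theorem engineO (h : ℕ) (ε : ℝ) (hε : 0 < ε) :
    ∃ (ε1 C : ℝ) (i1 : ℕ), 0 < ε1 ∧ 0 ≤ C ∧ 1 ≤ i1 ∧ ∀ i' : ℕ, i1 ≤ i' → ∀ J : ℕ, ∃ y0 : ℕ,
      ∀ y : ℕ, y0 ≤ y → ∀ F' F G' G : ℕ → ℤ, (∀ n, |F' n| ≤ 1) → (∀ n, |G' n| ≤ 1) →
      (∀ n, |F n| ≤ 1) → (∀ n, |G n| ≤ 1) → Dil F' F → Dil G' G → ∀ A : ℝ, |A| ≤ 1 →
      (∀ i ∈ Icc i' J, ∑ p ∈ QD i (i + 1), Real.log p / 2 ^ i *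
        |CS F' G' (h * p) y - A * y| ≤ ε1 * y) →
      ∑ i ∈ (Icc 1 J).filter (fun i => ε * ((y : ℝ) / 2 ^ i) < |CS F G h (y / 2 ^ i) - A * (y / 2 ^ i)|),
        1 / (i : ℝ) ≤ C + i' := by
  set δ : ℝ := min (ε / 10) 1 with hδ
  have hδ0 : 0 < δ := by rw [hδ]; positivity
  have hδ1 : δ ≤ 1 := min_le_right _ _
  have hδε : δ ≤ ε / 10 := min_le_left _ _
  set ε' : ℝ := ε * δ / 20 with hε'
  have hε'0 : 0 < ε' := by positivity
  obtain ⟨C0, i0, hC0, hi0, hdec⟩ := decouple A2 (2 * h + 1) ε' hε'0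
  obtain ⟨i2, hi2⟩ := pnt_low δ hδ0 hδ1
  set i1 := i0 + i2 with hi1
  refine ⟨ε', C0, i1, hε'0, hC0.le, by omega, fun i' hi' J => ?_⟩
  set M : ℕ := ∏ p ∈ (Icc 1 (2 ^ (J + 1))).filter Nat.Prime, p with hM
  have hM0 : 0 < M := by
    rw [hM]
    exact prod_pos fun p hp => (mem_filter.1 hp).2.pos
  set KJ : ℝ := 2 * (2 * (h * 2 ^ (J + 1)) + 1 + M) + 1 with hKJ
  refine ⟨M + ⌈5 * 2 ^ J * KJ / ε⌉₊, fun y hy F' F G' G hF'1 hG'1 hF1 hG1 hF hG A hA hav => ?_⟩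
  have hyM : M ≤ y := by omega
  have hyK : 5 * 2 ^ J * KJ / ε ≤ y := (Nat.le_ceil _).trans (by exact_mod_cast (by omega : ⌈5 * 2 ^ J * KJ / ε⌉₊ ≤ y))
  set N := M * (y / M) with hN
  have hN1 : 1 ≤ N := by
    rw [hN]
    exact Nat.mul_pos hM0 (Nat.div_pos hyM hM0)
  have hNy : N ≤ y := Nat.mul_div_le y M
  have hyN : y < N + M := by
    rw [hN]
    have := Nat.lt_mul_div_succ y hM0
    rw [Nat.mul_add, mul_one] at this
    exact this
  have hMN : M ∣ N := dvd_mul_right _ _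
  have hd : ∀ p : ℕ, p.Prime → p ≤ 2 ^ (J + 1) → p ∣ N := by
    intro p hp hpJ
    refine dvd_trans ?_ hMN
    rw [hM]
    apply dvd_prod_of_mem (fun p => p)
    rw [mem_filter, mem_Icc]
    exact ⟨⟨hp.one_lt.le, hpJ⟩, hp⟩
  obtain ⟨Bad, hB1, hB2, hB3⟩ := hdec J N hN1 hd (sqO F' G' N) sqO_per
  have hgood : ∀ i ∈ Icc 1 J, i' ≤ i → i ∉ Bad → |CS F G h (y / 2 ^ i) - A * (y / 2 ^ i)| ≤ ε * ((y : ℝ) / 2 ^ i) := by
    intro i hi hii hib
    rw [mem_Icc] at hi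
    have hii0 : i ∈ Icc i0 J := by rw [mem_Icc]; omega
    have h1 := hB3 i hii0 hib (zeO h i δ) (fun p d r => zeO_abs p d r)
    have h2 := decO (F := F') (G := G') (h := h) (i := i) (N := N) (δ := δ)
      hF'1 hG'1 (fun p hp => QD_dvd hd (by omega) hp) ε' h1
    have h3 := goodO hF'1 hG'1 hF1 hG1 hF hG h i y N M hN1 hNy hyN A hA δ ε' ε' hδ0 hδ1
      (hi2 i (by omega)) hε'0.le h2 (hav i (by rw [mem_Icc]; omega))
    have h2i : (0 : ℝ) < 2 ^ i := by positivity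
    have hiJ : (2 : ℝ) ^ i ≤ 2 ^ J := pow_le_pow_right₀ one_le_two hi.2
    have hiJ1 : (2 : ℝ) ^ (i + 1) ≤ 2 ^ (J + 1) := pow_le_pow_right₀ one_le_two (by omega)
    have hyi : (0 : ℝ) ≤ (y : ℝ) / 2 ^ i := by positivity
    have g1 : 2 * (ε' + ε') / δ = ε / 5 := by
      rw [hε']; field_simp; ring
    have g4 : (2 * (2 * (h * 2 ^ (i + 1)) + 1 + M) + 1 : ℝ) ≤ ε / 5 * (y / 2 ^ i) := by
      have g5 : (2 * (2 * (h * 2 ^ (i + 1)) + 1 + M) + 1 : ℝ) ≤ KJ := by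
        rw [hKJ]
        have : (h : ℝ) * 2 ^ (i + 1) ≤ h * 2 ^ (J + 1) := mul_le_mul_of_nonneg_left hiJ1 (Nat.cast_nonneg _)
        linarith
      refine g5.trans ?_
      have hKJ0 : 0 ≤ KJ := by rw [hKJ]; positivity
      rw [div_le_iff₀ hε] at hyK
      rw [mul_div_assoc', le_div_iff₀ h2i]
      have g6 : KJ * 2 ^ i ≤ KJ * 2 ^ J := mul_le_mul_of_nonneg_left hiJ hKJ0
      linarith
    refine h3.trans ?_
    rw [g1]
    have g7 : (y : ℝ) / 2 ^ i * (ε / 5 + 2 * δ) ≤ (y : ℝ) / 2 ^ i * (ε / 5 + ε / 5) :=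
      mul_le_mul_of_nonneg_left (by linarith) hyi
    have g8 : 0 ≤ ε * ((y : ℝ) / 2 ^ i) := by positivity
    have g9 : (y : ℝ) / 2 ^ i * (ε / 5 + ε / 5) + ε / 5 * (y / 2 ^ i) = 3 / 5 * (ε * ((y : ℝ) / 2 ^ i)) := by
      ring
    linarith
  classical
  have hsub : (Icc 1 J).filter (fun i => ε * ((y : ℝ) / 2 ^ i) < |CS F G h (y / 2 ^ i) - A * (y / 2 ^ i)|) ⊆
      Icc 1 i' ∪ Bad := by
    intro i hi
    rw [mem_filter] at hi
    rw [mem_union]
    by_contra hcon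
    push Not at hcon
    have h1 : i' ≤ i := by
      by_contra h2
      apply hcon.1
      rw [mem_Icc]
      have := (mem_Icc.1 hi.1).1
      omega
    have := hgood i hi.1 h1 hcon.2
    linarith [hi.2]
  have hnn : ∀ i : ℕ, (0 : ℝ) ≤ 1 / (i : ℝ) := fun i => by positivity
  calc _ ≤ ∑ i ∈ Icc 1 i' ∪ Bad, 1 / (i : ℝ) := sum_le_sum_of_subset_of_nonneg hsub fun i _ _ => hnn i
    _ ≤ ∑ i ∈ Icc 1 i', 1 / (i : ℝ) + ∑ i ∈ Bad, 1 / (i : ℝ) := by
        have := sum_union_inter (s₁ := Icc 1 i') (s₂ := Bad) (f := fun i : ℕ => 1 / (i : ℝ))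
        have h2 : 0 ≤ ∑ i ∈ Icc 1 i' ∩ Bad, 1 / (i : ℝ) := sum_nonneg fun i _ => hnn i
        linarith
    _ ≤ i' + C0 := by
        apply add_le_add _ hB2
        calc ∑ i ∈ Icc 1 i', 1 / (i : ℝ) ≤ ∑ i ∈ Icc 1 i', (1 : ℝ) := by
              apply sum_le_sum
              intro i hi
              rw [mem_Icc] at hi
              rw [div_le_one (by exact_mod_cast hi.1)]
              exact_mod_cast hi.1
          _ = i' := by simp
    _ = C0 + i' := add_comm _ _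

end Pool.Agent.TH575.OM
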