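import Mathlib
import Pool.Agent.TH575.OM.EngO

/-!
A general form of the engine: real valued functions `T` for which, for the primes `p`, the values
`ω(p) T(m)` are nearly `Φ_p(s(p m), s(p m + h p))`, `s` a sequence of letters of a finite alphabet.
-/

set_option autoImplicit false

namespace Pool.Agent.TH575.OM

open Finset
open Pool.Agent.TH575.CW

section zetaP

variable {A : Type} [Inhabited A]

/-- entry of a window -/
def gtP {W : ℕ} (d : Fin W → A) (k : ℕ) : A := if hk : k < W then d ⟨k, hk⟩ else default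

/-- the function of window and residue -/
noncomputable def zeP (Φ : ℕ → A → A → ℝ) (h i : ℕ) (δ : ℝ) {W : ℕ} (p : ℕ) (d : Fin W → A) (r : ℕ) : ℝ :=
  kpO i δ p * ∑ j ∈ range (2 ^ i), if p ∣ r + j then Φ p (gtP d j) (gtP d (j + h * p)) else 0

/-- the cyclic summand -/
def cyP (s : ℕ → A) (Φ : ℕ → A → A → ℝ) (h N p n : ℕ) : ℝ := Φ p (s (n % N)) (s ((n + h * p) % N))

omit [Inhabited A] in
lemma cyP_per {s : ℕ → A} {Φ : ℕ → A → A → ℝ} {h N : ℕ} (p n : ℕ) : cyP s Φ h N p (n + N) = cyP s Φ h N p n := by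
  unfold cyP
  have h3 : (n + N + h * p) % N = (n + h * p) % N := by
    have : n + N + h * p = n + h * p + N := by ring
    rw [this, Nat.add_mod_right]
  rw [Nat.add_mod_right n N, h3]

lemma zeP_abs {Φ : ℕ → A → A → ℝ} (hΦ : ∀ p x y, |Φ p x y| ≤ 1) {h i : ℕ} {δ : ℝ} {W : ℕ} (p : ℕ) (d : Fin W → A) (r : ℕ) :
    |zeP Φ h i δ p d r| ≤ 1 := by
  unfold zeP
  by_cases hp : p ∈ PL δ i
  · rw [abs_mul]
    apply mul_le_one₀ _ (abs_nonneg _) (one_mult p _ (PL_lt hp).1 r _ (fun j => hΦ p _ _))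
    unfold kpO
    rw [if_pos hp, abs_one]
  · unfold kpO
    rw [if_neg hp]
    simp

lemma PhP_win {s : ℕ → A} {Φ : ℕ → A → A → ℝ} {h i N : ℕ} (p n j : ℕ) (hp : p ≤ 2 ^ (i + 1)) (hj : j < 2 ^ i) :
    Φ p (gtP (win ((2 * h + 1) * 2 ^ i) (fun n => s (n % N)) n) j)
      (gtP (win ((2 * h + 1) * 2 ^ i) (fun n => s (n % N)) n) (j + h * p)) = cyP s Φ h N p (n + j) := by
  have h1 : h * p ≤ h * 2 ^ (i + 1) := Nat.mul_le_mul_left _ hp
  have h2 : (2 * h + 1) * 2 ^ i = h * 2 ^ (i + 1) + 2 ^ i := by rw [pow_succ]; ring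
  have h3 : j < (2 * h + 1) * 2 ^ i := by omega
  have h4 : j + h * p < (2 * h + 1) * 2 ^ i := by omega
  unfold gtP
  rw [dif_pos h3, dif_pos h4]
  unfold win cyP
  simp only
  have e1 : n + (j + h * p) = n + j + h * p := by ring
  rw [e1]

/-- the decoupled sum -/
lemma decP {s : ℕ → A} {Φ : ℕ → A → A → ℝ} {h i N : ℕ} {δ : ℝ} (hd : ∀ p ∈ QD i (i + 1), p ∣ N) (ε : ℝ)
    (H : ∑ n ∈ range N, |∑ p ∈ QD i (i + 1), Real.log p / 2 ^ i *
        (zeP Φ h i δ p (win ((2 * h + 1) * 2 ^ i) (fun n => s (n % N)) n) (n % p) -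
          (∑ r ∈ range p, zeP Φ h i δ p (win ((2 * h + 1) * 2 ^ i) (fun n => s (n % N)) n) r) / p)| ≤
        ε * N) :
    |∑ p ∈ PL δ i, Real.log p * ∑ n ∈ range N, cyP s Φ h N p n *
      ((if p ∣ n then (1 : ℝ) else 0) - 1 / p)| ≤ ε * N := by
  refine le_trans (le_of_eq ?_) ((abs_sum_le_sum_abs _ _).trans H)
  congr 1
  rw [sum_comm]
  have h1 : ∀ p ∈ QD i (i + 1), ∑ n ∈ range N, Real.log p / 2 ^ i *
        (zeP Φ h i δ p (win ((2 * h + 1) * 2 ^ i) (fun n => s (n % N)) n) (n % p) -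
          (∑ r ∈ range p, zeP Φ h i δ p (win ((2 * h + 1) * 2 ^ i) (fun n => s (n % N)) n) r) / p) =
      if p ∈ PL δ i then Real.log p * ∑ n ∈ range N, cyP s Φ h N p n *
      ((if p ∣ n then (1 : ℝ) else 0) - 1 / p) else 0 := by
    intro p hp
    have hpp := QD_prime hp
    have hp2 : p ≤ 2 ^ (i + 1) := by
      unfold QD at hp
      rw [mem_filter, mem_Ioc] at hp
      exact hp.1.2
    have h2 := cyc N p (2 ^ i) (hd p hp) (cyP s Φ h N p) (cyP_per p)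
    have h3 : ∀ n ∈ range N, Real.log p / 2 ^ i *
        (zeP Φ h i δ p (win ((2 * h + 1) * 2 ^ i) (fun n => s (n % N)) n) (n % p) -
          (∑ r ∈ range p, zeP Φ h i δ p (win ((2 * h + 1) * 2 ^ i) (fun n => s (n % N)) n) r) / p) =
        Real.log p / 2 ^ i * kpO i δ p * ∑ j ∈ range (2 ^ i), cyP s Φ h N p (n + j) *
          ((if p ∣ n % p + j then (1 : ℝ) else 0) - 1 / p) := by
      intro n _
      unfold zeP
      rw [← mul_sum, avg_r p _ hpp.pos]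
      rw [mul_div_assoc, ← mul_sub, mul_assoc, sum_div, ← sum_sub_distrib]
      congr 2
      apply sum_congr rfl
      intro j hj
      rw [mem_range] at hj
      rw [PhP_win (s := s) (Φ := Φ) (h := h) (i := i) (N := N) p n j hp2 hj]
      split_ifs <;> ring
    rw [sum_congr rfl h3, ← mul_sum, h2]
    unfold kpO
    split_ifs with h4
    · push_cast
      field_simp
    · ring
  rw [sum_congr rfl h1, ← sum_filter]
  apply sum_congr
  · ext p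
    unfold PL
    simp only [mem_filter]
    tauto
  · intro _ _
    rfl

end zetaP

lemma slowP {T : ℕ → ℝ} (hT : ∀ m, |T m| ≤ 1) (u v : ℕ) (huv : u ≤ v) :
    |∑ m ∈ Icc 1 v, T m - ∑ m ∈ Icc 1 u, T m| ≤ (v : ℝ) - u := by
  have h1 : Icc 1 v = Icc 1 u ∪ Ioc u v := by
    ext n; simp only [mem_Icc, mem_union, mem_Ioc]; omega
  have h2 : Disjoint (Icc 1 u) (Ioc u v) := by
    rw [disjoint_left]; intro n; simp only [mem_Icc, mem_Ioc]; omega
  rw [h1, sum_union h2, add_sub_cancel_left]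
  refine (abs_sum_le_sum_abs _ _).trans ?_
  refine (sum_le_sum (fun n _ => hT n)).trans ?_
  rw [sum_const, Nat.card_Ioc, nsmul_eq_mul, mul_one, Nat.cast_sub huv]

/-- the bound at a good scale -/
lemma goodP {A : Type} {Φ : ℕ → A → A → ℝ} (hΦ : ∀ p x y, |Φ p x y| ≤ 1) {s : ℕ → A} {T : ℕ → ℝ}
    (hT : ∀ m, |T m| ≤ 1) {ω : ℕ → ℝ} (hω0 : ∀ p, 0 ≤ ω p) (hω1 : ∀ p, ω p ≤ 1) (η : ℝ) (hη : 0 ≤ η)
    (h i y N M : ℕ) (hNy : N ≤ y) (hyM : y < N + M) (δ ε' ε1 : ℝ) (hδ : 0 < δ) (hδ1 : δ ≤ 1)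
    (hrel : ∀ p m : ℕ, p.Prime → 2 ^ i < p → 1 ≤ m → ¬ p ∣ m → ¬ p ∣ m + h →
      |Φ p (s (p * m)) (s (p * (m + h))) - ω p * T m| ≤ η)
    (hθ : δ / 2 * 2 ^ i ≤ ∑ p ∈ PL δ i, Real.log p)
    (hθω : ∑ p ∈ PL δ i, Real.log p ≤ 2 * ∑ p ∈ PL δ i, Real.log p * ω p) (hε' : 0 ≤ ε')
    (H : |∑ p ∈ PL δ i, Real.log p * ∑ n ∈ range N, cyP s Φ h N p n *
      ((if p ∣ n then (1 : ℝ) else 0) - 1 / p)| ≤ ε' * N)
    (Hav : ∑ p ∈ QD i (i + 1), Real.log p / 2 ^ i *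
      |∑ n ∈ Icc 1 y, Φ p (s n) (s (n + h * p))| ≤ ε1 * y) :
    |∑ m ∈ Icc 1 (y / 2 ^ i), T m| ≤ (y : ℝ) / 2 ^ i * (4 * (ε' + ε1) / δ + 2 * (δ + η + 4 / 2 ^ i)) +
      2 * (2 * (2 * (h * 2 ^ (i + 1)) + 1 + M) + 1 + 2 * h) := by
  set θ := ∑ p ∈ PL δ i, Real.log p with hθd
  set θw := ∑ p ∈ PL δ i, Real.log p * ω p with hθwd
  have h2i : (0 : ℝ) < 2 ^ i := by positivity
  have hθ0 : 0 < θ := lt_of_lt_of_le (by positivity) hθ
  have hθw0 : 0 < θw := by linarith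
  have hy0 : (0 : ℝ) ≤ y := Nat.cast_nonneg y
  set K : ℝ := 2 * (h * 2 ^ (i + 1)) + 1 + M with hK
  set T0 := ∑ m ∈ Icc 1 (y / 2 ^ i), T m with hT0
  -- the decomposition
  have hdec : ∀ p ∈ PL δ i, ∃ e : ℝ, |e| ≤ 2 * K + 1 + 2 * h + (δ + η + 4 / 2 ^ i) * (y / 2 ^ i) ∧
      ω p * T0 = ∑ n ∈ range N, cyP s Φ h N p n *
        ((if p ∣ n then (1 : ℝ) else 0) - 1 / p) +
        (∑ n ∈ Icc 1 y, Φ p (s n) (s (n + h * p))) / p + e := by
    intro p hp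
    obtain ⟨hp1, hp2, hpp⟩ := PL_lt hp
    have hpδ : (p : ℝ) ≤ (1 + δ) * 2 ^ i := (mem_filter.1 hp).2
    have hp0' : (0 : ℝ) < p := by exact_mod_cast hpp.pos
    have hp1' : (2 : ℝ) ^ i < p := by exact_mod_cast hp1
    have hpos1 : (1 : ℝ) ≤ p := by exact_mod_cast hpp.one_lt.le
    have hpy : y / p ≤ y / 2 ^ i := Nat.div_le_div_left hp1.le (by positivity)
    have hcast : ((h * p : ℕ) : ℝ) ≤ h * 2 ^ (i + 1) := by
      have : h * p ≤ h * 2 ^ (i + 1) := Nat.mul_le_mul_left _ hp2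
      exact_mod_cast this
    have heq : ∀ n, n + h * p < N → cyP s Φ h N p n = Φ p (s n) (s (n + h * p)) := by
      intro n hn
      unfold cyP
      rw [Nat.mod_eq_of_lt hn, Nat.mod_eq_of_lt (by omega)]
    have k3 := cmp N y M (h * p) hNy hyM (cyP s Φ h N p) (fun n => Φ p (s n) (s (n + h * p)))
      (fun n => if p ∣ n then (1 : ℝ) else 0) (fun n => hΦ p _ _) (fun n => hΦ p _ _)
      (fun n => ite_abs _) heq
    have k4 := cmp N y M (h * p) hNy hyM (cyP s Φ h N p) (fun n => Φ p (s n) (s (n + h * p)))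
      (fun n => 1) (fun n => hΦ p _ _) (fun n => hΦ p _ _)
      (fun n => by simp) heq
    simp only [one_mul] at k4
    have k2 := sum_mult p y hpp.pos (fun n => Φ p (s n) (s (n + h * p)))
    set B := ∑ n ∈ Icc 1 y, (if p ∣ n then (1 : ℝ) else 0) * (Φ p (s n) (s (n + h * p))) with hB
    set B' := ∑ n ∈ range N, (if p ∣ n then (1 : ℝ) else 0) * cyP s Φ h N p n with hB'
    set D := ∑ n ∈ Icc 1 y, Φ p (s n) (s (n + h * p)) with hDd
    set D' := ∑ n ∈ range N, cyP s Φ h N p n with hD'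
    set T1 := ∑ m ∈ Icc 1 (y / p), T m with hT1
    have e1 : ∑ n ∈ range N, cyP s Φ h N p n * ((if p ∣ n then (1 : ℝ) else 0) - 1 / p) = B' - D' / p := by
      rw [hB', hD', sum_div, ← sum_sub_distrib]
      apply sum_congr rfl
      intro n _
      ring
    rw [e1]
    refine ⟨ω p * T0 - ((B' - D' / p) + D / p), ?_, by ring⟩
    have e2 : ω p * T0 - ((B' - D' / p) + D / p) = ω p * (T0 - T1) + (ω p * T1 - B) + (B - B') +
        (D' - D) / p := by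
      field_simp
      ring
    rw [e2]
    have g1 : ((y / 2 ^ i : ℕ) : ℝ) ≤ y / 2 ^ i := by
      calc ((y / 2 ^ i : ℕ) : ℝ) ≤ (y : ℝ) / ((2 ^ i : ℕ) : ℝ) := Nat.cast_div_le
        _ = _ := by push_cast; rfl
    have f2 : |B - B'| ≤ K := by
      calc |B - B'| = |B' - B| := abs_sub_comm _ _
        _ ≤ _ := k3
        _ ≤ K := by rw [hK]; push_cast at hcast ⊢; linarith
    have f3 : |(D' - D) / p| ≤ K := by
      rw [abs_div, abs_of_pos hp0']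
      have g1 : |D' - D| / p ≤ |D' - D| := div_le_self (abs_nonneg _) hpos1
      calc |D' - D| / p ≤ |D' - D| := g1
        _ ≤ _ := k4
        _ ≤ K := by rw [hK]; push_cast at hcast ⊢; linarith
    have k1 : |T0 - T1| ≤ ((y / 2 ^ i : ℕ) : ℝ) - ((y / p : ℕ) : ℝ) := by
      rw [hT0, hT1]
      exact slowP hT _ _ hpy
    have f5 : |T0 - T1| ≤ δ * (y / 2 ^ i) + 1 := by
      refine k1.trans ?_
      have g3 : (y : ℝ) / ((1 + δ) * 2 ^ i) ≤ y / p := div_le_div_of_nonneg_left hy0 hp0' hpδ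
      have g4 : (1 - δ) * (y / 2 ^ i) ≤ (y : ℝ) / ((1 + δ) * 2 ^ i) := by
        rw [le_div_iff₀ (by positivity)]
        have : (1 - δ) * ((y : ℝ) / 2 ^ i) * ((1 + δ) * 2 ^ i) = (1 - δ ^ 2) * y := by
          field_simp
          ring
        rw [this]
        have h9 : 0 ≤ δ ^ 2 * y := by positivity
        have h10 : (1 - δ ^ 2) * (y : ℝ) = y - δ ^ 2 * y := by ring
        rw [h10]
        linarith
      have g5 : (1 - δ) * ((y : ℝ) / 2 ^ i) = y / 2 ^ i - δ * (y / 2 ^ i) := by ring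
      rw [g5] at g4
      have g2 : (y : ℝ) / p - 1 ≤ ((y / p : ℕ) : ℝ) := by
        have := Nat.lt_div_mul_add (a := y) hpp.pos
        have g3 : (y : ℝ) < ((y / p : ℕ) : ℝ) * p + p := by exact_mod_cast this
        have g4 : (y : ℝ) / p < ((y / p : ℕ) : ℝ) + 1 := by
          rw [div_lt_iff₀ hp0']
          linarith
        linarith
      linarith
    have f6 : |ω p * (T0 - T1)| ≤ δ * (y / 2 ^ i) + 1 := by
      rw [abs_mul, abs_of_nonneg (hω0 p)]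
      calc ω p * |T0 - T1| ≤ 1 * |T0 - T1| := mul_le_mul_of_nonneg_right (hω1 p) (abs_nonneg _)
        _ = |T0 - T1| := one_mul _
        _ ≤ _ := f5
    have hYp : ((y / p : ℕ) : ℝ) ≤ y / 2 ^ i := le_trans (by exact_mod_cast hpy) g1
    have f7 : |ω p * T1 - B| ≤ η * (y / 2 ^ i) + 4 / 2 ^ i * (y / 2 ^ i) + 2 * h := by
      have e5 : ω p * T1 - B = ∑ m ∈ Icc 1 (y / p), (ω p * T m - Φ p (s (p * m)) (s (p * m + h * p))) := by
        rw [k2, hT1, mul_sum, ← sum_sub_distrib]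
      rw [e5]
      refine (abs_sum_le_sum_abs _ _).trans ?_
      have e6 : ∀ m ∈ Icc 1 (y / p), |ω p * T m - Φ p (s (p * m)) (s (p * m + h * p))| ≤
          η + (if p ∣ m ∨ p ∣ m + h then (2 : ℝ) else 0) := by
        intro m hm
        rw [mem_Icc] at hm
        split_ifs with hc
        · have a1 := abs_sub (ω p * T m) (Φ p (s (p * m)) (s (p * m + h * p)))
          have a2 : |ω p * T m| ≤ 1 := by
            rw [abs_mul, abs_of_nonneg (hω0 p)]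
            exact mul_le_one₀ (hω1 p) (abs_nonneg _) (hT m)
          have a3 := hΦ p (s (p * m)) (s (p * m + h * p))
          linarith
        · push Not at hc
          rw [abs_sub_comm]
          have a1 := hrel p m hpp hp1 hm.1 hc.1 hc.2
          have a2 : p * m + h * p = p * (m + h) := by ring
          rw [a2]
          linarith
      refine (sum_le_sum e6).trans ?_
      rw [sum_add_distrib, sum_const, Nat.card_Icc, nsmul_eq_mul, Nat.add_sub_cancel, ← sum_filter, sum_const, nsmul_eq_mul]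
      have a4 := card_mult p (y / p) h hpp.pos
      have a5 : 2 * ((y / p : ℕ) : ℝ) / p ≤ 2 * (y / 2 ^ i) / 2 ^ i := by
        apply div_le_div₀ (by positivity) (by linarith) h2i hp1'.le
      have a6 : ((y / p : ℕ) : ℝ) * η ≤ y / 2 ^ i * η := mul_le_mul_of_nonneg_right hYp hη
      have a7 : 2 * ((y : ℝ) / 2 ^ i) / 2 ^ i * 2 = 4 / 2 ^ i * (y / 2 ^ i) := by ring
      have a8 : (((Icc 1 (y / p)).filter (fun m => p ∣ m ∨ p ∣ m + h)).card : ℝ) * 2 ≤ (2 * (y / 2 ^ i) / 2 ^ i + h) * 2 :=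
        mul_le_mul_of_nonneg_right (a4.trans (by linarith)) zero_le_two
      linarith
    have g1 := abs_add_le (ω p * (T0 - T1) + (ω p * T1 - B) + (B - B')) ((D' - D) / p)
    have g2 := abs_add_le (ω p * (T0 - T1) + (ω p * T1 - B)) (B - B')
    have g3 := abs_add_le (ω p * (T0 - T1)) (ω p * T1 - B)
    have g4 : (δ + η + 4 / 2 ^ i) * ((y : ℝ) / 2 ^ i) = δ * (y / 2 ^ i) + η * (y / 2 ^ i) + 4 / 2 ^ i * (y / 2 ^ i) := by ring
    rw [g4]
    linarith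
  choose! e he1 he2 using hdec
  have hlog : ∀ p ∈ PL δ i, 0 ≤ Real.log p := fun p hp =>
    Real.log_nonneg (by exact_mod_cast (PL_lt hp).2.2.one_lt.le)
  set E0 : ℝ := 2 * K + 1 + 2 * h + (δ + η + 4 / 2 ^ i) * (y / 2 ^ i) with hE0
  have s1 : θw * T0 = ∑ p ∈ PL δ i, Real.log p *
      ∑ n ∈ range N, cyP s Φ h N p n * ((if p ∣ n then (1 : ℝ) else 0) - 1 / p) +
      ∑ p ∈ PL δ i, Real.log p / p * (∑ n ∈ Icc 1 y, Φ p (s n) (s (n + h * p))) +
      ∑ p ∈ PL δ i, Real.log p * e p := by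
    rw [hθwd, sum_mul, ← sum_add_distrib, ← sum_add_distrib]
    apply sum_congr rfl
    intro p hp
    rw [mul_assoc, he2 p hp]
    ring
  have s2 : |∑ p ∈ PL δ i, Real.log p / p * (∑ n ∈ Icc 1 y, Φ p (s n) (s (n + h * p)))| ≤ ε1 * y := by
    refine (abs_sum_le_sum_abs _ _).trans (le_trans ?_ Hav)
    calc ∑ p ∈ PL δ i, |Real.log p / p * (∑ n ∈ Icc 1 y, Φ p (s n) (s (n + h * p)))| ≤
        ∑ p ∈ PL δ i, Real.log p / 2 ^ i * |∑ n ∈ Icc 1 y, Φ p (s n) (s (n + h * p))| := by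
          apply sum_le_sum
          intro p hp
          have hp1' : (2 : ℝ) ^ i < p := by exact_mod_cast (PL_lt hp).1
          have hp0' : (0 : ℝ) < p := h2i.trans hp1'
          rw [abs_mul, abs_div, abs_of_nonneg (hlog p hp), abs_of_pos hp0']
          have a1 : Real.log p / p ≤ Real.log p / 2 ^ i :=
            div_le_div_of_nonneg_left (hlog p hp) h2i hp1'.le
          exact mul_le_mul_of_nonneg_right a1 (abs_nonneg _)
      _ ≤ _ := by
          apply sum_le_sum_of_subset_of_nonneg (filter_subset _ _)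
          intro p hp _
          have : 0 ≤ Real.log p := Real.log_nonneg (by exact_mod_cast (QD_prime hp).one_lt.le)
          positivity
  have s3 : |∑ p ∈ PL δ i, Real.log p * e p| ≤ θ * E0 := by
    refine (abs_sum_le_sum_abs _ _).trans ?_
    rw [hθd, sum_mul]
    apply sum_le_sum
    intro p hp
    rw [abs_mul, abs_of_nonneg (hlog p hp)]
    exact mul_le_mul_of_nonneg_left (he1 p hp) (hlog p hp)
  have hE00 : 0 ≤ E0 := by
    rw [hE0, hK]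
    positivity
  have s4 : θw * |T0| ≤ (ε' + ε1) * y + 2 * θw * E0 := by
    rw [← abs_of_pos hθw0, ← abs_mul, abs_of_pos hθw0, s1]
    have g1 := abs_add_le (∑ p ∈ PL δ i, Real.log p *
      ∑ n ∈ range N, cyP s Φ h N p n * ((if p ∣ n then (1 : ℝ) else 0) - 1 / p) +
      ∑ p ∈ PL δ i, Real.log p / p * (∑ n ∈ Icc 1 y, Φ p (s n) (s (n + h * p))))
      (∑ p ∈ PL δ i, Real.log p * e p)
    have g2 := abs_add_le (∑ p ∈ PL δ i, Real.log p *
      ∑ n ∈ range N, cyP s Φ h N p n * ((if p ∣ n then (1 : ℝ) else 0) - 1 / p))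
      (∑ p ∈ PL δ i, Real.log p / p * (∑ n ∈ Icc 1 y, Φ p (s n) (s (n + h * p))))
    have g3 : ε' * N ≤ ε' * y := mul_le_mul_of_nonneg_left (by exact_mod_cast hNy) hε'
    have g4 : θ * E0 ≤ 2 * θw * E0 := mul_le_mul_of_nonneg_right hθω hE00
    linarith
  have hε1 : 0 ≤ (ε' + ε1) * y := by
    have a1 : 0 ≤ ∑ p ∈ QD i (i + 1), Real.log p / 2 ^ i * |∑ n ∈ Icc 1 y, Φ p (s n) (s (n + h * p))| := by
      apply sum_nonneg
      intro p hp
      have : 0 ≤ Real.log p := Real.log_nonneg (by exact_mod_cast (QD_prime hp).one_lt.le)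
      positivity
    have a2 : 0 ≤ ε' * y := by positivity
    nlinarith
  have s5 : |T0| ≤ (ε' + ε1) * y / θw + 2 * E0 := by
    have : |T0| = θw * |T0| / θw := by field_simp
    rw [this]
    have h9 : 2 * E0 = 2 * θw * E0 / θw := by field_simp
    rw [h9, ← add_div]
    exact div_le_div_of_nonneg_right s4 hθw0.le
  have s6 : (ε' + ε1) * y / θw ≤ (ε' + ε1) * y / (δ / 4 * 2 ^ i) :=
    div_le_div_of_nonneg_left hε1 (by positivity) (by linarith)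
  refine s5.trans ?_
  have s7 : (ε' + ε1) * y / (δ / 4 * 2 ^ i) = (y : ℝ) / 2 ^ i * (4 * (ε' + ε1) / δ) := by
    field_simp
  rw [hE0]
  have s8 : (y : ℝ) / 2 ^ i * (4 * (ε' + ε1) / δ + 2 * (δ + η + 4 / 2 ^ i)) + 2 * (2 * K + 1 + 2 * h) =
      (y : ℝ) / 2 ^ i * (4 * (ε' + ε1) / δ) + 2 * (2 * K + 1 + 2 * h + (δ + η + 4 / 2 ^ i) * (y / 2 ^ i)) := by
    ring
  rw [s8]
  linarith

theorem engineP (A : Type) [Fintype A] [Inhabited A] (h : ℕ) (ε : ℝ) (hε : 0 < ε) :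
    ∃ (ε1 δ C : ℝ) (i1 : ℕ), 0 < ε1 ∧ 0 < δ ∧ δ ≤ 1 ∧ 0 ≤ C ∧ 1 ≤ i1 ∧ (∀ i, i1 ≤ i → δ / 2 * 2 ^ i ≤ ∑ p ∈ PL δ i, Real.log p) ∧
      ∀ i' : ℕ, i1 ≤ i' → ∀ J : ℕ, ∃ y0 : ℕ,
      ∀ y : ℕ, y0 ≤ y → ∀ (s : ℕ → A) (Φ : ℕ → A → A → ℝ) (T ω : ℕ → ℝ), (∀ p x y, |Φ p x y| ≤ 1) →
      (∀ m, |T m| ≤ 1) → (∀ p, 0 ≤ ω p) → (∀ p, ω p ≤ 1) →
      (∀ p m : ℕ, p.Prime → 2 ^ i' < p → 1 ≤ m → ¬ p ∣ m → ¬ p ∣ m + h →
        |Φ p (s (p * m)) (s (p * (m + h))) - ω p * T m| ≤ ε / 20) →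
      (∀ i ∈ Icc i' J, ∑ p ∈ QD i (i + 1), Real.log p / 2 ^ i *
        |∑ n ∈ Icc 1 y, Φ p (s n) (s (n + h * p))| ≤ ε1 * y) →
      ∑ i ∈ (Icc 1 J).filter (fun i => ε * ((y : ℝ) / 2 ^ i) < |∑ m ∈ Icc 1 (y / 2 ^ i), T m| ∧
        ∑ p ∈ PL δ i, Real.log p ≤ 2 * ∑ p ∈ PL δ i, Real.log p * ω p), 1 / (i : ℝ) ≤ C + i' := by
  set δ : ℝ := min (ε / 40) 1 with hδ
  have hδ0 : 0 < δ := by rw [hδ]; positivity
  have hδ1 : δ ≤ 1 := min_le_right _ _
  have hδε : δ ≤ ε / 40 := min_le_left _ _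
  set ε' : ℝ := ε * δ / 40 with hε'
  have hε'0 : 0 < ε' := by positivity
  obtain ⟨C0, i0, hC0, hi0, hdec⟩ := decouple A (2 * h + 1) ε' hε'0
  obtain ⟨i2, hi2⟩ := pnt_low δ hδ0 hδ1
  obtain ⟨i3, hi3⟩ := pow_unbounded_of_one_lt (80 / ε) (show (1 : ℝ) < 2 by norm_num)
  set i1 := i0 + i2 + i3 with hi1
  refine ⟨ε', δ, C0, i1, hε'0, hδ0, hδ1, hC0.le, by omega, fun i hi => hi2 i (by omega), fun i' hi' J => ?_⟩
  set M : ℕ := ∏ p ∈ (Icc 1 (2 ^ (J + 1))).filter Nat.Prime, p with hM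
  have hM0 : 0 < M := by
    rw [hM]
    exact prod_pos fun p hp => (mem_filter.1 hp).2.pos
  set KJ : ℝ := 2 * (2 * (2 * (h * 2 ^ (J + 1)) + 1 + M) + 1 + 2 * h) with hKJ
  refine ⟨M + ⌈5 * 2 ^ J * KJ / ε⌉₊, fun y hy s Φ T ω hΦ hT hω0 hω1 hrel hav => ?_⟩
  have hyM : M ≤ y := by omega
  have hyK : 5 * 2 ^ J * KJ / ε ≤ y := (Nat.le_ceil _).trans (by exact_mod_cast (by omega : ⌈5 * 2 ^ J * KJ / ε⌉₊ ≤ y))
  set N := M * (y / M) with hN
  have hN1 : 1 ≤ N := by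
    rw [hN]
    exact Nat.mul_pos hM0 (Nat.div_pos hyM hM0)
  have hNy : N ≤ y := Nat.mul_div_le y M
  have hyN : y < N + M := by
    rw [hN]
    have := Nat.lt_mul_div_succ y hM0
    rw [Nat.mul_add, mul_one] at this
    exact this
  have hMN : M ∣ N := dvd_mul_right _ _
  have hd : ∀ p : ℕ, p.Prime → p ≤ 2 ^ (J + 1) → p ∣ N := by
    intro p hp hpJ
    refine dvd_trans ?_ hMN
    rw [hM]
    apply dvd_prod_of_mem (fun p => p)
    rw [mem_filter, mem_Icc]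
    exact ⟨⟨hp.one_lt.le, hpJ⟩, hp⟩
  obtain ⟨Bad, hB1, hB2, hB3⟩ := hdec J N hN1 hd (fun n => s (n % N)) (fun n => by
    rw [Nat.add_mod_right])
  have hgood : ∀ i ∈ Icc 1 J, i' ≤ i → i ∉ Bad → ∑ p ∈ PL δ i, Real.log p ≤ 2 * ∑ p ∈ PL δ i, Real.log p * ω p →
      |∑ m ∈ Icc 1 (y / 2 ^ i), T m| ≤ ε * ((y : ℝ) / 2 ^ i) := by
    intro i hi hii hib hhv
    rw [mem_Icc] at hi
    have hii0 : i ∈ Icc i0 J := by rw [mem_Icc]; omega
    have h1 := hB3 i hii0 hib (zeP Φ h i δ) (fun p d r => zeP_abs hΦ p d r)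
    have h2 := decP (s := s) (Φ := Φ) (h := h) (i := i) (N := N) (δ := δ) (fun p hp => QD_dvd hd (by omega) hp) ε' h1
    have hpow : (2 : ℕ) ^ i' ≤ 2 ^ i := Nat.pow_le_pow_right (by norm_num) hii
    have h3 := goodP hΦ (s := s) hT hω0 hω1 (ε / 20) (by positivity) h i y N M hNy hyN δ ε' ε' hδ0 hδ1
      (fun p m hp hpi hm hm1 hm2 => hrel p m hp (lt_of_le_of_lt hpow hpi) hm hm1 hm2)
      (hi2 i (by omega)) hhv hε'0.le h2 (hav i (by rw [mem_Icc]; omega))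
    have h2i : (0 : ℝ) < 2 ^ i := by positivity
    have hiJ : (2 : ℝ) ^ i ≤ 2 ^ J := pow_le_pow_right₀ one_le_two hi.2
    have hiJ1 : (2 : ℝ) ^ (i + 1) ≤ 2 ^ (J + 1) := pow_le_pow_right₀ one_le_two (by omega)
    have hyi : (0 : ℝ) ≤ (y : ℝ) / 2 ^ i := by positivity
    have g1 : 4 * (ε' + ε') / δ = ε / 5 := by
      rw [hε']; field_simp; ring
    have g3 : 4 / (2 : ℝ) ^ i ≤ ε / 20 := by
      have a1 : (2 : ℝ) ^ i3 ≤ 2 ^ i := pow_le_pow_right₀ one_le_two (by omega)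
      have a2 : 80 / ε < 2 ^ i := lt_of_lt_of_le hi3 a1
      rw [div_lt_iff₀ hε] at a2
      rw [div_le_iff₀ h2i]
      linarith
    have g4 : (2 * (2 * (2 * (h * 2 ^ (i + 1)) + 1 + M) + 1 + 2 * h) : ℝ) ≤ ε / 5 * (y / 2 ^ i) := by
      have g5 : (2 * (2 * (2 * (h * 2 ^ (i + 1)) + 1 + M) + 1 + 2 * h) : ℝ) ≤ KJ := by
        rw [hKJ]
        have : (h : ℝ) * 2 ^ (i + 1) ≤ h * 2 ^ (J + 1) := mul_le_mul_of_nonneg_left hiJ1 (Nat.cast_nonneg _)
        linarith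
      refine g5.trans ?_
      have hKJ0 : 0 ≤ KJ := by rw [hKJ]; positivity
      rw [div_le_iff₀ hε] at hyK
      rw [mul_div_assoc', le_div_iff₀ h2i]
      have g6 : KJ * 2 ^ i ≤ KJ * 2 ^ J := mul_le_mul_of_nonneg_left hiJ hKJ0
      linarith
    refine h3.trans ?_
    rw [g1]
    have g7 : (y : ℝ) / 2 ^ i * (ε / 5 + 2 * (δ + ε / 20 + 4 / 2 ^ i)) ≤ (y : ℝ) / 2 ^ i * (ε / 5 + ε / 4) :=
      mul_le_mul_of_nonneg_left (by linarith) hyi
    have g8 : 0 ≤ ε * ((y : ℝ) / 2 ^ i) := by positivity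
    have g9 : (y : ℝ) / 2 ^ i * (ε / 5 + ε / 4) + ε / 5 * (y / 2 ^ i) = 13 / 20 * (ε * ((y : ℝ) / 2 ^ i)) := by
      ring
    linarith
  classical
  have hsub : (Icc 1 J).filter (fun i => ε * ((y : ℝ) / 2 ^ i) < |∑ m ∈ Icc 1 (y / 2 ^ i), T m| ∧
        ∑ p ∈ PL δ i, Real.log p ≤ 2 * ∑ p ∈ PL δ i, Real.log p * ω p) ⊆
      Icc 1 i' ∪ Bad := by
    intro i hi
    rw [mem_filter] at hi
    rw [mem_union]
    by_contra hcon
    push Not at hcon
    have h1 : i' ≤ i := by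
      by_contra h2
      apply hcon.1
      rw [mem_Icc]
      have := (mem_Icc.1 hi.1).1
      omega
    have := hgood i hi.1 h1 hcon.2 hi.2.2
    linarith [hi.2.1]
  have hnn : ∀ i : ℕ, (0 : ℝ) ≤ 1 / (i : ℝ) := fun i => by positivity
  calc _ ≤ ∑ i ∈ Icc 1 i' ∪ Bad, 1 / (i : ℝ) := sum_le_sum_of_subset_of_nonneg hsub fun i _ _ => hnn i
    _ ≤ ∑ i ∈ Icc 1 i', 1 / (i : ℝ) + ∑ i ∈ Bad, 1 / (i : ℝ) := by
        have := sum_union_inter (s₁ := Icc 1 i') (s₂ := Bad) (f := fun i : ℕ => 1 / (i : ℝ))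
        have h2 : 0 ≤ ∑ i ∈ Icc 1 i' ∩ Bad, 1 / (i : ℝ) := sum_nonneg fun i _ => hnn i
        linarith
    _ ≤ i' + C0 := by
        apply add_le_add _ hB2
        calc ∑ i ∈ Icc 1 i', 1 / (i : ℝ) ≤ ∑ i ∈ Icc 1 i', (1 : ℝ) := by
              apply sum_le_sum
              intro i hi
              rw [mem_Icc] at hi
              rw [div_le_one (by exact_mod_cast hi.1)]
              exact_mod_cast hi.1
          _ = i' := by simp
    _ = C0 + i' := add_comm _ _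

end Pool.Agent.TH575.OM
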