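import Mathlib
import Pool.Agent.TH575.OM.EngP

/-!
The engine for complex valued functions.
-/

set_option autoImplicit false

namespace Pool.Agent.TH575.OM

open Finset
open Pool.Agent.TH575.CW

theorem engineC (A : Type) [Fintype A] [Inhabited A] (h : ℕ) (ε : ℝ) (hε : 0 < ε) :
    ∃ (ε1 δ C : ℝ) (i1 : ℕ), 0 < ε1 ∧ 0 < δ ∧ δ ≤ 1 ∧ 0 ≤ C ∧ 1 ≤ i1 ∧ (∀ i, i1 ≤ i → δ / 2 * 2 ^ i ≤ ∑ p ∈ PL δ i, Real.log p) ∧
      ∀ i' : ℕ, i1 ≤ i' → ∀ J : ℕ, ∃ y0 : ℕ,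
      ∀ y : ℕ, y0 ≤ y → ∀ (s : ℕ → A) (Q : ℕ → A → A → ℂ) (T g : ℕ → ℂ), (∀ p x y, ‖Q p x y‖ ≤ 1) →
      (∀ m, ‖T m‖ ≤ 1) → (∀ n, ‖g n‖ ≤ 1) →
      (∀ p m : ℕ, p.Prime → 2 ^ i' < p → 1 ≤ m → ¬ p ∣ m → ¬ p ∣ m + h →
        ‖(starRingEnd ℂ) (g p) * Q p (s (p * m)) (s (p * (m + h))) - ((‖g p‖ ^ 2 : ℝ) : ℂ) * T m‖ ≤ ε / 40) →
      (∀ i ∈ Icc i' J, ∑ p ∈ QD i (i + 1), Real.log p / 2 ^ i *
        ‖∑ n ∈ Icc 1 y, Q p (s n) (s (n + h * p))‖ ≤ ε1 * y) →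
      ∑ i ∈ (Icc 1 J).filter (fun i => ε * ((y : ℝ) / 2 ^ i) < ‖∑ m ∈ Icc 1 (y / 2 ^ i), T m‖ ∧
        ∑ p ∈ PL δ i, Real.log p ≤ 2 * ∑ p ∈ PL δ i, Real.log p * ‖g p‖ ^ 2), 1 / (i : ℝ) ≤ 2 * (C + i') := by
  obtain ⟨ε1, δ, C, i1, hε1, hδ, hδ1, hC, hi1, hθ, heng⟩ := engineP A h (ε / 2) (by positivity)
  refine ⟨ε1, δ, C, i1, hε1, hδ, hδ1, hC, hi1, hθ, fun i' hi' J => ?_⟩
  obtain ⟨y0, hy0⟩ := heng i' hi' J
  refine ⟨y0, fun y hy s Q T g hQ hT hg hrel hav => ?_⟩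
  have hgc : ∀ p, ‖(starRingEnd ℂ) (g p)‖ ≤ 1 := fun p => by
    rw [RCLike.norm_conj]
    exact hg p
  have hω0 : ∀ p, (0 : ℝ) ≤ ‖g p‖ ^ 2 := fun p => by positivity
  have hω1 : ∀ p, ‖g p‖ ^ 2 ≤ (1 : ℝ) := fun p => pow_le_one₀ (norm_nonneg _) (hg p)
  have hlog : ∀ i, ∀ p ∈ QD i (i + 1), 0 ≤ Real.log p / 2 ^ i := by
    intro i p hp
    have : 0 ≤ Real.log p := Real.log_nonneg (by exact_mod_cast (QD_prime hp).one_lt.le)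
    positivity
  have hcq : ∀ p x y, ‖(starRingEnd ℂ) (g p) * Q p x y‖ ≤ 1 := fun p x y => by
    rw [norm_mul]
    exact mul_le_one₀ (hgc p) (norm_nonneg _) (hQ p x y)
  have hsum : ∀ p, ‖∑ n ∈ Icc 1 y, (starRingEnd ℂ) (g p) * Q p (s n) (s (n + h * p))‖ ≤
      ‖∑ n ∈ Icc 1 y, Q p (s n) (s (n + h * p))‖ := by
    intro p
    rw [← mul_sum, norm_mul]
    exact mul_le_of_le_one_left (norm_nonneg _) (hgc p)
  have r1 := hy0 y hy s (fun p x y => ((starRingEnd ℂ) (g p) * Q p x y).re) (fun m => (T m).re) (fun p => ‖g p‖ ^ 2)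
    (fun p x y => (Complex.abs_re_le_norm _).trans (hcq p x y))
    (fun m => (Complex.abs_re_le_norm _).trans (hT m)) hω0 hω1
    (fun p m hp hpi hm hm1 hm2 => by
      have h1 := hrel p m hp hpi hm hm1 hm2
      have h2 := Complex.abs_re_le_norm ((starRingEnd ℂ) (g p) * Q p (s (p * m)) (s (p * (m + h))) - ((‖g p‖ ^ 2 : ℝ) : ℂ) * T m)
      rw [Complex.sub_re, Complex.re_ofReal_mul] at h2
      linarith)
    (fun i hi => by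
      refine le_trans (sum_le_sum fun p hp => ?_) (hav i hi)
      apply mul_le_mul_of_nonneg_left _ (hlog i p hp)
      refine le_trans ?_ (hsum p)
      have h3 := Complex.abs_re_le_norm (∑ n ∈ Icc 1 y, (starRingEnd ℂ) (g p) * Q p (s n) (s (n + h * p)))
      rw [Complex.re_sum] at h3
      exact h3)
  have r2 := hy0 y hy s (fun p x y => ((starRingEnd ℂ) (g p) * Q p x y).im) (fun m => (T m).im) (fun p => ‖g p‖ ^ 2)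
    (fun p x y => (Complex.abs_im_le_norm _).trans (hcq p x y))
    (fun m => (Complex.abs_im_le_norm _).trans (hT m)) hω0 hω1
    (fun p m hp hpi hm hm1 hm2 => by
      have h1 := hrel p m hp hpi hm hm1 hm2
      have h2 := Complex.abs_im_le_norm ((starRingEnd ℂ) (g p) * Q p (s (p * m)) (s (p * (m + h))) - ((‖g p‖ ^ 2 : ℝ) : ℂ) * T m)
      rw [Complex.sub_im, Complex.im_ofReal_mul] at h2
      linarith)
    (fun i hi => by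
      refine le_trans (sum_le_sum fun p hp => ?_) (hav i hi)
      apply mul_le_mul_of_nonneg_left _ (hlog i p hp)
      refine le_trans ?_ (hsum p)
      have h3 := Complex.abs_im_le_norm (∑ n ∈ Icc 1 y, (starRingEnd ℂ) (g p) * Q p (s n) (s (n + h * p)))
      rw [Complex.im_sum] at h3
      exact h3)
  set B1 := (Icc 1 J).filter (fun i => ε / 2 * ((y : ℝ) / 2 ^ i) < |∑ m ∈ Icc 1 (y / 2 ^ i), (T m).re| ∧
        ∑ p ∈ PL δ i, Real.log p ≤ 2 * ∑ p ∈ PL δ i, Real.log p * ‖g p‖ ^ 2) with hB1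
  set B2 := (Icc 1 J).filter (fun i => ε / 2 * ((y : ℝ) / 2 ^ i) < |∑ m ∈ Icc 1 (y / 2 ^ i), (T m).im| ∧
        ∑ p ∈ PL δ i, Real.log p ≤ 2 * ∑ p ∈ PL δ i, Real.log p * ‖g p‖ ^ 2) with hB2
  have hsub : (Icc 1 J).filter (fun i => ε * ((y : ℝ) / 2 ^ i) < ‖∑ m ∈ Icc 1 (y / 2 ^ i), T m‖ ∧
        ∑ p ∈ PL δ i, Real.log p ≤ 2 * ∑ p ∈ PL δ i, Real.log p * ‖g p‖ ^ 2) ⊆ B1 ∪ B2 := by
    intro i hi
    rw [mem_filter] at hi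
    by_contra hcon
    rw [mem_union, not_or] at hcon
    have d1 : |∑ m ∈ Icc 1 (y / 2 ^ i), (T m).re| ≤ ε / 2 * ((y : ℝ) / 2 ^ i) := by
      by_contra hh
      exact hcon.1 (mem_filter.2 ⟨hi.1, not_le.1 hh, hi.2.2⟩)
    have d2 : |∑ m ∈ Icc 1 (y / 2 ^ i), (T m).im| ≤ ε / 2 * ((y : ℝ) / 2 ^ i) := by
      by_contra hh
      exact hcon.2 (mem_filter.2 ⟨hi.1, not_le.1 hh, hi.2.2⟩)
    have d3 := Complex.norm_le_abs_re_add_abs_im (∑ m ∈ Icc 1 (y / 2 ^ i), T m)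
    rw [Complex.re_sum, Complex.im_sum] at d3
    have := hi.2.1
    linarith
  have hnn : ∀ i : ℕ, (0 : ℝ) ≤ 1 / (i : ℝ) := fun i => by positivity
  refine (sum_le_sum_of_subset_of_nonneg hsub fun i _ _ => hnn i).trans ?_
  have := sum_union_inter (s₁ := B1) (s₂ := B2) (f := fun i : ℕ => 1 / (i : ℝ))
  have h2 : 0 ≤ ∑ i ∈ B1 ∩ B2, 1 / (i : ℝ) := sum_nonneg fun i _ => hnn i
  linarith

/-- a finite net of the unit disc -/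
lemma net (η : ℝ) (hη : 0 < η) : ∃ S : Finset ℂ, S.Nonempty ∧ (∀ x ∈ S, ‖x‖ ≤ 1) ∧
    ∀ z : ℂ, ‖z‖ ≤ 1 → ∃ x ∈ S, ‖x - z‖ ≤ η := by
  obtain ⟨t, ht1, ht2, ht3⟩ := (isCompact_closedBall (0 : ℂ) 1).finite_cover_balls hη
  have h4 : ∀ z : ℂ, ‖z‖ ≤ 1 → ∃ x ∈ ht2.toFinset, ‖x - z‖ ≤ η := by
    intro z hz
    have h5 := ht3 (show z ∈ Metric.closedBall (0 : ℂ) 1 by simpa using hz)
    simp only [Set.mem_iUnion] at h5
    obtain ⟨x, hx, hzx⟩ := h5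
    refine ⟨x, ht2.mem_toFinset.2 hx, ?_⟩
    rw [Metric.mem_ball, dist_comm, dist_eq_norm] at hzx
    exact hzx.le
  refine ⟨ht2.toFinset, ?_, ?_, h4⟩
  · obtain ⟨x, hx, _⟩ := h4 0 (by simp)
    exact ⟨x, hx⟩
  · intro x hx
    have := ht1 (ht2.mem_toFinset.1 hx)
    simpa using this

end Pool.Agent.TH575.OM
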