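import Pool.Agent.TH823.MRS.Scale

/-! Correlations with slowly varying functions, uniformly in the function (after TH823/MRS/Scale). -/

set_option autoImplicit false

namespace Pool.Agent.TH575.OM
open Finset Pool.Agent.H376R2.MR Pool.Agent.H970R2.X Pool.Agent.TH823.MRS

/-- the Dirichlet polynomial of a function -/
noncomputable def GC (g : ℕ → ℂ) (Y : ℝ) (k : ℤ) : ℂ := DP (WN Y) (fun n => g n * (bw Y n : ℂ)) k

/-- one scale -/
lemma scaleC (h : ℝ) (hh : 1 ≤ h) (ε : ℝ) (hε : 0 < ε) (A : ℝ) (hA : 0 ≤ A) :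
    ∃ H₀ Y₀ : ℝ, ∀ Y : ℝ, Y₀ ≤ Y → ∀ g : ℕ → ℂ, (∀ n, ‖g n‖ ≤ 1) →
      ∑ k ∈ FK ⌊Y / h⌋₊, ‖GC g Y k‖ ^ 2 ≤ (ε / 4) ^ 2 → ∀ H : ℝ, H₀ ≤ H → ∀ T : ℕ → ℂ,
      (∀ n : ℕ, (n : ℝ) ≤ 24 * Y → ‖T n‖ ≤ H) →
      (∀ n m : ℕ, (n : ℝ) ≤ 24 * Y → (m : ℝ) ≤ 24 * Y → ‖T n - T m‖ ≤ A * |(n : ℝ) - m|) →
      ‖∑ n ∈ WN Y, ((g n : ℂ) * (bw Y n : ℂ)) * T n‖ ≤ ε * H := by
  obtain ⟨D, hDd⟩ : ∃ D : ℕ, D = ⌈1088 / ε⌉₊ + 2 := ⟨_, rfl⟩
  have hD2 : 2 ≤ D := by omega
  have hD0 : (0 : ℝ) < D := by exact_mod_cast (by omega : 0 < D)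
  have hDε : 1088 / ε ≤ D := by
    rw [hDd]
    push_cast
    have := Nat.le_ceil (1088 / ε)
    linarith
  refine ⟨8 * (A * (35 * h * (D + 1) + 1)) * 4 / ε, max 0 (h * (4 * (D + 1) + 1)), fun Y hY g hb h1 H hH T hT hT2 => ?_⟩
  have hY2 : h * (4 * (D + 1) + 1) ≤ Y := (le_max_right _ _).trans hY
  have hh0 : 0 < h := by linarith
  have hYh : 4 * ((D : ℝ) + 1) + 1 ≤ Y / h := by
    rw [le_div_iff₀ hh0]; linarith
  have hYh0 : 0 ≤ Y / h := by
    have : (0 : ℝ) ≤ 4 * ((D : ℝ) + 1) + 1 := by positivity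
    linarith
  obtain ⟨K, hK⟩ : ∃ K, K = ⌊Y / h⌋₊ := ⟨_, rfl⟩
  have hKle : (K : ℝ) ≤ Y / h := by rw [hK]; exact Nat.floor_le hYh0
  have hKlt : Y / h < K + 1 := by rw [hK]; exact Nat.lt_floor_add_one _
  have hK4 : 4 * ((D : ℝ) + 1) ≤ K := by linarith
  have hK1 : 1 ≤ K := by
    have : (1 : ℝ) ≤ K := by linarith
    exact_mod_cast this
  have hK1r : (1 : ℝ) ≤ K := by exact_mod_cast hK1
  have hKY : Y ≤ 2 * h * K := by
    rw [div_lt_iff₀ hh0] at hKlt
    nlinarith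
  have hY1' : 1 ≤ Y := by
    have : (1 : ℝ) ≤ h * (4 * (D + 1) + 1) := by nlinarith
    linarith
  have hH0 : 0 ≤ H := (norm_nonneg _).trans (hT 0 (by push_cast; linarith))
  have h2 := h1
  rw [← hK] at h2
  obtain ⟨S, hS⟩ : ∃ S : ℕ → ℂ, S = fun n : ℕ => (1 / (2 * K : ℕ) : ℂ) * ∑ j ∈ range (2 * K),
      T ⌊Real.exp (pt (Real.log Y - Real.pi) (2 * K) j)⌋₊ * (Fj K (Real.log n - pt (Real.log Y - Real.pi) (2 * K) j) : ℂ) := ⟨_, rfl⟩
  have hsplit : ∑ n ∈ WN Y, ((g n : ℂ) * (bw Y n : ℂ)) * T n =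
      ∑ n ∈ WN Y, ((g n : ℂ) * (bw Y n : ℂ)) * S n + ∑ n ∈ WN Y, ((g n : ℂ) * (bw Y n : ℂ)) * (T n - S n) := by
    rw [← sum_add_distrib]
    apply sum_congr rfl
    intro n _
    ring
  rw [hsplit]
  refine (norm_add_le _ _).trans ?_
  -- main term
  have hTj : ∀ j < 2 * K, ‖T ⌊Real.exp (pt (Real.log Y - Real.pi) (2 * K) j)⌋₊‖ ≤ H := by
    intro j hj
    apply hT
    refine (Nat.floor_le (Real.exp_pos _).le).trans ?_
    have hjK : (j : ℝ) ≤ 2 * K := by exact_mod_cast hj.le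
    have hK0 : (0 : ℝ) < K := by linarith
    have hpi := Real.pi_gt_three
    have hpi2 := Real.pi_lt_d2
    have hY0 : 0 < Y := by linarith
    have e1 : pt (Real.log Y - Real.pi) (2 * K) j ≤ Real.log Y + Real.pi := by
      unfold pt
      have : 2 * Real.pi * j / ((2 * K : ℕ) : ℝ) ≤ 2 * Real.pi := by
        push_cast
        rw [div_le_iff₀ (by positivity)]
        nlinarith
      linarith
    have e2 : Real.exp (pt (Real.log Y - Real.pi) (2 * K) j) ≤ Y * Real.exp Real.pi := by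
      refine (Real.exp_le_exp.2 e1).trans ?_
      rw [Real.exp_add, Real.exp_log hY0]
    have e3 : Real.exp Real.pi ≤ 24 := by
      have he := Real.exp_one_lt_d9
      have e4 : Real.exp Real.pi ≤ Real.exp (3.15) := Real.exp_le_exp.2 hpi2.le
      have e5 : Real.exp 3.15 = Real.exp 1 ^ 3 * Real.exp 0.15 := by
        rw [← Real.exp_nat_mul, ← Real.exp_add]
        norm_num
      have e6 : Real.exp 0.15 ≤ 1.1765 := by
        have := Real.exp_bound_div_one_sub_of_interval (x := 0.15) (by norm_num) (by norm_num)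
        refine this.trans ?_
        norm_num
      have e7 : Real.exp 1 ^ 3 ≤ 20.0856 := by
        have : Real.exp 1 ^ 3 ≤ 2.7182818286 ^ 3 := pow_le_pow_left₀ (Real.exp_pos _).le he.le 3
        refine this.trans ?_
        norm_num
      calc Real.exp Real.pi ≤ Real.exp 1 ^ 3 * Real.exp 0.15 := by rw [← e5]; exact e4
        _ ≤ 20.0856 * 1.1765 := mul_le_mul e7 e6 (Real.exp_pos _).le (by norm_num)
        _ ≤ 24 := by norm_num
    calc Real.exp (pt (Real.log Y - Real.pi) (2 * K) j) ≤ Y * Real.exp Real.pi := e2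
      _ ≤ Y * 24 := mul_le_mul_of_nonneg_left e3 hY0.le
      _ = _ := by ring
  have m1 : ‖∑ n ∈ WN Y, ((g n : ℂ) * (bw Y n : ℂ)) * S n‖ ≤ H * (ε / 4) := by
    rw [hS]
    refine (main_bound K hK1 (Real.log Y - Real.pi) (WN Y) (fun n => (g n : ℂ) * (bw Y n : ℂ))
      (fun j => T ⌊Real.exp (pt (Real.log Y - Real.pi) (2 * K) j)⌋₊) H hTj).trans ?_
    apply mul_le_mul_of_nonneg_left _ hH0
    rw [Real.sqrt_le_left (by positivity)]
    exact h2
  -- error term
  have m2 : ‖∑ n ∈ WN Y, ((g n : ℂ) * (bw Y n : ℂ)) * (T n - S n)‖ ≤ 8 * (A * (35 * h * (D + 1) + 1) + 34 * H / D) := by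
    have e1 : ∀ n ∈ WN Y, ‖((g n : ℂ) * (bw Y n : ℂ)) * (T n - S n)‖ ≤ bw Y n * (A * (35 * h * (D + 1) + 1) + 34 * H / D) := by
      intro n hn
      have hbn := loc_bw_nonneg Y n
      rw [norm_mul, norm_mul, Complex.norm_real, Real.norm_of_nonneg hbn]
      rcases eq_or_ne (bw Y n) 0 with h0 | h0
      · rw [h0]; simp
      have hlog := loc_bw_ne h0
      have hn1 : 1 ≤ n := by
        unfold WN at hn
        rw [mem_Icc] at hn
        exact hn.1
      have e2 := interp_point K hK1 D hD2 Y h hh hY1' hKY hK4 A H hA T hT hT2 n hn1 hlog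
      have e3 : T n - S n = T n - (1 / (2 * K : ℕ) : ℂ) * ∑ j ∈ range (2 * K),
        T ⌊Real.exp (pt (Real.log Y - Real.pi) (2 * K) j)⌋₊ * (Fj K (Real.log n - pt (Real.log Y - Real.pi) (2 * K) j) : ℂ) := by
        rw [hS]
      rw [← e3] at e2
      have e4 : ‖(g n : ℂ)‖ ≤ 1 := hb n
      calc ‖(g n : ℂ)‖ * bw Y n * ‖T n - S n‖ ≤ 1 * bw Y n * (A * (35 * h * (D + 1) + 1) + 34 * H / D) := by
            apply mul_le_mul _ e2 (norm_nonneg _) (by positivity)
            exact mul_le_mul_of_nonneg_right e4 hbn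
        _ = _ := by ring
    refine (norm_sum_le _ _).trans ((sum_le_sum e1).trans ?_)
    rw [← sum_mul]
    apply mul_le_mul_of_nonneg_right (bw_sum hY1')
    positivity
  have m3 : 8 * (A * (35 * h * (D + 1) + 1)) ≤ ε / 4 * H := by
    rw [div_le_iff₀ hε] at hH
    linarith
  have m4 : 8 * (34 * H / D) ≤ ε / 4 * H := by
    rw [div_le_iff₀ hε] at hDε
    rw [mul_div_assoc', div_le_iff₀ hD0]
    nlinarith
  nlinarith

/-- correlations with slowly varying functions -/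
theorem nat_sumC (ε : ℝ) (hε : 0 < ε) :
    ∃ δ' η : ℝ, 0 < δ' ∧ 0 < η ∧ ∀ h : ℝ, 1 ≤ h → ∀ A : ℝ, 0 ≤ A →
    ∃ H₀ : ℝ, ∃ X₀ : ℕ, ∀ X : ℕ, X₀ ≤ X → ∀ g : ℕ → ℂ, (∀ n, ‖g n‖ ≤ 1) →
      (∀ Y : ℝ, δ' * X ≤ Y → Y ≤ 9 * X → ∑ k ∈ FK ⌊Y / h⌋₊, ‖GC g Y k‖ ^ 2 ≤ η) → ∀ H : ℝ, H₀ ≤ H → H ≤ X → ∀ T : ℕ → ℂ,
      (∀ n : ℕ, ‖T n‖ ≤ H) → (∀ n m : ℕ, ‖T n - T m‖ ≤ A * |(n : ℝ) - m|) → (∀ n : ℕ, 3 * X < n → T n = 0) →
      ‖∑ n ∈ Icc 1 (3 * X), (g n : ℂ) * T n‖ ≤ ε * H * X := by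
  -- parameters
  obtain ⟨δ, hδ⟩ : ∃ δ : ℝ, δ = min (ε / 2) 1 := ⟨_, rfl⟩
  have hδ0 : 0 < δ := by rw [hδ]; exact lt_min (by linarith) one_pos
  have hδε : δ ≤ ε / 2 := by rw [hδ]; exact min_le_left _ _
  have hδ1 : δ ≤ 1 := by rw [hδ]; exact min_le_right _ _
  obtain ⟨M, hM⟩ : ∃ M : ℝ, M = Real.log (3 / δ) + 4 := ⟨_, rfl⟩
  have hM0 : 4 ≤ M := by
    rw [hM]
    have : 0 ≤ Real.log (3 / δ) := Real.log_nonneg (by rw [le_div_iff₀ hδ0]; linarith)
    linarith
  obtain ⟨ε₁, hε₁⟩ : ∃ ε₁ : ℝ, ε₁ = ε / (2 * (M * (9 * 24))) := ⟨_, rfl⟩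
  have hε₁0 : 0 < ε₁ := by rw [hε₁]; positivity
  refine ⟨δ / 3, (ε₁ / 4) ^ 2, by positivity, by positivity, fun h hh A hA => ?_⟩
  obtain ⟨H₀, Y₀, hsc⟩ := scaleC h hh ε₁ hε₁0 (3 / δ + 24 * A) (by positivity)
  refine ⟨max H₀ 0, ⌈3 * (|Y₀| + 1) / δ⌉₊ + 1, fun X hX g hb hm H hH hHX T hT hT2 hT3 => ?_⟩
  have hH0 : H₀ ≤ H := (le_max_left _ _).trans hH
  have hH00 : 0 ≤ H := (le_max_right _ _).trans hH
  have hXr : 3 * (|Y₀| + 1) / δ ≤ X := (Nat.le_ceil _).trans (by exact_mod_cast (by omega : ⌈3 * (|Y₀| + 1) / δ⌉₊ ≤ X))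
  have hδX : 3 * (|Y₀| + 1) ≤ δ * X := by
    rw [div_le_iff₀ hδ0] at hXr
    linarith
  have hY₀abs := le_abs_self Y₀
  have habs := abs_nonneg Y₀
  have hX1 : 1 ≤ X := by omega
  have hX0 : (0 : ℝ) < X := by exact_mod_cast hX1
  have he := Real.exp_one_lt_d9
  have he2 := Real.exp_one_gt_d9
  have hδX1 : 3 ≤ δ * X := by nlinarith
  -- the range of the scales
  obtain ⟨i0, hi0⟩ : ∃ i0, i0 = ⌊Real.log (δ * X)⌋₊ := ⟨_, rfl⟩
  have hlogδX : 0 ≤ Real.log (δ * X) := Real.log_nonneg (by linarith)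
  have hi0le : (i0 : ℝ) ≤ Real.log (δ * X) := by rw [hi0]; exact Nat.floor_le hlogδX
  have hi0lt : Real.log (δ * X) < i0 + 1 := by rw [hi0]; exact Nat.lt_floor_add_one _
  have hei0 : Real.exp i0 ≤ δ * X := by
    calc Real.exp i0 ≤ Real.exp (Real.log (δ * X)) := Real.exp_le_exp.2 hi0le
      _ = δ * X := Real.exp_log (by linarith)
  have hei0' : δ * X / 3 ≤ Real.exp i0 := by
    have e1 : δ * X ≤ Real.exp (i0 + 1) := by
      calc δ * X = Real.exp (Real.log (δ * X)) := (Real.exp_log (by linarith)).symm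
        _ ≤ _ := Real.exp_le_exp.2 hi0lt.le
    rw [Real.exp_add] at e1
    have := Real.exp_pos (i0 : ℝ)
    nlinarith
  obtain ⟨I, hI⟩ : ∃ I, I = ⌈Real.log (3 * X)⌉₊ := ⟨_, rfl⟩
  have hlog3X : 0 ≤ Real.log (3 * X) := Real.log_nonneg (by
    have : (1 : ℝ) ≤ X := by exact_mod_cast hX1
    linarith)
  have hIle : Real.log (3 * X) ≤ I := by rw [hI]; exact Nat.le_ceil _
  have hIlt : (I : ℝ) < Real.log (3 * X) + 1 := by rw [hI]; exact Nat.ceil_lt_add_one hlog3X
  have hiI : i0 ≤ I := by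
    have e1 : Real.log (δ * X) ≤ Real.log (3 * X) := Real.log_le_log (by linarith) (by nlinarith)
    have : (i0 : ℝ) ≤ I := by linarith
    exact_mod_cast this
  have hexpI : ∀ i : ℕ, i ≤ I → Real.exp i ≤ 9 * X := by
    intro i hi
    have e1 : (i : ℝ) ≤ Real.log (3 * X) + 1 := by
      have : (i : ℝ) ≤ I := by exact_mod_cast hi
      linarith
    calc Real.exp i ≤ Real.exp (Real.log (3 * X) + 1) := Real.exp_le_exp.2 e1
      _ = (3 * X) * Real.exp 1 := by rw [Real.exp_add, Real.exp_log (by linarith)]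
      _ ≤ (3 * X) * 3 := mul_le_mul_of_nonneg_left (by linarith) (by positivity)
      _ = _ := by ring
  -- splitting
  have hsplit : ∑ n ∈ Icc 1 (3 * X), (g n : ℂ) * T n =
      ∑ n ∈ Icc 1 (3 * X), (g n : ℂ) * T n * ((∑ i ∈ range i0, w (Real.log n - i) : ℝ) : ℂ) +
      ∑ i ∈ Ico i0 (I + 1), ∑ n ∈ Icc 1 (3 * X), (g n : ℂ) * T n * (w (Real.log n - i) : ℂ) := by
    rw [sum_comm, ← sum_add_distrib]
    apply sum_congr rfl
    intro n hn
    rw [mem_Icc] at hn
    have hn0 : (1 : ℝ) ≤ n := by exact_mod_cast hn.1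
    have hn3 : (n : ℝ) ≤ 3 * X := by exact_mod_cast hn.2
    have e1 := w_part (Real.log n) I (Real.log_nonneg hn0) ((Real.log_le_log (by linarith) hn3).trans hIle)
    have e2 : ((∑ i ∈ range (I + 1), w (Real.log n - i) : ℝ) : ℂ) = 1 := by rw [e1]; norm_num
    rw [← mul_sum, ← mul_add]
    have e3 : ((∑ i ∈ range i0, w (Real.log n - i) : ℝ) : ℂ) + ∑ i ∈ Ico i0 (I + 1), (w (Real.log n - i) : ℂ) = 1 := by
      rw [← e2]
      push_cast
      rw [sum_range_add_sum_Ico _ (by omega)]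
    rw [e3, mul_one]
  rw [hsplit]
  refine (norm_add_le _ _).trans ?_
  -- small n
  have p1 : ‖∑ n ∈ Icc 1 (3 * X), (g n : ℂ) * T n * ((∑ i ∈ range i0, w (Real.log n - i) : ℝ) : ℂ)‖ ≤ δ * H * X := by
    have e1 : ∀ n ∈ Icc 1 (3 * X), ‖(g n : ℂ) * T n * ((∑ i ∈ range i0, w (Real.log n - i) : ℝ) : ℂ)‖ ≤
        if (n : ℝ) < Real.exp i0 then H else 0 := by
      intro n hn
      rw [mem_Icc] at hn
      have hn0 : (1 : ℝ) ≤ n := by exact_mod_cast hn.1
      have hnn : 0 ≤ ∑ i ∈ range i0, w (Real.log n - i) := sum_nonneg fun i _ => tnt_w_nonneg _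
      have e4 : ‖(g n : ℂ)‖ ≤ 1 := hb n
      rw [norm_mul, norm_mul, Complex.norm_real, Real.norm_of_nonneg hnn]
      split_ifs with h
      · have e5 : ∑ i ∈ range i0, w (Real.log n - i) ≤ 1 := by
          have hn3 : (n : ℝ) ≤ 3 * X := by exact_mod_cast hn.2
          have e6 := w_part (Real.log n) I (Real.log_nonneg hn0) ((Real.log_le_log (by linarith) hn3).trans hIle)
          rw [← e6]
          apply sum_le_sum_of_subset_of_nonneg
          · intro i hi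
            rw [mem_range] at hi ⊢
            omega
          · intro _ _ _; exact tnt_w_nonneg _
        calc ‖(g n : ℂ)‖ * ‖T n‖ * ∑ i ∈ range i0, w (Real.log n - i) ≤ 1 * H * 1 := by
              apply mul_le_mul _ e5 hnn (by positivity)
              exact mul_le_mul e4 (hT n) (norm_nonneg _) (by norm_num)
          _ = H := by ring
      · push Not at h
        have e5 : ∑ i ∈ range i0, w (Real.log n - i) = 0 := by
          apply sum_eq_zero
          intro i hi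
          rw [mem_range] at hi
          apply tnt_w_zero
          have e6 : (i0 : ℝ) ≤ Real.log n := by
            rw [Real.le_log_iff_exp_le (by linarith)]
            exact h
          have e7 : (i : ℝ) + 1 ≤ i0 := by exact_mod_cast hi
          rw [abs_of_nonneg (by linarith)]
          linarith
        rw [e5, mul_zero]
    refine (norm_sum_le _ _).trans ((sum_le_sum e1).trans ?_)
    rw [← sum_filter, sum_const, nsmul_eq_mul]
    have e2 : (((Icc 1 (3 * X)).filter (fun n : ℕ => (n : ℝ) < Real.exp i0)).card : ℝ) ≤ Real.exp i0 := by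
      have e3 : (Icc 1 (3 * X)).filter (fun n : ℕ => (n : ℝ) < Real.exp i0) ⊆ Icc 1 ⌊Real.exp i0⌋₊ := by
        intro n hn
        rw [mem_filter, mem_Icc] at hn
        rw [mem_Icc]
        exact ⟨hn.1.1, Nat.le_floor hn.2.le⟩
      have e4 := card_le_card e3
      rw [Nat.card_Icc, Nat.add_sub_cancel] at e4
      calc (((Icc 1 (3 * X)).filter (fun n : ℕ => (n : ℝ) < Real.exp i0)).card : ℝ) ≤ ⌊Real.exp i0⌋₊ := by exact_mod_cast e4
        _ ≤ _ := Nat.floor_le (Real.exp_pos _).le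
    calc (((Icc 1 (3 * X)).filter (fun n : ℕ => (n : ℝ) < Real.exp i0)).card : ℝ) * H ≤ (δ * X) * H :=
          mul_le_mul_of_nonneg_right (e2.trans hei0) hH00
      _ = _ := by ring
  -- the other scales
  have p2 : ∀ i ∈ Ico i0 (I + 1), ‖∑ n ∈ Icc 1 (3 * X), (g n : ℂ) * T n * (w (Real.log n - i) : ℂ)‖ ≤ (9 * X) * (ε₁ * (24 * H)) := by
    intro i hi
    rw [mem_Ico] at hi
    obtain ⟨Y, hY⟩ : ∃ Y, Y = Real.exp (i : ℝ) := ⟨_, rfl⟩
    have hY0 : 0 < Y := by rw [hY]; exact Real.exp_pos _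
    have hYX : Y ≤ 9 * X := by rw [hY]; exact hexpI i (by omega)
    have hYδ : δ * X / 3 ≤ Y := by
      rw [hY]
      refine hei0'.trans (Real.exp_le_exp.2 ?_)
      exact_mod_cast hi.1
    have hYY₀ : Y₀ ≤ Y := by linarith
    have hlogY : Real.log Y = i := by rw [hY, Real.log_exp]
    have e1 := hsc Y hYY₀ g hb (hm Y (by linarith) hYX) (24 * H) (by linarith) (fun n => (n : ℂ) * T n / (Y : ℂ)) (by
        intro n hn
        rw [norm_div, norm_mul, Complex.norm_natCast, Complex.norm_real, Real.norm_of_nonneg hY0.le, div_le_iff₀ hY0]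
        calc (n : ℝ) * ‖T n‖ ≤ (24 * Y) * H := mul_le_mul hn (hT n) (norm_nonneg _) (by positivity)
          _ = _ := by ring) (by
        intro n m hn hm'
        have e2 : (n : ℂ) * T n / (Y : ℂ) - (m : ℂ) * T m / (Y : ℂ) = (((n : ℝ) - m : ℝ) : ℂ) * T n / (Y : ℂ) + (m : ℂ) * (T n - T m) / (Y : ℂ) := by
          push_cast
          ring
        rw [e2]
        refine (norm_add_le _ _).trans ?_
        rw [norm_div, norm_mul, norm_div, norm_mul, Complex.norm_real, Complex.norm_real, Complex.norm_natCast, Real.norm_of_nonneg hY0.le,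
          Real.norm_eq_abs]
        have e3 : |(n : ℝ) - m| * ‖T n‖ / Y ≤ (3 / δ) * |(n : ℝ) - m| := by
          rw [div_le_iff₀ hY0]
          have e4 : H ≤ 3 / δ * Y := by
            rw [div_mul_eq_mul_div, le_div_iff₀ hδ0]
            nlinarith
          calc |(n : ℝ) - m| * ‖T n‖ ≤ |(n : ℝ) - m| * (3 / δ * Y) :=
                mul_le_mul_of_nonneg_left ((hT n).trans e4) (abs_nonneg _)
            _ = _ := by ring
        have e4 : (m : ℝ) * ‖T n - T m‖ / Y ≤ (24 * A) * |(n : ℝ) - m| := by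
          rw [div_le_iff₀ hY0]
          calc (m : ℝ) * ‖T n - T m‖ ≤ (24 * Y) * (A * |(n : ℝ) - m|) := mul_le_mul hm' (hT2 n m) (norm_nonneg _) (by positivity)
            _ = _ := by ring
        linarith)
    have e5 : ∑ n ∈ Icc 1 (3 * X), (g n : ℂ) * T n * (w (Real.log n - i) : ℂ) =
        (Y : ℂ) * ∑ n ∈ WN Y, ((g n : ℂ) * (bw Y n : ℂ)) * ((n : ℂ) * T n / (Y : ℂ)) := by
      rw [mul_sum]
      have f1 : ∀ n : ℕ, 1 ≤ n → (Y : ℂ) * (((g n : ℂ) * (bw Y n : ℂ)) * ((n : ℂ) * T n / (Y : ℂ))) =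
          (g n : ℂ) * T n * (w (Real.log n - i) : ℂ) := by
        intro n hn
        have hn0 : (n : ℂ) ≠ 0 := by exact_mod_cast (by omega : n ≠ 0)
        have hYc : (Y : ℂ) ≠ 0 := by exact_mod_cast hY0.ne'
        unfold bw
        rw [hlogY]
        push_cast
        field_simp
      have f2 : ∑ n ∈ WN Y, (Y : ℂ) * (((g n : ℂ) * (bw Y n : ℂ)) * ((n : ℂ) * T n / (Y : ℂ))) =
          ∑ n ∈ WN Y, (g n : ℂ) * T n * (w (Real.log n - i) : ℂ) := by
        apply sum_congr rfl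
        intro n hn
        unfold WN at hn
        rw [mem_Icc] at hn
        exact f1 n hn.1
      rw [f2]
      have f3 : ∀ n : ℕ, 1 ≤ n → n ∉ WN Y → w (Real.log n - i) = 0 := by
        intro n hn hnW
        unfold WN at hnW
        rw [mem_Icc] at hnW
        push Not at hnW
        have f4 := hnW hn
        rw [Nat.floor_lt (by positivity)] at f4
        apply tnt_w_zero
        have f5 : Real.log (Real.exp 1 * Y) ≤ Real.log n := Real.log_le_log (by positivity) f4.le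
        rw [Real.log_mul (Real.exp_ne_zero _) hY0.ne', Real.log_exp, hlogY] at f5
        rw [abs_of_nonneg (by linarith)]
        linarith
      have f6 : Icc 1 (3 * X) ∪ WN Y = Icc 1 (3 * X) ∪ WN Y := rfl
      calc ∑ n ∈ Icc 1 (3 * X), (g n : ℂ) * T n * (w (Real.log n - i) : ℂ) =
          ∑ n ∈ Icc 1 (3 * X) ∪ WN Y, (g n : ℂ) * T n * (w (Real.log n - i) : ℂ) := by
            apply sum_subset subset_union_left
            intro n hn hn'
            rw [mem_union] at hn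
            rw [mem_Icc] at hn'
            have hn1 : 1 ≤ n := by
              rcases hn with h | h
              · rw [mem_Icc] at h; exact h.1
              · unfold WN at h; rw [mem_Icc] at h; exact h.1
            rw [hT3 n (by omega), mul_zero, zero_mul]
        _ = _ := by
            symm
            apply sum_subset subset_union_right
            intro n hn hn'
            rw [mem_union] at hn
            have hn1 : 1 ≤ n := by
              rcases hn with h | h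
              · rw [mem_Icc] at h; exact h.1
              · exact absurd h hn'
            rw [f3 n hn1 hn']
            simp
    rw [e5, norm_mul, Complex.norm_real, Real.norm_of_nonneg hY0.le]
    exact mul_le_mul hYX e1 (norm_nonneg _) (by positivity)
  have p3 : ‖∑ i ∈ Ico i0 (I + 1), ∑ n ∈ Icc 1 (3 * X), (g n : ℂ) * T n * (w (Real.log n - i) : ℂ)‖ ≤ ε / 2 * H * X := by
    refine (norm_sum_le _ _).trans ((sum_le_sum p2).trans ?_)
    rw [sum_const, Nat.card_Ico, nsmul_eq_mul]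
    have e1 : ((I + 1 - i0 : ℕ) : ℝ) ≤ M := by
      rw [Nat.cast_sub (by omega), hM]
      push_cast
      have e2 : Real.log (3 * X) = Real.log (3 / δ) + Real.log (δ * X) := by
        rw [← Real.log_mul (by positivity) (by positivity)]
        congr 1
        field_simp
      linarith
    calc ((I + 1 - i0 : ℕ) : ℝ) * ((9 * X) * (ε₁ * (24 * H))) ≤ M * ((9 * X) * (ε₁ * (24 * H))) :=
          mul_le_mul_of_nonneg_right e1 (by positivity)
      _ = ε / 2 * H * X := by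
          rw [hε₁]
          field_simp
  have hHX0 : 0 ≤ H * X := by positivity
  nlinarith

end Pool.Agent.TH575.OM
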