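import Pool.Agent.TH823.MRS.Expo
import Pool.Agent.TH575.OM.MinorC
import Pool.Agent.TH575.OM.ScaleS

/-! Exponential sums with slowly varying weights for classes of functions (after TH823/MRS/Expo). -/

set_option autoImplicit false

namespace Pool.Agent.TH575.OM
open Finset Pool.Agent.H376R2.MR Pool.Agent.H970R2.X Pool.Agent.TH823.MRS
open Pool.Agent.H807R2.Dav (ee norm_ee ee_add ee_int ee_pow ee_zero)

/-- the restriction to a residue class -/
def rsC (f : ℕ → ℂ) (q b : ℕ) : ℕ → ℂ := fun n => if n % q = b then f n else 0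

/-- the mean squares of the Dirichlet polynomials of the functions of the class are small -/
def MRC (Hc : ℕ → (ℕ → ℂ) → Prop) : Prop := ∀ q b : ℕ, 1 ≤ q → ∀ δ η : ℝ, 0 < δ → 0 < η →
  ∃ h : ℝ, 1 ≤ h ∧ ∃ X₀ : ℕ, ∀ X : ℕ, X₀ ≤ X → ∀ f, Hc X f → ∀ Y : ℝ, δ * X ≤ Y → Y ≤ 9 * X →
    ∑ k ∈ FK ⌊Y / h⌋₊, ‖GC (rsC f q b) Y k‖ ^ 2 ≤ η

/-- exponential sums of the functions of the class -/
def ExpoU (Hc : ℕ → (ℕ → ℂ) → Prop) : Prop := ∀ ε : ℝ, 0 < ε → ∀ A : ℝ, 0 ≤ A →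
    ∃ H₀ : ℝ, ∃ X₀ : ℕ, ∀ X : ℕ, X₀ ≤ X → ∀ f, Hc X f → ∀ H : ℝ, H₀ ≤ H → H ≤ X → ∀ T : ℕ → ℂ,
      (∀ n : ℕ, ‖T n‖ ≤ H) → (∀ n m : ℕ, ‖T n - T m‖ ≤ A * |(n : ℝ) - m|) → (∀ n : ℕ, 3 * X < n → T n = 0) →
      ∀ α : ℝ, ‖∑ n ∈ Icc 1 (3 * X), f n * ee ((n : ℝ) * α) * T n‖ ≤ ε * H * X

/-- uniform bounds for exponential sums with slowly varying weights -/
theorem expoU (Hc : ℕ → (ℕ → ℂ) → Prop) (hb0 : ∀ X f, Hc X f → ∀ n, ‖f n‖ ≤ 1)
    (hf0 : ∀ X f, Hc X f → ∃ f2 : ℕ → ℂ, (∀ n, ‖f2 n‖ ≤ 1) ∧ ∀ p m : ℕ, p.Prime → ¬ p ∣ m → f (p * m) = f2 m)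
    (hM : MRC Hc) : ExpoU Hc := by
  intro ε hε A hA
  classical
  obtain ⟨P, hP⟩ := LS_large (max 1 ((15 / ε) ^ 2))
  have hL1 : 1 ≤ LS P := (le_max_left _ _).trans hP
  have hLε : (15 / ε) ^ 2 ≤ LS P := (le_max_right _ _).trans hP
  obtain ⟨W, hW⟩ : ∃ W : ℕ, W = ⌈(P : ℝ) ^ 2 * (1 + 3 * A * P)⌉₊ + P + 1 := ⟨_, rfl⟩
  have hW1 : 1 ≤ W := by omega
  have hPW : P ≤ W := by omega
  have hPW2 : (P : ℝ) ^ 2 * (1 + 3 * A * P) ≤ W := by
    refine (Nat.le_ceil _).trans ?_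
    exact_mod_cast (by omega : ⌈(P : ℝ) ^ 2 * (1 + 3 * A * P)⌉₊ ≤ W)
  have hW0 : (0 : ℝ) < W := by exact_mod_cast hW1
  -- the residue classes
  obtain ⟨δ', η', hδ', hη', hNS⟩ := nat_sumC (ε / W) (by positivity)
  have hns : ∀ q b : ℕ, ∃ H₀ : ℝ, ∃ X₀ : ℕ, 1 ≤ q → ∀ X : ℕ, X₀ ≤ X → ∀ f, Hc X f → ∀ H : ℝ, H₀ ≤ H → H ≤ X → ∀ T : ℕ → ℂ,
      (∀ n : ℕ, ‖T n‖ ≤ H) → (∀ n m : ℕ, ‖T n - T m‖ ≤ (A + 7 * W) * |(n : ℝ) - m|) → (∀ n : ℕ, 3 * X < n → T n = 0) →
      ‖∑ n ∈ Icc 1 (3 * X), (rsC f q b n : ℂ) * T n‖ ≤ (ε / W) * H * X := by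
    intro q b
    rcases Nat.eq_zero_or_pos q with h | h
    · exact ⟨0, 0, fun h' => by omega⟩
    · obtain ⟨h0, hh0, X1, hX1⟩ := hM q b h δ' η' hδ' hη'
      obtain ⟨H₀, X₀, h1⟩ := hNS h0 hh0 (A + 7 * W) (by positivity)
      refine ⟨H₀, X₀ + X1, fun _ X hX f hf => h1 X (by omega) (rsC f q b) ?_ (hX1 X (by omega) f hf)⟩
      intro n
      unfold rsC
      split_ifs
      · exact hb0 X f hf n
      · simp
  choose H₀f X₀f hns using hns
  refine ⟨(∑ q ∈ range (W + 1), ∑ b ∈ range q, |H₀f q b|) + 1, (∑ q ∈ range (W + 1), ∑ b ∈ range q, X₀f q b) + P, fun X hX f hHf H hH hHX T hT hT2 hT3 α => ?_⟩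
  have hb := hb0 X f hHf
  obtain ⟨f2, hb2, hf⟩ := hf0 X f hHf
  have hsum0 : 0 ≤ ∑ q ∈ range (W + 1), ∑ b ∈ range q, |H₀f q b| := sum_nonneg fun _ _ => sum_nonneg fun _ _ => abs_nonneg _
  have hH0 : 0 < H := by linarith
  have hX0 : (0 : ℝ) < X := by linarith
  by_cases hα : ∀ q : ℕ, 1 ≤ q → q ≤ W → ∀ a : ℤ, (W : ℝ) / H < |α - a / q|
  · refine (minor_boundC f f2 hb hb2 hf W X H A hH0 hHX hA T hT hT2 hT3 α hW1 hα P hPW hPW2 hL1 (by omega)).trans ?_
    have hs : 15 / ε ≤ √(LS P) := Real.le_sqrt_of_sq_le hLε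
    have hs0 : 0 < √(LS P) := Real.sqrt_pos.2 (by linarith)
    rw [div_le_iff₀ hs0]
    rw [div_le_iff₀ hε] at hs
    have hHX0 : 0 ≤ H * X := by positivity
    nlinarith
  · push Not at hα
    obtain ⟨q, hq1, hqW, a, ha⟩ := hα
    have hq0 : (0 : ℝ) < q := by exact_mod_cast hq1
    obtain ⟨β, hβ⟩ : ∃ β, β = α - a / q := ⟨_, rfl⟩
    rw [← hβ] at ha
    have hsplit : ∑ n ∈ Icc 1 (3 * X), (f n : ℂ) * ee ((n : ℝ) * α) * T n =
        ∑ b ∈ range q, ee ((b : ℝ) * (a / q)) * ∑ n ∈ Icc 1 (3 * X), (rsC f q b n : ℂ) * (ee ((n : ℝ) * β) * T n) := by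
      simp_rw [mul_sum]
      rw [sum_comm]
      apply sum_congr rfl
      intro n _
      rw [sum_eq_single (n % q)]
      · unfold rsC
        rw [if_pos rfl]
        have e1 : ee ((n : ℝ) * α) = ee (((n % q : ℕ) : ℝ) * (a / q)) * ee ((n : ℝ) * β) := by
          rw [← ee_add]
          obtain ⟨k, hk⟩ : ∃ k, k = n / q := ⟨_, rfl⟩
          have e2 : (n : ℝ) = q * (k : ℝ) + ((n % q : ℕ) : ℝ) := by
            rw [hk]
            exact_mod_cast (Nat.div_add_mod n q).symm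
          have e3 : (n : ℝ) * α = (((n % q : ℕ) : ℝ) * (a / q) + (n : ℝ) * β) + ((((k : ℤ) * a : ℤ)) : ℝ) := by
            rw [hβ]
            have : (n : ℝ) * α = (n : ℝ) * (a / q) + n * (α - a / q) := by ring
            rw [this]
            have e4 : (n : ℝ) * (a / q) = (((n % q : ℕ) : ℝ) * (a / q)) + ((((k : ℤ) * a : ℤ)) : ℝ) := by
              push_cast
              nth_rewrite 1 [e2]
              field_simp
              push_cast
              ring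
            rw [e4]
            ring
          rw [e3, ee_add, ee_int, mul_one]
        rw [e1]
        ring
      · intro b _ hne
        unfold rsC
        rw [if_neg (Ne.symm hne)]
        simp
      · intro h
        exfalso
        apply h
        rw [mem_range]
        exact Nat.mod_lt _ hq1
    rw [hsplit]
    refine (norm_sum_le _ _).trans ?_
    have hterm : ∀ b ∈ range q, ‖ee ((b : ℝ) * (a / q)) * ∑ n ∈ Icc 1 (3 * X), (rsC f q b n : ℂ) * (ee ((n : ℝ) * β) * T n)‖ ≤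
        (ε / W) * H * X := by
      intro b hbq
      rw [norm_mul, norm_ee, one_mul]
      have hqW' : q ∈ range (W + 1) := by rw [mem_range]; omega
      have e1 : |H₀f q b| ≤ ∑ q ∈ range (W + 1), ∑ b ∈ range q, |H₀f q b| := by
        have g1 := single_le_sum (f := fun b => |H₀f q b|) (fun b _ => abs_nonneg _) hbq
        have g2 := single_le_sum (f := fun q => ∑ b ∈ range q, |H₀f q b|) (fun q _ => sum_nonneg fun _ _ => abs_nonneg _) hqW'
        exact g1.trans g2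
      have e2 : X₀f q b ≤ ∑ q ∈ range (W + 1), ∑ b ∈ range q, X₀f q b := by
        have g1 := single_le_sum (f := fun b => X₀f q b) (fun b _ => Nat.zero_le _) hbq
        have g2 := single_le_sum (f := fun q => ∑ b ∈ range q, X₀f q b) (fun q _ => Nat.zero_le _) hqW'
        exact g1.trans g2
      have e3 := le_abs_self (H₀f q b)
      apply hns q b hq1 X (by omega) f hHf H (by linarith) hHX (fun n => ee ((n : ℝ) * β) * T n)
      · intro n
        rw [norm_mul, norm_ee, one_mul]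
        exact hT n
      · intro n m
        have e4 : ee ((n : ℝ) * β) * T n - ee ((m : ℝ) * β) * T m =
            ee ((n : ℝ) * β) * (T n - T m) + (ee ((n : ℝ) * β) - ee ((m : ℝ) * β)) * T m := by ring
        rw [e4]
        refine (norm_add_le _ _).trans ?_
        rw [norm_mul, norm_mul, norm_ee, one_mul]
        have e5 := ee_lip ((n : ℝ) * β) ((m : ℝ) * β)
        have e6 : |(n : ℝ) * β - m * β| ≤ |(n : ℝ) - m| * (W / H) := by
          rw [← sub_mul, abs_mul]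
          exact mul_le_mul_of_nonneg_left ha (abs_nonneg _)
        have e7 : ‖ee ((n : ℝ) * β) - ee ((m : ℝ) * β)‖ * ‖T m‖ ≤ (7 * (|(n : ℝ) - m| * (W / H))) * H := by
          apply mul_le_mul _ (hT m) (norm_nonneg _) (by positivity)
          exact e5.trans (mul_le_mul_of_nonneg_left e6 (by norm_num))
        have e8 : (7 * (|(n : ℝ) - m| * (W / H))) * H = 7 * W * |(n : ℝ) - m| := by field_simp
        have e9 := hT2 n m
        rw [e8] at e7
        linarith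
      · intro n hn
        rw [hT3 n hn, mul_zero]
    refine (sum_le_sum hterm).trans ?_
    rw [sum_const, card_range, nsmul_eq_mul]
    have hqW2 : (q : ℝ) ≤ W := by exact_mod_cast hqW
    calc (q : ℝ) * ((ε / W) * H * X) ≤ W * ((ε / W) * H * X) := mul_le_mul_of_nonneg_right hqW2 (by positivity)
      _ = ε * H * X := by field_simp

end Pool.Agent.TH575.OM
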