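import Mathlib
import Pool.Agent.TH575.CW.Avg
import Pool.Agent.TH575.OM.ExpoC

/-!
The average over the primes of one dyadic interval, for classes of functions (after TH823/MRS/Circ2,
Circ3, Circ5 and TH575/CW/Avg).
-/

set_option autoImplicit false

namespace Pool.Agent.TH575.OM

open Finset
open Pool.Agent.Helper602.MK (PP)
open Pool.Agent.H373R2.T7 (orth sq_expand triple exI majorant_pow energy moment_energy liR)
open Pool.Agent.TH823.MRS
open Pool.Agent.TH575.CW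
open Pool.Agent.H807R2.Dav (ee norm_ee ee_add ee_int ee_pow ee_zero)

/-- the first moment of the exponential sums in the windows -/
lemma win_l1U (Hc : ℕ → (ℕ → ℂ) → Prop) (hE : ExpoU Hc) (ε : ℝ) (hε : 0 < ε) :
    ∃ W₀ X₀ : ℕ, ∀ X : ℕ, X₀ ≤ X → ∀ h, Hc X h → ∀ W : ℕ, W₀ ≤ W → W ≤ X → ∀ α : ℝ,
      ∑ z ∈ range (3 * X + 1), ‖∑ n ∈ Icc 1 (3 * X), if n ≤ z ∧ z < n + W then h n * ee ((n : ℝ) * α) else 0‖ ≤ ε * W * X := by
  obtain ⟨H₀, X₀, hX⟩ := hE ε hε 2 (by norm_num)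
  refine ⟨⌈H₀⌉₊, X₀, fun X hX0 h hh W hW1 hW2 α => ?_⟩
  set S : ℕ → ℂ := fun z => ∑ n ∈ Icc 1 (3 * X), if n ≤ z ∧ z < n + W then h n * ee ((n : ℝ) * α) else 0 with hS
  choose θ0 hθ0 hθ1 using fun z => phase (S z)
  set θ : ℕ → ℂ := fun z => if z < 3 * X + 1 then θ0 z else 0 with hθ
  have hθb : ∀ z, ‖θ z‖ ≤ 1 := by
    intro z
    rw [hθ]
    simp only
    split_ifs
    · exact hθ0 z
    · simp
  have key := hX X hX0 h hh W ((Nat.le_ceil _).trans (by exact_mod_cast hW1)) (by exact_mod_cast hW2)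
    (fun n => ∑ z ∈ Ico n (n + W), θ z) (by
      intro n
      refine (norm_sum_le _ _).trans ((sum_le_sum fun z _ => hθb z).trans ?_)
      rw [sum_const, Nat.card_Ico, nsmul_eq_mul, mul_one, Nat.add_sub_cancel_left]) (by
      intro n m
      exact moving θ hθb W n m) (by
      intro n hn
      apply sum_eq_zero
      intro z hz
      rw [mem_Ico] at hz
      rw [hθ]
      simp only
      rw [if_neg]
      omega) α
  refine le_trans (le_of_eq ?_) key
  have e1 : ((∑ z ∈ range (3 * X + 1), ‖S z‖ : ℝ) : ℂ) = ∑ n ∈ Icc 1 (3 * X), h n * ee ((n : ℝ) * α) * ∑ z ∈ Ico n (n + W), θ z := by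
    push_cast
    have e2 : ∀ z ∈ range (3 * X + 1), ((‖S z‖ : ℝ) : ℂ) =
        ∑ n ∈ Icc 1 (3 * X), if n ≤ z ∧ z < n + W then h n * ee ((n : ℝ) * α) * θ0 z else 0 := by
      intro z _
      rw [← hθ1 z, hS]
      simp only
      rw [mul_sum]
      apply sum_congr rfl
      intro n _
      split_ifs
      · ring
      · rw [mul_zero]
    rw [sum_congr rfl e2, sum_comm]
    apply sum_congr rfl
    intro n _
    have e3 : ∑ z ∈ Ico n (n + W), θ z = ∑ z ∈ range (3 * X + 1), if n ≤ z ∧ z < n + W then θ0 z else 0 := by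
      rw [hθ]
      simp only
      rw [← sum_filter, ← sum_filter]
      apply sum_congr _ fun _ _ => rfl
      ext z
      simp only [mem_filter, mem_Ico, mem_range]
      tauto
    rw [e3, mul_sum]
    apply sum_congr rfl
    intro z _
    split_ifs
    · rfl
    · rw [mul_zero]
  rw [← e1, Complex.norm_real, Real.norm_of_nonneg (sum_nonneg fun _ _ => norm_nonneg _)]

/-- the first moment over a family of short shifts of nearly minimal energy -/
theorem l1_shortU (Hc : ℕ → (ℕ → ℂ) → Prop) (hb0 : ∀ X f, Hc X f → ∀ n, ‖f n‖ ≤ 1) (hE : ExpoU Hc) (p : ℕ) (C : ℝ) (hC : 0 ≤ C) (ε : ℝ) (hε : 0 < ε) :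
    ∃ H₀ N₀ : ℕ, ∀ N : ℕ, N₀ ≤ N → ∀ h, Hc (3 * N) h → ∀ H : ℕ, H₀ ≤ H → H ≤ N → ∀ (x : ℕ) (s : ℕ → ℤ), (∀ m ∈ Icc 1 x, |s m| ≤ H) →
      (energy p x s : ℝ) * H ≤ C * (x : ℝ) ^ (2 * p) → ∀ G : ℤ → ℂ, (∀ a, ‖G a‖ ≤ 1) →
      ∑ m ∈ Icc 1 x, ‖∑ a ∈ Ioc (-(H : ℤ)) N, G a * exI h (a + s m)‖ ≤ ε * N * x := by
  set η : ℝ := ε / 40 with hη
  have hη0 : 0 < η := by positivity
  set ε' : ℝ := ε * η ^ (2 * p) / (18 * (C + 1)) with hε'
  have hε0 : 0 < ε' := by positivity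
  obtain ⟨W₀, X₀, hW⟩ := win_l1U Hc hE ε' hε0
  refine ⟨W₀ + 1, X₀ + 1, fun N hN h hh H hH1 hH2 x s hs hen G hG => ?_⟩
  have hb := hb0 _ h hh
  rcases Nat.eq_zero_or_pos x with hx | hx
  · rw [hx]; simp
  have hx0 : (0 : ℝ) < x := by exact_mod_cast hx
  have hN0 : (0 : ℝ) < N := by exact_mod_cast (by omega : 0 < N)
  have hH0 : (0 : ℝ) < H := by exact_mod_cast (by omega : 0 < H)
  set M : ℕ := (2 * p + 4) * H with hM
  have hM1 : 1 ≤ M := Nat.mul_pos (by omega) (by omega)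
  have hM0 : (0 : ℝ) < M := by exact_mod_cast hM1
  have hMH : 4 * H ≤ M := Nat.mul_le_mul_right _ (by omega)
  set S : ℕ → ℂ := fun m => ∑ a ∈ Ioc (-(H : ℤ)) N, G a * exI h (a + s m) with hS
  choose c hc0 hc1 using fun m => phase (S m)
  set Gz : ℤ → ℂ := fun a => if -(H : ℤ) < a ∧ a ≤ N then G a else 0 with hGz
  have hGzb : ∀ a, ‖Gz a‖ ≤ 1 := by
    intro a
    rw [hGz]
    simp only
    split_ifs
    · exact hG _
    · simp
  set F : ℤ → ℂ := exI h with hF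
  have hFb : ∀ a, ‖F a‖ ≤ 1 := by
    intro a
    rw [hF]
    unfold exI
    split_ifs
    · exact hb _
    · simp
  set φ : ℤ → ℂ := fun a => ∑ m ∈ Icc 1 x, Gz a * c m * F (a + s m) with hφ
  have hφ0 : ∀ a : ℤ, ¬ (-(H : ℤ) < a ∧ a ≤ (N : ℤ)) → φ a = 0 := by
    intro a ha
    rw [hφ]
    simp only
    apply sum_eq_zero
    intro m _
    rw [hGz]
    simp only
    rw [if_neg ha, zero_mul, zero_mul]
  have hsum : ∑ a ∈ Ioc (-(H : ℤ)) N, φ a = ((∑ m ∈ Icc 1 x, ‖S m‖ : ℝ) : ℂ) := by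
    rw [hφ]
    simp only
    rw [sum_comm]
    push_cast
    apply sum_congr rfl
    intro m _
    rw [← hc1 m, hS]
    simp only
    rw [mul_sum]
    apply sum_congr rfl
    intro n hn
    rw [mem_Ioc] at hn
    rw [hGz]
    simp only
    rw [if_pos hn]
    ring
  set Z : ℕ := 9 * N + 1 with hZ
  have hcov := cover φ N H Z hφ0 (by omega)
  rw [hsum] at hcov
  set Sh : ℕ → ℂ := fun t => ∑ m ∈ Icc 1 x, c m * ee ((t : ℝ) * ((s m : ℝ) / M)) with hSh
  set fh : ℕ → ℕ → ℂ := fun z t => ∑ n ∈ Ioc ((z : ℤ) - 3 * H) z, F n * ee ((t : ℝ) * (((-1 * n : ℤ) : ℝ) / M)) with hfh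
  have hwin : ∀ z ∈ range Z, M * ‖∑ a ∈ Ioc ((z : ℤ) - 2 * H) (z - H), φ a‖ ≤
      η * x * (M * (2 * H)) + (H : ℝ) * x / η ^ (2 * p) * ∑ t ∈ range M, ‖fh z t‖ * (‖Sh t‖ / x) ^ (2 * p) := by
    intro z _
    have h1 := one_win (Ioc ((z : ℤ) - 2 * H) (z - H)) (Ioc ((z : ℤ) - 3 * H) z) M x hM1 hx F Gz c s
      (by
        intro a ha m hm
        rw [mem_Ioc] at ha ⊢
        have := abs_le.1 (hs m hm)
        omega)
      (by
        intro a ha b hb'
        rw [mem_Ioc] at ha hb'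
        rw [abs_lt]
        omega)
      (by
        intro a ha b hb'
        rw [mem_Ioc] at ha hb'
        rw [abs_lt]
        omega) hFb hGzb hc0 η hη0 p
    have hc1 : (Ioc ((z : ℤ) - 2 * H) (z - H)).card = H := by
      rw [Int.card_Ioc]
      omega
    have hc2 : (Ioc ((z : ℤ) - 3 * H) z).card = 3 * H := by
      rw [Int.card_Ioc]
      omega
    rw [hc1, hc2] at h1
    refine h1.trans ?_
    apply add_le_add _ le_rfl
    apply mul_le_mul_of_nonneg_left _ (by positivity)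
    apply mul_le_mul_of_nonneg_left _ (by positivity)
    rw [Real.sqrt_le_left (by positivity)]
    push_cast
    nlinarith
  have hsw : ∀ t : ℕ, ∑ z ∈ range Z, ‖fh z t‖ ≤ ε' * (3 * H) * (3 * N) := by
    intro t
    have h1 := hW (3 * N) (by omega) h hh (3 * H) (by omega) (by omega) (-(t : ℝ) / M)
    have h2 : 3 * (3 * N) + 1 = Z := by omega
    rw [h2] at h1
    push_cast at h1
    refine le_trans (le_of_eq ?_) h1
    apply sum_congr rfl
    intro z hz
    rw [mem_range] at hz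
    have h3 := win_eq h (3 * N) (3 * H) z (by omega) (-(t : ℝ) / M)
    rw [← h3, hfh]
    simp only
    congr 1
    push_cast
    apply sum_congr rfl
    intro n _
    congr 2
    ring
  have hmom : ∑ t ∈ range M, (‖Sh t‖ / x) ^ (2 * p) ≤ M * C / H := by
    have h1 := majorant_pow p x c hc0 s M hM1
    have h2 := moment_energy p x s M H hM1 hs (by
      rw [hM]
      exact Nat.mul_lt_mul_of_pos_right (by omega) (by omega))
    rw [h2] at h1
    have h3 : ∑ t ∈ range M, (‖Sh t‖ / x) ^ (2 * p) = (∑ t ∈ range M, ‖Sh t‖ ^ (2 * p)) / (x : ℝ) ^ (2 * p) := by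
      rw [sum_div]
      exact sum_congr rfl fun t _ => div_pow _ _ _
    rw [h3, div_le_iff₀ (by positivity)]
    refine h1.trans ?_
    have h4 : (M : ℝ) * C / H * (x : ℝ) ^ (2 * p) = M * (C * (x : ℝ) ^ (2 * p) / H) := by ring
    rw [h4]
    apply mul_le_mul_of_nonneg_left _ hM0.le
    rw [le_div_iff₀ hH0]
    exact hen
  have htot : (M : ℝ) * (H * ∑ m ∈ Icc 1 x, ‖S m‖) ≤
      Z * (η * x * (M * (2 * H))) + (H : ℝ) * x / η ^ (2 * p) * ((ε' * (3 * H) * (3 * N)) * (M * C / H)) := by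
    have h1 : (H : ℝ) * ∑ m ∈ Icc 1 x, ‖S m‖ = ‖∑ z ∈ range Z, ∑ a ∈ Ioc ((z : ℤ) - 2 * H) (z - H), φ a‖ := by
      rw [hcov, norm_mul, Complex.norm_natCast, Complex.norm_real, Real.norm_of_nonneg (sum_nonneg fun _ _ => norm_nonneg _)]
    rw [h1]
    refine (mul_le_mul_of_nonneg_left (norm_sum_le _ _) hM0.le).trans ?_
    rw [mul_sum]
    refine (sum_le_sum hwin).trans ?_
    rw [sum_add_distrib, sum_const, card_range, nsmul_eq_mul, ← mul_sum]
    apply add_le_add le_rfl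
    apply mul_le_mul_of_nonneg_left _ (by positivity)
    rw [sum_comm]
    have h2 : ∀ t ∈ range M, ∑ z ∈ range Z, ‖fh z t‖ * (‖Sh t‖ / x) ^ (2 * p) ≤ (ε' * (3 * H) * (3 * N)) * (‖Sh t‖ / x) ^ (2 * p) := by
      intro t _
      rw [← sum_mul]
      exact mul_le_mul_of_nonneg_right (hsw t) (by positivity)
    refine (sum_le_sum h2).trans ?_
    rw [← mul_sum]
    exact mul_le_mul_of_nonneg_left hmom (by positivity)
  have hZr : (Z : ℝ) ≤ 10 * N := by
    rw [hZ]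
    push_cast
    have : (1 : ℝ) ≤ N := by exact_mod_cast (by omega : 1 ≤ N)
    linarith
  have e1 : (H : ℝ) * x / η ^ (2 * p) * ((ε' * (3 * H) * (3 * N)) * (M * C / H)) = (M * H) * (x * N * ε * (C / (2 * (C + 1)))) := by
    rw [hε']
    field_simp
    ring
  have e2 : C / (2 * (C + 1)) ≤ 1 / 2 := by
    rw [div_le_div_iff₀ (by positivity) (by positivity)]
    linarith
  have h3 : (M : ℝ) * (H * ∑ m ∈ Icc 1 x, ‖S m‖) ≤ (M * H) * (ε * N * x) := by
    refine htot.trans ?_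
    rw [e1]
    calc (Z : ℝ) * (η * x * (M * (2 * H))) + (M * H) * (x * N * ε * (C / (2 * (C + 1)))) ≤
          (10 * N) * (η * x * (M * (2 * H))) + (M * H) * (x * N * ε * (1 / 2)) := by
          apply add_le_add
          · exact mul_le_mul_of_nonneg_right hZr (by positivity)
          · apply mul_le_mul_of_nonneg_left _ (by positivity)
            exact mul_le_mul_of_nonneg_left e2 (by positivity)
      _ = (M * H) * (ε * N * x) := by rw [hη]; ring
  rw [← mul_assoc] at h3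
  exact le_of_mul_le_mul_left h3 (by positivity)

/-- all but few shifts in a family of short shifts of nearly minimal energy -/
theorem few_shortU (Hc : ℕ → (ℕ → ℂ) → Prop) (hb0 : ∀ X f, Hc X f → ∀ n, ‖f n‖ ≤ 1) (hE : ExpoU Hc) (p : ℕ) (C : ℝ) (B L : ℕ) (ε : ℝ) (hε : 0 < ε) :
    ∃ H₀ N₀ : ℕ, ∀ N : ℕ, N₀ ≤ N → ∀ h, Hc (3 * (2 * (B + 1) * N)) h → ∀ H : ℕ, H₀ ≤ H → H ≤ N → ∀ (x : ℕ) (s : ℕ → ℤ), (∀ m ∈ Icc 1 x, |s m| ≤ H) →
      (energy p x s : ℝ) * H ≤ C * (x : ℝ) ^ (2 * p) → ∀ (a : ℕ → ℕ) (b : ℕ → ℤ) (g : ℕ → ℕ → ℂ),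
      (∀ l < L, 1 ≤ a l) → (∀ l < L, b l ≤ B * N) → (∀ l < L, ∀ n, ‖g l n‖ ≤ 1) →
      ∀ (Bad : ℕ → Prop) [DecidablePred Bad], (∀ m ∈ Icc 1 x, Bad m → ∃ l < L, ∃ X : ℕ, a l * X ≤ B * N ∧
        ε * N < ‖∑ n ∈ Icc 1 X, g l n * exI h (a l * n + b l + s m)‖) →
      (((Icc 1 x).filter Bad).card : ℝ) ≤ ε * x := by
  set J : ℕ := ⌈16 * (B + 1) / ε⌉₊ + 1 with hJ
  set ε1 : ℝ := ε ^ 2 / (4 * (B + 1) * (L + 1) * (2 * J + 1)) with hε1
  have hε10 : 0 < ε1 := by positivity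
  obtain ⟨H₀, N₀, hmain⟩ := l1_shortU Hc hb0 hE p (max C 0) (le_max_right _ _) ε1 hε10
  refine ⟨H₀ + 1, N₀ + ⌈8 / ε⌉₊ + 1, fun N hN h hh H hH1 hH2 x s hs hen a b g ha hbl hg Bad _ hBad => ?_⟩
  have hb := hb0 _ h hh
  have hN0 : (0 : ℝ) < N := by exact_mod_cast (by omega : 0 < N)
  have hNε : 8 ≤ ε * N := by
    have h1 : 8 / ε ≤ N := (Nat.le_ceil _).trans (by exact_mod_cast (by omega : ⌈8 / ε⌉₊ ≤ N))
    rw [div_le_iff₀ hε] at h1
    linarith
  set D : ℕ := ⌊ε * N / 2⌋₊ with hD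
  have hD1 : (D : ℝ) ≤ ε * N / 2 := Nat.floor_le (by positivity)
  have hD2 : ε * N / 4 ≤ D := by
    have := Nat.lt_floor_add_one (ε * N / 2)
    rw [← hD] at this
    linarith
  have hDpos : 1 ≤ D := by
    have : (1 : ℝ) ≤ D := by linarith
    exact_mod_cast this
  have hD0 : (0 : ℤ) < D := by exact_mod_cast hDpos
  set N' : ℕ := 2 * (B + 1) * N with hN'
  have hNN' : N ≤ N' := by
    rw [hN']
    nlinarith [Nat.zero_le (B * N)]
  have hJ1 : (N' : ℤ) ≤ (J - 1) * D := by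
    have h1 : (N' : ℝ) ≤ ((J : ℝ) - 1) * D := by
      rw [hJ, hN']
      push_cast
      have h2 : 16 * ((B : ℝ) + 1) / ε ≤ ⌈16 * ((B : ℝ) + 1) / ε⌉₊ := Nat.le_ceil _
      calc 2 * ((B : ℝ) + 1) * N ≤ 16 * ((B : ℝ) + 1) / ε * (ε * N / 4) := by
            have : 16 * ((B : ℝ) + 1) / ε * (ε * N / 4) = 4 * (B + 1) * N := by
              field_simp
              ring
            rw [this]
            apply mul_le_mul_of_nonneg_right _ hN0.le
            linarith [Nat.cast_nonneg (α := ℝ) B]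
        _ ≤ ⌈16 * ((B : ℝ) + 1) / ε⌉₊ * D := mul_le_mul h2 hD2 (by positivity) (by positivity)
        _ = _ := by ring
    exact_mod_cast h1
  have hen' : (energy p x s : ℝ) * H ≤ max C 0 * (x : ℝ) ^ (2 * p) :=
    hen.trans (mul_le_mul_of_nonneg_right (le_max_left _ _) (by positivity))
  set G : ℕ → ℤ → ℤ → ℂ := fun l j k => if k ≤ j * D then frm (a l) (b l) (g l) k else 0 with hG
  set Q : ℕ → ℤ → ℕ → ℝ := fun l j m => ‖∑ k ∈ Ioc (-(H : ℤ)) N', G l j k * exI h (k + s m)‖ with hQ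
  have hQ1 : ∀ l < L, ∀ j, ∑ m ∈ Icc 1 x, Q l j m ≤ ε1 * N' * x := by
    intro l hl j
    apply hmain N' (by omega) h hh H (by omega) (hH2.trans hNN') x s hs hen'
    intro k
    rw [hG]
    simp only
    split_ifs
    · exact frm_norm _ _ _ (hg l hl) k
    · simp
  have hQ2 : ∀ m ∈ Icc 1 x, Bad m → ∃ l < L, ∃ j ∈ Icc (-(J : ℤ)) J, ε * N / 2 < Q l j m := by
    intro m hm hbad
    obtain ⟨l, hl, X, hX, h1⟩ := hBad m hm hbad
    have hXr : (a l : ℤ) * X ≤ B * N := by exact_mod_cast hX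
    have hbl' := hbl l hl
    have hK : b l + a l * X ≤ N' := by
      rw [hN']
      push_cast
      have h2 : (0 : ℤ) ≤ B * N := by positivity
      have h3 : (0 : ℤ) ≤ N := by positivity
      nlinarith
    have hsm := hs m hm
    rw [frm_int h (a l) (ha l hl) (b l) (g l) (s m) X H N' hsm hK] at h1
    have h2 : ∑ k ∈ Ioc (-(H : ℤ)) N', (if k ≤ b l + a l * X then frm (a l) (b l) (g l) k else 0) * exI h (k + s m) =
        ∑ k ∈ Ioc (-(H : ℤ)) N', (if k ≤ b l + a l * X then frm (a l) (b l) (g l) k * exI h (k + s m) else 0) := by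
      apply sum_congr rfl
      intro k _
      rw [ite_mul, zero_mul]
    rw [h2] at h1
    have h3 := grid_int (fun k => frm (a l) (b l) (g l) k * exI h (k + s m)) (fun k => by
      rw [norm_mul]
      exact mul_le_one₀ (frm_norm _ _ _ (hg l hl) k) (norm_nonneg _) (exI_norm1 h hb _)) (Ioc (-(H : ℤ)) N')
      (b l + a l * X) D hDpos
    set K : ℤ := b l + a l * X with hKd
    refine ⟨l, hl, K / D, ?_, ?_⟩
    · rw [mem_Icc]
      have hKH : -(H : ℤ) < K := by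
        by_contra hcon
        have h4 : ∑ k ∈ Ioc (-(H : ℤ)) N', (if k ≤ K then frm (a l) (b l) (g l) k * exI h (k + s m) else 0) = 0 := by
          apply sum_eq_zero
          intro k hk
          rw [mem_Ioc] at hk
          rw [if_neg]
          omega
        rw [h4, norm_zero] at h1
        linarith [mul_pos hε hN0]
      have hJ2 : (N' : ℤ) ≤ (J : ℤ) * D := by nlinarith
      constructor
      · rw [Int.le_ediv_iff_mul_le hD0]
        have : (N : ℤ) ≤ N' := by exact_mod_cast hNN'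
        have h5 : (H : ℤ) ≤ N := by exact_mod_cast hH2
        nlinarith
      · have h6 : K / D ≤ N' / D := Int.ediv_le_ediv hD0 hK
        have h7 : (N' : ℤ) / D ≤ J := by
          apply Int.ediv_le_of_le_mul hD0
          exact hJ2
        omega
    · rw [hQ, hG]
      simp only
      have h4 : ∑ k ∈ Ioc (-(H : ℤ)) N', (if k ≤ K / D * D then frm (a l) (b l) (g l) k else 0) * exI h (k + s m) =
          ∑ k ∈ Ioc (-(H : ℤ)) N', (if k ≤ K / D * D then frm (a l) (b l) (g l) k * exI h (k + s m) else 0) := by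
        apply sum_congr rfl
        intro k _
        rw [ite_mul, zero_mul]
      rw [h4]
      linarith
  have hcount : (((Icc 1 x).filter Bad).card : ℝ) * (ε * N / 2) ≤ L * ((2 * J + 1) * (ε1 * N' * x)) := by
    calc (((Icc 1 x).filter Bad).card : ℝ) * (ε * N / 2) = ∑ _m ∈ (Icc 1 x).filter Bad, ε * N / 2 := by
          rw [sum_const, nsmul_eq_mul]
      _ ≤ ∑ m ∈ (Icc 1 x).filter Bad, ∑ l ∈ range L, ∑ j ∈ Icc (-(J : ℤ)) J, Q l j m := by
          apply sum_le_sum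
          intro m hm
          rw [mem_filter] at hm
          obtain ⟨l, hl, j, hj, h1⟩ := hQ2 m hm.1 hm.2
          refine h1.le.trans ?_
          refine le_trans ?_ (single_le_sum (f := fun l => ∑ j ∈ Icc (-(J : ℤ)) J, Q l j m)
            (fun _ _ => sum_nonneg fun _ _ => norm_nonneg _) (mem_range.2 hl))
          exact single_le_sum (f := fun j => Q l j m) (fun _ _ => norm_nonneg _) hj
      _ ≤ ∑ m ∈ Icc 1 x, ∑ l ∈ range L, ∑ j ∈ Icc (-(J : ℤ)) J, Q l j m :=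
          sum_le_sum_of_subset_of_nonneg (filter_subset _ _) fun _ _ _ =>
            sum_nonneg fun _ _ => sum_nonneg fun _ _ => norm_nonneg _
      _ = ∑ l ∈ range L, ∑ j ∈ Icc (-(J : ℤ)) J, ∑ m ∈ Icc 1 x, Q l j m := by
          rw [sum_comm]
          apply sum_congr rfl
          intro l _
          rw [sum_comm]
      _ ≤ ∑ l ∈ range L, ∑ j ∈ Icc (-(J : ℤ)) J, ε1 * N' * x := by
          apply sum_le_sum
          intro l hl
          rw [mem_range] at hl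
          apply sum_le_sum
          intro j _
          exact hQ1 l hl j
      _ = _ := by
          rw [sum_const, sum_const, card_range, nsmul_eq_mul, nsmul_eq_mul, Int.card_Icc]
          have : ((((J : ℤ) + 1 - -(J : ℤ)).toNat : ℕ) : ℝ) = 2 * J + 1 := by
            have h1 : ((J : ℤ) + 1 - -(J : ℤ)).toNat = 2 * J + 1 := by omega
            rw [h1]
            push_cast
            ring
          rw [this]
  have h1 : (L : ℝ) * ((2 * J + 1) * (ε1 * N' * x)) ≤ ε * x * (ε * N / 2) := by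
    have e1 : (L : ℝ) * ((2 * J + 1) * (ε1 * N' * x)) = (L / (L + 1)) * (ε * x * (ε * N / 2)) := by
      rw [hε1, hN']
      push_cast
      field_simp
      ring
    rw [e1]
    have e2 : (L : ℝ) / (L + 1) ≤ 1 := by
      rw [div_le_one (by positivity)]
      linarith
    have e3 : 0 ≤ ε * x * (ε * N / 2) := by positivity
    nlinarith
  exact le_of_mul_le_mul_right (hcount.trans h1) (by positivity)

lemma genU (Hc : ℕ → (ℕ → ℂ) → Prop) (hb0 : ∀ X f, Hc X f → ∀ n, ‖f n‖ ≤ 1) (hE : ExpoU Hc) (B L : ℕ) (ε : ℝ) (hε : 0 < ε) (p : ℕ) (C : ℝ) :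
    ∃ H₀ N₀ : ℕ, ∀ N : ℕ, N₀ ≤ N → ∀ h, Hc (3 * (2 * (B + 1) * N)) h → ∀ H : ℕ, H₀ ≤ H → H ≤ N → ∀ (x : ℕ) (s : ℕ → ℤ), (∀ m ∈ Icc 1 x, |s m| ≤ H) →
      (energy p x s : ℝ) * H ≤ C * (x : ℝ) ^ (2 * p) → ∀ (a : Fin L → ℕ) (b : Fin L → ℤ) (g : Fin L → ℕ → ℂ),
      (∀ l, 1 ≤ a l) → (∀ l, b l ≤ B * N) → (∀ l n, ‖g l n‖ ≤ 1) →
      nu (Icc 1 x) (fun m => ¬ Sm h L B N ε a b g (s m)) ≤ ε * x := by
  classical
  obtain ⟨H₀, N₀, h1⟩ := few_shortU Hc hb0 hE p C B L ε hε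
  refine ⟨H₀, N₀, fun N hN h hh H hH hHN x s hs hen a b g ha hbl hg => ?_⟩
  rw [nu_eq]
  refine h1 N hN h hh H hH hHN x s hs hen (fun l => if h : l < L then a ⟨l, h⟩ else 1)
    (fun l => if h : l < L then b ⟨l, h⟩ else 0) (fun l => if h : l < L then g ⟨l, h⟩ else fun _ => 0) ?_ ?_ ?_ _ ?_
  · intro l hl
    simp only [hl, dif_pos]
    exact ha _
  · intro l hl
    simp only [hl, dif_pos]
    exact hbl _
  · intro l hl n
    simp only [hl, dif_pos]
    exact hg _ n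
  · intro m _ hm
    unfold Sm at hm
    push Not at hm
    obtain ⟨l, X, hX, h2⟩ := hm
    refine ⟨l, l.2, X, ?_, lt_of_lt_of_eq h2 ?_⟩
    · simp only [l.2, dif_pos]
      exact hX
    · simp only [l.2, dif_pos]

/-- all but few of the primes, multiplied by a fixed integer, are good shifts -/
lemma famU (Hc : ℕ → (ℕ → ℂ) → Prop) (hb0 : ∀ X f, Hc X f → ∀ n, ‖f n‖ ≤ 1) (hE : ExpoU Hc) (z : ℤ) (hz : z ≠ 0) (B L : ℕ)
    (ε : ℝ) (hε : 0 < ε) :
    ∃ H₀ N₀ : ℕ, ∀ N : ℕ, N₀ ≤ N → ∀ f, Hc (3 * (2 * (B + 1) * N)) f → ∀ H : ℕ, H₀ ≤ H → z.natAbs * H ≤ N →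
      ∀ (a : Fin L → ℕ) (b : Fin L → ℤ) (g : Fin L → ℕ → ℂ),
      (∀ l, 1 ≤ a l) → (∀ l, b l ≤ B * N) → (∀ l n, ‖g l n‖ ≤ 1) →
      nu (PP H) (fun p => ¬ Sm f L B N ε a b g (z * (p : ℤ))) ≤ ε * (PP H).card := by
  classical
  obtain ⟨C, hC, k0, hk0, hfam⟩ := pp_family
  obtain ⟨H₀, N₀, h1⟩ := genU Hc hb0 hE B L ε hε 2 (z.natAbs * C)
  refine ⟨H₀ + k0, N₀, fun N hN f hff H hH hHN a b g ha hbl hg => ?_⟩
  obtain ⟨s, hs1, hs2, hs3, hs4⟩ := hfam H (by omega)
  have hz1 : 1 ≤ z.natAbs := Int.natAbs_pos.2 hz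
  have h2 := h1 N hN f hff (z.natAbs * H) (le_trans (by omega) (Nat.le_mul_of_pos_left H hz1)) hHN
    (PP H).card (fun m => z * s m) (by
      intro m hm
      rw [abs_mul]
      push_cast
      exact mul_le_mul_of_nonneg_left (hs1 m hm) (abs_nonneg _)) (by
      rw [energy_smul z hz, Nat.cast_mul]
      have h3 : (0 : ℝ) ≤ (z.natAbs : ℝ) := Nat.cast_nonneg _
      have h4 : (z.natAbs : ℝ) * ((energy 2 (PP H).card s : ℝ) * H) ≤
        (z.natAbs : ℝ) * (C * ((PP H).card : ℝ) ^ (2 * 2)) := mul_le_mul_of_nonneg_left hs2 h3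
      linarith) a b g ha hbl hg
  have h3 := hs3 (fun p : ℕ => ¬ Sm f L B N ε a b g (z * (p : ℤ)))
  rw [Pool.Agent.TH823.MRS.nu_eq, h3]
  refine le_trans (le_of_eq ?_) h2
  rw [Pool.Agent.TH823.MRS.nu_eq]
  congr 2
  apply filter_congr
  intro m hm
  rw [Int.toNat_of_nonneg (hs4 m hm)]

theorem avgU (Hc : ℕ → (ℕ → ℂ) → Prop) (hb0 : ∀ X f, Hc X f → ∀ n, ‖f n‖ ≤ 1) (hE : ExpoU Hc) (z : ℤ) (hz : z ≠ 0) (q : ℕ) (hq : 1 ≤ q)
    (ε : ℝ) (hε : 0 < ε) :
    ∃ i2 : ℕ, ∀ i : ℕ, i2 ≤ i → ∃ N0 : ℕ, ∀ y : ℕ, N0 ≤ y → ∀ f, Hc (18 * y) f → ∀ g : ℕ → ℂ, (∀ n, ‖g n‖ ≤ 1) →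
      ∀ X r : ℕ → ℕ, (∀ p ∈ QD i (i + 1), X p ≤ 2 * y) →
      ∑ p ∈ QD i (i + 1), Real.log p / 2 ^ i *
        ‖∑ n ∈ Icc 1 (X p), (if n % q = r p % q then g n else 0) * exI f ((n : ℤ) + z * p)‖ ≤ ε * y := by
  classical
  set ε0 := ε / 15 with hε0
  have hε00 : 0 < ε0 := by positivity
  obtain ⟨H₀, N₀, h1⟩ := famU Hc hb0 hE z hz 2 q ε0 hε00
  refine ⟨H₀ + 1, fun i hi => ⟨N₀ + z.natAbs * 2 ^ (i + 1), fun y hy f hff g hg X r hX => ?_⟩⟩
  have hb := hb0 _ f hff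
  have hff2 : Hc (3 * (2 * (2 + 1) * y)) f := by
    have h18 : 3 * (2 * (2 + 1) * y) = 18 * y := by ring
    rw [h18]
    exact hff
  have hlt : i + 1 < 2 ^ (i + 1) := Nat.lt_two_pow_self
  have h2 := h1 y (by omega) f hff2 (2 ^ (i + 1)) (by omega) (by omega) (fun _ => 1) (fun _ => 0)
    (fun l n => if n % q = l then g n else 0) (fun _ => le_rfl) (fun _ => by positivity) (by
      intro l n
      split_ifs
      · exact hg n
      · simp)
  set Bd := (PP (2 ^ (i + 1))).filter (fun p : ℕ => ¬ Sm f q 2 y ε0 (fun _ => 1) (fun _ => 0)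
    (fun (l : Fin q) n => if n % q = l then g n else 0) (z * (p : ℤ))) with hBd
  have h3 : ((Bd.card : ℕ) : ℝ) ≤ ε0 * (PP (2 ^ (i + 1))).card := by
    rw [Pool.Agent.TH823.MRS.nu_eq] at h2
    exact h2
  have h2i : (0 : ℝ) < 2 ^ i := by positivity
  have hy0 : (0 : ℝ) ≤ y := Nat.cast_nonneg _
  have hmem : ∀ p ∈ QD i (i + 1), p ∈ PP (2 ^ (i + 1)) := by
    intro p hp
    have hpp := QD_prime hp
    unfold QD at hp
    rw [mem_filter, mem_Ioc] at hp
    unfold PP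
    rw [mem_filter, mem_Icc]
    refine ⟨⟨hpp.one_lt.le, hp.1.2⟩, hpp, ?_⟩
    calc 2 ^ (i + 1) = 2 ^ i * 2 := pow_succ _ _
      _ ≤ 2 ^ i * p := Nat.mul_le_mul_left _ hpp.two_le
      _ < p * p := Nat.mul_lt_mul_of_pos_right hp.1.1 hpp.pos
      _ = p ^ 2 := (pow_two p).symm
  -- bound for each prime
  have h4 : ∀ p ∈ QD i (i + 1), Real.log p / 2 ^ i *
        ‖∑ n ∈ Icc 1 (X p), (if n % q = r p % q then g n else 0) * exI f ((n : ℤ) + z * p)‖ ≤
      ε0 * y * (Real.log p / 2 ^ i) + (if p ∈ Bd then 2 * y * (((i : ℝ) + 1) * Real.log 2 / 2 ^ i) else 0) := by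
    intro p hp
    have hpp := QD_prime hp
    have hlog : 0 ≤ Real.log p := Real.log_nonneg (by exact_mod_cast hpp.one_lt.le)
    have hlog' : 0 ≤ Real.log p / 2 ^ i := by positivity
    have hlog2 : Real.log p ≤ ((i : ℝ) + 1) * Real.log 2 := by
      have h5 : Real.log p ≤ Real.log ((2 : ℝ) ^ (i + 1)) := by
        apply Real.log_le_log
        · exact_mod_cast hpp.pos
        · unfold QD at hp
          rw [mem_filter, mem_Ioc] at hp
          exact_mod_cast hp.1.2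
      rw [Real.log_pow] at h5
      push_cast at h5
      exact h5
    by_cases hpb : p ∈ Bd
    · rw [if_pos hpb]
      have h5 : ‖∑ n ∈ Icc 1 (X p), (if n % q = r p % q then g n else 0) * exI f ((n : ℤ) + z * p)‖ ≤ 2 * y := by
        refine (norm_sum_le _ _).trans ?_
        have h6 : ∀ n ∈ Icc 1 (X p), ‖(if n % q = r p % q then g n else 0) * exI f ((n : ℤ) + z * p)‖ ≤ 1 := by
          intro n _
          rw [norm_mul]
          apply mul_le_one₀ _ (norm_nonneg _)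
          · unfold exI
            split_ifs
            · exact hb _
            · simp
          · split_ifs
            · exact hg n
            · simp
        refine (sum_le_sum h6).trans ?_
        rw [sum_const, Nat.card_Icc, nsmul_eq_mul, mul_one, Nat.add_sub_cancel]
        exact_mod_cast hX p hp
      have h6 : Real.log p / 2 ^ i * ‖∑ n ∈ Icc 1 (X p), (if n % q = r p % q then g n else 0) * exI f ((n : ℤ) + z * p)‖ ≤
          (((i : ℝ) + 1) * Real.log 2 / 2 ^ i) * (2 * y) := by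
        apply mul_le_mul _ h5 (norm_nonneg _) (by positivity)
        exact div_le_div_of_nonneg_right hlog2 h2i.le
      have h7 : 0 ≤ ε0 * y * (Real.log p / 2 ^ i) := by positivity
      linarith
    · rw [if_neg hpb, add_zero]
      have h5 : Sm f q 2 y ε0 (fun _ => 1) (fun _ => 0)
          (fun (l : Fin q) n => if n % q = l then g n else 0) (z * (p : ℤ)) := by
        by_contra hcon
        exact hpb (by rw [hBd, mem_filter]; exact ⟨hmem p hp, hcon⟩)
      have h6 := h5 ⟨r p % q, Nat.mod_lt _ hq⟩ (X p) (by rw [one_mul]; exact hX p hp)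
      have h7 : ∑ n ∈ Icc 1 (X p), (if n % q = ((⟨r p % q, Nat.mod_lt _ hq⟩ : Fin q) : ℕ) then g n else 0) *
          exI f (((1 : ℕ) : ℤ) * (n : ℤ) + 0 + z * (p : ℤ)) =
          ∑ n ∈ Icc 1 (X p), (if n % q = r p % q then g n else 0) * exI f ((n : ℤ) + z * p) := by
        apply sum_congr rfl
        intro n _
        congr 2
        push_cast
        ring
      rw [h7] at h6
      calc _ ≤ Real.log p / 2 ^ i * (ε0 * y) := mul_le_mul_of_nonneg_left h6 hlog'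
        _ = _ := by ring
  refine (sum_le_sum h4).trans ?_
  rw [sum_add_distrib, ← mul_sum, ← sum_div]
  have h5 := theta_QD i
  have h6 : (∑ p ∈ QD i (i + 1), Real.log p) / 2 ^ i ≤ 3 := by
    rw [div_le_iff₀ h2i]; exact h5
  have h7 : ∑ p ∈ QD i (i + 1), (if p ∈ Bd then 2 * y * (((i : ℝ) + 1) * Real.log 2 / 2 ^ i) else 0) ≤
      Bd.card * (2 * y * (((i : ℝ) + 1) * Real.log 2 / 2 ^ i)) := by
    rw [← sum_filter, sum_const, nsmul_eq_mul]
    have hl : 0 < Real.log 2 := Real.log_pos (by norm_num)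
    apply mul_le_mul_of_nonneg_right _ (by positivity)
    have : ((QD i (i + 1)).filter (fun p => p ∈ Bd)).card ≤ Bd.card := by
      apply card_le_card
      intro p hp
      exact (mem_filter.1 hp).2
    exact_mod_cast this
  have h8 := PP_card i
  have h9 : (Bd.card : ℝ) * (2 * y * (((i : ℝ) + 1) * Real.log 2 / 2 ^ i)) ≤ 12 * ε0 * y := by
    have hl := Real.log_two_lt_d9
    have hl0 : 0 < Real.log 2 := Real.log_pos (by norm_num)
    have g1 : (Bd.card : ℝ) * (i + 1) ≤ ε0 * (8 * 2 ^ i) := by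
      calc (Bd.card : ℝ) * (i + 1) ≤ ε0 * (PP (2 ^ (i + 1))).card * (i + 1) :=
            mul_le_mul_of_nonneg_right h3 (by positivity)
        _ = ε0 * ((PP (2 ^ (i + 1))).card * (i + 1)) := by ring
        _ ≤ _ := mul_le_mul_of_nonneg_left h8 hε00.le
    calc (Bd.card : ℝ) * (2 * y * (((i : ℝ) + 1) * Real.log 2 / 2 ^ i)) =
          ((Bd.card : ℝ) * (i + 1)) * (2 * y * Real.log 2 / 2 ^ i) := by ring
      _ ≤ (ε0 * (8 * 2 ^ i)) * (2 * y * Real.log 2 / 2 ^ i) := mul_le_mul_of_nonneg_right g1 (by positivity)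
      _ = 16 * Real.log 2 * (ε0 * y) := by field_simp; ring
      _ ≤ 12 * (ε0 * y) := by
          apply mul_le_mul_of_nonneg_right _ (by positivity)
          linarith
      _ = _ := by ring
  have h10 : ε0 * y * ((∑ p ∈ QD i (i + 1), Real.log p) / 2 ^ i) ≤ ε0 * y * 3 :=
    mul_le_mul_of_nonneg_left h6 (by positivity)
  have h11 : ε * y = ε0 * y * 3 + 12 * ε0 * y := by rw [hε0]; ring
  rw [h11]
  linarith

end Pool.Agent.TH575.OM
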