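import Pool.Agent.TH575.OM.Cls
import Pool.Agent.TH575.OM.AvgU
import Pool.Agent.TH575.OM.EngO

/-!
Correlations of functions of the number of prime factors at almost all dyadic scales.
-/

set_option autoImplicit false

namespace Pool.Agent.TH575.OM

open Finset ArithmeticFunction
open Pool.Agent.TH575.CW
open Pool.Agent.H373R2.T7 (exI)

/-- the function of the number of prime factors -/
def fo (a : ℕ → ℤ) : ℕ → ℤ := fun n => a (cardFactors n)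

/-- the shifted sequence -/
def dn (a : ℕ → ℤ) : ℕ → ℤ := fun l => a (l - 1)

lemma fo_b {a : ℕ → ℤ} (ha : ∀ l, |a l| ≤ 1) : ∀ n, |fo a n| ≤ 1 := fun _ => ha _

lemma fo_dil (a : ℕ → ℤ) : Dil (fo (dn a)) (fo a) := by
  intro p m hp hm
  unfold fo dn
  rw [cardFactors_mul hp.ne_zero (by omega), cardFactors_apply_prime hp, Nat.add_sub_cancel_left]

lemma sum_fo (a : ℕ → ℤ) (y : ℕ) (hy : 1 ≤ y) : ∑ n ∈ Icc 1 y, (fo a n : ℝ) = Mn (rl a) y * y := by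
  unfold Mn SA fo rl
  rw [Nat.floor_natCast]
  simp only [Nat.mod_one, if_true]
  have : (y : ℝ) ≠ 0 := by exact_mod_cast (by omega : y ≠ 0)
  field_simp

/-- the average over the primes of one dyadic interval -/
lemma havO (h : ℕ) (hh : 1 ≤ h) (ε1 : ℝ) (hε1 : 0 < ε1) : ∃ i2 : ℕ, ∀ i : ℕ, i2 ≤ i → ∃ N0 : ℕ, ∀ y : ℕ, N0 ≤ y →
    ∀ a b : ℕ → ℤ, (∀ l, |a l| ≤ 1) → (∀ l, |b l| ≤ 1) →
    ∑ p ∈ QD i (i + 1), Real.log p / 2 ^ i *
      |CS (fo a) (fo b) (h * p) y - (Mn (rl a) ((18 * y : ℕ) : ℝ) * Mn (rl b) ((18 * y : ℕ) : ℝ)) * y| ≤ ε1 * y := by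
  obtain ⟨iA, hA⟩ := avgU Hom Hom_norm expo_hom (h : ℤ) (by exact_mod_cast (by omega : h ≠ 0)) 1 le_rfl (ε1 / 4) (by positivity)
  obtain ⟨x₁, hx₁⟩ := Mn_scale (show (0 : ℝ) < 1 / 18 by norm_num) (show 0 < ε1 / 6 by positivity)
  refine ⟨iA, fun i hi => ?_⟩
  obtain ⟨N0, hN0⟩ := hA i hi
  obtain ⟨N1, hN1⟩ := exists_nat_ge |x₁|
  refine ⟨N0 + N1 + 1, fun y hy a b ha hb => ?_⟩
  have hy1 : (1 : ℝ) ≤ y := by exact_mod_cast (by omega : 1 ≤ y)
  have hyN1 : (N1 : ℝ) ≤ y := by exact_mod_cast (by omega : N1 ≤ y)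
  set A := Mn (rl a) ((18 * y : ℕ) : ℝ) with hAd
  set B := Mn (rl b) ((18 * y : ℕ) : ℝ) with hBd
  have h18 : ((18 * y : ℕ) : ℝ) = 18 * y := by push_cast; ring
  have hB1 : |B| ≤ 1 := Mn_abs (rl_B0 hb) (by rw [h18]; linarith)
  set g : ℕ → ℂ := fun n => ((((b (cardFactors n) : ℝ) - B) / 2 : ℝ) : ℂ) with hg
  have hgH : Hom (18 * y) g := ⟨b, hb, rfl⟩
  have hsc : |∑ n ∈ Icc 1 y, (fo a n : ℝ) - A * y| ≤ ε1 / 6 * y := by
    rw [sum_fo a y (by omega), ← sub_mul, abs_mul, abs_of_nonneg (by linarith : (0 : ℝ) ≤ y)]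
    apply mul_le_mul_of_nonneg_right _ (by linarith)
    have h1 := hx₁ (18 * y) (by have := le_abs_self x₁; linarith) y (by linarith) (by linarith) (rl a) (rl_B0 ha)
    rw [abs_sub_comm, hAd, h18]
    exact h1
  have h5 := hN0 y (by omega) g hgH (fun n => ((fo a n : ℤ) : ℂ)) (by
    intro n
    rw [Complex.norm_intCast]
    exact bcast (fo_b ha) n) (fun _ => y) (fun _ => 0) (fun _ _ => by omega)
  have key : ∀ p : ℕ, |CS (fo a) (fo b) (h * p) y - (A * B) * y| ≤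
      2 * ‖∑ n ∈ Icc 1 y, (if n % 1 = 0 % 1 then ((fo a n : ℤ) : ℂ) else 0) * exI g ((n : ℤ) + (h : ℤ) * p)‖ + ε1 / 6 * y := by
    intro p
    set S : ℝ := ∑ n ∈ Icc 1 y, (fo a n : ℝ) * (((b (cardFactors (n + h * p)) : ℝ) - B) / 2) with hS
    have e1 : ∑ n ∈ Icc 1 y, (if n % 1 = 0 % 1 then ((fo a n : ℤ) : ℂ) else 0) * exI g ((n : ℤ) + (h : ℤ) * p) = (S : ℂ) := by
      rw [hS]
      push_cast
      apply sum_congr rfl
      intro n hn
      rw [mem_Icc] at hn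
      have h9 : (n : ℤ) + (h : ℤ) * p = ((n + h * p : ℕ) : ℤ) := by push_cast; ring
      have h10 : exI g ((n : ℤ) + (h : ℤ) * p) = g (n + h * p) := by
        unfold exI
        rw [h9, if_pos (by exact_mod_cast (by omega : 1 ≤ n + h * p)), Int.toNat_natCast]
      rw [h10, Nat.mod_one, if_pos rfl, hg]
      simp only
      push_cast
      ring
    rw [e1, Complex.norm_real, Real.norm_eq_abs]
    have e2 : CS (fo a) (fo b) (h * p) y - (A * B) * y = 2 * S + B * (∑ n ∈ Icc 1 y, (fo a n : ℝ) - A * y) := by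
      have e3 : CS (fo a) (fo b) (h * p) y = 2 * S + B * ∑ n ∈ Icc 1 y, (fo a n : ℝ) := by
        unfold CS
        rw [hS, mul_sum, mul_sum, ← sum_add_distrib]
        apply sum_congr rfl
        intro n _
        unfold fo
        ring
      rw [e3]
      ring
    rw [e2]
    refine (abs_add_le _ _).trans ?_
    rw [abs_mul, abs_mul, abs_two]
    have e4 : |B| * |∑ n ∈ Icc 1 y, (fo a n : ℝ) - A * y| ≤ 1 * (ε1 / 6 * y) :=
      mul_le_mul hB1 hsc (abs_nonneg _) zero_le_one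
    linarith
  have h2i : (0 : ℝ) < 2 ^ i := by positivity
  calc ∑ p ∈ QD i (i + 1), Real.log p / 2 ^ i * |CS (fo a) (fo b) (h * p) y - (A * B) * y| ≤
      ∑ p ∈ QD i (i + 1), (2 * (Real.log p / 2 ^ i * ‖∑ n ∈ Icc 1 y, (if n % 1 = 0 % 1 then ((fo a n : ℤ) : ℂ) else 0) *
        exI g ((n : ℤ) + (h : ℤ) * p)‖) + ε1 / 6 * y * (Real.log p / 2 ^ i)) := by
        apply sum_le_sum
        intro p hp
        have hlog : 0 ≤ Real.log p := Real.log_nonneg (by exact_mod_cast (QD_prime hp).one_lt.le)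
        have := mul_le_mul_of_nonneg_left (key p) (show 0 ≤ Real.log p / 2 ^ i by positivity)
        linarith
    _ = 2 * ∑ p ∈ QD i (i + 1), (Real.log p / 2 ^ i * ‖∑ n ∈ Icc 1 y, (if n % 1 = 0 % 1 then ((fo a n : ℤ) : ℂ) else 0) *
        exI g ((n : ℤ) + (h : ℤ) * p)‖) + ε1 / 6 * y * ((∑ p ∈ QD i (i + 1), Real.log p) / 2 ^ i) := by
        rw [sum_add_distrib, ← mul_sum, ← mul_sum, sum_div]
    _ ≤ 2 * (ε1 / 4 * y) + ε1 / 6 * y * 3 := by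
        apply add_le_add
        · exact mul_le_mul_of_nonneg_left h5 two_pos.le
        · apply mul_le_mul_of_nonneg_left _ (by positivity)
          rw [div_le_iff₀ h2i]
          exact theta_QD i
    _ = ε1 * y := by ring

/-- correlations at almost all dyadic scales, with the main term in terms of the means at `18 y` -/
theorem windowsO (h : ℕ) (hh : 1 ≤ h) (ε : ℝ) (hε : 0 < ε) : ∃ C : ℝ, 0 ≤ C ∧ ∀ J : ℕ, ∃ y0 : ℕ, ∀ y : ℕ, y0 ≤ y →
    ∀ a b : ℕ → ℤ, (∀ l, |a l| ≤ 1) → (∀ l, |b l| ≤ 1) →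
    ∑ i ∈ (Icc 1 J).filter (fun i => ε * ((y : ℝ) / 2 ^ i) < |CS (fo a) (fo b) h (y / 2 ^ i) -
      (Mn (rl (dn a)) ((18 * y : ℕ) : ℝ) * Mn (rl (dn b)) ((18 * y : ℕ) : ℝ)) * (y / 2 ^ i)|), 1 / (i : ℝ) ≤ C := by
  obtain ⟨ε1, C, i1, hε1, hC, hi1, heng⟩ := engineO h ε hε
  obtain ⟨i2, hi2⟩ := havO h hh ε1 hε1
  choose! N0 hN0 using hi2
  set i' := i1 + i2 with hi'
  refine ⟨C + i', by positivity, fun J => ?_⟩
  obtain ⟨y0, hy0⟩ := heng i' (by omega) J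
  refine ⟨y0 + ∑ i ∈ range (J + 1), N0 i + 1, fun y hy a b ha hb => ?_⟩
  have hda : ∀ l, |dn a l| ≤ 1 := fun l => ha _
  have hdb : ∀ l, |dn b l| ≤ 1 := fun l => hb _
  have hy1 : (1 : ℝ) ≤ y := by exact_mod_cast (by omega : 1 ≤ y)
  have h18 : (0 : ℝ) < ((18 * y : ℕ) : ℝ) := by push_cast; linarith
  apply hy0 y (by omega) (fo (dn a)) (fo a) (fo (dn b)) (fo b) (fo_b hda) (fo_b hdb) (fo_b ha) (fo_b hb)
    (fo_dil a) (fo_dil b)
  · rw [abs_mul]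
    exact mul_le_one₀ (Mn_abs (rl_B0 hda) h18) (abs_nonneg _) (Mn_abs (rl_B0 hdb) h18)
  · intro i hi
    rw [mem_Icc] at hi
    have h1 : N0 i ≤ ∑ i ∈ range (J + 1), N0 i :=
      single_le_sum (f := N0) (fun _ _ => Nat.zero_le _) (mem_range.2 (by omega))
    exact hN0 i (by omega) y (by omega) (dn a) (dn b) hda hdb

/-- the discrepancy at `N` -/
noncomputable def DI (a b : ℕ → ℝ) (h N : ℕ) : ℝ :=
  (∑ n ∈ Icc 1 N, a (cardFactors n) * b (cardFactors (n + h))) / N -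
    ((∑ n ∈ Icc 1 N, a (cardFactors n)) / N) * ((∑ n ∈ Icc 1 N, b (cardFactors n)) / N)

lemma Mn_nat (a : ℕ → ℝ) (N : ℕ) : (∑ n ∈ Icc 1 N, a (cardFactors n)) / N = Mn a N := by
  unfold Mn SA
  rw [Nat.floor_natCast]
  simp only [Nat.mod_one, if_true]

/-- the main theorem for integer valued sequences -/
theorem mainZ (h : ℕ) (hh : 1 ≤ h) (ε : ℝ) (hε : 0 < ε) : ∃ C : ℝ, 0 ≤ C ∧ ∀ J : ℕ, ∃ y0 : ℕ, ∀ y : ℕ, y0 ≤ y →
    ∀ a b : ℕ → ℤ, (∀ l, |a l| ≤ 1) → (∀ l, |b l| ≤ 1) →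
    ∑ i ∈ (Icc 1 J).filter (fun i => ε < |DI (rl a) (rl b) h (y / 2 ^ i)|), 1 / (i : ℝ) ≤ C := by
  obtain ⟨C, hC, hw⟩ := windowsO h hh (ε / 8) (by positivity)
  refine ⟨C, hC, fun J => ?_⟩
  obtain ⟨y0, hy0⟩ := hw J
  have h2J : (0 : ℝ) < 2 ^ J := by positivity
  obtain ⟨x₁, hx₁⟩ := Mn_scale (show (0 : ℝ) < 1 / (36 * 2 ^ J) by positivity) (show 0 < ε / 8 by positivity)
  obtain ⟨x₂, hx₂⟩ := Mn_up (show 0 < ε / 8 by positivity)
  obtain ⟨y1, hy1⟩ := exists_nat_ge (max (|x₁| + |x₂|) (max (2 * 2 ^ J) (2 ^ J * (8 / ε + 1))))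
  refine ⟨y0 + y1, fun y hy a b ha hb => ?_⟩
  refine le_trans ?_ (hy0 y (by omega) a b ha hb)
  apply sum_le_sum_of_subset_of_nonneg
  swap
  · intro i _ _
    positivity
  intro i hi
  rw [mem_filter, mem_Icc] at hi ⊢
  obtain ⟨⟨hi1, hiJ⟩, hbad⟩ := hi
  refine ⟨⟨hi1, hiJ⟩, ?_⟩
  by_contra hcon
  rw [not_lt] at hcon
  apply absurd hbad
  rw [not_lt]
  have hyy : (y1 : ℝ) ≤ y := by exact_mod_cast (by omega : y1 ≤ y)
  have c1 : |x₁| + |x₂| ≤ y := (le_max_left _ _).trans (hy1.trans hyy)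
  have c2 : 2 * 2 ^ J ≤ (y : ℝ) := (le_max_left _ _).trans ((le_max_right _ _).trans (hy1.trans hyy))
  have c3 : 2 ^ J * (8 / ε + 1) ≤ (y : ℝ) := (le_max_right _ _).trans ((le_max_right _ _).trans (hy1.trans hyy))
  have h2i : (0 : ℝ) < 2 ^ i := by positivity
  have hiJ' : (2 : ℝ) ^ i ≤ 2 ^ J := pow_le_pow_right₀ one_le_two hiJ
  set N := y / 2 ^ i with hN
  set Y : ℝ := (y : ℝ) / 2 ^ i with hY
  have hNY : (N : ℝ) ≤ Y := by
    calc ((y / 2 ^ i : ℕ) : ℝ) ≤ (y : ℝ) / ((2 ^ i : ℕ) : ℝ) := Nat.cast_div_le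
      _ = _ := by push_cast; rfl
  have hYN : Y ≤ N + 1 := by
    have h1 := Nat.lt_div_mul_add (a := y) (b := 2 ^ i) (by positivity)
    have h2 : (y : ℝ) < ((y / 2 ^ i : ℕ) : ℝ) * 2 ^ i + 2 ^ i := by exact_mod_cast h1
    rw [hY, div_le_iff₀ h2i]
    linarith
  have hyJ : (y : ℝ) / 2 ^ J ≤ Y := div_le_div_of_nonneg_left (Nat.cast_nonneg _) h2i hiJ'
  have hY2 : 2 ≤ Y := le_trans (by rw [le_div_iff₀ h2J]; exact c2) hyJ
  have hY8 : 8 / ε + 1 ≤ Y := le_trans (by rw [le_div_iff₀ h2J]; linarith) hyJ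
  have hN1 : 1 ≤ (N : ℝ) := by linarith
  have hN8 : 8 / ε ≤ (N : ℝ) := by linarith
  have hN0 : 0 < (N : ℝ) := by linarith
  have hYN2 : Y ≤ 2 * N := by linarith
  have hy18 : ((18 * y : ℕ) : ℝ) = 18 * y := by push_cast; ring
  have hypos : (0 : ℝ) < y := by have : 0 < (2 : ℝ) * 2 ^ J := by positivity
                                 linarith
  set a' := Mn (rl (dn a)) ((18 * y : ℕ) : ℝ) with ha'
  set b' := Mn (rl (dn b)) ((18 * y : ℕ) : ℝ) with hb'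
  have hdn : ∀ c : ℕ → ℤ, (∀ l, |c l| ≤ 1) → |Mn (rl (dn c)) ((18 * y : ℕ) : ℝ) - Mn (rl c) N| ≤ ε / 4 := by
    intro c hc
    have hdc : ∀ l, |dn c l| ≤ 1 := fun l => hc _
    have d1 := hx₂ (18 * y) (by have := le_abs_self x₂; have := abs_nonneg x₁; linarith) (rl (dn c)) (rl_B0 hdc)
    have d2 : (fun l => rl (dn c) (l + 1)) = rl c := by
      funext l
      unfold rl dn
      rw [Nat.add_sub_cancel]
    rw [d2] at d1
    have d3 := hx₁ (18 * y) (by have := le_abs_self x₁; have := abs_nonneg x₂; linarith) N (by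
      have e1 : 1 / (36 * 2 ^ J) * (18 * (y : ℝ)) = (y : ℝ) / 2 ^ J / 2 := by
        field_simp
        norm_num
      rw [e1]
      linarith) (by
      have : Y ≤ y := div_le_self hypos.le (one_le_pow₀ one_le_two)
      linarith) (rl c) (rl_B0 hc)
    rw [hy18]
    have e2 : Mn (rl (dn c)) (18 * y) - Mn (rl c) N = (Mn (rl (dn c)) (18 * y) - Mn (rl c) (18 * y)) +
        (Mn (rl c) (18 * y) - Mn (rl c) N) := by ring
    rw [e2]
    refine (abs_add_le _ _).trans ?_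
    linarith
  have hda : ∀ l, |dn a l| ≤ 1 := fun l => ha _
  have hdb : ∀ l, |dn b l| ≤ 1 := fun l => hb _
  have h18 : (0 : ℝ) < ((18 * y : ℕ) : ℝ) := by rw [hy18]; linarith
  have ha1 : |a'| ≤ 1 := Mn_abs (rl_B0 hda) h18
  have hb1 : |Mn (rl b) N| ≤ 1 := Mn_abs (rl_B0 hb) hN0
  have hb1' : |b'| ≤ 1 := Mn_abs (rl_B0 hdb) h18
  have hDI : DI (rl a) (rl b) h N = CS (fo a) (fo b) h N / N - Mn (rl a) N * Mn (rl b) N := by
    unfold DI
    rw [Mn_nat, Mn_nat]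
    rfl
  rw [hDI]
  have e3 : CS (fo a) (fo b) h N / N - Mn (rl a) N * Mn (rl b) N =
      (CS (fo a) (fo b) h N - (a' * b') * Y) / N + (a' * b') * ((Y - N) / N) +
      (a' * (b' - Mn (rl b) N) + (a' - Mn (rl a) N) * Mn (rl b) N) := by
    field_simp
    ring
  rw [e3]
  have f1 : |(CS (fo a) (fo b) h N - (a' * b') * Y) / N| ≤ ε / 4 := by
    rw [abs_div, abs_of_pos hN0, div_le_iff₀ hN0]
    refine hcon.trans ?_
    nlinarith
  have f2 : |(a' * b') * ((Y - N) / N)| ≤ ε / 8 := by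
    rw [abs_mul, abs_mul]
    have g1 : |(Y - N) / (N : ℝ)| ≤ ε / 8 := by
      rw [abs_div, abs_of_pos hN0, abs_of_nonneg (by linarith), div_le_iff₀ hN0]
      rw [div_le_iff₀ hε] at hN8
      linarith
    calc |a'| * |b'| * |(Y - N) / (N : ℝ)| ≤ 1 * (ε / 8) :=
          mul_le_mul (mul_le_one₀ ha1 (abs_nonneg _) hb1') g1 (abs_nonneg _) zero_le_one
      _ = _ := one_mul _
  have f3 : |a' * (b' - Mn (rl b) N)| ≤ ε / 4 := by
    rw [abs_mul]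
    calc |a'| * |b' - Mn (rl b) N| ≤ 1 * (ε / 4) := mul_le_mul ha1 (hdn b hb) (abs_nonneg _) zero_le_one
      _ = _ := one_mul _
  have f4 : |(a' - Mn (rl a) N) * Mn (rl b) N| ≤ ε / 4 := by
    rw [abs_mul]
    calc |a' - Mn (rl a) N| * |Mn (rl b) N| ≤ (ε / 4) * 1 := mul_le_mul (hdn a ha) hb1 (abs_nonneg _) (by positivity)
      _ = _ := mul_one _
  have g1 := abs_add_le ((CS (fo a) (fo b) h N - (a' * b') * Y) / N + (a' * b') * ((Y - N) / N))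
    (a' * (b' - Mn (rl b) N) + (a' - Mn (rl a) N) * Mn (rl b) N)
  have g2 := abs_add_le ((CS (fo a) (fo b) h N - (a' * b') * Y) / N) ((a' * b') * ((Y - N) / N))
  have g3 := abs_add_le (a' * (b' - Mn (rl b) N)) ((a' - Mn (rl a) N) * Mn (rl b) N)
  linarith

end Pool.Agent.TH575.OM
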