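import Mathlib
import Pool.Agent.TH575.OM.WinO
import Pool.Agent.TH575.OM.EngC

/-!
Correlations of a centred function of the number of prime factors and an arbitrary multiplicative
function, at almost all dyadic scales.
-/

set_option autoImplicit false

namespace Pool.Agent.TH575.OM

open Finset ArithmeticFunction
open Pool.Agent.TH575.CW
open Pool.Agent.H373R2.T7 (exI)

/-- the centred function -/
noncomputable def ce (b : ℕ → ℤ) (B : ℝ) (n : ℕ) : ℝ := ((b (cardFactors n) : ℝ) - B) / 2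

lemma ce_abs {b : ℕ → ℤ} (hb : ∀ l, |b l| ≤ 1) {B : ℝ} (hB : |B| ≤ 1) (n : ℕ) : |ce b B n| ≤ 1 := by
  unfold ce
  rw [abs_div, abs_two, div_le_one two_pos]
  have h1 : |(b (cardFactors n) : ℝ)| ≤ 1 := by exact_mod_cast hb (cardFactors n)
  exact (abs_sub _ _).trans (by linarith)

/-- the average over the primes of one dyadic interval, both directions -/
lemma havP (h : ℕ) (hh : 1 ≤ h) (q : ℕ) (hq : 1 ≤ q) (ε1 : ℝ) (hε1 : 0 < ε1) : ∃ i2 : ℕ, ∀ i : ℕ, i2 ≤ i → ∃ N0 : ℕ, ∀ y : ℕ, N0 ≤ y →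
    ∀ c : ℕ, ∀ b : ℕ → ℤ, (∀ l, |b l| ≤ 1) → ∀ g : ℕ → ℂ, (∀ n, ‖g n‖ ≤ 1) →
    (∑ p ∈ QD i (i + 1), Real.log p / 2 ^ i *
      ‖∑ n ∈ Icc 1 y, (if n % q = (p * c) % q then g n * ((ce b (Mn (rl b) ((18 * y : ℕ) : ℝ)) (n + h * p) : ℝ) : ℂ) else 0)‖ ≤ ε1 * y) ∧
    (∑ p ∈ QD i (i + 1), Real.log p / 2 ^ i *
      ‖∑ n ∈ Icc 1 y, (if n % q = (p * c) % q then ((ce b (Mn (rl b) ((18 * y : ℕ) : ℝ)) n : ℝ) : ℂ) * g (n + h * p) else 0)‖ ≤ ε1 * y) := by
  have hh0 : (h : ℤ) ≠ 0 := by exact_mod_cast (by omega : h ≠ 0)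
  obtain ⟨iA, hA⟩ := avgU Hom Hom_norm expo_hom (h : ℤ) hh0 q hq ε1 hε1
  obtain ⟨iB, hB⟩ := avgU Hom Hom_norm expo_hom (-(h : ℤ)) (neg_ne_zero.2 hh0) q hq ε1 hε1
  refine ⟨iA + iB, fun i hi => ?_⟩
  obtain ⟨N0, hN0⟩ := hA i (by omega)
  obtain ⟨N1, hN1⟩ := hB i (by omega)
  refine ⟨N0 + N1 + h * 2 ^ (i + 1), fun y hy c b hb g hg => ?_⟩
  set B := Mn (rl b) ((18 * y : ℕ) : ℝ) with hBd
  set f : ℕ → ℂ := fun n => ((((b (cardFactors n) : ℝ) - B) / 2 : ℝ) : ℂ) with hf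
  have hfc : ∀ n, ((ce b B n : ℝ) : ℂ) = f n := fun n => rfl
  have hfH : Hom (18 * y) f := ⟨b, hb, rfl⟩
  have h1 := hN0 y (by omega) f hfH g hg (fun _ => y) (fun p => p * c) (fun _ _ => by omega)
  have h2 := hN1 y (by omega) f hfH g hg (fun p => y + h * p) (fun p => p * c + h * p) (fun p hp => by
    unfold QD at hp
    rw [mem_filter, mem_Ioc] at hp
    have : h * p ≤ h * 2 ^ (i + 1) := Nat.mul_le_mul_left _ hp.1.2
    omega)
  constructor
  · refine le_trans (le_of_eq ?_) h1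
    apply sum_congr rfl
    intro p _
    congr 2
    apply sum_congr rfl
    intro n hn
    rw [mem_Icc] at hn
    have h9 : (n : ℤ) + (h : ℤ) * p = ((n + h * p : ℕ) : ℤ) := by push_cast; ring
    have h10 : exI f ((n : ℤ) + (h : ℤ) * p) = f (n + h * p) := by
      unfold exI
      rw [h9, if_pos (by exact_mod_cast (by omega : 1 ≤ n + h * p)), Int.toNat_natCast]
    rw [h10, hfc]
    split_ifs <;> simp
  · refine le_trans (le_of_eq ?_) h2
    apply sum_congr rfl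
    intro p _
    congr 2
    have e1 : ∑ n ∈ Icc 1 (y + h * p), (if n % q = (p * c + h * p) % q then g n else 0) * exI f ((n : ℤ) + -(h : ℤ) * p) =
        ∑ n ∈ Ioc (h * p) (y + h * p), (if n % q = (p * c + h * p) % q then g n else 0) * exI f ((n : ℤ) + -(h : ℤ) * p) := by
      symm
      apply sum_subset
      · intro n hn
        rw [mem_Ioc] at hn
        rw [mem_Icc]
        omega
      · intro n hn hn2
        rw [mem_Icc] at hn
        rw [mem_Ioc] at hn2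
        have h3 : n ≤ h * p := by
          by_contra hc
          exact hn2 ⟨by omega, hn.2⟩
        have h4 : (n : ℤ) ≤ (h : ℤ) * p := by exact_mod_cast h3
        have h6 : exI f ((n : ℤ) + -(h : ℤ) * p) = 0 := by
          unfold exI
          rw [if_neg]
          intro h5
          linarith
        rw [h6, mul_zero]
    rw [e1]
    apply sum_nbij (fun n => n + h * p)
    · intro n hn
      rw [mem_Icc] at hn
      rw [mem_Ioc]
      omega
    · intro n _ m _ hnm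
      simpa using hnm
    · intro n hn
      rw [mem_coe, mem_Ioc] at hn
      refine ⟨n - h * p, ?_, by simp only; omega⟩
      rw [mem_coe, mem_Icc]
      omega
    · intro n hn
      rw [mem_Icc] at hn
      have h9 : ((n + h * p : ℕ) : ℤ) + -(h : ℤ) * p = (n : ℤ) := by push_cast; ring
      have h10 : exI f (((n + h * p : ℕ) : ℤ) + -(h : ℤ) * p) = f n := by
        unfold exI
        rw [h9, if_pos (by exact_mod_cast hn.1), Int.toNat_natCast]
      rw [h10, hfc]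
      have h11 : (n + h * p) % q = (p * c + h * p) % q ↔ n % q = (p * c) % q :=
        ⟨fun h' => Nat.ModEq.add_right_cancel' (h * p) h', fun h' => Nat.ModEq.add_right (h * p) h'⟩
      by_cases hc : n % q = (p * c) % q
      · rw [if_pos hc, if_pos (h11.2 hc), mul_comm]
      · rw [if_neg hc, if_neg (fun h' => hc (h11.1 h')), zero_mul]

/-- multiplicative functions with values in the closed unit disc -/
structure MD (g : ℕ → ℂ) : Prop where
  bd : ∀ n, ‖g n‖ ≤ 1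
  mul : ∀ m n : ℕ, Nat.Coprime m n → g (m * n) = g m * g n

/-- the scale `i` is heavy for `g` -/
def Hv (δ : ℝ) (g : ℕ → ℂ) (i : ℕ) : Prop := ∑ p ∈ PL δ i, Real.log p ≤ 2 * ∑ p ∈ PL δ i, Real.log p * ‖g p‖ ^ 2

/-- the first direction -/
noncomputable def C1 (q c : ℕ) (a : ℕ → ℤ) (B : ℝ) (g : ℕ → ℂ) (h M : ℕ) : ℂ :=
  ∑ m ∈ Icc 1 M, if m % q = c % q then ((ce a B m : ℝ) : ℂ) * g (m + h) else 0

/-- the second direction -/
noncomputable def C2 (q c : ℕ) (a : ℕ → ℤ) (B : ℝ) (g : ℕ → ℂ) (h M : ℕ) : ℂ :=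
  ∑ m ∈ Icc 1 M, if m % q = c % q then g m * ((ce a B (m + h) : ℝ) : ℂ) else 0

lemma Mn18_abs {b : ℕ → ℤ} (hb : ∀ l, |b l| ≤ 1) (y : ℕ) (hy : 1 ≤ y) : |Mn (rl b) ((18 * y : ℕ) : ℝ)| ≤ 1 := by
  apply Mn_abs (rl_B0 hb)
  have : (1 : ℝ) ≤ y := by exact_mod_cast hy
  push_cast
  linarith

lemma dn_p (a : ℕ → ℤ) (B : ℝ) (p m : ℕ) (hp : p.Prime) (hm : 1 ≤ m) : ce (dn a) B (p * m) = ce a B m := by
  have := fo_dil a p m hp hm
  unfold fo at this
  unfold ce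
  rw [this]

lemma norm_ite_le {P : Prop} [Decidable P] {z : ℂ} (hz : ‖z‖ ≤ 1) : ‖if P then z else 0‖ ≤ 1 := by
  split_ifs
  · exact hz
  · simp

open scoped Classical in
theorem winP (h : ℕ) (hh : 1 ≤ h) (q : ℕ) (hq : 1 ≤ q) (ε : ℝ) (hε : 0 < ε) : ∃ (δ C : ℝ) (i1 : ℕ), 0 < δ ∧ δ ≤ 1 ∧ 0 ≤ C ∧
    (∀ i, i1 ≤ i → δ / 2 * 2 ^ i ≤ ∑ p ∈ PL δ i, Real.log p) ∧ ∀ J : ℕ, ∃ y0 : ℕ, ∀ y : ℕ, y0 ≤ y →
    ∀ c : ℕ, ∀ a : ℕ → ℤ, (∀ l, |a l| ≤ 1) → ∀ g : ℕ → ℂ, MD g →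
    (∑ i ∈ (Icc 1 J).filter (fun i => ε * ((y : ℝ) / 2 ^ i) <
      ‖C1 q c a (Mn (rl (dn a)) ((18 * y : ℕ) : ℝ)) g h (y / 2 ^ i)‖ ∧ Hv δ g i), 1 / (i : ℝ) ≤ C) ∧
    (∑ i ∈ (Icc 1 J).filter (fun i => ε * ((y : ℝ) / 2 ^ i) <
      ‖C2 q c a (Mn (rl (dn a)) ((18 * y : ℕ) : ℝ)) g h (y / 2 ^ i)‖ ∧ Hv δ g i), 1 / (i : ℝ) ≤ C) := by
  obtain ⟨S, hS1, hS2, hS3⟩ := net (ε / 40) (by positivity)
  obtain ⟨x0, hx0⟩ := hS1
  have : Inhabited (SignType × S × Fin (q + 1)) := ⟨(0, ⟨x0, hx0⟩, 0)⟩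
  obtain ⟨ε1, δ, C, i1, hε1', hδ, hδ1, hC, hi1, hθ, heng⟩ := engineC (SignType × S × Fin (q + 1)) h ε hε
  obtain ⟨i2, hi2⟩ := havP h hh q hq ε1 hε1'
  choose! N0 hN0 using hi2
  set i' := i1 + i2 + q with hi'
  refine ⟨δ, 2 * (C + i'), i1, hδ, hδ1, by positivity, hθ, fun J => ?_⟩
  obtain ⟨y0, hy0⟩ := heng i' (by omega) J
  refine ⟨y0 + ∑ i ∈ range (J + 1), N0 i + 1, fun y hy c a ha g hg => ?_⟩
  set B := Mn (rl (dn a)) ((18 * y : ℕ) : ℝ) with hB
  have hda : ∀ l, |dn a l| ≤ 1 := fun l => ha _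
  have hB1 : |B| ≤ 1 := Mn18_abs hda y (by omega)
  -- the code of a complex number
  choose! cd hcd1 hcd2 using hS3
  set co : ℕ → S := fun n => ⟨cd (g n), hcd1 _ (hg.bd n)⟩ with hco
  have hcoa : ∀ n, ‖((co n : S) : ℂ) - g n‖ ≤ ε / 40 := fun n => hcd2 _ (hg.bd n)
  have hcob : ∀ x : S, ‖(x : ℂ)‖ ≤ 1 := fun x => hS2 _ x.2
  set s : ℕ → SignType × S × Fin (q + 1) := fun n => (SignType.sign (dn a (cardFactors n)), co n,
    ⟨n % q, Nat.lt_succ_of_lt (Nat.mod_lt n hq)⟩) with hs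
  have hsg : ∀ n, ((((s n).1 : ℤ) : ℝ) - B) / 2 = ce (dn a) B n := by
    intro n
    rw [hs]
    simp only
    unfold ce
    rw [sg_sign (hda _)]
  have hs2 : ∀ n, (s n).2.1 = co n := fun n => rfl
  have hs3 : ∀ n, (((s n).2.2 : Fin (q + 1)) : ℕ) = n % q := fun n => rfl
  have hval : ∀ x : SignType × S × Fin (q + 1), |(((x.1 : ℤ) : ℝ) - B) / 2| ≤ 1 := by
    intro x
    rw [abs_div, abs_two, div_le_one two_pos]
    have h1 := sg_abs x.1
    exact (abs_sub _ _).trans (by linarith)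
  have hcast : ∀ x : ℝ, |x| ≤ 1 → ‖(x : ℂ)‖ ≤ 1 := fun x hx => by
    rw [Complex.norm_real]
    exact hx
  have hmul : ∀ p m : ℕ, p.Prime → ¬ p ∣ m → g (p * m) = g p * g m := fun p m hp hm =>
    hg.mul p m ((Nat.Prime.coprime_iff_not_dvd hp).2 hm)
  have hconj : ∀ p, (starRingEnd ℂ) (g p) * g p = ((‖g p‖ ^ 2 : ℝ) : ℂ) := by
    intro p
    rw [mul_comm, Complex.mul_conj, Complex.normSq_eq_norm_sq]
  have hcls : ∀ p m : ℕ, p.Prime → 2 ^ i' < p → ((p * m) % q = (p * c) % q ↔ m % q = c % q) := by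
    intro p m hp hpi
    have hqp : Nat.gcd q p = 1 := by
      apply Nat.Coprime.symm
      rw [Nat.Prime.coprime_iff_not_dvd hp]
      intro hd
      have h1 := Nat.le_of_dvd (by omega) hd
      have h2 : q < 2 ^ i' := lt_of_lt_of_le Nat.lt_two_pow_self (Nat.pow_le_pow_right (by norm_num) (by omega))
      omega
    exact ⟨fun h' => Nat.ModEq.cancel_left_of_coprime hqp h', fun h' => Nat.ModEq.mul_left p h'⟩
  have hN1 : ∀ i ∈ Icc i' J, N0 i ≤ y := by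
    intro i hi
    rw [mem_Icc] at hi
    have h1 : N0 i ≤ ∑ i ∈ range (J + 1), N0 i :=
      single_le_sum (f := N0) (fun _ _ => Nat.zero_le _) (mem_range.2 (by omega))
    omega
  constructor
  · refine hy0 y (by omega) s (fun p x z => if (x.2.2 : ℕ) = (p * c) % q then
        ((((((x.1 : ℤ) : ℝ) - B) / 2 : ℝ)) : ℂ) * (z.2.1 : ℂ) else 0)
      (fun m => if m % q = c % q then ((ce a B m : ℝ) : ℂ) * g (m + h) else 0) g ?_ ?_ hg.bd ?_ ?_
    · intro p x z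
      apply norm_ite_le
      rw [norm_mul]
      exact mul_le_one₀ (hcast _ (hval x)) (norm_nonneg _) (hcob z.2.1)
    · intro m
      apply norm_ite_le
      rw [norm_mul]
      exact mul_le_one₀ (hcast _ (ce_abs ha hB1 m)) (norm_nonneg _) (hg.bd _)
    · intro p m hp hpi hm _ hm2
      rw [hsg, hs2, hs3, dn_p a B p m hp hm]
      by_cases hc : m % q = c % q
      · rw [if_pos hc, if_pos ((hcls p m hp hpi).2 hc)]
        have e1 : (starRingEnd ℂ) (g p) * (((ce a B m : ℝ) : ℂ) * ((co (p * (m + h)) : S) : ℂ)) -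
            ((‖g p‖ ^ 2 : ℝ) : ℂ) * (((ce a B m : ℝ) : ℂ) * g (m + h)) =
            (starRingEnd ℂ) (g p) * ((ce a B m : ℝ) : ℂ) * (((co (p * (m + h)) : S) : ℂ) - g (p * (m + h))) := by
          rw [← hconj, hmul p (m + h) hp hm2]
          ring
        rw [e1, norm_mul, norm_mul, RCLike.norm_conj]
        calc ‖g p‖ * ‖((ce a B m : ℝ) : ℂ)‖ * ‖((co (p * (m + h)) : S) : ℂ) - g (p * (m + h))‖ ≤ 1 * (ε / 40) :=
              mul_le_mul (mul_le_one₀ (hg.bd p) (norm_nonneg _) (hcast _ (ce_abs ha hB1 m))) (hcoa _) (norm_nonneg _) zero_le_one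
          _ = _ := one_mul _
      · rw [if_neg hc, if_neg (fun h' => hc ((hcls p m hp hpi).1 h')), mul_zero, mul_zero, sub_zero, norm_zero]
        positivity
    · intro i hi
      have h1 := (hN0 i (by rw [mem_Icc] at hi; omega) y (hN1 i hi) c (dn a) hda (fun n => ((co n : S) : ℂ)) (fun n => hcob _)).2
      refine le_trans (le_of_eq ?_) h1
      apply sum_congr rfl
      intro p _
      congr 2
      apply sum_congr rfl
      intro n _
      rw [hsg, hs2, hs3]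
  · refine hy0 y (by omega) s (fun p z x => if (z.2.2 : ℕ) = (p * c) % q then
        (z.2.1 : ℂ) * ((((((x.1 : ℤ) : ℝ) - B) / 2 : ℝ)) : ℂ) else 0)
      (fun m => if m % q = c % q then g m * ((ce a B (m + h) : ℝ) : ℂ) else 0) g ?_ ?_ hg.bd ?_ ?_
    · intro p x z
      apply norm_ite_le
      rw [norm_mul]
      exact mul_le_one₀ (hcob x.2.1) (norm_nonneg _) (hcast _ (hval z))
    · intro m
      apply norm_ite_le
      rw [norm_mul]
      exact mul_le_one₀ (hg.bd _) (norm_nonneg _) (hcast _ (ce_abs ha hB1 _))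
    · intro p m hp hpi hm hm1 _
      rw [hsg, hs2, hs3, dn_p a B p (m + h) hp (by omega)]
      by_cases hc : m % q = c % q
      · rw [if_pos hc, if_pos ((hcls p m hp hpi).2 hc)]
        have e1 : (starRingEnd ℂ) (g p) * (((co (p * m) : S) : ℂ) * ((ce a B (m + h) : ℝ) : ℂ)) -
            ((‖g p‖ ^ 2 : ℝ) : ℂ) * (g m * ((ce a B (m + h) : ℝ) : ℂ)) =
            (starRingEnd ℂ) (g p) * ((ce a B (m + h) : ℝ) : ℂ) * (((co (p * m) : S) : ℂ) - g (p * m)) := by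
          rw [← hconj, hmul p m hp hm1]
          ring
        rw [e1, norm_mul, norm_mul, RCLike.norm_conj]
        calc ‖g p‖ * ‖((ce a B (m + h) : ℝ) : ℂ)‖ * ‖((co (p * m) : S) : ℂ) - g (p * m)‖ ≤ 1 * (ε / 40) :=
              mul_le_mul (mul_le_one₀ (hg.bd p) (norm_nonneg _) (hcast _ (ce_abs ha hB1 _))) (hcoa _) (norm_nonneg _) zero_le_one
          _ = _ := one_mul _
      · rw [if_neg hc, if_neg (fun h' => hc ((hcls p m hp hpi).1 h')), mul_zero, mul_zero, sub_zero, norm_zero]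
        positivity
    · intro i hi
      have h1 := (hN0 i (by rw [mem_Icc] at hi; omega) y (hN1 i hi) c (dn a) hda (fun n => ((co n : S) : ℂ)) (fun n => hcob _)).1
      refine le_trans (le_of_eq ?_) h1
      apply sum_congr rfl
      intro p _
      congr 2
      apply sum_congr rfl
      intro n _
      rw [hsg, hs2, hs3]

end Pool.Agent.TH575.OM
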