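import Mathlib
import Pool.Agent.TH575.OM.WinP

/-!
Multiplicative functions which are small at many primes have small mean values.
-/

set_option autoImplicit false

namespace Pool.Agent.TH575.OM

open Finset
open Pool.Agent.TH575.CW

/-- the weighted number of prime factors in `S` -/
noncomputable def wf (S : Finset ℕ) (v : ℕ → ℝ) (n : ℕ) : ℝ := ∑ p ∈ S, if p ∣ n then v p else 0

lemma cnt_dvd (N p : ℕ) : ∑ n ∈ Ioc 0 N, (if p ∣ n then (1 : ℝ) else 0) = ((N / p : ℕ) : ℝ) := by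
  rw [← sum_filter, sum_const, nsmul_eq_mul, mul_one, Nat.Ioc_filter_dvd_card_eq_div]

lemma cnt_dvd2 (N p q : ℕ) (hp : p.Prime) (hq : q.Prime) :
    ∑ n ∈ Ioc 0 N, (if p ∣ n then (1 : ℝ) else 0) * (if q ∣ n then (1 : ℝ) else 0) ≤
      N / (p * q) + if p = q then (N : ℝ) / p else 0 := by
  have hp0 : (0 : ℝ) < p := by exact_mod_cast hp.pos
  have hq0 : (0 : ℝ) < q := by exact_mod_cast hq.pos
  split_ifs with h
  · subst h
    have h1 : ∀ n ∈ Ioc 0 N, (if p ∣ n then (1 : ℝ) else 0) * (if p ∣ n then (1 : ℝ) else 0) = if p ∣ n then (1 : ℝ) else 0 := by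
      intro n _
      split_ifs <;> simp
    rw [sum_congr rfl h1, cnt_dvd]
    have h2 : ((N / p : ℕ) : ℝ) ≤ N / p := Nat.cast_div_le
    have h3 : (0 : ℝ) ≤ N / (p * p) := by positivity
    linarith
  · have h1 : ∀ n ∈ Ioc 0 N, (if p ∣ n then (1 : ℝ) else 0) * (if q ∣ n then (1 : ℝ) else 0) = if p * q ∣ n then (1 : ℝ) else 0 := by
      intro n _
      have hc : Nat.Coprime p q := (Nat.coprime_primes hp hq).2 h
      by_cases h1 : p ∣ n
      · by_cases h2 : q ∣ n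
        · rw [if_pos h1, if_pos h2, if_pos (hc.mul_dvd_of_dvd_of_dvd h1 h2), mul_one]
        · rw [if_pos h1, if_neg h2, if_neg (fun h3 => h2 (dvd_trans (dvd_mul_left _ _) h3)), mul_zero]
      · rw [if_neg h1, if_neg (fun h3 => h1 (dvd_trans (dvd_mul_right _ _) h3)), zero_mul]
    rw [sum_congr rfl h1, cnt_dvd, add_zero]
    have h2 : ((N / (p * q) : ℕ) : ℝ) ≤ N / ((p * q : ℕ) : ℝ) := Nat.cast_div_le
    push_cast at h2
    exact h2

/-- the second moment -/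
lemma tkP (S : Finset ℕ) (hS : ∀ p ∈ S, p.Prime) (v : ℕ → ℝ) (hv0 : ∀ p, 0 ≤ v p) (hv1 : ∀ p, v p ≤ 1) (N : ℕ) (D : ℝ)
    (hD : D = ∑ p ∈ S, v p / p) :
    ∑ n ∈ Ioc 0 N, (wf S v n - D) ^ 2 ≤ N * D + 2 * D * S.card := by
  have hD0 : 0 ≤ D := by
    rw [hD]
    exact sum_nonneg fun p _ => div_nonneg (hv0 p) (Nat.cast_nonneg _)
  have hwf : ∀ n, wf S v n = ∑ p ∈ S, v p * (if p ∣ n then (1 : ℝ) else 0) := by
    intro n
    unfold wf
    apply sum_congr rfl
    intro p _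
    split_ifs <;> simp
  have h1 : N * D - S.card ≤ ∑ n ∈ Ioc 0 N, wf S v n := by
    simp only [hwf]
    rw [sum_comm]
    simp only [← mul_sum]
    have h2 : ∀ p ∈ S, v p * (N / p) - 1 ≤ v p * ∑ n ∈ Ioc 0 N, (if p ∣ n then (1 : ℝ) else 0) := by
      intro p hp
      rw [cnt_dvd]
      have hp0 : (0 : ℝ) < p := by exact_mod_cast (hS p hp).pos
      have h3 : (N : ℝ) / p < ((N / p : ℕ) : ℝ) + 1 := by
        rw [div_lt_iff₀ hp0]
        have := Nat.lt_div_mul_add (a := N) (hS p hp).pos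
        have h4 : (N : ℝ) < ((N / p : ℕ) : ℝ) * p + p := by exact_mod_cast this
        linarith
      have h5 := mul_le_mul_of_nonneg_left h3.le (hv0 p)
      have h6 := hv1 p
      linarith
    refine le_trans (le_of_eq ?_) (sum_le_sum h2)
    rw [sum_sub_distrib, sum_const, nsmul_eq_mul, mul_one, hD, mul_sum]
    congr 1
    apply sum_congr rfl
    intro p _
    ring
  have h2 : ∑ n ∈ Ioc 0 N, wf S v n ^ 2 ≤ N * D ^ 2 + N * D := by
    have e1 : ∀ n ∈ Ioc 0 N, wf S v n ^ 2 = ∑ p ∈ S, ∑ q ∈ S, v p * v q * ((if p ∣ n then (1 : ℝ) else 0) * (if q ∣ n then (1 : ℝ) else 0)) := by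
      intro n _
      rw [hwf, pow_two, sum_mul_sum]
      apply sum_congr rfl
      intro p _
      apply sum_congr rfl
      intro q _
      ring
    rw [sum_congr rfl e1, sum_comm]
    have e2 : ∀ p ∈ S, ∑ n ∈ Ioc 0 N, ∑ q ∈ S, v p * v q * ((if p ∣ n then (1 : ℝ) else 0) * (if q ∣ n then (1 : ℝ) else 0)) ≤
        ∑ q ∈ S, (v p / p) * (v q / q) * N + (v p / p) * N := by
      intro p hp
      rw [sum_comm]
      have e3 : ∀ q ∈ S, ∑ n ∈ Ioc 0 N, v p * v q * ((if p ∣ n then (1 : ℝ) else 0) * (if q ∣ n then (1 : ℝ) else 0)) ≤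
          (v p / p) * (v q / q) * N + (if p = q then v p / p * N else 0) := by
        intro q hq
        rw [← mul_sum]
        have h3 := mul_le_mul_of_nonneg_left (cnt_dvd2 N p q (hS p hp) (hS q hq)) (mul_nonneg (hv0 p) (hv0 q))
        refine h3.trans ?_
        rw [mul_add]
        apply add_le_add
        · apply le_of_eq
          ring
        · split_ifs with h
          · subst h
            have h4 : v p * v p ≤ v p := mul_le_of_le_one_left (hv0 p) (hv1 p)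
            have h5 : (0 : ℝ) ≤ N / p := by positivity
            calc v p * v p * (N / p) ≤ v p * (N / p) := mul_le_mul_of_nonneg_right h4 h5
              _ = _ := by ring
          · rw [mul_zero]
      refine (sum_le_sum e3).trans ?_
      rw [sum_add_distrib, sum_ite_eq, if_pos hp]
    refine (sum_le_sum e2).trans (le_of_eq ?_)
    rw [sum_add_distrib, ← sum_mul, ← hD]
    have e4 : ∑ p ∈ S, ∑ q ∈ S, v p / p * (v q / q) * N = N * D ^ 2 := by
      simp only [← sum_mul, ← mul_sum]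
      rw [← hD]
      ring
    rw [e4]
    ring
  have h3 : ∑ n ∈ Ioc 0 N, (wf S v n - D) ^ 2 = ∑ n ∈ Ioc 0 N, wf S v n ^ 2 - 2 * D * ∑ n ∈ Ioc 0 N, wf S v n + N * D ^ 2 := by
    have e1 : ∀ n ∈ Ioc 0 N, (wf S v n - D) ^ 2 = wf S v n ^ 2 - 2 * D * wf S v n + D ^ 2 := fun n _ => by ring
    rw [sum_congr rfl e1, sum_add_distrib, sum_sub_distrib, ← mul_sum, sum_const, Nat.card_Ioc, nsmul_eq_mul, Nat.sub_zero]
  rw [h3]
  have h4 := mul_le_mul_of_nonneg_left h1 (by positivity : 0 ≤ 2 * D)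
  nlinarith

lemma expP {g : ℕ → ℂ} (hg : MD g) (S : Finset ℕ) : (∀ p ∈ S, p.Prime) → ∀ n : ℕ, (∀ p ∈ S, ¬ p ^ 2 ∣ n) →
    ‖g n‖ ≤ Real.exp (-wf S (fun p => 1 - ‖g p‖) n) := by
  induction S using Finset.induction_on with
  | empty =>
    intro _ n _
    unfold wf
    rw [sum_empty, neg_zero, Real.exp_zero]
    exact hg.bd n
  | insert q S hq ih =>
    intro hS n hn
    have hS' : ∀ p ∈ S, p.Prime := fun p hp => hS p (mem_insert_of_mem hp)
    have hqp : q.Prime := hS q (mem_insert_self _ _)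
    have hn' : ∀ p ∈ S, ¬ p ^ 2 ∣ n := fun p hp => hn p (mem_insert_of_mem hp)
    unfold wf
    rw [sum_insert hq]
    split_ifs with hqn
    · obtain ⟨m, rfl⟩ := hqn
      have hqm : ¬ q ∣ m := by
        intro h
        apply hn q (mem_insert_self _ _)
        rw [pow_two]
        exact Nat.mul_dvd_mul_left q h
      rw [hg.mul q m ((Nat.Prime.coprime_iff_not_dvd hqp).2 hqm), norm_mul, neg_add, Real.exp_add]
      have h1 : ‖g q‖ ≤ Real.exp (-(1 - ‖g q‖)) := by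
        have := Real.add_one_le_exp (-(1 - ‖g q‖))
        linarith
      have h2 := ih hS' m (fun p hp hpm => hn' p hp (dvd_mul_of_dvd_right hpm q))
      unfold wf at h2
      have h3 : ∑ p ∈ S, (if p ∣ m then 1 - ‖g p‖ else 0) = ∑ p ∈ S, (if p ∣ q * m then 1 - ‖g p‖ else 0) := by
        apply sum_congr rfl
        intro p hp
        have hpq : p ≠ q := fun h => hq (h ▸ hp)
        have h4 : p ∣ q * m ↔ p ∣ m := by
          constructor
          · intro h
            rcases (hS' p hp).dvd_mul.1 h with h5 | h5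
            · exact absurd ((Nat.prime_dvd_prime_iff_eq (hS' p hp) hqp).1 h5) hpq
            · exact h5
          · exact fun h => dvd_mul_of_dvd_right h q
        simp only [h4]
      rw [← h3]
      exact mul_le_mul h1 h2 (norm_nonneg _) (Real.exp_pos _).le
    · rw [zero_add]
      exact ih hS' n hn'

lemma meanP {g : ℕ → ℂ} (hg : MD g) (S : Finset ℕ) (hS : ∀ p ∈ S, p.Prime) (P : ℕ) (hP : 1 ≤ P) (hSP : ∀ p ∈ S, P < p)
    (N : ℕ) (D : ℝ) (hD : D = ∑ p ∈ S, (1 - ‖g p‖) / p) (hD0 : 0 < D) :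
    ∑ n ∈ Ioc 0 N, ‖g n‖ ≤ 4 * (N + 2 * S.card) / D + N * (2 / D) + N / P := by
  set v : ℕ → ℝ := fun p => 1 - ‖g p‖ with hv
  have hv0 : ∀ p, 0 ≤ v p := fun p => by have := hg.bd p; rw [hv]; simp only; linarith
  have hv1 : ∀ p, v p ≤ 1 := fun p => by have := norm_nonneg (g p); rw [hv]; simp only; linarith
  have h1 := tkP S hS v hv0 hv1 N D hD
  have hexp : Real.exp (-(D / 2)) ≤ 2 / D := by
    rw [Real.exp_neg, inv_le_comm₀ (Real.exp_pos _) (by positivity), inv_div]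
    have := Real.add_one_le_exp (D / 2)
    linarith
  have h2 : ∀ n ∈ Ioc 0 N, ‖g n‖ ≤ (wf S v n - D) ^ 2 * (4 / D ^ 2) + 2 / D + ∑ p ∈ S, if p ^ 2 ∣ n then (1 : ℝ) else 0 := by
    intro n _
    have a1 : 0 ≤ (wf S v n - D) ^ 2 * (4 / D ^ 2) := by positivity
    have a2 : 0 ≤ 2 / D := by positivity
    have a3 : 0 ≤ ∑ p ∈ S, if p ^ 2 ∣ n then (1 : ℝ) else 0 := sum_nonneg fun p _ => by split_ifs <;> simp
    by_cases h3 : ∃ p ∈ S, p ^ 2 ∣ n
    · obtain ⟨p, hp, hpn⟩ := h3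
      have h4 : (1 : ℝ) ≤ ∑ p ∈ S, if p ^ 2 ∣ n then (1 : ℝ) else 0 := by
        refine le_trans ?_ (single_le_sum (f := fun p => if p ^ 2 ∣ n then (1 : ℝ) else 0)
          (fun p _ => by split_ifs <;> simp) hp)
        rw [if_pos hpn]
      have := hg.bd n
      linarith
    · push Not at h3
      have h4 := expP hg S hS n h3
      by_cases h5 : wf S v n ≤ D / 2
      · have h6 : 1 ≤ (wf S v n - D) ^ 2 * (4 / D ^ 2) := by
          rw [mul_div_assoc', le_div_iff₀ (by positivity)]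
          nlinarith
        have := hg.bd n
        linarith
      · have h7 : Real.exp (-wf S v n) ≤ Real.exp (-(D / 2)) := Real.exp_le_exp.2 (by linarith)
        linarith
  refine (sum_le_sum h2).trans ?_
  rw [sum_add_distrib, sum_add_distrib, ← sum_mul, sum_const, Nat.card_Ioc, nsmul_eq_mul, Nat.sub_zero]
  have h3 : (∑ n ∈ Ioc 0 N, (wf S v n - D) ^ 2) * (4 / D ^ 2) ≤ 4 * (N + 2 * S.card) / D := by
    calc _ ≤ (N * D + 2 * D * S.card) * (4 / D ^ 2) := mul_le_mul_of_nonneg_right h1 (by positivity)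
      _ = _ := by field_simp
  have h4 : ∑ n ∈ Ioc 0 N, ∑ p ∈ S, (if p ^ 2 ∣ n then (1 : ℝ) else 0) ≤ N / P := by
    rw [sum_comm]
    have h5 : ∀ p ∈ S, ∑ n ∈ Ioc 0 N, (if p ^ 2 ∣ n then (1 : ℝ) else 0) ≤ N * ((p : ℝ) ^ 2)⁻¹ := by
      intro p _
      rw [cnt_dvd]
      have h6 : ((N / p ^ 2 : ℕ) : ℝ) ≤ N / ((p ^ 2 : ℕ) : ℝ) := Nat.cast_div_le
      push_cast at h6
      rw [← div_eq_mul_inv]
      exact h6
    refine (sum_le_sum h5).trans ?_
    rw [← mul_sum, div_eq_mul_inv]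
    apply mul_le_mul_of_nonneg_left _ (Nat.cast_nonneg _)
    obtain ⟨R, hR⟩ := S.exists_nat_subset_range
    have h7 : S ⊆ Ioc P (max P R) := by
      intro p hp
      rw [mem_Ioc]
      have := mem_range.1 (hR hp)
      have := hSP p hp
      omega
    have h8 := sum_Ioc_inv_sq_le_sub (α := ℝ) (k := P) (n := max P R) (by omega) (le_max_left _ _)
    refine (sum_le_sum_of_subset_of_nonneg h7 fun p _ _ => by positivity).trans (h8.trans ?_)
    have : (0 : ℝ) ≤ ((max P R : ℕ) : ℝ)⁻¹ := by positivity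
    linarith
  linarith

lemma PL_disj (δ : ℝ) {i j : ℕ} (hij : i ≠ j) : Disjoint (PL δ i) (PL δ j) := by
  rw [disjoint_left]
  intro p hp hq
  obtain ⟨a1, a2, _⟩ := PL_lt hp
  obtain ⟨b1, b2, _⟩ := PL_lt hq
  rcases Nat.lt_or_gt_of_ne hij with h | h
  · have : 2 ^ (i + 1) ≤ 2 ^ j := Nat.pow_le_pow_right (by norm_num) h
    omega
  · have : 2 ^ (j + 1) ≤ 2 ^ i := Nat.pow_le_pow_right (by norm_num) h
    omega

open scoped Classical in
theorem lightP (δ : ℝ) (hδ : 0 < δ) (i1 : ℕ) (hθ : ∀ i, i1 ≤ i → δ / 2 * 2 ^ i ≤ ∑ p ∈ PL δ i, Real.log p)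
    (h : ℕ) (ε : ℝ) (hε : 0 < ε) : ∃ (C : ℝ) (i3 : ℕ), 0 ≤ C ∧ ∀ J : ℕ, ∃ y0 : ℕ, ∀ y : ℕ, y0 ≤ y →
    ∀ g : ℕ → ℂ, MD g → C < ∑ i ∈ (Icc i3 J).filter (fun i => ¬ Hv δ g i), 1 / (i : ℝ) →
      ∀ i ∈ Icc 1 J, ∑ n ∈ Icc 1 (y / 2 ^ i + h), ‖g n‖ ≤ ε * ((y / 2 ^ i : ℕ) : ℝ) := by
  obtain ⟨i2, hi2⟩ := pow_unbounded_of_one_lt (4 / ε) (show (1 : ℝ) < 2 by norm_num)
  set i3 := i1 + i2 + 1 with hi3
  refine ⟨1280 / (ε * δ), i3, by positivity, fun J => ?_⟩
  refine ⟨2 ^ J * (2 * 2 ^ (J + 2) + h + 1), fun y hy g hg hL i hi => ?_⟩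
  set L := (Icc i3 J).filter (fun i => ¬ Hv δ g i) with hLd
  set S := L.biUnion (fun i => PL δ i) with hS
  have hSp : ∀ p ∈ S, p.Prime ∧ 2 ^ i3 < p ∧ p ≤ 2 ^ (J + 1) := by
    intro p hp
    rw [hS, mem_biUnion] at hp
    obtain ⟨j, hj, hpj⟩ := hp
    rw [hLd, mem_filter, mem_Icc] at hj
    obtain ⟨a1, a2, a3⟩ := PL_lt hpj
    have b1 : 2 ^ i3 ≤ 2 ^ j := Nat.pow_le_pow_right (by norm_num) hj.1.1
    have b2 : 2 ^ (j + 1) ≤ 2 ^ (J + 1) := Nat.pow_le_pow_right (by norm_num) (by omega)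
    exact ⟨a3, by omega, by omega⟩
  set D := ∑ p ∈ S, (1 - ‖g p‖) / p with hD
  have hD1 : δ / 32 * ∑ i ∈ L, 1 / (i : ℝ) ≤ D := by
    rw [hD, hS, sum_biUnion (fun a _ b _ hab => PL_disj δ hab), mul_sum]
    apply sum_le_sum
    intro j hj
    rw [hLd, mem_filter, mem_Icc] at hj
    obtain ⟨⟨hj1, _⟩, hj3⟩ := hj
    unfold Hv at hj3
    rw [not_le] at hj3
    have hj0 : (1 : ℝ) ≤ j := by exact_mod_cast (by omega : 1 ≤ j)
    have h2j : (0 : ℝ) < 2 ^ j := by positivity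
    have hth := hθ j (by omega)
    have h1 : δ / 8 * 2 ^ j ≤ ∑ p ∈ PL δ j, Real.log p * (1 - ‖g p‖) := by
      have h2 : ∑ p ∈ PL δ j, Real.log p * (1 - ‖g p‖ ^ 2) ≤ ∑ p ∈ PL δ j, 2 * (Real.log p * (1 - ‖g p‖)) := by
        apply sum_le_sum
        intro p hp
        have hlog : 0 ≤ Real.log p := Real.log_nonneg (by exact_mod_cast (PL_lt hp).2.2.one_lt.le)
        have h3 : 1 - ‖g p‖ ^ 2 ≤ 2 * (1 - ‖g p‖) := by nlinarith [sq_nonneg (1 - ‖g p‖)]
        calc Real.log p * (1 - ‖g p‖ ^ 2) ≤ Real.log p * (2 * (1 - ‖g p‖)) := mul_le_mul_of_nonneg_left h3 hlog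
          _ = _ := by ring
      rw [← mul_sum] at h2
      have h4 : ∑ p ∈ PL δ j, Real.log p * (1 - ‖g p‖ ^ 2) = ∑ p ∈ PL δ j, Real.log p - ∑ p ∈ PL δ j, Real.log p * ‖g p‖ ^ 2 := by
        rw [← sum_sub_distrib]
        apply sum_congr rfl
        intro p _
        ring
      rw [h4] at h2
      linarith
    have h5 : (1 / (4 * j * 2 ^ j)) * ∑ p ∈ PL δ j, Real.log p * (1 - ‖g p‖) ≤ ∑ p ∈ PL δ j, (1 - ‖g p‖) / p := by
      rw [mul_sum]
      apply sum_le_sum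
      intro p hp
      obtain ⟨a1, a2, a3⟩ := PL_lt hp
      have hp0 : (0 : ℝ) < p := by exact_mod_cast a3.pos
      have hv : 0 ≤ 1 - ‖g p‖ := by have := hg.bd p; linarith
      have hlog : Real.log p ≤ 2 * j := by
        have b1 : Real.log p ≤ Real.log ((2 : ℝ) ^ (j + 1)) := Real.log_le_log hp0 (by exact_mod_cast a2)
        rw [Real.log_pow] at b1
        push_cast at b1
        have b2 : Real.log 2 ≤ 1 := by have := Real.log_two_lt_d9; linarith
        have b3 : ((j : ℝ) + 1) * Real.log 2 ≤ (j + 1) * 1 := mul_le_mul_of_nonneg_left b2 (by positivity)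
        linarith
      have hp2 : (p : ℝ) ≤ 2 * 2 ^ j := by
        have : (p : ℝ) ≤ (2 : ℝ) ^ (j + 1) := by exact_mod_cast a2
        rw [pow_succ] at this
        linarith
      rw [le_div_iff₀ hp0]
      have h6 : Real.log p * p ≤ 2 * j * (2 * 2 ^ j) := mul_le_mul hlog hp2 hp0.le (by positivity)
      calc 1 / (4 * j * 2 ^ j) * (Real.log p * (1 - ‖g p‖)) * p = (1 - ‖g p‖) * ((Real.log p * p) / (4 * j * 2 ^ j)) := by
            field_simp
        _ ≤ (1 - ‖g p‖) * 1 := by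
            apply mul_le_mul_of_nonneg_left _ hv
            rw [div_le_one (by positivity)]
            linarith
        _ = _ := mul_one _
    refine le_trans ?_ h5
    calc δ / 32 * (1 / (j : ℝ)) = 1 / (4 * j * 2 ^ j) * (δ / 8 * 2 ^ j) := by
          field_simp
          ring
      _ ≤ _ := mul_le_mul_of_nonneg_left h1 (by positivity)
  have hD2 : 40 / ε ≤ D := by
    refine le_trans ?_ hD1
    calc 40 / ε = δ / 32 * (1280 / (ε * δ)) := by
          field_simp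
          norm_num
      _ ≤ _ := mul_le_mul_of_nonneg_left hL.le (by positivity)
  have hD0 : 0 < D := lt_of_lt_of_le (by positivity) hD2
  rw [mem_Icc] at hi
  set N := y / 2 ^ i with hN
  have hpow : 2 ^ i ≤ 2 ^ J := Nat.pow_le_pow_right (by norm_num) hi.2
  have hNl : 2 * 2 ^ (J + 2) + h + 1 ≤ N := by
    rw [hN, Nat.le_div_iff_mul_le (by positivity)]
    calc (2 * 2 ^ (J + 2) + h + 1) * 2 ^ i ≤ (2 * 2 ^ (J + 2) + h + 1) * 2 ^ J := Nat.mul_le_mul_left _ hpow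
      _ = 2 ^ J * (2 * 2 ^ (J + 2) + h + 1) := mul_comm _ _
      _ ≤ y := hy
  have hScard : S.card ≤ 2 ^ (J + 2) := by
    have h1 : S ⊆ range (2 ^ (J + 1) + 1) := by
      intro p hp
      rw [mem_range]
      have := (hSp p hp).2.2
      omega
    have h2 := card_le_card h1
    rw [card_range] at h2
    have h3 : 2 ^ (J + 1) + 1 ≤ 2 ^ (J + 2) := by
      have h4 : 2 ^ (J + 2) = 2 ^ (J + 1) + 2 ^ (J + 1) := by rw [pow_succ 2 (J + 1)]; ring
      have h5 : 1 ≤ 2 ^ (J + 1) := Nat.one_le_two_pow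
      omega
    omega
  have hm := meanP hg S (fun p hp => (hSp p hp).1) (2 ^ i3) Nat.one_le_two_pow (fun p hp => (hSp p hp).2.1) (N + h) D hD hD0
  have hIcc : Icc 1 (N + h) = Ioc 0 (N + h) := by
    ext n
    rw [mem_Icc, mem_Ioc]
    omega
  rw [hIcc]
  refine hm.trans ?_
  have hNr : ((2 * 2 ^ (J + 2) + h + 1 : ℕ) : ℝ) ≤ N := by exact_mod_cast hNl
  have hSr : (S.card : ℝ) ≤ 2 ^ (J + 2) := by exact_mod_cast hScard
  push_cast at hNr ⊢
  have hh0 : (0 : ℝ) ≤ h := Nat.cast_nonneg _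
  have hJ0 : (0 : ℝ) ≤ 2 ^ (J + 2) := by positivity
  have hN0 : (0 : ℝ) < N := by linarith
  have k1 : 4 * ((N : ℝ) + h + 2 * S.card) / D ≤ 4 * (2 * N + N) / (40 / ε) := by
    apply div_le_div₀ (by positivity) (by linarith) (by positivity) hD2
  have k2 : ((N : ℝ) + h) * (2 / D) ≤ (2 * N) * (2 / (40 / ε)) := by
    apply mul_le_mul (by linarith) _ (by positivity) (by positivity)
    exact div_le_div_of_nonneg_left (by norm_num) (by positivity) hD2
  have k3 : ((N : ℝ) + h) / 2 ^ i3 ≤ (2 * N) / (4 / ε) := by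
    apply div_le_div₀ (by positivity) (by linarith) (by positivity)
    refine hi2.le.trans (pow_le_pow_right₀ one_le_two (by omega))
  have e1 : 4 * (2 * (N : ℝ) + N) / (40 / ε) = 3 / 10 * (ε * N) := by field_simp; ring
  have e2 : (2 * (N : ℝ)) * (2 / (40 / ε)) = 1 / 10 * (ε * N) := by field_simp; ring
  have e3 : (2 * (N : ℝ)) / (4 / ε) = 1 / 2 * (ε * N) := by field_simp; ring
  have : 0 ≤ ε * N := by positivity
  linarith

end Pool.Agent.TH575.OM
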