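import Mathlib
import Pool.Agent.TH575.OM.FinO
import Pool.Agent.TH575.OM.LightP

/-!
A function of the number of prime factors and an arbitrary multiplicative function at neighbouring
integers are uncorrelated at almost all dyadic scales.
-/

set_option autoImplicit false

namespace Pool.Agent.TH575.OM

open Finset ArithmeticFunction
open Pool.Agent.TH575.CW

/-- the mean value of a function of the number of prime factors -/
noncomputable def MV (a : ℕ → ℂ) (M : ℕ) : ℂ := (∑ m ∈ Icc 1 M, a (cardFactors m)) / M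

/-- the discrepancy: the correlation of the centred function with `g`, in the class of `c` mod `q` -/
noncomputable def DG (q c k l : ℕ) (a g : ℕ → ℂ) (M : ℕ) : ℂ :=
  (∑ n ∈ Icc 1 M, if n % q = c % q then (a (cardFactors (n + k)) - MV a M) * g (n + l) else 0) / M

lemma MV_add (a a' : ℕ → ℂ) (M : ℕ) : MV (fun t => a t + a' t) M = MV a M + MV a' M := by
  unfold MV
  rw [sum_add_distrib, add_div]

lemma MV_smul (z : ℂ) (a : ℕ → ℂ) (M : ℕ) : MV (fun t => z * a t) M = z * MV a M := by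
  unfold MV
  rw [← mul_sum, mul_div_assoc]

lemma DG_add (q c k l : ℕ) (a a' g : ℕ → ℂ) (M : ℕ) : DG q c k l (fun t => a t + a' t) g M = DG q c k l a g M + DG q c k l a' g M := by
  unfold DG
  rw [MV_add, ← add_div, ← sum_add_distrib]
  congr 1
  apply sum_congr rfl
  intro n _
  split_ifs
  · ring
  · ring

lemma DG_smul (q c k l : ℕ) (z : ℂ) (a g : ℕ → ℂ) (M : ℕ) : DG q c k l (fun t => z * a t) g M = z * DG q c k l a g M := by
  unfold DG
  rw [MV_smul, mul_div_assoc', mul_sum]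
  congr 1
  apply sum_congr rfl
  intro n _
  split_ifs
  · ring
  · ring

lemma DG_sum {ι : Type*} (s : Finset ι) (q c k l : ℕ) (a : ι → ℕ → ℂ) (g : ℕ → ℂ) (M : ℕ) :
    DG q c k l (fun t => ∑ j ∈ s, a j t) g M = ∑ j ∈ s, DG q c k l (a j) g M := by
  classical
  induction s using Finset.induction_on with
  | empty =>
    simp only [sum_empty]
    unfold DG MV
    simp
  | insert j s hj ih =>
    rw [sum_insert hj, ← ih, ← DG_add]
    congr 1
    funext t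
    rw [sum_insert hj]

lemma MV_bd (a : ℕ → ℂ) (α : ℝ) (hα : 0 ≤ α) (ha : ∀ t, ‖a t‖ ≤ α) (M : ℕ) : ‖MV a M‖ ≤ α := by
  rcases Nat.eq_zero_or_pos M with hM | hM
  · rw [hM]
    unfold MV
    simp only [Nat.cast_zero, div_zero, norm_zero]
    exact hα
  have hM0 : (0 : ℝ) < M := by exact_mod_cast hM
  unfold MV
  rw [norm_div, Complex.norm_natCast, div_le_iff₀ hM0]
  refine (norm_sum_le _ _).trans ((sum_le_sum fun n _ => ha _).trans (le_of_eq ?_))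
  rw [sum_const, Nat.card_Icc, nsmul_eq_mul, Nat.add_sub_cancel, mul_comm]

lemma DG_bd (q c k l : ℕ) (a g : ℕ → ℂ) (α : ℝ) (hα : 0 ≤ α) (ha : ∀ t, ‖a t‖ ≤ α) (hg : ∀ n, ‖g n‖ ≤ 1) (M : ℕ) :
    ‖DG q c k l a g M‖ ≤ 2 * α := by
  rcases Nat.eq_zero_or_pos M with hM | hM
  · rw [hM]
    unfold DG
    simp only [Nat.cast_zero, div_zero, norm_zero]
    positivity
  have hM0 : (0 : ℝ) < M := by exact_mod_cast hM
  unfold DG
  rw [norm_div, Complex.norm_natCast, div_le_iff₀ hM0]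
  have h1 : ∀ n ∈ Icc 1 M, ‖if n % q = c % q then (a (cardFactors (n + k)) - MV a M) * g (n + l) else 0‖ ≤ 2 * α := by
    intro n _
    split_ifs
    · rw [norm_mul]
      have h2 := norm_sub_le (a (cardFactors (n + k))) (MV a M)
      have h3 := MV_bd a α hα ha M
      have h4 := ha (cardFactors (n + k))
      calc ‖a (cardFactors (n + k)) - MV a M‖ * ‖g (n + l)‖ ≤ (2 * α) * 1 :=
            mul_le_mul (by linarith) (hg _) (norm_nonneg _) (by positivity)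
        _ = _ := mul_one _
    · rw [norm_zero]
      positivity
  refine (norm_sum_le _ _).trans ((sum_le_sum h1).trans (le_of_eq ?_))
  rw [sum_const, Nat.card_Icc, nsmul_eq_mul, Nat.add_sub_cancel, mul_comm]

/-- the sum over the shifted interval -/
lemma shiftP {g : ℕ → ℂ} (hg : ∀ n, ‖g n‖ ≤ 1) (M h : ℕ) :
    ‖∑ n ∈ Icc 1 M, g (n + h) - ∑ n ∈ Icc 1 M, g n‖ ≤ 2 * h := by
  induction h with
  | zero => simp
  | succ h ih =>
    have e1 : ∑ n ∈ Icc 1 M, g (n + (h + 1)) - ∑ n ∈ Icc 1 M, g (n + h) = g (M + (h + 1)) - g (1 + h) := by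
      clear ih
      induction M with
      | zero =>
        simp only [Nat.zero_add]
        rw [show Icc 1 0 = (∅ : Finset ℕ) from rfl, sum_empty, sum_empty, add_comm h 1]
        ring
      | succ M ih2 =>
        rw [sum_Icc_succ_top (by omega), sum_Icc_succ_top (by omega)]
        have e2 : M + 1 + h = M + (h + 1) := by ring
        rw [e2]
        linear_combination ih2
    have e2 : ∑ n ∈ Icc 1 M, g (n + (h + 1)) - ∑ n ∈ Icc 1 M, g n =
        (∑ n ∈ Icc 1 M, g (n + (h + 1)) - ∑ n ∈ Icc 1 M, g (n + h)) + (∑ n ∈ Icc 1 M, g (n + h) - ∑ n ∈ Icc 1 M, g n) := by ring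
    rw [e2, e1]
    refine (norm_add_le _ _).trans ?_
    have := norm_sub_le (g (M + (h + 1))) (g (1 + h))
    have := hg (M + (h + 1))
    have := hg (1 + h)
    push_cast
    linarith

/-- the complex form of an integer valued sequence -/
def cl (a : ℕ → ℤ) : ℕ → ℂ := fun t => ((a t : ℤ) : ℂ)

lemma cl_b {a : ℕ → ℤ} (ha : ∀ l, |a l| ≤ 1) (t : ℕ) : ‖cl a t‖ ≤ 1 := by
  unfold cl
  rw [Complex.norm_intCast]
  exact_mod_cast ha t

lemma clMn (a : ℕ → ℤ) (M : ℕ) : MV (cl a) M = ((Mn (rl a) M : ℝ) : ℂ) := by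
  have h1 := Mn_nat (rl a) M
  rw [← h1]
  unfold MV
  push_cast
  rfl

/-- the sum of `g` over the class -/
noncomputable def GS (q c l : ℕ) (g : ℕ → ℂ) (M : ℕ) : ℂ := ∑ n ∈ Icc 1 M, if n % q = c % q then g (n + l) else 0

lemma GS_bd (q c l : ℕ) (g : ℕ → ℂ) (hg : ∀ n, ‖g n‖ ≤ 1) (M : ℕ) (hM : 1 ≤ M) : ‖GS q c l g M / M‖ ≤ 1 := by
  have hM0 : (0 : ℝ) < M := by exact_mod_cast hM
  unfold GS
  rw [norm_div, Complex.norm_natCast, div_le_one hM0]
  refine (norm_sum_le _ _).trans ((sum_le_sum fun n _ => norm_ite_le (hg _)).trans (le_of_eq ?_))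
  simp

lemma DG_one (q c : ℕ) (a : ℕ → ℤ) (B : ℝ) (g : ℕ → ℂ) (h M : ℕ) (hM : 1 ≤ M) : DG q c 0 h (cl a) g M =
    2 * C1 q c a B g h M / M + ((B : ℂ) - ((Mn (rl a) M : ℝ) : ℂ)) * (GS q c h g M / M) := by
  unfold DG
  rw [clMn]
  have hM0 : (M : ℂ) ≠ 0 := by exact_mod_cast (by omega : M ≠ 0)
  have e1 : ∑ n ∈ Icc 1 M, (if n % q = c % q then (cl a (cardFactors (n + 0)) - ((Mn (rl a) M : ℝ) : ℂ)) * g (n + h) else 0) =
      2 * C1 q c a B g h M + ((B : ℂ) - ((Mn (rl a) M : ℝ) : ℂ)) * GS q c h g M := by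
    unfold C1 GS
    rw [mul_sum, mul_sum, ← sum_add_distrib]
    apply sum_congr rfl
    intro n _
    split_ifs
    · unfold cl ce
      push_cast
      rw [add_zero]
      ring
    · ring
  rw [e1]
  field_simp

lemma DG_two (q c : ℕ) (a : ℕ → ℤ) (B : ℝ) (g : ℕ → ℂ) (h M : ℕ) (hM : 1 ≤ M) : DG q c h 0 (cl a) g M =
    2 * C2 q c a B g h M / M + ((B : ℂ) - ((Mn (rl a) M : ℝ) : ℂ)) * (GS q c 0 g M / M) := by
  unfold DG
  rw [clMn]
  have hM0 : (M : ℂ) ≠ 0 := by exact_mod_cast (by omega : M ≠ 0)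
  have e1 : ∑ n ∈ Icc 1 M, (if n % q = c % q then (cl a (cardFactors (n + h)) - ((Mn (rl a) M : ℝ) : ℂ)) * g (n + 0) else 0) =
      2 * C2 q c a B g h M + ((B : ℂ) - ((Mn (rl a) M : ℝ) : ℂ)) * GS q c 0 g M := by
    unfold C2 GS
    rw [mul_sum, mul_sum, ← sum_add_distrib]
    apply sum_congr rfl
    intro n _
    split_ifs
    · unfold cl ce
      push_cast
      rw [add_zero]
      ring
    · ring
  rw [e1]
  field_simp

/-- small mean values of `|g|` -/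
lemma DG_small (q c k l : ℕ) (a g : ℕ → ℂ) (h M : ℕ) (hl : l ≤ h) (hM : 1 ≤ M) (ha : ∀ t, ‖a t‖ ≤ 1) (ε : ℝ)
    (hs : ∑ n ∈ Icc 1 (M + h), ‖g n‖ ≤ ε * M) : ‖DG q c k l a g M‖ ≤ 2 * ε := by
  have hM0 : (0 : ℝ) < M := by exact_mod_cast hM
  have h1 : ∑ n ∈ Icc 1 M, ‖g (n + l)‖ ≤ ε * M := by
    refine le_trans ?_ hs
    rw [← sum_image (f := fun n => ‖g n‖) (g := fun n => n + l) (s := Icc 1 M) (by intro x _ y _ hxy; simpa using hxy)]
    apply sum_le_sum_of_subset_of_nonneg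
    · intro n hn
      rw [mem_image] at hn
      obtain ⟨m, hm, rfl⟩ := hn
      rw [mem_Icc] at hm ⊢
      omega
    · intro n _ _
      exact norm_nonneg _
  unfold DG
  rw [norm_div, Complex.norm_natCast, div_le_iff₀ hM0]
  have h2 : ∀ n ∈ Icc 1 M, ‖if n % q = c % q then (a (cardFactors (n + k)) - MV a M) * g (n + l) else 0‖ ≤ 2 * ‖g (n + l)‖ := by
    intro n _
    split_ifs
    · rw [norm_mul]
      have h2 := norm_sub_le (a (cardFactors (n + k))) (MV a M)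
      have h3 := MV_bd a 1 zero_le_one ha M
      have h4 := ha (cardFactors (n + k))
      exact mul_le_mul_of_nonneg_right (by linarith) (norm_nonneg _)
    · rw [norm_zero]
      positivity
  refine (norm_sum_le _ _).trans ((sum_le_sum h2).trans ?_)
  rw [← mul_sum]
  linarith

open scoped Classical in
/-- the main theorem for integer valued sequences -/
theorem mainPZ (h : ℕ) (hh : 1 ≤ h) (q : ℕ) (hq : 1 ≤ q) (ε : ℝ) (hε : 0 < ε) : ∃ C : ℝ, 0 ≤ C ∧ ∀ J : ℕ, ∃ y0 : ℕ, ∀ y : ℕ, y0 ≤ y →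
    ∀ c : ℕ, ∀ a : ℕ → ℤ, (∀ l, |a l| ≤ 1) → ∀ g : ℕ → ℂ, MD g →
    (∑ i ∈ (Icc 1 J).filter (fun i => ε < ‖DG q c 0 h (cl a) g (y / 2 ^ i)‖), 1 / (i : ℝ) ≤ C) ∧
    (∑ i ∈ (Icc 1 J).filter (fun i => ε < ‖DG q c h 0 (cl a) g (y / 2 ^ i)‖), 1 / (i : ℝ) ≤ C) := by
  obtain ⟨δ, CW, i1, hδ, hδ1, hCW, hθ, hw⟩ := winP h hh q hq (ε / 16) (by positivity)
  obtain ⟨CL, i3, hCL, hl⟩ := lightP δ hδ i1 hθ h (ε / 2) (by positivity)
  refine ⟨CW + i3 + CL, by positivity, fun J => ?_⟩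
  obtain ⟨y0, hy0⟩ := hw J
  obtain ⟨y1, hy1⟩ := hl J
  have h2J : (0 : ℝ) < 2 ^ J := by positivity
  obtain ⟨x₁, hx₁⟩ := Mn_scale (show (0 : ℝ) < 1 / (36 * 2 ^ J) by positivity) (show 0 < ε / 8 by positivity)
  obtain ⟨x₂, hx₂⟩ := Mn_up (show 0 < ε / 8 by positivity)
  obtain ⟨y2, hy2⟩ := exists_nat_ge (max (|x₁| + |x₂|) (max (2 * 2 ^ J) (2 ^ J * (8 * (h + 1) / ε + 1))))
  refine ⟨y0 + y1 + y2, fun y hy c a ha g hg => ?_⟩
  have hyy : (y2 : ℝ) ≤ y := by exact_mod_cast (by omega : y2 ≤ y)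
  have c1 : |x₁| + |x₂| ≤ y := (le_max_left _ _).trans (hy2.trans hyy)
  have c2 : 2 * 2 ^ J ≤ (y : ℝ) := (le_max_left _ _).trans ((le_max_right _ _).trans (hy2.trans hyy))
  have c3 : 2 ^ J * (8 * (h + 1) / ε + 1) ≤ (y : ℝ) := (le_max_right _ _).trans ((le_max_right _ _).trans (hy2.trans hyy))
  have hypos : (0 : ℝ) < y := by
    have : 0 < (2 : ℝ) * 2 ^ J := by positivity
    linarith
  have hY1 : ∀ i ∈ Icc 1 J, 1 ≤ y / 2 ^ i ∧ ((y / 2 ^ i : ℕ) : ℝ) ≤ (y : ℝ) / 2 ^ i ∧ (y : ℝ) / 2 ^ i ≤ 2 * ((y / 2 ^ i : ℕ) : ℝ) ∧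
      8 * (h + 1) / ε ≤ ((y / 2 ^ i : ℕ) : ℝ) ∧ (y : ℝ) / 2 ^ J / 2 ≤ ((y / 2 ^ i : ℕ) : ℝ) := by
    intro i hi
    rw [mem_Icc] at hi
    have h2i : (0 : ℝ) < 2 ^ i := by positivity
    have hiJ' : (2 : ℝ) ^ i ≤ 2 ^ J := pow_le_pow_right₀ one_le_two hi.2
    set N := y / 2 ^ i with hN
    set Y : ℝ := (y : ℝ) / 2 ^ i with hY
    have hNY : (N : ℝ) ≤ Y := by
      calc ((y / 2 ^ i : ℕ) : ℝ) ≤ (y : ℝ) / ((2 ^ i : ℕ) : ℝ) := Nat.cast_div_le
        _ = _ := by push_cast; rfl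
    have hYN : Y ≤ N + 1 := by
      have h1 := Nat.lt_div_mul_add (a := y) (b := 2 ^ i) (by positivity)
      have h2 : (y : ℝ) < ((y / 2 ^ i : ℕ) : ℝ) * 2 ^ i + 2 ^ i := by exact_mod_cast h1
      rw [hY, div_le_iff₀ h2i]
      linarith
    have hyJ : (y : ℝ) / 2 ^ J ≤ Y := div_le_div_of_nonneg_left (Nat.cast_nonneg _) h2i hiJ'
    have hY2 : 2 ≤ Y := le_trans (by rw [le_div_iff₀ h2J]; exact c2) hyJ
    have hY8 : 8 * (h + 1) / ε + 1 ≤ Y := le_trans (by rw [le_div_iff₀ h2J]; linarith) hyJ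
    have hN1 : 1 ≤ (N : ℝ) := by linarith
    refine ⟨by exact_mod_cast hN1, hNY, by linarith, by linarith, by linarith⟩
  set L := (Icc i3 J).filter (fun i => ¬ Hv δ g i) with hL
  have hnn : ∀ i : ℕ, (0 : ℝ) ≤ 1 / (i : ℝ) := fun i => by positivity
  by_cases hc : CL < ∑ i ∈ L, 1 / (i : ℝ)
  · -- `g` is small on average
    have h1 := hy1 y (by omega) g hg hc
    have hpos : (0 : ℝ) ≤ CW + i3 + CL := by positivity
    have h2 : ∀ k l : ℕ, l ≤ h → (Icc 1 J).filter (fun i => ε < ‖DG q c k l (cl a) g (y / 2 ^ i)‖) = ∅ := by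
      intro k l hlh
      rw [filter_eq_empty_iff]
      intro i hi
      rw [not_lt]
      have := DG_small q c k l (cl a) g h (y / 2 ^ i) hlh (hY1 i hi).1 (cl_b ha) (ε / 2) (h1 i hi)
      linarith
    rw [h2 0 h le_rfl, h2 h 0 (Nat.zero_le _), sum_empty]
    exact ⟨hpos, hpos⟩
  · rw [not_lt] at hc
    have hda : ∀ l, |dn a l| ≤ 1 := fun l => ha _
    have hw1 := hy0 y (by omega) c a ha g hg
    set B := Mn (rl (dn a)) ((18 * y : ℕ) : ℝ) with hB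
    have hy18 : ((18 * y : ℕ) : ℝ) = 18 * y := by push_cast; ring
    have h18 : (0 : ℝ) < ((18 * y : ℕ) : ℝ) := by rw [hy18]; linarith
    have hB1 : |B| ≤ 1 := Mn_abs (rl_B0 hda) h18
    have hdn : ∀ i ∈ Icc 1 J, |B - Mn (rl a) ((y / 2 ^ i : ℕ) : ℝ)| ≤ ε / 4 := by
      intro i hi
      obtain ⟨b1, b2, b3, b4, b5⟩ := hY1 i hi
      have d1 := hx₂ (18 * y) (by have := le_abs_self x₂; have := abs_nonneg x₁; linarith) (rl (dn a)) (rl_B0 hda)
      have d2 : (fun l => rl (dn a) (l + 1)) = rl a := by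
        funext l
        unfold rl dn
        rw [Nat.add_sub_cancel]
      rw [d2] at d1
      have d3 := hx₁ (18 * y) (by have := le_abs_self x₁; have := abs_nonneg x₂; linarith) ((y / 2 ^ i : ℕ) : ℝ) (by
        have e1 : 1 / (36 * 2 ^ J) * (18 * (y : ℝ)) = (y : ℝ) / 2 ^ J / 2 := by
          field_simp
          norm_num
        rw [e1]
        exact b5) (by
        have : (y : ℝ) / 2 ^ i ≤ y := div_le_self hypos.le (one_le_pow₀ one_le_two)
        linarith) (rl a) (rl_B0 ha)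
      rw [hB, hy18]
      have e2 : Mn (rl (dn a)) (18 * y) - Mn (rl a) ((y / 2 ^ i : ℕ) : ℝ) = (Mn (rl (dn a)) (18 * y) - Mn (rl a) (18 * y)) +
          (Mn (rl a) (18 * y) - Mn (rl a) ((y / 2 ^ i : ℕ) : ℝ)) := by ring
      rw [e2]
      refine (abs_add_le _ _).trans ?_
      linarith
    have hC : ∀ i ∈ Icc 1 J, ∀ Z : ℂ, ‖Z‖ ≤ ε / 16 * ((y : ℝ) / 2 ^ i) → ‖2 * Z / ((y / 2 ^ i : ℕ) : ℂ)‖ ≤ ε / 4 := by
      intro i hi Z hZ
      obtain ⟨b1, b2, b3, b4, b5⟩ := hY1 i hi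
      have hM0 : (0 : ℝ) < ((y / 2 ^ i : ℕ) : ℝ) := by exact_mod_cast b1
      rw [norm_div, Complex.norm_natCast, div_le_iff₀ hM0, norm_mul, Complex.norm_ofNat]
      nlinarith
    have hthird : ∀ l : ℕ, ∀ i ∈ Icc 1 J, ‖((B : ℂ) - ((Mn (rl a) ((y / 2 ^ i : ℕ) : ℝ) : ℝ) : ℂ)) *
        (GS q c l g (y / 2 ^ i) / ((y / 2 ^ i : ℕ) : ℂ))‖ ≤ ε / 4 := by
      intro l i hi
      rw [norm_mul, ← Complex.ofReal_sub, Complex.norm_real, Real.norm_eq_abs]
      calc _ ≤ ε / 4 * 1 := mul_le_mul (hdn i hi) (GS_bd q c l g hg.bd _ (hY1 i hi).1) (norm_nonneg _) (by positivity)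
        _ = _ := mul_one _
    have key : ∀ Bd : Finset ℕ, ∀ P : ℕ → Prop, ∑ i ∈ (Icc 1 J).filter (fun i => P i ∧ Hv δ g i), 1 / (i : ℝ) ≤ CW →
        Bd ⊆ (Icc 1 J).filter (fun i => P i) → ∑ i ∈ Bd, 1 / (i : ℝ) ≤ CW + i3 + CL := by
      intro Bd P hP hBd
      have hsub : Bd ⊆ (Icc 1 J).filter (fun i => P i ∧ Hv δ g i) ∪ (Icc 1 i3 ∪ L) := by
        intro i hi
        have h1 := hBd hi
        rw [mem_filter] at h1
        rw [mem_union, mem_union]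
        by_cases h2 : Hv δ g i
        · left
          rw [mem_filter]
          exact ⟨h1.1, h1.2, h2⟩
        · right
          have h3 := h1.1
          rw [mem_Icc] at h3
          by_cases h4 : i ≤ i3
          · left
            rw [mem_Icc]
            omega
          · right
            rw [hL, mem_filter, mem_Icc]
            exact ⟨by omega, h2⟩
      have hun : ∀ S T : Finset ℕ, ∑ i ∈ S ∪ T, 1 / (i : ℝ) ≤ ∑ i ∈ S, 1 / (i : ℝ) + ∑ i ∈ T, 1 / (i : ℝ) := by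
        intro S T
        have := sum_union_inter (s₁ := S) (s₂ := T) (f := fun i : ℕ => 1 / (i : ℝ))
        have h2 : 0 ≤ ∑ i ∈ S ∩ T, 1 / (i : ℝ) := sum_nonneg fun i _ => hnn i
        linarith
      have h5 := sum_le_sum_of_subset_of_nonneg hsub fun i _ _ => hnn i
      have h6 := hun ((Icc 1 J).filter (fun i => P i ∧ Hv δ g i)) (Icc 1 i3 ∪ L)
      have h7 := hun (Icc 1 i3) L
      have h8 : ∑ i ∈ Icc 1 i3, 1 / (i : ℝ) ≤ i3 := by
        calc ∑ i ∈ Icc 1 i3, 1 / (i : ℝ) ≤ ∑ i ∈ Icc 1 i3, (1 : ℝ) := by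
              apply sum_le_sum
              intro i hi
              rw [mem_Icc] at hi
              rw [div_le_one (by exact_mod_cast hi.1)]
              exact_mod_cast hi.1
          _ = i3 := by simp
      linarith
    constructor
    · apply key _ _ hw1.1
      intro i hi
      rw [mem_filter] at hi ⊢
      refine ⟨hi.1, ?_⟩
      by_contra hcon
      rw [not_lt] at hcon
      refine absurd hi.2 (not_lt.2 ?_)
      obtain ⟨b1, b2, b3, b4, b5⟩ := hY1 i hi.1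
      rw [DG_one q c a B g h (y / 2 ^ i) b1]
      refine (norm_add_le _ _).trans ?_
      have f4 := hC i hi.1 _ hcon
      have f5 := hthird h i hi.1
      linarith
    · apply key _ _ hw1.2
      intro i hi
      rw [mem_filter] at hi ⊢
      refine ⟨hi.1, ?_⟩
      by_contra hcon
      rw [not_lt] at hcon
      refine absurd hi.2 (not_lt.2 ?_)
      obtain ⟨b1, b2, b3, b4, b5⟩ := hY1 i hi.1
      rw [DG_two q c a B g h (y / 2 ^ i) b1]
      refine (norm_add_le _ _).trans ?_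
      have f4 := hC i hi.1 _ hcon
      have f5 := hthird 0 i hi.1
      linarith

/-- the layers of the real and the imaginary part -/
lemma DG_lay (q c k l m : ℕ) (hm : 1 ≤ m) (a : ℕ → ℂ) (ha : ∀ t, ‖a t‖ ≤ 1) (g : ℕ → ℂ) (hg : ∀ n, ‖g n‖ ≤ 1) (M : ℕ) :
    ‖DG q c k l a g M‖ ≤ 8 / m + 1 / m * ∑ s ∈ range m, (‖DG q c k l (cl (lay m (fun t => (a t).re) s)) g M‖ +
      ‖DG q c k l (cl (lay m (fun t => (a t).im) s)) g M‖) := by
  have hm0 : (0 : ℝ) < m := by exact_mod_cast hm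
  have har : ∀ l, |(a l).re| ≤ 1 := fun l => (Complex.abs_re_le_norm _).trans (ha l)
  have hai : ∀ l, |(a l).im| ≤ 1 := fun l => (Complex.abs_im_le_norm _).trans (ha l)
  set ur : ℕ → ℝ := fun t => 1 / m * ∑ s ∈ range m, (lay m (fun t => (a t).re) s t : ℝ) with hur
  set ui : ℕ → ℝ := fun t => 1 / m * ∑ s ∈ range m, (lay m (fun t => (a t).im) s t : ℝ) with hui
  have d1 : ∀ t, |(a t).re - ur t| ≤ 2 / m := fun t => lay_sum m hm (fun t => (a t).re) har t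
  have d2 : ∀ t, |(a t).im - ui t| ≤ 2 / m := fun t => lay_sum m hm (fun t => (a t).im) hai t
  set e : ℕ → ℂ := fun t => (((a t).re - ur t : ℝ) : ℂ) + (((a t).im - ui t : ℝ) : ℂ) * Complex.I with he
  have he1 : ∀ t, ‖e t‖ ≤ 4 / m := by
    intro t
    rw [he]
    refine (norm_add_le _ _).trans ?_
    rw [norm_mul, Complex.norm_I, mul_one, Complex.norm_real, Complex.norm_real, Real.norm_eq_abs, Real.norm_eq_abs]
    have := d1 t
    have := d2 t
    have e9 : (4 : ℝ) / m = 2 / m + 2 / m := by ring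
    rw [e9]
    linarith
  have e1 : a = fun t => e t + ((1 / m : ℂ) * ∑ s ∈ range m, cl (lay m (fun t => (a t).re) s) t +
      (Complex.I / m) * ∑ s ∈ range m, cl (lay m (fun t => (a t).im) s) t) := by
    funext t
    have h1 : a t = ((a t).re : ℂ) + ((a t).im : ℂ) * Complex.I := (Complex.re_add_im _).symm
    conv_lhs => rw [h1]
    rw [he]
    simp only
    rw [hur, hui]
    simp only
    unfold cl
    push_cast
    ring
  have e2 : DG q c k l a g M = DG q c k l e g M + ((1 / m : ℂ) * ∑ s ∈ range m, DG q c k l (cl (lay m (fun t => (a t).re) s)) g M +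
      (Complex.I / m) * ∑ s ∈ range m, DG q c k l (cl (lay m (fun t => (a t).im) s)) g M) := by
    conv_lhs => rw [e1]
    have t1 := DG_add q c k l e (fun t => (1 / m : ℂ) * ∑ s ∈ range m, cl (lay m (fun t => (a t).re) s) t +
      (Complex.I / m) * ∑ s ∈ range m, cl (lay m (fun t => (a t).im) s) t) g M
    have t2 := DG_add q c k l (fun t => (1 / m : ℂ) * ∑ s ∈ range m, cl (lay m (fun t => (a t).re) s) t)
      (fun t => (Complex.I / m) * ∑ s ∈ range m, cl (lay m (fun t => (a t).im) s) t) g M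
    have t3 := DG_smul q c k l (1 / m : ℂ) (fun t => ∑ s ∈ range m, cl (lay m (fun t => (a t).re) s) t) g M
    have t4 := DG_smul q c k l (Complex.I / m : ℂ) (fun t => ∑ s ∈ range m, cl (lay m (fun t => (a t).im) s) t) g M
    have t5 := DG_sum (range m) q c k l (fun s => cl (lay m (fun t => (a t).re) s)) g M
    have t6 := DG_sum (range m) q c k l (fun s => cl (lay m (fun t => (a t).im) s)) g M
    rw [t1, t2, t3, t4, t5, t6]
  rw [e2]
  refine (norm_add_le _ _).trans ?_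
  have f1 := DG_bd q c k l e g (4 / m) (by positivity) he1 hg M
  have f2 := norm_add_le ((1 / m : ℂ) * ∑ s ∈ range m, DG q c k l (cl (lay m (fun t => (a t).re) s)) g M)
    ((Complex.I / m) * ∑ s ∈ range m, DG q c k l (cl (lay m (fun t => (a t).im) s)) g M)
  have f3 : ‖(1 / m : ℂ) * ∑ s ∈ range m, DG q c k l (cl (lay m (fun t => (a t).re) s)) g M‖ ≤
      1 / m * ∑ s ∈ range m, ‖DG q c k l (cl (lay m (fun t => (a t).re) s)) g M‖ := by
    rw [norm_mul, norm_div, norm_one, Complex.norm_natCast]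
    exact mul_le_mul_of_nonneg_left (norm_sum_le _ _) (by positivity)
  have f4 : ‖(Complex.I / m : ℂ) * ∑ s ∈ range m, DG q c k l (cl (lay m (fun t => (a t).im) s)) g M‖ ≤
      1 / m * ∑ s ∈ range m, ‖DG q c k l (cl (lay m (fun t => (a t).im) s)) g M‖ := by
    rw [norm_mul, norm_div, Complex.norm_I, Complex.norm_natCast]
    exact mul_le_mul_of_nonneg_left (norm_sum_le _ _) (by positivity)
  rw [sum_add_distrib, mul_add]
  have e3 : (8 : ℝ) / m = 2 * (4 / m) := by ring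
  rw [e3]
  linarith

open scoped Classical in
/-- one direction, complex valued sequences -/
lemma avP (q c k l : ℕ) (ε C : ℝ) (hε : 0 < ε) (J y : ℕ) (g : ℕ → ℂ) (hg : ∀ n, ‖g n‖ ≤ 1)
    (hz : ∀ a : ℕ → ℤ, (∀ l, |a l| ≤ 1) → ∑ i ∈ (Icc 1 J).filter (fun i => ε / 8 < ‖DG q c k l (cl a) g (y / 2 ^ i)‖), 1 / (i : ℝ) ≤ C)
    (a : ℕ → ℂ) (ha : ∀ t, ‖a t‖ ≤ 1) :
    ∑ i ∈ (Icc 1 J).filter (fun i => ε < ‖DG q c k l a g (y / 2 ^ i)‖), 1 / (i : ℝ) ≤ 8 / ε * C := by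
  obtain ⟨m, hm⟩ := exists_nat_ge (max 1 (32 / ε))
  have hm1R : (1 : ℝ) ≤ m := (le_max_left _ _).trans hm
  have hm2 : 32 / ε ≤ m := (le_max_right _ _).trans hm
  have hm1 : 1 ≤ m := by exact_mod_cast hm1R
  have hm0 : (0 : ℝ) < m := by linarith
  set Bad := (Icc 1 J).filter (fun i => ε < ‖DG q c k l a g (y / 2 ^ i)‖) with hBad
  set ar : ℕ → ℕ → ℤ := fun s => lay m (fun t => (a t).re) s with har
  set ai : ℕ → ℕ → ℤ := fun s => lay m (fun t => (a t).im) s with hai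
  have key : ∀ i ∈ Bad, 1 ≤ 4 / ε * (1 / m * ∑ s ∈ range m,
      ((if ε / 8 < ‖DG q c k l (cl (ar s)) g (y / 2 ^ i)‖ then (1 : ℝ) else 0) +
        (if ε / 8 < ‖DG q c k l (cl (ai s)) g (y / 2 ^ i)‖ then (1 : ℝ) else 0))) := by
    intro i hi
    rw [hBad, mem_filter] at hi
    have h1 := DG_lay q c k l m hm1 a ha g hg (y / 2 ^ i)
    have h2 : ∀ b : ℕ → ℤ, (∀ l, |b l| ≤ 1) → ‖DG q c k l (cl b) g (y / 2 ^ i)‖ ≤
        ε / 8 + 2 * (if ε / 8 < ‖DG q c k l (cl b) g (y / 2 ^ i)‖ then (1 : ℝ) else 0) := by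
      intro b hb
      split_ifs with hc
      · have := DG_bd q c k l (cl b) g 1 zero_le_one (cl_b hb) hg (y / 2 ^ i)
        linarith
      · rw [not_lt] at hc
        linarith
    have h3 := sum_le_sum fun s (_ : s ∈ range m) => add_le_add (h2 (ar s) (lay_b m _ s)) (h2 (ai s) (lay_b m _ s))
    set Z := ∑ s ∈ range m,
      ((if ε / 8 < ‖DG q c k l (cl (ar s)) g (y / 2 ^ i)‖ then (1 : ℝ) else 0) +
        (if ε / 8 < ‖DG q c k l (cl (ai s)) g (y / 2 ^ i)‖ then (1 : ℝ) else 0)) with hZ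
    have h4 : ∑ s ∈ range m, ((ε / 8 + 2 * (if ε / 8 < ‖DG q c k l (cl (ar s)) g (y / 2 ^ i)‖ then (1 : ℝ) else 0)) +
        (ε / 8 + 2 * (if ε / 8 < ‖DG q c k l (cl (ai s)) g (y / 2 ^ i)‖ then (1 : ℝ) else 0))) = m * (ε / 4) + 2 * Z := by
      have : ∀ s ∈ range m, ((ε / 8 + 2 * (if ε / 8 < ‖DG q c k l (cl (ar s)) g (y / 2 ^ i)‖ then (1 : ℝ) else 0)) +
        (ε / 8 + 2 * (if ε / 8 < ‖DG q c k l (cl (ai s)) g (y / 2 ^ i)‖ then (1 : ℝ) else 0))) =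
        ε / 4 + 2 * ((if ε / 8 < ‖DG q c k l (cl (ar s)) g (y / 2 ^ i)‖ then (1 : ℝ) else 0) +
        (if ε / 8 < ‖DG q c k l (cl (ai s)) g (y / 2 ^ i)‖ then (1 : ℝ) else 0)) := fun s _ => by ring
      rw [sum_congr rfl this, sum_add_distrib, ← mul_sum, sum_const, card_range, nsmul_eq_mul]
    rw [h4] at h3
    have h5 : (8 : ℝ) / m ≤ ε / 4 := by
      rw [div_le_iff₀ hε] at hm2
      rw [div_le_iff₀ hm0]
      linarith
    have h6 : 1 / (m : ℝ) * (m * (ε / 4) + 2 * Z) = ε / 4 + 2 * (1 / m * Z) := by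
      field_simp
    have h7 := mul_le_mul_of_nonneg_left h3 (by positivity : (0 : ℝ) ≤ 1 / m)
    rw [h6] at h7
    have h8 : ε / 4 ≤ 1 / m * Z := by linarith [hi.2]
    have h9 := mul_le_mul_of_nonneg_left h8 (by positivity : 0 ≤ 4 / ε)
    have h10 : 4 / ε * (ε / 4) = 1 := by field_simp
    linarith
  have hone : ∀ b : ℕ → ℤ, (∀ l, |b l| ≤ 1) → ∑ i ∈ Bad, 1 / (i : ℝ) *
      (if ε / 8 < ‖DG q c k l (cl b) g (y / 2 ^ i)‖ then (1 : ℝ) else 0) ≤ C := by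
    intro b hb
    refine le_trans ?_ (hz b hb)
    simp only [mul_ite, mul_one, mul_zero]
    rw [← sum_filter]
    apply sum_le_sum_of_subset_of_nonneg
    · intro i hi
      rw [mem_filter, hBad, mem_filter] at hi
      rw [mem_filter]
      exact ⟨hi.1.1, hi.2⟩
    · intro i _ _
      positivity
  calc ∑ i ∈ Bad, 1 / (i : ℝ) ≤ ∑ i ∈ Bad, 1 / (i : ℝ) * (4 / ε * (1 / m * ∑ s ∈ range m,
      ((if ε / 8 < ‖DG q c k l (cl (ar s)) g (y / 2 ^ i)‖ then (1 : ℝ) else 0) +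
        (if ε / 8 < ‖DG q c k l (cl (ai s)) g (y / 2 ^ i)‖ then (1 : ℝ) else 0)))) := by
        apply sum_le_sum
        intro i hi
        exact le_mul_of_one_le_right (by positivity) (key i hi)
    _ = 4 / ε * (1 / m * ∑ s ∈ range m, (∑ i ∈ Bad, 1 / (i : ℝ) * (if ε / 8 < ‖DG q c k l (cl (ar s)) g (y / 2 ^ i)‖ then (1 : ℝ) else 0) +
        ∑ i ∈ Bad, 1 / (i : ℝ) * (if ε / 8 < ‖DG q c k l (cl (ai s)) g (y / 2 ^ i)‖ then (1 : ℝ) else 0))) := by
        have e1 : ∀ i ∈ Bad, 1 / (i : ℝ) * (4 / ε * (1 / m * ∑ s ∈ range m,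
          ((if ε / 8 < ‖DG q c k l (cl (ar s)) g (y / 2 ^ i)‖ then (1 : ℝ) else 0) +
            (if ε / 8 < ‖DG q c k l (cl (ai s)) g (y / 2 ^ i)‖ then (1 : ℝ) else 0)))) =
          4 / ε * (1 / m * ∑ s ∈ range m, (1 / (i : ℝ) * (if ε / 8 < ‖DG q c k l (cl (ar s)) g (y / 2 ^ i)‖ then (1 : ℝ) else 0) +
            1 / (i : ℝ) * (if ε / 8 < ‖DG q c k l (cl (ai s)) g (y / 2 ^ i)‖ then (1 : ℝ) else 0))) := by
          intro i _
          simp only [← mul_add, ← mul_sum]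
          ring
        rw [sum_congr rfl e1, ← mul_sum, ← mul_sum]
        congr 2
        rw [sum_comm]
        apply sum_congr rfl
        intro s _
        rw [sum_add_distrib]
    _ ≤ 4 / ε * (1 / m * ∑ s ∈ range m, (C + C)) := by
        apply mul_le_mul_of_nonneg_left _ (by positivity)
        apply mul_le_mul_of_nonneg_left _ (by positivity)
        apply sum_le_sum
        intro s _
        exact add_le_add (hone (ar s) (lay_b m _ s)) (hone (ai s) (lay_b m _ s))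
    _ = 8 / ε * C := by
        rw [sum_const, card_range, nsmul_eq_mul]
        field_simp
        ring

/-- shifting both arguments -/
lemma DG_shift (q c k l m : ℕ) (a g : ℕ → ℂ) (ha : ∀ t, ‖a t‖ ≤ 1) (hg : ∀ n, ‖g n‖ ≤ 1) (M : ℕ) (hM : 1 ≤ M) :
    ‖DG q c (k + m) (l + m) a g M - DG q (c + m) k l a g M‖ ≤ 4 * m / M := by
  have hM0 : (0 : ℝ) < M := by exact_mod_cast hM
  set φ : ℕ → ℂ := fun n => if n % q = (c + m) % q then (a (cardFactors (n + k)) - MV a M) / 2 * g (n + l) else 0 with hφ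
  have hφb : ∀ n, ‖φ n‖ ≤ 1 := by
    intro n
    apply norm_ite_le
    rw [norm_mul]
    apply mul_le_one₀ _ (norm_nonneg _) (hg _)
    rw [norm_div, Complex.norm_ofNat, div_le_one two_pos]
    have h2 := norm_sub_le (a (cardFactors (n + k))) (MV a M)
    have h3 := MV_bd a 1 zero_le_one ha M
    have h4 := ha (cardFactors (n + k))
    linarith
  have h1 := shiftP hφb M m
  have e1 : DG q c (k + m) (l + m) a g M = 2 * (∑ n ∈ Icc 1 M, φ (n + m)) / M := by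
    unfold DG
    rw [mul_sum]
    congr 1
    apply sum_congr rfl
    intro n _
    rw [hφ]
    simp only
    have h11 : (n + m) % q = (c + m) % q ↔ n % q = c % q :=
      ⟨fun h' => Nat.ModEq.add_right_cancel' m h', fun h' => Nat.ModEq.add_right m h'⟩
    have e2 : n + (k + m) = n + m + k := by ring
    have e3 : n + (l + m) = n + m + l := by ring
    rw [e2, e3]
    by_cases hc : n % q = c % q
    · rw [if_pos hc, if_pos (h11.2 hc)]
      ring
    · rw [if_neg hc, if_neg (fun h' => hc (h11.1 h')), mul_zero]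
  have e4 : DG q (c + m) k l a g M = 2 * (∑ n ∈ Icc 1 M, φ n) / M := by
    unfold DG
    rw [mul_sum]
    congr 1
    apply sum_congr rfl
    intro n _
    rw [hφ]
    simp only
    split_ifs <;> ring
  rw [e1, e4]
  have e5 : 2 * (∑ n ∈ Icc 1 M, φ (n + m)) / (M : ℂ) - 2 * (∑ n ∈ Icc 1 M, φ n) / (M : ℂ) =
      2 * (∑ n ∈ Icc 1 M, φ (n + m) - ∑ n ∈ Icc 1 M, φ n) / (M : ℂ) := by ring
  rw [e5, norm_div, norm_mul, Complex.norm_ofNat, Complex.norm_natCast]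
  apply div_le_div_of_nonneg_right _ hM0.le
  linarith

/-- the mean value of `z^Ω(n)` for `z` away from `1` -/
lemma MV_z (ε : ℝ) (hε : 0 < ε) : ∃ x₀ : ℕ, ∀ M : ℕ, x₀ ≤ M → ∀ z : ℂ, ‖z‖ ≤ 1 → ε ≤ ‖z - 1‖ → ‖MV (fun t => z ^ t) M‖ ≤ ε / 2 := by
  obtain ⟨x, hx⟩ := Mn_up (show 0 < ε ^ 2 / 8 by positivity)
  obtain ⟨x₀, hx₀⟩ := exists_nat_ge x
  refine ⟨x₀, fun M hM z hz hz1 => ?_⟩
  have hxM : x ≤ (M : ℝ) := hx₀.trans (by exact_mod_cast hM)
  have hzt : ∀ t : ℕ, ‖z ^ t‖ ≤ 1 := fun t => by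
    rw [norm_pow]
    exact pow_le_one₀ (norm_nonneg _) hz
  have h1 := hx M hxM (fun t => (z ^ t).re) (fun t => (Complex.abs_re_le_norm _).trans (hzt t))
  have h2 := hx M hxM (fun t => (z ^ t).im) (fun t => (Complex.abs_im_le_norm _).trans (hzt t))
  have hre : ∀ a : ℕ → ℂ, (MV a M).re = Mn (fun t => (a t).re) M := by
    intro a
    rw [← Mn_nat]
    unfold MV
    rw [Complex.div_natCast_re, Complex.re_sum]
  have him : ∀ a : ℕ → ℂ, (MV a M).im = Mn (fun t => (a t).im) M := by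
    intro a
    rw [← Mn_nat]
    unfold MV
    rw [Complex.div_natCast_im, Complex.im_sum]
  set m := MV (fun t => z ^ t) M with hm
  have e1 : MV (fun t => z ^ (t + 1)) M = z * m := by
    have : (fun t : ℕ => z ^ (t + 1)) = fun t => z * z ^ t := by
      funext t
      rw [pow_succ, mul_comm]
    rw [this, MV_smul]
  rw [← hre (fun t => z ^ t), ← hre (fun t => z ^ (t + 1)), e1, ← hm, ← Complex.sub_re] at h1
  rw [← him (fun t => z ^ t), ← him (fun t => z ^ (t + 1)), e1, ← hm, ← Complex.sub_im] at h2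
  have h3 := Complex.norm_le_abs_re_add_abs_im (m - z * m)
  have e2 : m - z * m = (1 - z) * m := by ring
  have h4 : ‖(1 - z) * m‖ ≤ ε ^ 2 / 4 := by
    rw [← e2]
    linarith
  rw [norm_mul, norm_sub_rev] at h4
  have h5 : ε * ‖m‖ ≤ ε ^ 2 / 4 := (mul_le_mul_of_nonneg_right hz1 (norm_nonneg _)).trans h4
  have h6 : ε * ‖m‖ ≤ ε * (ε / 4) := by
    calc ε * ‖m‖ ≤ ε ^ 2 / 4 := h5
      _ = _ := by ring
  have h7 := le_of_mul_le_mul_left h6 hε
  linarith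

open scoped Classical in
/-- complex valued sequences, both directions -/
theorem mainP (h : ℕ) (hh : 1 ≤ h) (q : ℕ) (hq : 1 ≤ q) (ε : ℝ) (hε : 0 < ε) : ∃ C : ℝ, ∀ J : ℕ, ∃ y0 : ℕ, ∀ y : ℕ, y0 ≤ y →
    ∀ c : ℕ, ∀ a : ℕ → ℂ, (∀ t, ‖a t‖ ≤ 1) → ∀ g : ℕ → ℂ, MD g →
    (∑ i ∈ (Icc 1 J).filter (fun i => ε < ‖DG q c 0 h a g (y / 2 ^ i)‖), 1 / (i : ℝ) ≤ C) ∧
    (∑ i ∈ (Icc 1 J).filter (fun i => ε < ‖DG q c h 0 a g (y / 2 ^ i)‖), 1 / (i : ℝ) ≤ C) := by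
  obtain ⟨C, hC, hw⟩ := mainPZ h hh q hq (ε / 8) (by positivity)
  refine ⟨8 / ε * C, fun J => ?_⟩
  obtain ⟨y0, hy0⟩ := hw J
  refine ⟨y0, fun y hy c a ha g hg => ⟨?_, ?_⟩⟩
  · exact avP q c 0 h ε C hε J y g hg.bd (fun b hb => (hy0 y hy c b hb g hg).1) a ha
  · exact avP q c h 0 ε C hε J y g hg.bd (fun b hb => (hy0 y hy c b hb g hg).2) a ha

open scoped Classical in
/-- arbitrary distinct shifts -/
theorem mainK (k l : ℕ) (hkl : k ≠ l) (q : ℕ) (hq : 1 ≤ q) (ε : ℝ) (hε : 0 < ε) : ∃ C : ℝ, ∀ J : ℕ, ∃ y0 : ℕ, ∀ y : ℕ, y0 ≤ y →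
    ∀ c : ℕ, ∀ a : ℕ → ℂ, (∀ t, ‖a t‖ ≤ 1) → ∀ g : ℕ → ℂ, MD g →
    ∑ i ∈ (Icc 1 J).filter (fun i => ε < ‖DG q c k l a g (y / 2 ^ i)‖), 1 / (i : ℝ) ≤ C := by
  obtain ⟨k', l', m, h, hh, hk, hl, hor⟩ : ∃ k' l' m h : ℕ, 1 ≤ h ∧ k = k' + m ∧ l = l' + m ∧ ((k' = 0 ∧ l' = h) ∨ (k' = h ∧ l' = 0)) := by
    rcases Nat.lt_or_gt_of_ne hkl with h1 | h1
    · exact ⟨0, l - k, k, l - k, by omega, by omega, by omega, Or.inl ⟨rfl, rfl⟩⟩
    · exact ⟨k - l, 0, l, k - l, by omega, by omega, by omega, Or.inr ⟨rfl, rfl⟩⟩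
  obtain ⟨C, hw⟩ := mainP h hh q hq (ε / 2) (by positivity)
  refine ⟨C, fun J => ?_⟩
  obtain ⟨y0, hy0⟩ := hw J
  obtain ⟨y1, hy1⟩ := exists_nat_ge (8 * m / ε + 1)
  refine ⟨y0 + 2 ^ J * (y1 + 1), fun y hy c a ha g hg => ?_⟩
  have hsub : (Icc 1 J).filter (fun i => ε < ‖DG q c k l a g (y / 2 ^ i)‖) ⊆
      (Icc 1 J).filter (fun i => ε / 2 < ‖DG q (c + m) k' l' a g (y / 2 ^ i)‖) := by
    intro i hi
    rw [mem_filter] at hi ⊢
    refine ⟨hi.1, ?_⟩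
    have h1 := hi.2
    rw [mem_Icc] at hi
    have hpow : 2 ^ i ≤ 2 ^ J := Nat.pow_le_pow_right (by norm_num) hi.1.2
    have hN : y1 + 1 ≤ y / 2 ^ i := by
      rw [Nat.le_div_iff_mul_le (by positivity)]
      calc (y1 + 1) * 2 ^ i ≤ (y1 + 1) * 2 ^ J := Nat.mul_le_mul_left _ hpow
        _ = 2 ^ J * (y1 + 1) := mul_comm _ _
        _ ≤ y := by omega
    have h2 := DG_shift q c k' l' m a g ha hg.bd (y / 2 ^ i) (by omega)
    rw [← hk, ← hl] at h2
    have hM0 : (0 : ℝ) < ((y / 2 ^ i : ℕ) : ℝ) := by exact_mod_cast (by omega : 0 < y / 2 ^ i)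
    have h3 : 4 * (m : ℝ) / ((y / 2 ^ i : ℕ) : ℝ) ≤ ε / 2 := by
      rw [div_le_iff₀ hM0]
      have h4 : 8 * (m : ℝ) / ε ≤ ((y / 2 ^ i : ℕ) : ℝ) := by
        have : ((y1 + 1 : ℕ) : ℝ) ≤ ((y / 2 ^ i : ℕ) : ℝ) := by exact_mod_cast hN
        push_cast at this
        linarith
      rw [div_le_iff₀ hε] at h4
      linarith
    have h5 : ‖DG q c k l a g (y / 2 ^ i)‖ ≤ ‖DG q c k l a g (y / 2 ^ i) - DG q (c + m) k' l' a g (y / 2 ^ i)‖ +
        ‖DG q (c + m) k' l' a g (y / 2 ^ i)‖ := by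
      have := norm_add_le (DG q c k l a g (y / 2 ^ i) - DG q (c + m) k' l' a g (y / 2 ^ i)) (DG q (c + m) k' l' a g (y / 2 ^ i))
      rwa [sub_add_cancel] at this
    linarith
  refine (sum_le_sum_of_subset_of_nonneg hsub fun i _ _ => by positivity).trans ?_
  have h6 := hy0 y (by omega) (c + m) a ha g hg
  rcases hor with ⟨rfl, rfl⟩ | ⟨rfl, rfl⟩
  · exact h6.1
  · exact h6.2

open scoped Classical in
/-- the correlations of `z^Ω(n)` and `g`, for `z` away from `1` -/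
theorem mainZz (k l : ℕ) (hkl : k ≠ l) (q : ℕ) (hq : 1 ≤ q) (ε : ℝ) (hε : 0 < ε) : ∃ C : ℝ, ∀ J : ℕ, ∃ y0 : ℕ, ∀ y : ℕ, y0 ≤ y →
    ∀ c : ℕ, ∀ g : ℕ → ℂ, MD g →
    (∀ a : ℕ → ℂ, (∀ t, ‖a t‖ ≤ 1) →
      ∑ i ∈ (Icc 1 J).filter (fun i => ε < ‖DG q c k l a g (y / 2 ^ i)‖), 1 / (i : ℝ) ≤ C) ∧
    (∀ z : ℂ, ‖z‖ ≤ 1 → ε ≤ ‖z - 1‖ → ∑ i ∈ (Icc 1 J).filter (fun i => ε <
      ‖(∑ n ∈ Icc 1 (y / 2 ^ i), if n % q = c % q then z ^ (cardFactors (n + k)) * g (n + l) else 0) / ((y / 2 ^ i : ℕ) : ℂ)‖),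
        1 / (i : ℝ) ≤ C) := by
  obtain ⟨C, hw⟩ := mainK k l hkl q hq (ε / 2) (by positivity)
  obtain ⟨x₀, hx₀⟩ := MV_z ε hε
  refine ⟨C, fun J => ?_⟩
  obtain ⟨y0, hy0⟩ := hw J
  refine ⟨y0 + 2 ^ J * (x₀ + 1), fun y hy c g hg => ⟨fun a ha => ?_, fun z hz hz1 => ?_⟩⟩
  · refine le_trans ?_ (hy0 y (by omega) c a ha g hg)
    apply sum_le_sum_of_subset_of_nonneg _ fun i _ _ => by positivity
    intro i hi
    rw [mem_filter] at hi ⊢
    exact ⟨hi.1, by linarith [hi.2]⟩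
  · have hzt : ∀ t : ℕ, ‖z ^ t‖ ≤ 1 := fun t => by
      rw [norm_pow]
      exact pow_le_one₀ (norm_nonneg _) hz
    refine le_trans ?_ (hy0 y (by omega) c (fun t => z ^ t) hzt g hg)
    apply sum_le_sum_of_subset_of_nonneg _ fun i _ _ => by positivity
    intro i hi
    rw [mem_filter] at hi ⊢
    refine ⟨hi.1, ?_⟩
    have h1 := hi.2
    rw [mem_Icc] at hi
    have hpow : 2 ^ i ≤ 2 ^ J := Nat.pow_le_pow_right (by norm_num) hi.1.2
    have hN : x₀ + 1 ≤ y / 2 ^ i := by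
      rw [Nat.le_div_iff_mul_le (by positivity)]
      calc (x₀ + 1) * 2 ^ i ≤ (x₀ + 1) * 2 ^ J := Nat.mul_le_mul_left _ hpow
        _ = 2 ^ J * (x₀ + 1) := mul_comm _ _
        _ ≤ y := by omega
    have h2 := hx₀ (y / 2 ^ i) (by omega) z hz hz1
    have h3 := GS_bd q c l g hg.bd (y / 2 ^ i) (by omega)
    have e1 : (∑ n ∈ Icc 1 (y / 2 ^ i), if n % q = c % q then z ^ (cardFactors (n + k)) * g (n + l) else 0) / ((y / 2 ^ i : ℕ) : ℂ) =
        DG q c k l (fun t => z ^ t) g (y / 2 ^ i) + MV (fun t => z ^ t) (y / 2 ^ i) * (GS q c l g (y / 2 ^ i) / ((y / 2 ^ i : ℕ) : ℂ)) := by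
      unfold DG GS
      rw [mul_div_assoc', mul_sum, ← add_div, ← sum_add_distrib]
      congr 1
      apply sum_congr rfl
      intro n _
      split_ifs
      · ring
      · ring
    rw [e1] at h1
    have h4 := norm_add_le (DG q c k l (fun t => z ^ t) g (y / 2 ^ i))
      (MV (fun t => z ^ t) (y / 2 ^ i) * (GS q c l g (y / 2 ^ i) / ((y / 2 ^ i : ℕ) : ℂ)))
    have h5 : ‖MV (fun t => z ^ t) (y / 2 ^ i) * (GS q c l g (y / 2 ^ i) / ((y / 2 ^ i : ℕ) : ℂ))‖ ≤ ε / 2 := by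
      rw [norm_mul]
      calc _ ≤ (ε / 2) * 1 := mul_le_mul h2 h3 (norm_nonneg _) (by positivity)
        _ = _ := mul_one _
    linarith

end Pool.Agent.TH575.OM
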