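import Mathlib
import Pool.Agent.TH575.OM.FinP

/-!
The same with periodic weights and the factor `n^{it}`.
-/

set_option autoImplicit false

namespace Pool.Agent.TH575.OM

open Finset ArithmeticFunction
open Pool.Agent.TH575.CW

/-- `n^{it}` -/
noncomputable def nit (t : ℝ) (n : ℕ) : ℂ := Complex.exp (((t * Real.log n : ℝ) : ℂ) * Complex.I)

lemma nit_norm (t : ℝ) (n : ℕ) : ‖nit t n‖ = 1 := by
  unfold nit
  exact Complex.norm_exp_ofReal_mul_I _

lemma nit_mul (t : ℝ) (m n : ℕ) (hm : m ≠ 0) (hn : n ≠ 0) : nit t (m * n) = nit t m * nit t n := by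
  unfold nit
  rw [← Complex.exp_add, Nat.cast_mul, Real.log_mul (by exact_mod_cast hm) (by exact_mod_cast hn)]
  congr 1
  push_cast
  ring

lemma log_diff (n d : ℕ) (hn : 1 ≤ n) : |Real.log ((n + d : ℕ) : ℝ) - Real.log (n : ℝ)| ≤ d / n := by
  have hn0 : (0 : ℝ) < n := by exact_mod_cast hn
  have h1 : Real.log (n : ℝ) ≤ Real.log ((n + d : ℕ) : ℝ) := Real.log_le_log hn0 (by exact_mod_cast (by omega : n ≤ n + d))
  rw [abs_of_nonneg (by linarith), ← Real.log_div (by positivity) hn0.ne']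
  have h2 : ((n + d : ℕ) : ℝ) / n = 1 + d / n := by
    push_cast
    field_simp
  rw [h2]
  have h3 : (0 : ℝ) ≤ d / n := by positivity
  have := Real.log_le_sub_one_of_pos (show (0 : ℝ) < 1 + d / n by linarith)
  linarith

lemma nit_diff (t : ℝ) (k l n : ℕ) (hn : 1 ≤ n) : ‖nit t (n + k) - nit t (n + l)‖ ≤ |t| * (k + l) / n := by
  have hn0 : (0 : ℝ) < n := by exact_mod_cast hn
  have h1 : ‖nit t (n + k) - nit t (n + l)‖ ≤ |t * Real.log ((n + k : ℕ) : ℝ) - t * Real.log ((n + l : ℕ) : ℝ)| := by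
    unfold nit
    set α : ℝ := t * Real.log ((n + k : ℕ) : ℝ)
    set β : ℝ := t * Real.log ((n + l : ℕ) : ℝ)
    have h2 : Complex.exp ((α : ℂ) * Complex.I) - Complex.exp ((β : ℂ) * Complex.I) =
        Complex.exp ((β : ℂ) * Complex.I) * (Complex.exp (Complex.I * ((α - β : ℝ) : ℂ)) - 1) := by
      rw [mul_sub, mul_one, ← Complex.exp_add]
      congr 2
      push_cast
      ring
    rw [h2, norm_mul, Complex.norm_exp_ofReal_mul_I, one_mul]
    exact Real.norm_exp_I_mul_ofReal_sub_one_le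
  refine h1.trans ?_
  rw [← mul_sub, abs_mul, mul_div_assoc]
  apply mul_le_mul_of_nonneg_left _ (abs_nonneg _)
  have h3 := log_diff n k hn
  have h4 := log_diff n l hn
  have h5 : Real.log ((n + k : ℕ) : ℝ) - Real.log ((n + l : ℕ) : ℝ) =
      (Real.log ((n + k : ℕ) : ℝ) - Real.log (n : ℝ)) - (Real.log ((n + l : ℕ) : ℝ) - Real.log (n : ℝ)) := by ring
  rw [h5]
  refine (abs_sub _ _).trans ?_
  rw [add_div]
  linarith

lemma nit_sum (t : ℝ) (k l M : ℕ) (η : ℝ) (hη : 0 < η) (hM : 1 ≤ M) :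
    ∑ n ∈ Icc 1 M, ‖nit t (n + k) - nit t (n + l)‖ ≤ 2 * (η * M) + |t| * (k + l) / η := by
  have hM0 : (0 : ℝ) < M := by exact_mod_cast hM
  have h1 : ∀ n ∈ Icc 1 M, ‖nit t (n + k) - nit t (n + l)‖ ≤ (if (n : ℝ) ≤ η * M then (2 : ℝ) else 0) + |t| * (k + l) / (η * M) := by
    intro n hn
    rw [mem_Icc] at hn
    have h2 : (0 : ℝ) ≤ |t| * (k + l) / (η * M) := by positivity
    split_ifs with h
    · have := norm_sub_le (nit t (n + k)) (nit t (n + l))
      rw [nit_norm, nit_norm] at this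
      linarith
    · rw [not_le] at h
      rw [zero_add]
      refine (nit_diff t k l n hn.1).trans ?_
      exact div_le_div_of_nonneg_left (by positivity) (by positivity) h.le
  refine (sum_le_sum h1).trans ?_
  rw [sum_add_distrib, sum_const, Nat.card_Icc, nsmul_eq_mul, Nat.add_sub_cancel, ← sum_filter, sum_const, nsmul_eq_mul]
  apply add_le_add
  · have h3 : (Icc 1 M).filter (fun n : ℕ => (n : ℝ) ≤ η * M) ⊆ Icc 1 ⌊η * M⌋₊ := by
      intro n hn
      rw [mem_filter, mem_Icc] at hn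
      rw [mem_Icc]
      exact ⟨hn.1.1, Nat.le_floor hn.2⟩
    have h4 := card_le_card h3
    rw [Nat.card_Icc, Nat.add_sub_cancel] at h4
    have h5 : (⌊η * M⌋₊ : ℝ) ≤ η * M := Nat.floor_le (by positivity)
    have h6 : (((Icc 1 M).filter (fun n : ℕ => (n : ℝ) ≤ η * M)).card : ℝ) ≤ ⌊η * M⌋₊ := by exact_mod_cast h4
    linarith
  · apply le_of_eq
    field_simp

/-- the correlation with weights -/
noncomputable def WG (w : ℕ → ℂ) (t : ℝ) (k l : ℕ) (a g : ℕ → ℂ) (M : ℕ) : ℂ :=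
  (∑ n ∈ Icc 1 M, w n * nit t (n + k) * a (cardFactors (n + k)) * g (n + l)) / M

lemma WG_bound (w : ℕ → ℂ) (hw : ∀ n, ‖w n‖ ≤ 1) (q : ℕ) (hq : 1 ≤ q) (hwq : ∀ n, w n = w (n % q)) (t : ℝ) (k l : ℕ) (a g : ℕ → ℂ)
    (ha : ∀ u, ‖a u‖ ≤ 1) (hg : ∀ n, ‖g n‖ ≤ 1) (M : ℕ) (hM : 1 ≤ M) (η : ℝ) (hη : 0 < η) :
    ‖WG w t k l (fun u => a u - MV a M) g M‖ ≤
      ∑ c ∈ range q, ‖DG q c k l a (fun n => (if n = 0 then 0 else g n) * nit t n) M‖ +
      2 * (2 * η + |t| * (k + l) / (η * M)) := by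
  have hM0 : (0 : ℝ) < M := by exact_mod_cast hM
  have hMc : (M : ℂ) ≠ 0 := by exact_mod_cast (by omega : M ≠ 0)
  have hAb : ∀ u, ‖a u - MV a M‖ ≤ 2 := fun u => by
    have h2 := norm_sub_le (a u) (MV a M)
    have h3 := MV_bd a 1 zero_le_one ha M
    have h4 := ha u
    linarith
  set E : ℂ := (∑ n ∈ Icc 1 M, w n * (a (cardFactors (n + k)) - MV a M) * g (n + l) * (nit t (n + k) - nit t (n + l))) / M with hE
  have h1 : WG w t k l (fun u => a u - MV a M) g M =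
      ∑ c ∈ range q, w c * DG q c k l a (fun n => (if n = 0 then 0 else g n) * nit t n) M + E := by
    unfold WG DG
    rw [hE]
    have e1 : ∑ c ∈ range q, w c * ((∑ n ∈ Icc 1 M, if n % q = c % q then (a (cardFactors (n + k)) - MV a M) *
        ((if n + l = 0 then 0 else g (n + l)) * nit t (n + l)) else 0) / (M : ℂ)) =
        (∑ n ∈ Icc 1 M, w n * ((a (cardFactors (n + k)) - MV a M) * (g (n + l) * nit t (n + l)))) / M := by
      have e2 : ∀ c ∈ range q, w c * ((∑ n ∈ Icc 1 M, if n % q = c % q then (a (cardFactors (n + k)) - MV a M) *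
        ((if n + l = 0 then 0 else g (n + l)) * nit t (n + l)) else 0) / (M : ℂ)) =
          (∑ n ∈ Icc 1 M, if n % q = c then w n * ((a (cardFactors (n + k)) - MV a M) * (g (n + l) * nit t (n + l))) else 0) / (M : ℂ) := by
        intro c hc
        rw [mem_range] at hc
        rw [mul_div_assoc', mul_sum]
        congr 1
        apply sum_congr rfl
        intro n hn
        rw [mem_Icc] at hn
        rw [Nat.mod_eq_of_lt hc, if_neg (by omega : ¬ n + l = 0)]
        split_ifs with h2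
        · rw [hwq n, h2]
        · rw [mul_zero]
      rw [sum_congr rfl e2, ← sum_div, sum_comm]
      congr 1
      apply sum_congr rfl
      intro n _
      rw [sum_ite_eq, if_pos (mem_range.2 (Nat.mod_lt n hq))]
    rw [e1, ← add_div, ← sum_add_distrib]
    congr 1
    apply sum_congr rfl
    intro n _
    ring
  rw [h1]
  refine (norm_add_le _ _).trans (add_le_add ?_ ?_)
  · refine (norm_sum_le _ _).trans (sum_le_sum fun c _ => ?_)
    rw [norm_mul]
    exact mul_le_of_le_one_left (norm_nonneg _) (hw c)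
  · rw [hE, norm_div, Complex.norm_natCast, div_le_iff₀ hM0]
    have h2 : ∀ n ∈ Icc 1 M, ‖w n * (a (cardFactors (n + k)) - MV a M) * g (n + l) * (nit t (n + k) - nit t (n + l))‖ ≤
        2 * ‖nit t (n + k) - nit t (n + l)‖ := by
      intro n _
      rw [norm_mul]
      apply mul_le_mul_of_nonneg_right _ (norm_nonneg _)
      rw [norm_mul, norm_mul]
      calc ‖w n‖ * ‖a (cardFactors (n + k)) - MV a M‖ * ‖g (n + l)‖ ≤ (1 * 2) * 1 :=
            mul_le_mul (mul_le_mul (hw n) (hAb _) (norm_nonneg _) zero_le_one) (hg _) (norm_nonneg _) (by norm_num)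
        _ = 2 := by norm_num
    refine (norm_sum_le _ _).trans ((sum_le_sum h2).trans ?_)
    rw [← mul_sum]
    have h3 := nit_sum t k l M η hη hM
    have e3 : 2 * (2 * η + |t| * (k + l) / (η * M)) * M = 2 * (2 * (η * M) + |t| * (k + l) / η) := by
      field_simp
    rw [e3]
    linarith

lemma MD_tw {g : ℕ → ℂ} (hg : ∀ n, ‖g n‖ ≤ 1) (hm : ∀ m n : ℕ, 1 ≤ m → 1 ≤ n → Nat.Coprime m n → g (m * n) = g m * g n) (t : ℝ) :
    MD (fun n => (if n = 0 then 0 else g n) * nit t n) where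
  bd := fun n => by
    rw [norm_mul, nit_norm, mul_one]
    split_ifs
    · simp
    · exact hg n
  mul := fun m n hmn => by
    rcases Nat.eq_zero_or_pos m with h | h
    · subst h
      simp
    rcases Nat.eq_zero_or_pos n with h' | h'
    · subst h'
      simp
    have h1 : m * n ≠ 0 := by positivity
    simp only [if_neg h1, if_neg (by omega : ¬ m = 0), if_neg (by omega : ¬ n = 0)]
    rw [hm m n h h' hmn, nit_mul t m n (by omega) (by omega)]
    ring

open scoped Classical in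
/-- periodic weights and `n^{it}` -/
theorem mainW (k l : ℕ) (hkl : k ≠ l) (q : ℕ) (hq : 1 ≤ q) (ε : ℝ) (hε : 0 < ε) : ∃ C : ℝ, ∀ J : ℕ, ∃ δ : ℝ, 0 < δ ∧ ∃ y0 : ℕ, ∀ y : ℕ, y0 ≤ y →
    ∀ t : ℝ, |t| ≤ δ * y → ∀ w : ℕ → ℂ, (∀ n, ‖w n‖ ≤ 1) → (∀ n, w n = w (n % q)) →
    ∀ g : ℕ → ℂ, (∀ n, ‖g n‖ ≤ 1) → (∀ m n : ℕ, 1 ≤ m → 1 ≤ n → Nat.Coprime m n → g (m * n) = g m * g n) →
    (∀ a : ℕ → ℂ, (∀ u, ‖a u‖ ≤ 1) →
      ∑ i ∈ (Icc 1 J).filter (fun i => ε < ‖WG w t k l (fun u => a u - MV a (y / 2 ^ i)) g (y / 2 ^ i)‖), 1 / (i : ℝ) ≤ C) ∧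
    (∀ z : ℂ, ‖z‖ ≤ 1 → ε ≤ ‖z - 1‖ →
      ∑ i ∈ (Icc 1 J).filter (fun i => ε < ‖WG w t k l (fun u => z ^ u) g (y / 2 ^ i)‖), 1 / (i : ℝ) ≤ C) := by
  have hq0 : (0 : ℝ) < q := by exact_mod_cast hq
  obtain ⟨C, hC⟩ := mainK k l hkl q hq (ε / (4 * q)) (by positivity)
  obtain ⟨x₀, hx₀⟩ := MV_z ε hε
  refine ⟨q * C, fun J => ?_⟩
  obtain ⟨y0, hy0⟩ := hC J
  set η : ℝ := ε / 32 with hη
  have hη0 : 0 < η := by positivity
  have h2J : (0 : ℝ) < 2 ^ J := by positivity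
  refine ⟨η * (ε / 16) / (2 * 2 ^ J * (k + l + 1)), by positivity, y0 + 2 ^ J * (x₀ + 1), fun y hy t ht w hw hwq g hg hm => ?_⟩
  set g' : ℕ → ℂ := fun n => (if n = 0 then 0 else g n) * nit t n with hg'
  have hMD : MD g' := MD_tw hg hm t
  have hypos : (0 : ℝ) < y := by
    have : 0 < y := by
      have : 0 < 2 ^ J * (x₀ + 1) := by positivity
      omega
    exact_mod_cast this
  have hsc : ∀ i ∈ Icc 1 J, x₀ + 1 ≤ y / 2 ^ i ∧ (y : ℝ) / (2 * 2 ^ J) ≤ ((y / 2 ^ i : ℕ) : ℝ) := by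
    intro i hi
    rw [mem_Icc] at hi
    have hpow : 2 ^ i ≤ 2 ^ J := Nat.pow_le_pow_right (by norm_num) hi.2
    have h1 : x₀ + 1 ≤ y / 2 ^ i := by
      rw [Nat.le_div_iff_mul_le (by positivity)]
      calc (x₀ + 1) * 2 ^ i ≤ (x₀ + 1) * 2 ^ J := Nat.mul_le_mul_left _ hpow
        _ = 2 ^ J * (x₀ + 1) := mul_comm _ _
        _ ≤ y := by omega
    refine ⟨h1, ?_⟩
    have h2i : (0 : ℝ) < 2 ^ i := by positivity
    have h3 := Nat.lt_div_mul_add (a := y) (b := 2 ^ i) (by positivity)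
    have h4 : (y : ℝ) < ((y / 2 ^ i : ℕ) : ℝ) * 2 ^ i + 2 ^ i := by exact_mod_cast h3
    have h5 : (1 : ℝ) ≤ ((y / 2 ^ i : ℕ) : ℝ) := by exact_mod_cast (by omega : 1 ≤ y / 2 ^ i)
    have h6 : (2 : ℝ) ^ i ≤ 2 ^ J := pow_le_pow_right₀ one_le_two hi.2
    rw [div_le_iff₀ (by positivity)]
    nlinarith
  have herr : ∀ i ∈ Icc 1 J, 2 * (2 * η + |t| * (k + l) / (η * ((y / 2 ^ i : ℕ) : ℝ))) ≤ ε / 4 := by
    intro i hi
    obtain ⟨h1, h2⟩ := hsc i hi
    have hM0 : (0 : ℝ) < ((y / 2 ^ i : ℕ) : ℝ) := by exact_mod_cast (by omega : 0 < y / 2 ^ i)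
    have h3 : |t| * (k + l) / (η * ((y / 2 ^ i : ℕ) : ℝ)) ≤ ε / 16 := by
      rw [div_le_iff₀ (by positivity)]
      have h4 : |t| * (k + l) ≤ (η * (ε / 16) / (2 * 2 ^ J * (k + l + 1)) * y) * (k + l + 1) :=
        mul_le_mul ht (by linarith) (by positivity) (by positivity)
      refine h4.trans ?_
      have h5 : (η * (ε / 16) / (2 * 2 ^ J * (k + l + 1)) * y) * (k + l + 1) = ε / 16 * (η * (y / (2 * 2 ^ J))) := by
        field_simp
      rw [h5]
      apply mul_le_mul_of_nonneg_left _ (by positivity)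
      exact mul_le_mul_of_nonneg_left h2 hη0.le
    rw [hη] at *
    linarith
  have key : ∀ a : ℕ → ℂ, (∀ u, ‖a u‖ ≤ 1) → ∀ Bd : Finset ℕ, Bd ⊆ Icc 1 J →
      (∀ i ∈ Bd, ε / 2 < ‖WG w t k l (fun u => a u - MV a (y / 2 ^ i)) g (y / 2 ^ i)‖) → ∑ i ∈ Bd, 1 / (i : ℝ) ≤ q * C := by
    intro a ha Bd hBd1 hBd2
    have h1 : ∀ i ∈ Bd, ∃ c ∈ range q, ε / (4 * q) < ‖DG q c k l a g' (y / 2 ^ i)‖ := by
      intro i hi
      by_contra hcon
      push Not at hcon
      have h2 := WG_bound w hw q hq hwq t k l a g ha hg (y / 2 ^ i) (by have := (hsc i (hBd1 hi)).1; omega) η hη0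
      have h3 := sum_le_sum hcon
      rw [sum_const, card_range, nsmul_eq_mul] at h3
      have h4 : (q : ℝ) * (ε / (4 * q)) = ε / 4 := by field_simp
      rw [h4] at h3
      have h5 := herr i (hBd1 hi)
      have h6 := hBd2 i hi
      rw [← hg'] at h2
      linarith
    have h2 : ∀ i ∈ Bd, 1 / (i : ℝ) ≤ ∑ c ∈ range q, 1 / (i : ℝ) * (if ε / (4 * q) < ‖DG q c k l a g' (y / 2 ^ i)‖ then (1 : ℝ) else 0) := by
      intro i hi
      obtain ⟨c, hc, h3⟩ := h1 i hi
      refine le_trans ?_ (single_le_sum (f := fun c => 1 / (i : ℝ) * (if ε / (4 * q) < ‖DG q c k l a g' (y / 2 ^ i)‖ then (1 : ℝ) else 0))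
        (fun c _ => by positivity) hc)
      rw [if_pos h3, mul_one]
    refine (sum_le_sum h2).trans ?_
    rw [sum_comm]
    have h3 : ∀ c ∈ range q, ∑ i ∈ Bd, 1 / (i : ℝ) * (if ε / (4 * q) < ‖DG q c k l a g' (y / 2 ^ i)‖ then (1 : ℝ) else 0) ≤ C := by
      intro c _
      refine le_trans ?_ (hy0 y (by omega) c a ha g' hMD)
      simp only [mul_ite, mul_one, mul_zero]
      rw [← sum_filter]
      apply sum_le_sum_of_subset_of_nonneg
      · intro i hi
        rw [mem_filter] at hi ⊢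
        exact ⟨hBd1 hi.1, hi.2⟩
      · intro i _ _
        positivity
    refine (sum_le_sum h3).trans (le_of_eq ?_)
    rw [sum_const, card_range, nsmul_eq_mul]
  constructor
  · intro a ha
    apply key a ha _ (filter_subset _ _)
    intro i hi
    have := (mem_filter.1 hi).2
    linarith
  · intro z hz hz1
    have hzt : ∀ u : ℕ, ‖z ^ u‖ ≤ 1 := fun u => by
      rw [norm_pow]
      exact pow_le_one₀ (norm_nonneg _) hz
    apply key (fun u => z ^ u) hzt _ (filter_subset _ _)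
    intro i hi
    obtain ⟨hi1, hi2⟩ := mem_filter.1 hi
    set M := y / 2 ^ i with hMdef
    have hM1 : x₀ + 1 ≤ M := (hsc i hi1).1
    have hM0 : (0 : ℝ) < M := by exact_mod_cast (by omega : 0 < M)
    have h2 := hx₀ M (by omega) z hz hz1
    have e1 : WG w t k l (fun u => z ^ u) g M = WG w t k l (fun u => z ^ u - MV (fun u => z ^ u) M) g M +
        MV (fun u => z ^ u) M * WG w t k l (fun _ => 1) g M := by
      unfold WG
      rw [mul_div_assoc', mul_sum, ← add_div, ← sum_add_distrib]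
      congr 1
      apply sum_congr rfl
      intro n _
      ring
    have h3 : ‖WG w t k l (fun _ => 1) g M‖ ≤ 1 := by
      unfold WG
      rw [norm_div, Complex.norm_natCast, div_le_one hM0]
      have h4 : ∀ n ∈ Icc 1 M, ‖w n * nit t (n + k) * 1 * g (n + l)‖ ≤ 1 := by
        intro n _
        rw [mul_one, norm_mul, norm_mul, nit_norm, mul_one]
        exact mul_le_one₀ (hw n) (norm_nonneg _) (hg _)
      refine (norm_sum_le _ _).trans ((sum_le_sum h4).trans (le_of_eq ?_))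
      simp
    rw [e1] at hi2
    have h5 := norm_add_le (WG w t k l (fun u => z ^ u - MV (fun u => z ^ u) M) g M)
      (MV (fun u => z ^ u) M * WG w t k l (fun _ => 1) g M)
    have h6 : ‖MV (fun u => z ^ u) M * WG w t k l (fun _ => 1) g M‖ ≤ ε / 2 := by
      rw [norm_mul]
      calc _ ≤ (ε / 2) * 1 := mul_le_mul h2 h3 (norm_nonneg _) (by positivity)
        _ = _ := mul_one _
    linarith

end Pool.Agent.TH575.OM
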