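import Mathlib
import Pool.Agent.TH575.OM.FinQ

/-!
Multiplicative functions `f` with `f(p) = z χ(p) p^{it}` at all large primes, against arbitrary
multiplicative functions.
-/

set_option autoImplicit false

namespace Pool.Agent.TH575.OM

open Finset ArithmeticFunction
open Pool.Agent.TH575.CW

/-- no large power of a small prime and no square of a large prime divides `n` -/
def Gd (D E n : ℕ) : Prop := (∀ p : ℕ, p.Prime → p ≤ D → ¬ p ^ E ∣ n) ∧ ∀ p : ℕ, p.Prime → D < p → ¬ p ^ 2 ∣ n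

open scoped Classical in
lemma cnt_bad (D E X : ℕ) (hD : 1 ≤ D) (hE : D ^ 2 ≤ 2 ^ E) :
    ∑ n ∈ Ioc 0 X, (if Gd D E n then (0 : ℝ) else 1) ≤ 2 * X / D := by
  have hD0 : (0 : ℝ) < D := by exact_mod_cast hD
  have h1 : ∀ n ∈ Ioc 0 X, (if Gd D E n then (0 : ℝ) else 1) ≤
      ∑ p ∈ Ioc 1 D, (if p ^ E ∣ n then (1 : ℝ) else 0) + ∑ p ∈ Ioc D (max D X), (if p ^ 2 ∣ n then (1 : ℝ) else 0) := by
    intro n hn
    rw [mem_Ioc] at hn
    have a1 : 0 ≤ ∑ p ∈ Ioc 1 D, (if p ^ E ∣ n then (1 : ℝ) else 0) := sum_nonneg fun p _ => by split_ifs <;> simp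
    have a2 : 0 ≤ ∑ p ∈ Ioc D (max D X), (if p ^ 2 ∣ n then (1 : ℝ) else 0) := sum_nonneg fun p _ => by split_ifs <;> simp
    split_ifs with hg
    · linarith
    · unfold Gd at hg
      rw [not_and_or] at hg
      rcases hg with hg | hg
      · push Not at hg
        obtain ⟨p, hp, hpD, hpn⟩ := hg
        have h2 : (1 : ℝ) ≤ ∑ p ∈ Ioc 1 D, (if p ^ E ∣ n then (1 : ℝ) else 0) := by
          refine le_trans ?_ (single_le_sum (f := fun p => if p ^ E ∣ n then (1 : ℝ) else 0)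
            (fun p _ => by split_ifs <;> simp) (mem_Ioc.2 ⟨hp.one_lt, hpD⟩))
          rw [if_pos hpn]
        linarith
      · push Not at hg
        obtain ⟨p, hp, hpD, hpn⟩ := hg
        have h3 : p ≤ X := by
          have h4 := Nat.le_of_dvd hn.1 hpn
          have h5 : p ≤ p ^ 2 := by nlinarith [hp.one_lt]
          omega
        have h2 : (1 : ℝ) ≤ ∑ p ∈ Ioc D (max D X), (if p ^ 2 ∣ n then (1 : ℝ) else 0) := by
          refine le_trans ?_ (single_le_sum (f := fun p => if p ^ 2 ∣ n then (1 : ℝ) else 0)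
            (fun p _ => by split_ifs <;> simp) (mem_Ioc.2 ⟨hpD, h3.trans (le_max_right _ _)⟩))
          rw [if_pos hpn]
        linarith
  refine (sum_le_sum h1).trans ?_
  rw [sum_add_distrib, sum_comm, sum_comm (s := Ioc 0 X) (t := Ioc D (max D X))]
  have h2 : ∑ p ∈ Ioc 1 D, ∑ n ∈ Ioc 0 X, (if p ^ E ∣ n then (1 : ℝ) else 0) ≤ X / D := by
    have h3 : ∀ p ∈ Ioc 1 D, ∑ n ∈ Ioc 0 X, (if p ^ E ∣ n then (1 : ℝ) else 0) ≤ X / D ^ 2 := by
      intro p hp
      rw [mem_Ioc] at hp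
      rw [cnt_dvd]
      have h6 : ((X / p ^ E : ℕ) : ℝ) ≤ X / ((p ^ E : ℕ) : ℝ) := Nat.cast_div_le
      refine h6.trans ?_
      apply div_le_div_of_nonneg_left (Nat.cast_nonneg _) (by positivity)
      have h7 : D ^ 2 ≤ p ^ E := hE.trans (Nat.pow_le_pow_left hp.1 E)
      exact_mod_cast h7
    refine (sum_le_sum h3).trans ?_
    rw [sum_const, Nat.card_Ioc, nsmul_eq_mul]
    have h8 : ((D - 1 : ℕ) : ℝ) ≤ D := by exact_mod_cast Nat.sub_le D 1
    calc ((D - 1 : ℕ) : ℝ) * (X / D ^ 2) ≤ D * (X / D ^ 2) := mul_le_mul_of_nonneg_right h8 (by positivity)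
      _ = X / D := by field_simp
  have h3 : ∑ p ∈ Ioc D (max D X), ∑ n ∈ Ioc 0 X, (if p ^ 2 ∣ n then (1 : ℝ) else 0) ≤ X / D := by
    have h5 : ∀ p ∈ Ioc D (max D X), ∑ n ∈ Ioc 0 X, (if p ^ 2 ∣ n then (1 : ℝ) else 0) ≤ X * ((p : ℝ) ^ 2)⁻¹ := by
      intro p _
      rw [cnt_dvd]
      have h6 : ((X / p ^ 2 : ℕ) : ℝ) ≤ X / ((p ^ 2 : ℕ) : ℝ) := Nat.cast_div_le
      push_cast at h6
      rw [← div_eq_mul_inv]
      exact h6
    refine (sum_le_sum h5).trans ?_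
    rw [← mul_sum, div_eq_mul_inv]
    apply mul_le_mul_of_nonneg_left _ (Nat.cast_nonneg _)
    have h8 := sum_Ioc_inv_sq_le_sub (α := ℝ) (k := D) (n := max D X) (by omega) (le_max_left _ _)
    refine h8.trans ?_
    have : (0 : ℝ) ≤ ((max D X : ℕ) : ℝ)⁻¹ := by positivity
    linarith
  have e1 : 2 * (X : ℝ) / D = X / D + X / D := by ring
  rw [e1]
  linarith

/-- the modulus -/
def QQ (D E : ℕ) : ℕ := (∏ p ∈ (Ioc 1 D).filter Nat.Prime, p) ^ E

lemma QQ_pos (D E : ℕ) : 1 ≤ QQ D E := by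
  unfold QQ
  exact Nat.pow_pos (prod_pos fun p hp => (mem_filter.1 hp).2.pos)

lemma QQ_dvd (D E p : ℕ) (hp : p.Prime) (hpD : p ≤ D) : p ^ E ∣ QQ D E := by
  unfold QQ
  apply pow_dvd_pow_of_dvd
  exact dvd_prod_of_mem (fun p => p) (mem_filter.2 ⟨mem_Ioc.2 ⟨hp.one_lt, hpD⟩, hp⟩)

lemma QQ_le (D E p : ℕ) (hp : p.Prime) (h : p ∣ QQ D E) : p ≤ D := by
  unfold QQ at h
  have h1 := hp.dvd_of_dvd_pow h
  obtain ⟨r, hr, hpr⟩ := (Prime.dvd_finsetProd_iff hp.prime _).1 h1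
  rw [mem_filter, mem_Ioc] at hr
  have := Nat.le_of_dvd (by omega) hpr
  omega

/-- the decomposition of a good integer -/
lemma Gd_dec (D E n : ℕ) (hn : 1 ≤ n) (hg : Gd D E n) :
    Nat.Coprime (Nat.gcd n (QQ D E)) (n / Nat.gcd n (QQ D E)) ∧ Squarefree (n / Nat.gcd n (QQ D E)) ∧
    ∀ p : ℕ, p.Prime → p ∣ n / Nat.gcd n (QQ D E) → D < p := by
  set d := Nat.gcd n (QQ D E) with hd
  set m := n / d with hm
  have hdn : d ∣ n := Nat.gcd_dvd_left _ _
  have hmn : d * m = n := Nat.mul_div_cancel' hdn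
  have hd0 : 0 < d := Nat.gcd_pos_of_pos_left _ hn
  have h3 : ∀ p : ℕ, p.Prime → p ∣ m → D < p := by
    intro p hp hpm
    by_contra hc
    rw [not_lt] at hc
    have : Fact p.Prime := ⟨hp⟩
    set v := padicValNat p n with hv
    have h1 : p ^ v ∣ n := pow_padicValNat_dvd
    have h2 : v < E := by
      by_contra hc2
      rw [not_lt] at hc2
      exact hg.1 p hp hc ((pow_dvd_pow p hc2).trans h1)
    have h4 : p ^ v ∣ QQ D E := (pow_dvd_pow p h2.le).trans (QQ_dvd D E p hp hc)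
    have h5 : p ^ v ∣ d := Nat.dvd_gcd h1 h4
    have h6 : p ^ (v + 1) ∣ n := by
      rw [← hmn, pow_succ]
      exact mul_dvd_mul h5 hpm
    exact pow_succ_padicValNat_not_dvd (by omega) h6
  refine ⟨?_, ?_, h3⟩
  · apply Nat.Coprime.symm
    apply Nat.coprime_of_dvd
    intro p hp hpm hpd
    have h1 := QQ_le D E p hp (hpd.trans (Nat.gcd_dvd_right _ _))
    have h2 := h3 p hp hpm
    omega
  · rw [Nat.squarefree_iff_prime_squarefree]
    intro p hp hpp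
    have h1 : p ∣ m := (dvd_mul_right p p).trans hpp
    have h2 := hg.2 p hp (h3 p hp h1)
    apply h2
    rw [pow_two, ← hmn]
    exact hpp.trans (dvd_mul_left _ _)

/-- `f(p) = z χ(p) p^{it}` for all primes `p > p₀` -/
def Lg (p₀ q : ℕ) (χ : DirichletCharacter ℂ q) (t : ℝ) (z : ℂ) (f : ℕ → ℂ) : Prop :=
  ∀ p : ℕ, p.Prime → p₀ < p → f p = z * χ (p : ZMod q) * nit t p

lemma sqf_val {p₀ q : ℕ} {χ : DirichletCharacter ℂ q} {t : ℝ} {z : ℂ} {f : ℕ → ℂ} (hf : Lg p₀ q χ t z f)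
    (hm : ∀ m n : ℕ, 1 ≤ m → 1 ≤ n → Nat.Coprime m n → f (m * n) = f m * f n) (hf1 : f 1 = 1) :
    ∀ m : ℕ, Squarefree m → (∀ p : ℕ, p.Prime → p ∣ m → p₀ < p) →
      f m = z ^ (cardFactors m) * χ (m : ZMod q) * nit t m := by
  intro m
  induction m using Nat.strong_induction_on with
  | _ m ih =>
    intro hsq hlarge
    have hm0 : m ≠ 0 := hsq.ne_zero
    rcases eq_or_ne m 1 with h1 | h1
    · subst h1
      rw [hf1]
      unfold nit
      simp
    · set p := m.minFac with hp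
      have hpp : p.Prime := Nat.minFac_prime h1
      obtain ⟨m', hm'⟩ := Nat.minFac_dvd m
      rw [← hp] at hm'
      have hm'0 : m' ≠ 0 := by
        rintro rfl
        rw [mul_zero] at hm'
        exact hm0 hm'
      have hlt : m' < m := by
        rw [hm']
        exact lt_mul_of_one_lt_left (Nat.pos_of_ne_zero hm'0) hpp.one_lt
      have hsq' : Squarefree m' := hsq.squarefree_of_dvd ⟨p, by rw [hm']; ring⟩
      have hcop : ¬ p ∣ m' := by
        intro hd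
        have h2 : p * p ∣ m := by
          rw [hm']
          exact Nat.mul_dvd_mul_left p hd
        have := Nat.isUnit_iff.1 (hsq p h2)
        exact hpp.one_lt.ne' this
      have h3 := ih m' hlt hsq' (fun r hr hrm => hlarge r hr (by rw [hm']; exact dvd_mul_of_dvd_right hrm p))
      have h4 := hf p hpp (hlarge p hpp (Nat.minFac_dvd m))
      have h5 : f m = f p * f m' := by
        conv_lhs => rw [hm']
        exact hm p m' hpp.pos (Nat.pos_of_ne_zero hm'0) ((Nat.Prime.coprime_iff_not_dvd hpp).2 hcop)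
      rw [h5, h3, h4]
      conv_rhs => rw [hm']
      rw [cardFactors_mul hpp.ne_zero hm'0, cardFactors_apply_prime hpp, Nat.cast_mul, map_mul,
        nit_mul t p m' hpp.ne_zero hm'0, pow_add, pow_one]
      ring

/-- the periodic weight -/
noncomputable def wt (D E q : ℕ) (χ : DirichletCharacter ℂ q) (t : ℝ) (z : ℂ) (f : ℕ → ℂ) (n : ℕ) : ℂ :=
  f (Nat.gcd n (QQ D E)) * (starRingEnd ℂ z) ^ (cardFactors (Nat.gcd n (QQ D E))) *
    (starRingEnd ℂ) (nit t (Nat.gcd n (QQ D E))) * χ ((n / Nat.gcd n (QQ D E) : ℕ) : ZMod q)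

lemma wt_bd (D E q : ℕ) (χ : DirichletCharacter ℂ q) (t : ℝ) (z : ℂ) (hz : ‖z‖ = 1) (f : ℕ → ℂ) (hf : ∀ n, ‖f n‖ ≤ 1) (n : ℕ) :
    ‖wt D E q χ t z f n‖ ≤ 1 := by
  unfold wt
  rw [norm_mul, norm_mul, norm_mul, norm_pow, RCLike.norm_conj, RCLike.norm_conj, nit_norm, hz, one_pow, mul_one, mul_one]
  exact mul_le_one₀ (hf _) (norm_nonneg _) (DirichletCharacter.norm_le_one _ _)

lemma wt_congr (D E q : ℕ) (χ : DirichletCharacter ℂ q) (t : ℝ) (z : ℂ) (f : ℕ → ℂ) (a b : ℕ)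
    (h : a ≡ b [MOD (q * QQ D E)]) : wt D E q χ t z f a = wt D E q χ t z f b := by
  have h1 : Nat.gcd a (QQ D E) = Nat.gcd b (QQ D E) := Nat.ModEq.gcd_eq (Nat.ModEq.of_mul_left q h)
  have hQ := QQ_pos D E
  unfold wt
  rw [h1]
  congr 1
  set d := Nat.gcd b (QQ D E) with hd
  have hd0 : 0 < d := Nat.gcd_pos_of_pos_right _ hQ
  obtain ⟨e, he⟩ : d ∣ QQ D E := Nat.gcd_dvd_right _ _
  obtain ⟨b', hb'⟩ : d ∣ b := Nat.gcd_dvd_left _ _
  obtain ⟨a', ha'⟩ : d ∣ a := by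
    rw [← h1]
    exact Nat.gcd_dvd_left _ _
  rw [ha', hb', Nat.mul_div_cancel_left _ hd0, Nat.mul_div_cancel_left _ hd0]
  congr 1
  rw [ZMod.natCast_eq_natCast_iff]
  rw [ha', hb', he] at h
  have h2 : q * (d * e) = d * (q * e) := by ring
  rw [h2] at h
  have h3 : a' ≡ b' [MOD (q * e)] := Nat.ModEq.mul_left_cancel' hd0.ne' h
  exact Nat.ModEq.of_mul_right e h3

/-- the value at a good integer -/
lemma good_val {p₀ q : ℕ} {χ : DirichletCharacter ℂ q} {t : ℝ} {z : ℂ} {f : ℕ → ℂ} (hf : Lg p₀ q χ t z f)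
    (hm : ∀ m n : ℕ, 1 ≤ m → 1 ≤ n → Nat.Coprime m n → f (m * n) = f m * f n) (hf1 : f 1 = 1) (hz : ‖z‖ = 1)
    (D E n : ℕ) (hD : p₀ ≤ D) (hn : 1 ≤ n) (hg : Gd D E n) :
    f n = wt D E q χ t z f n * nit t n * z ^ (cardFactors n) := by
  obtain ⟨g1, g2, g3⟩ := Gd_dec D E n hn hg
  unfold wt
  set d := Nat.gcd n (QQ D E) with hd
  set m := n / d with hmd
  have hdn : d ∣ n := Nat.gcd_dvd_left _ _
  have hmn : d * m = n := Nat.mul_div_cancel' hdn
  have hd0 : 0 < d := Nat.gcd_pos_of_pos_left _ hn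
  have hm0 : m ≠ 0 := g2.ne_zero
  have h1 := sqf_val hf hm hf1 m g2 (fun p hp hpm => lt_of_le_of_lt hD (g3 p hp hpm))
  have h2 : f n = f d * f m := by
    rw [← hmn]
    exact hm d m hd0 (Nat.pos_of_ne_zero hm0) g1
  have h3 : cardFactors n = cardFactors d + cardFactors m := by
    rw [← hmn, cardFactors_mul hd0.ne' hm0]
  have h4 : nit t n = nit t d * nit t m := by
    rw [← hmn, nit_mul t d m hd0.ne' hm0]
  have h5 : (starRingEnd ℂ) z * z = 1 := by
    rw [mul_comm, Complex.mul_conj, Complex.normSq_eq_norm_sq, hz]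
    simp
  have h6 : (starRingEnd ℂ) (nit t d) * nit t d = 1 := by
    rw [mul_comm, Complex.mul_conj, Complex.normSq_eq_norm_sq, nit_norm]
    simp
  have h7 : (starRingEnd ℂ) z ^ cardFactors d * z ^ cardFactors d = 1 := by
    rw [← mul_pow, h5, one_pow]
  rw [h2, h1, h3, h4, pow_add]
  calc f d * (z ^ cardFactors m * χ (m : ZMod q) * nit t m) =
      f d * (z ^ cardFactors m * χ (m : ZMod q) * nit t m) * ((starRingEnd ℂ) z ^ cardFactors d * z ^ cardFactors d) *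
        ((starRingEnd ℂ) (nit t d) * nit t d) := by rw [h7, h6, mul_one, mul_one]
    _ = _ := by ring

lemma one_val {p₀ q : ℕ} (hq : 1 ≤ q) {χ : DirichletCharacter ℂ q} {t : ℝ} {z : ℂ} {f : ℕ → ℂ} (hf : Lg p₀ q χ t z f)
    (hm : ∀ m n : ℕ, 1 ≤ m → 1 ≤ n → Nat.Coprime m n → f (m * n) = f m * f n) (hz : ‖z‖ = 1) : f 1 = 1 := by
  obtain ⟨p, hp1, hp2⟩ := Nat.exists_infinite_primes (p₀ + q + 1)
  have h1 := hm p 1 hp2.pos le_rfl (Nat.coprime_one_right p)
  rw [mul_one] at h1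
  have h2 : f p ≠ 0 := by
    rw [hf p hp2 (by omega)]
    have h3 : z ≠ 0 := by
      rintro rfl
      rw [norm_zero] at hz
      exact zero_ne_one hz
    have h4 : nit t p ≠ 0 := by
      have := nit_norm t p
      intro h5
      rw [h5, norm_zero] at this
      exact zero_ne_one this
    have h5 : χ (p : ZMod q) ≠ 0 := by
      have hcop : Nat.Coprime p q := by
        rw [Nat.Prime.coprime_iff_not_dvd hp2]
        intro hd
        have := Nat.le_of_dvd hq hd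
        omega
      have hu : IsUnit ((p : ℕ) : ZMod q) := (ZMod.isUnit_iff_coprime p q).2 hcop
      exact (hu.map χ).ne_zero
    exact mul_ne_zero (mul_ne_zero h3 h5) h4
  have h6 : f p * 1 = f p * f 1 := by rw [mul_one]; exact h1
  exact (mul_left_cancel₀ h2 h6).symm

open scoped Classical in
/-- the theorem for the class -/
theorem mainF (k l : ℕ) (hkl : k ≠ l) (p₀ q : ℕ) (hq : 1 ≤ q) (ε : ℝ) (hε : 0 < ε) : ∃ C : ℝ, ∀ J : ℕ, ∃ δ : ℝ, 0 < δ ∧ ∃ y0 : ℕ,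
    ∀ y : ℕ, y0 ≤ y → ∀ t : ℝ, |t| ≤ δ * y → ∀ χ : DirichletCharacter ℂ q, ∀ z : ℂ, ‖z‖ = 1 → ε ≤ ‖z - 1‖ →
    ∀ f g : ℕ → ℂ, (∀ n, ‖f n‖ ≤ 1) → (∀ n, ‖g n‖ ≤ 1) →
    (∀ m n : ℕ, 1 ≤ m → 1 ≤ n → Nat.Coprime m n → f (m * n) = f m * f n) →
    (∀ m n : ℕ, 1 ≤ m → 1 ≤ n → Nat.Coprime m n → g (m * n) = g m * g n) → Lg p₀ q χ t z f →
    ∑ i ∈ (Icc 1 J).filter (fun i => ε < ‖(∑ n ∈ Icc 1 (y / 2 ^ i), f (n + k) * g (n + l)) / ((y / 2 ^ i : ℕ) : ℂ)‖), 1 / (i : ℝ) ≤ C := by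
  set D : ℕ := p₀ + ⌈16 / ε⌉₊ + 1 with hD
  have hD1 : 1 ≤ D := by omega
  have hD0 : (0 : ℝ) < D := by exact_mod_cast hD1
  have hDε : 16 / ε ≤ D := (Nat.le_ceil _).trans (by exact_mod_cast (by omega : ⌈16 / ε⌉₊ ≤ D))
  obtain ⟨E, hE⟩ : ∃ E : ℕ, D ^ 2 ≤ 2 ^ E := ⟨D ^ 2, Nat.lt_two_pow_self.le⟩
  have hR : 1 ≤ q * QQ D E := Nat.mul_pos hq (QQ_pos D E)
  obtain ⟨C, hC⟩ := mainW k l hkl (q * QQ D E) hR (ε / 2) (by positivity)
  refine ⟨C, fun J => ?_⟩
  obtain ⟨δ, hδ, y0, hy0⟩ := hC J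
  refine ⟨δ, hδ, y0 + 2 ^ J * (k + 1), fun y hy t ht χ z hz hz1 f g hfb hgb hfm hgm hf => ?_⟩
  have hf1 := one_val hq hf hfm hz
  set w : ℕ → ℂ := fun n => wt D E q χ t z f (n + k) with hw
  have hwb : ∀ n, ‖w n‖ ≤ 1 := fun n => wt_bd D E q χ t z hz f hfb _
  have hwp : ∀ n, w n = w (n % (q * QQ D E)) := by
    intro n
    rw [hw]
    simp only
    apply wt_congr
    exact (Nat.ModEq.add_right k (Nat.mod_modEq n _)).symm
  have h1 := (hy0 y (by omega) t ht w hwb hwp g hgb hgm).2 z hz.le (by linarith)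
  refine le_trans ?_ h1
  apply sum_le_sum_of_subset_of_nonneg _ fun i _ _ => by positivity
  intro i hi
  rw [mem_filter] at hi ⊢
  refine ⟨hi.1, ?_⟩
  have h2 := hi.2
  rw [mem_Icc] at hi
  have hpow : 2 ^ i ≤ 2 ^ J := Nat.pow_le_pow_right (by norm_num) hi.1.2
  set M := y / 2 ^ i with hM
  have hM1 : k + 1 ≤ M := by
    rw [hM, Nat.le_div_iff_mul_le (by positivity)]
    calc (k + 1) * 2 ^ i ≤ (k + 1) * 2 ^ J := Nat.mul_le_mul_left _ hpow
      _ = 2 ^ J * (k + 1) := mul_comm _ _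
      _ ≤ y := by omega
  have hM0 : (0 : ℝ) < M := by exact_mod_cast (by omega : 0 < M)
  have hMk : (k : ℝ) ≤ M := by exact_mod_cast (by omega : k ≤ M)
  have h3 : ‖(∑ n ∈ Icc 1 M, f (n + k) * g (n + l)) / (M : ℂ) - WG w t k l (fun u => z ^ u) g M‖ ≤ ε / 2 := by
    unfold WG
    rw [← sub_div, ← sum_sub_distrib, norm_div, Complex.norm_natCast, div_le_iff₀ hM0]
    have h4 : ∀ n ∈ Icc 1 M, ‖f (n + k) * g (n + l) - w n * nit t (n + k) * z ^ (cardFactors (n + k)) * g (n + l)‖ ≤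
        2 * (if Gd D E (n + k) then (0 : ℝ) else 1) := by
      intro n hn
      rw [mem_Icc] at hn
      rw [← sub_mul, norm_mul]
      split_ifs with hg
      · rw [good_val hf hfm hf1 hz D E (n + k) (by omega) (by omega) hg, hw]
        simp
      · have h5 := norm_sub_le (f (n + k)) (w n * nit t (n + k) * z ^ (cardFactors (n + k)))
        have h6 : ‖w n * nit t (n + k) * z ^ (cardFactors (n + k))‖ ≤ 1 := by
          rw [norm_mul, norm_mul, nit_norm, norm_pow, hz, one_pow, mul_one, mul_one]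
          exact hwb n
        have h7 := hfb (n + k)
        calc _ ≤ 2 * 1 := mul_le_mul (by linarith) (hgb _) (norm_nonneg _) (by norm_num)
          _ = _ := by ring
    refine (norm_sum_le _ _).trans ((sum_le_sum h4).trans ?_)
    rw [← mul_sum]
    have h5 : ∑ n ∈ Icc 1 M, (if Gd D E (n + k) then (0 : ℝ) else 1) ≤ ∑ n ∈ Ioc 0 (M + k), (if Gd D E n then (0 : ℝ) else 1) := by
      rw [← sum_image (f := fun n => if Gd D E n then (0 : ℝ) else 1) (g := fun n => n + k) (s := Icc 1 M)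
        (by intro x _ y _ hxy; simpa using hxy)]
      apply sum_le_sum_of_subset_of_nonneg
      · intro n hn
        rw [mem_image] at hn
        obtain ⟨m, hm, rfl⟩ := hn
        rw [mem_Icc] at hm
        rw [mem_Ioc]
        omega
      · intro n _ _
        split_ifs <;> simp
    have h6 := cnt_bad D E (M + k) hD1 hE
    have h7 : 2 * ((M + k : ℕ) : ℝ) / D ≤ ε / 4 * M := by
      rw [div_le_iff₀ hD0]
      rw [div_le_iff₀ hε] at hDε
      push_cast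
      nlinarith
    linarith
  have h8 := norm_add_le ((∑ n ∈ Icc 1 M, f (n + k) * g (n + l)) / (M : ℂ) - WG w t k l (fun u => z ^ u) g M)
    (WG w t k l (fun u => z ^ u) g M)
  rw [sub_add_cancel] at h8
  linarith

end Pool.Agent.TH575.OM
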