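import Mathlib
import Pool.Agent.TH575.OM.FinR

/-!
The theorem for several functions: one near `z χ(n) n^{it}`, `z ≠ 1`, one arbitrary, the others near
functions `χ(n) n^{it}`.
-/

set_option autoImplicit false

namespace Pool.Agent.TH575.OM

open Finset ArithmeticFunction
open Pool.Agent.TH575.CW

/-- `f(p)` is near `z χ(p) p^{it}` for the primes `p₀ < p ≤ X`, on average with weight `1/p` -/
def Near (p₀ q X : ℕ) (χ : DirichletCharacter ℂ q) (t : ℝ) (z : ℂ) (η : ℝ) (f : ℕ → ℂ) : Prop :=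
  ∑ p ∈ (Ioc p₀ X).filter Nat.Prime, ‖f p - z * χ (p : ZMod q) * nit t p‖ / p ≤ η

/-- multiplicative functions with values in the unit disc and `f(1) = 1` -/
structure UM (f : ℕ → ℂ) : Prop where
  bd : ∀ n, ‖f n‖ ≤ 1
  one : f 1 = 1
  mul : ∀ m n : ℕ, 1 ≤ m → 1 ≤ n → Nat.Coprime m n → f (m * n) = f m * f n

/-- the error at `n` -/
noncomputable def er (p₀ q X : ℕ) (χ : DirichletCharacter ℂ q) (t : ℝ) (z : ℂ) (f : ℕ → ℂ) (n : ℕ) : ℝ :=
  ∑ p ∈ (Ioc p₀ X).filter Nat.Prime, if p ∣ n then ‖f p - z * χ (p : ZMod q) * nit t p‖ else 0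

lemma er_nonneg (p₀ q X : ℕ) (χ : DirichletCharacter ℂ q) (t : ℝ) (z : ℂ) (f : ℕ → ℂ) (n : ℕ) : 0 ≤ er p₀ q X χ t z f n :=
  sum_nonneg fun p _ => by
    split_ifs
    · exact norm_nonneg _
    · exact le_rfl

lemma er_mono (p₀ q X : ℕ) (χ : DirichletCharacter ℂ q) (t : ℝ) (z : ℂ) (f : ℕ → ℂ) (m n : ℕ) (h : m ∣ n) :
    er p₀ q X χ t z f m ≤ er p₀ q X χ t z f n := by
  unfold er
  apply sum_le_sum
  intro p _
  split_ifs with h1 h2
  · exact le_rfl
  · exact absurd (h1.trans h) h2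
  · exact norm_nonneg _
  · exact le_rfl

lemma prod2 {a b a' b' : ℂ} (hb : ‖b‖ ≤ 1) (ha' : ‖a'‖ ≤ 1) : ‖a * b - a' * b'‖ ≤ ‖a - a'‖ + ‖b - b'‖ := by
  have e1 : a * b - a' * b' = (a - a') * b + a' * (b - b') := by ring
  rw [e1]
  refine (norm_add_le _ _).trans (add_le_add ?_ ?_)
  · rw [norm_mul]
    exact mul_le_of_le_one_right (norm_nonneg _) hb
  · rw [norm_mul]
    exact mul_le_of_le_one_left (norm_nonneg _) ha'

lemma sqf_near {p₀ q X : ℕ} {χ : DirichletCharacter ℂ q} {t : ℝ} {z : ℂ} {f : ℕ → ℂ} (hf : UM f) (hz : ‖z‖ = 1) :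
    ∀ m : ℕ, Squarefree m → m ≤ X → (∀ p : ℕ, p.Prime → p ∣ m → p₀ < p) →
      ‖f m - z ^ (cardFactors m) * χ (m : ZMod q) * nit t m‖ ≤ er p₀ q X χ t z f m := by
  intro m
  induction m using Nat.strong_induction_on with
  | _ m ih =>
    intro hsq hX hlarge
    have hm0 : m ≠ 0 := hsq.ne_zero
    rcases eq_or_ne m 1 with h1 | h1
    · subst h1
      have e1 : f 1 - z ^ (cardFactors 1) * χ ((1 : ℕ) : ZMod q) * nit t 1 = 0 := by
        rw [hf.one]
        unfold nit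
        simp
      rw [e1, norm_zero]
      exact er_nonneg _ _ _ _ _ _ _ _
    · set p := m.minFac with hp
      have hpp : p.Prime := Nat.minFac_prime h1
      obtain ⟨m', hm'⟩ := Nat.minFac_dvd m
      rw [← hp] at hm'
      have hm'0 : m' ≠ 0 := by
        rintro rfl
        rw [mul_zero] at hm'
        exact hm0 hm'
      have hlt : m' < m := by
        rw [hm']
        exact lt_mul_of_one_lt_left (Nat.pos_of_ne_zero hm'0) hpp.one_lt
      have hsq' : Squarefree m' := hsq.squarefree_of_dvd ⟨p, by rw [hm']; ring⟩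
      have hcop : ¬ p ∣ m' := by
        intro hd
        have h2 : p * p ∣ m := by
          rw [hm']
          exact Nat.mul_dvd_mul_left p hd
        have := Nat.isUnit_iff.1 (hsq p h2)
        exact hpp.one_lt.ne' this
      have h3 := ih m' hlt hsq' (by omega) (fun r hr hrm => hlarge r hr (by rw [hm']; exact dvd_mul_of_dvd_right hrm p))
      have h5 : f m = f p * f m' := by
        conv_lhs => rw [hm']
        exact hf.mul p m' hpp.pos (Nat.pos_of_ne_zero hm'0) ((Nat.Prime.coprime_iff_not_dvd hpp).2 hcop)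
      have h6 : z ^ (cardFactors m) * χ (m : ZMod q) * nit t m =
          (z * χ (p : ZMod q) * nit t p) * (z ^ (cardFactors m') * χ (m' : ZMod q) * nit t m') := by
        conv_lhs => rw [hm']
        rw [cardFactors_mul hpp.ne_zero hm'0, cardFactors_apply_prime hpp, Nat.cast_mul, map_mul,
          nit_mul t p m' hpp.ne_zero hm'0, pow_add, pow_one]
        ring
      have h7 : ‖z * χ (p : ZMod q) * nit t p‖ ≤ 1 := by
        rw [norm_mul, norm_mul, nit_norm, hz, one_mul, mul_one]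
        exact DirichletCharacter.norm_le_one _ _
      rw [h5, h6]
      refine (prod2 (hf.bd m') h7).trans ?_
      have hpX : p ∈ (Ioc p₀ X).filter Nat.Prime := by
        rw [mem_filter, mem_Ioc]
        have := Nat.le_of_dvd (Nat.pos_of_ne_zero hm0) (Nat.minFac_dvd m)
        exact ⟨⟨hlarge p hpp (Nat.minFac_dvd m), by omega⟩, hpp⟩
      have h8 : er p₀ q X χ t z f m = ‖f p - z * χ (p : ZMod q) * nit t p‖ + er p₀ q X χ t z f m' := by
        unfold er
        rw [← add_sum_erase _ _ hpX, ← add_sum_erase _ (fun p => if p ∣ m' then ‖f p - z * χ (p : ZMod q) * nit t p‖ else 0) hpX,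
          if_pos (Nat.minFac_dvd m), if_neg hcop, zero_add]
        congr 1
        apply sum_congr rfl
        intro r hr
        rw [mem_erase, mem_filter] at hr
        have h9 : r ∣ m ↔ r ∣ m' := by
          rw [hm']
          constructor
          · intro h
            rcases hr.2.2.dvd_mul.1 h with h5 | h5
            · exact absurd ((Nat.prime_dvd_prime_iff_eq hr.2.2 hpp).1 h5) hr.1
            · exact h5
          · exact fun h => dvd_mul_of_dvd_right h p
        simp only [h9]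
      rw [h8]
      linarith

/-- the value at a good integer -/
lemma good_near {p₀ q X : ℕ} {χ : DirichletCharacter ℂ q} {t : ℝ} {z : ℂ} {f : ℕ → ℂ} (hf : UM f) (hz : ‖z‖ = 1)
    (D E n : ℕ) (hD : p₀ ≤ D) (hn : 1 ≤ n) (hnX : n ≤ X) (hg : Gd D E n) :
    ‖f n - wt D E q χ t z f n * nit t n * z ^ (cardFactors n)‖ ≤ er p₀ q X χ t z f n := by
  obtain ⟨g1, g2, g3⟩ := Gd_dec D E n hn hg
  unfold wt
  set d := Nat.gcd n (QQ D E) with hd
  set m := n / d with hmd
  have hdn : d ∣ n := Nat.gcd_dvd_left _ _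
  have hmn : d * m = n := Nat.mul_div_cancel' hdn
  have hd0 : 0 < d := Nat.gcd_pos_of_pos_left _ hn
  have hm0 : m ≠ 0 := g2.ne_zero
  have hmdn : m ∣ n := ⟨d, by rw [← hmn]; ring⟩
  have h1 := sqf_near (p₀ := p₀) (q := q) (X := X) (χ := χ) (t := t) hf hz m g2 ((Nat.div_le_self _ _).trans hnX)
    (fun p hp hpm => lt_of_le_of_lt hD (g3 p hp hpm))
  have h2 : f n = f d * f m := by
    conv_lhs => rw [← hmn]
    exact hf.mul d m hd0 (Nat.pos_of_ne_zero hm0) g1
  have h3 : cardFactors n = cardFactors d + cardFactors m := by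
    conv_lhs => rw [← hmn, cardFactors_mul hd0.ne' hm0]
  have h4 : nit t n = nit t d * nit t m := by
    conv_lhs => rw [← hmn, nit_mul t d m hd0.ne' hm0]
  have h5 : (starRingEnd ℂ) z * z = 1 := by
    rw [mul_comm, Complex.mul_conj, Complex.normSq_eq_norm_sq, hz]
    simp
  have h6 : (starRingEnd ℂ) (nit t d) * nit t d = 1 := by
    rw [mul_comm, Complex.mul_conj, Complex.normSq_eq_norm_sq, nit_norm]
    simp
  have h7 : (starRingEnd ℂ) z ^ cardFactors d * z ^ cardFactors d = 1 := by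
    rw [← mul_pow, h5, one_pow]
  have e1 : f d * (starRingEnd ℂ) z ^ cardFactors d * (starRingEnd ℂ) (nit t d) * χ (m : ZMod q) * nit t n * z ^ cardFactors n =
      f d * (z ^ cardFactors m * χ (m : ZMod q) * nit t m) := by
    rw [h3, h4, pow_add]
    calc _ = f d * (z ^ cardFactors m * χ (m : ZMod q) * nit t m) * ((starRingEnd ℂ) z ^ cardFactors d * z ^ cardFactors d) *
        ((starRingEnd ℂ) (nit t d) * nit t d) := by ring
      _ = _ := by rw [h7, h6, mul_one, mul_one]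
  rw [e1, h2, ← mul_sub, norm_mul]
  refine (mul_le_of_le_one_left (norm_nonneg _) (hf.bd d)).trans (h1.trans ?_)
  exact er_mono _ _ _ _ _ _ _ _ _ hmdn

open scoped Classical in
/-- the mean error -/
lemma mean_near {p₀ q X : ℕ} {χ : DirichletCharacter ℂ q} {t : ℝ} {z : ℂ} {f : ℕ → ℂ} (hf : UM f) (hz : ‖z‖ = 1) {η : ℝ}
    (hN : Near p₀ q X χ t z η f) (D E : ℕ) (hD : p₀ ≤ D) (hD1 : 1 ≤ D) (hE : D ^ 2 ≤ 2 ^ E) (k M : ℕ) (hM : M + k ≤ X) :
    ∑ n ∈ Icc 1 M, ‖f (n + k) - wt D E q χ t z f (n + k) * nit t (n + k) * z ^ (cardFactors (n + k))‖ ≤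
      (4 / D + η) * ((M + k : ℕ) : ℝ) := by
  have h1 : ∀ n ∈ Ioc 0 (M + k), ‖f n - wt D E q χ t z f n * nit t n * z ^ (cardFactors n)‖ ≤
      2 * (if Gd D E n then (0 : ℝ) else 1) + er p₀ q X χ t z f n := by
    intro n hn
    rw [mem_Ioc] at hn
    split_ifs with hg
    · rw [mul_zero, zero_add]
      exact good_near hf hz D E n hD (by omega) (by omega) hg
    · have h5 := norm_sub_le (f n) (wt D E q χ t z f n * nit t n * z ^ (cardFactors n))
      have h6 : ‖wt D E q χ t z f n * nit t n * z ^ (cardFactors n)‖ ≤ 1 := by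
        rw [norm_mul, norm_mul, nit_norm, norm_pow, hz, one_pow, mul_one, mul_one]
        exact wt_bd D E q χ t z hz f hf.bd n
      have h7 := hf.bd n
      have h8 := er_nonneg p₀ q X χ t z f n
      linarith
  have h2 : ∑ n ∈ Icc 1 M, ‖f (n + k) - wt D E q χ t z f (n + k) * nit t (n + k) * z ^ (cardFactors (n + k))‖ ≤
      ∑ n ∈ Ioc 0 (M + k), ‖f n - wt D E q χ t z f n * nit t n * z ^ (cardFactors n)‖ := by
    rw [← sum_image (f := fun n => ‖f n - wt D E q χ t z f n * nit t n * z ^ (cardFactors n)‖) (g := fun n => n + k) (s := Icc 1 M)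
      (by intro x _ y _ hxy; simpa using hxy)]
    apply sum_le_sum_of_subset_of_nonneg
    · intro n hn
      rw [mem_image] at hn
      obtain ⟨m, hm, rfl⟩ := hn
      rw [mem_Icc] at hm
      rw [mem_Ioc]
      omega
    · intro n _ _
      exact norm_nonneg _
  refine h2.trans ((sum_le_sum h1).trans ?_)
  rw [sum_add_distrib, ← mul_sum]
  have h3 := cnt_bad D E (M + k) hD1 hE
  have h4 : ∑ n ∈ Ioc 0 (M + k), er p₀ q X χ t z f n ≤ η * ((M + k : ℕ) : ℝ) := by
    unfold er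
    rw [sum_comm]
    have h5 : ∀ p ∈ (Ioc p₀ X).filter Nat.Prime, ∑ n ∈ Ioc 0 (M + k), (if p ∣ n then ‖f p - z * χ (p : ZMod q) * nit t p‖ else 0) ≤
        ‖f p - z * χ (p : ZMod q) * nit t p‖ / p * ((M + k : ℕ) : ℝ) := by
      intro p _
      have e1 : ∀ n ∈ Ioc 0 (M + k), (if p ∣ n then ‖f p - z * χ (p : ZMod q) * nit t p‖ else 0) =
          ‖f p - z * χ (p : ZMod q) * nit t p‖ * (if p ∣ n then (1 : ℝ) else 0) := by
        intro n _
        split_ifs <;> simp
      rw [sum_congr rfl e1, ← mul_sum, cnt_dvd, div_mul_eq_mul_div, mul_div_assoc]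
      apply mul_le_mul_of_nonneg_left Nat.cast_div_le (norm_nonneg _)
    refine (sum_le_sum h5).trans ?_
    rw [← sum_mul]
    exact mul_le_mul_of_nonneg_right hN (Nat.cast_nonneg _)
  have e2 : (4 / (D : ℝ) + η) * ((M + k : ℕ) : ℝ) = 2 * (2 * ((M + k : ℕ) : ℝ) / D) + η * ((M + k : ℕ) : ℝ) := by ring
  rw [e2]
  linarith

lemma prod_diff {ι : Type*} (s : Finset ι) (a b : ι → ℂ) (ha : ∀ j, ‖a j‖ ≤ 1) (hb : ∀ j, ‖b j‖ ≤ 1) :
    ‖∏ j ∈ s, a j - ∏ j ∈ s, b j‖ ≤ ∑ j ∈ s, ‖a j - b j‖ := by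
  classical
  induction s using Finset.induction_on with
  | empty => simp
  | insert j s hj ih =>
    rw [prod_insert hj, prod_insert hj, sum_insert hj]
    have h1 : ‖∏ j ∈ s, a j‖ ≤ 1 := by
      rw [norm_prod]
      exact prod_le_one (fun _ _ => norm_nonneg _) fun j _ => ha j
    exact (prod2 h1 (hb j)).trans (add_le_add le_rfl ih)

lemma nit_add (t s : ℝ) (n : ℕ) : nit (t + s) n = nit t n * nit s n := by
  unfold nit
  rw [← Complex.exp_add]
  congr 1
  push_cast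
  ring

lemma nit_sumt {ι : Type*} (s : Finset ι) (t : ι → ℝ) (n : ℕ) : nit (∑ j ∈ s, t j) n = ∏ j ∈ s, nit (t j) n := by
  classical
  induction s using Finset.induction_on with
  | empty =>
    rw [sum_empty, prod_empty]
    unfold nit
    simp
  | insert j s hj ih => rw [sum_insert hj, prod_insert hj, nit_add, ih]

open scoped Classical in
/-- the main theorem for several functions -/
theorem mainS (r k l : ℕ) (hs : Fin r → ℕ) (hkl : k ≠ l) (p₀ q : ℕ) (hq : 1 ≤ q) (ε : ℝ) (hε : 0 < ε) :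
    ∃ η : ℝ, 0 < η ∧ ∃ C : ℝ, ∀ J : ℕ, ∃ δ : ℝ, 0 < δ ∧ ∃ y0 : ℕ, ∀ y : ℕ, y0 ≤ y →
    ∀ (t : ℝ) (ts : Fin r → ℝ), |t| ≤ δ * y → (∀ j, |ts j| ≤ δ * y) →
    ∀ (χ : DirichletCharacter ℂ q) (χs : Fin r → DirichletCharacter ℂ q) (z : ℂ), ‖z‖ = 1 → ε ≤ ‖z - 1‖ →
    ∀ (f g : ℕ → ℂ) (F : Fin r → ℕ → ℂ), UM f → (∀ n, ‖g n‖ ≤ 1) →
    (∀ m n : ℕ, 1 ≤ m → 1 ≤ n → Nat.Coprime m n → g (m * n) = g m * g n) → (∀ j, UM (F j)) →
    Near p₀ q (2 * y) χ t z η f → (∀ j, Near p₀ q (2 * y) (χs j) (ts j) 1 η (F j)) →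
    ∑ i ∈ (Icc 1 J).filter (fun i => ε < ‖(∑ n ∈ Icc 1 (y / 2 ^ i), f (n + k) * g (n + l) * ∏ j, F j (n + hs j)) /
      ((y / 2 ^ i : ℕ) : ℂ)‖), 1 / (i : ℝ) ≤ C := by
  set ε2 : ℝ := ε / (16 * (r + 1)) with hε2
  have hε20 : 0 < ε2 := by positivity
  set D : ℕ := p₀ + ⌈4 / ε2⌉₊ + 1 with hD
  have hD1 : 1 ≤ D := by omega
  have hD0 : (0 : ℝ) < D := by exact_mod_cast hD1
  have hDε : 4 / ε2 ≤ D := (Nat.le_ceil _).trans (by exact_mod_cast (by omega : ⌈4 / ε2⌉₊ ≤ D))
  have hD4 : 4 / (D : ℝ) ≤ ε2 := by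
    rw [div_le_iff₀ hD0]
    rw [div_le_iff₀ hε20] at hDε
    linarith
  obtain ⟨E, hE⟩ : ∃ E : ℕ, D ^ 2 ≤ 2 ^ E := ⟨D ^ 2, Nat.lt_two_pow_self.le⟩
  have hR : 1 ≤ q * QQ D E := Nat.mul_pos hq (QQ_pos D E)
  obtain ⟨C, hC⟩ := mainW k l hkl (q * QQ D E) hR (ε / 2) (by positivity)
  refine ⟨ε2, hε20, C, fun J => ?_⟩
  obtain ⟨δ0, hδ0, y0, hy0⟩ := hC J
  have h2J : (0 : ℝ) < 2 ^ J := by positivity
  set H : ℕ := k + ∑ j, hs j + 1 with hH
  have hHj : ∀ j, hs j ≤ H := fun j => by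
    have := single_le_sum (f := hs) (fun _ _ => Nat.zero_le _) (mem_univ j)
    omega
  have hH0 : (0 : ℝ) < H := by exact_mod_cast (by omega : 0 < H)
  set δ : ℝ := min (δ0 / (r + 1)) (ε2 * ε2 / (4 * 2 ^ J * H)) with hδ
  have hδpos : 0 < δ := by rw [hδ]; positivity
  refine ⟨δ, hδpos, y0 + 2 ^ J * (H + 1), fun y hy t ts ht hts χ χs z hz hz1 f g F hf hgb hgm hF hNf hNF => ?_⟩
  have hypos : (0 : ℝ) < y := by
    have : 0 < y := by
      have : 0 < 2 ^ J * (H + 1) := by positivity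
      omega
    exact_mod_cast this
  have hδ1 : δ * (r + 1) ≤ δ0 := by
    have : δ ≤ δ0 / (r + 1) := min_le_left _ _
    rwa [le_div_iff₀ (by positivity)] at this
  have hδ2 : δ ≤ ε2 * ε2 / (4 * 2 ^ J * H) := min_le_right _ _
  -- the combined exponent and weight
  set T : ℝ := t + ∑ j, ts j with hT
  have hTb : |T| ≤ δ0 * y := by
    rw [hT]
    refine (abs_add_le _ _).trans ?_
    have h1 : |∑ j, ts j| ≤ r * (δ * y) := by
      refine (abs_sum_le_sum_abs _ _).trans ((sum_le_sum fun j _ => hts j).trans (le_of_eq ?_))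
      simp
    calc |t| + |∑ j, ts j| ≤ δ * y + r * (δ * y) := add_le_add ht h1
      _ = (δ * (r + 1)) * y := by ring
      _ ≤ δ0 * y := mul_le_mul_of_nonneg_right hδ1 hypos.le
  set w0 : ℕ → ℂ := fun n => wt D E q χ t z f (n + k) with hw0
  set wj : Fin r → ℕ → ℂ := fun j n => wt D E q (χs j) (ts j) 1 (F j) (n + hs j) with hwj
  set w : ℕ → ℂ := fun n => w0 n * ∏ j, wj j n with hw
  have hw0b : ∀ n, ‖w0 n‖ ≤ 1 := fun n => wt_bd D E q χ t z hz f hf.bd _
  have hwjb : ∀ j n, ‖wj j n‖ ≤ 1 := fun j n => wt_bd D E q (χs j) (ts j) 1 (by simp) (F j) (hF j).bd _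
  have hwb : ∀ n, ‖w n‖ ≤ 1 := by
    intro n
    rw [hw, norm_mul, norm_prod]
    exact mul_le_one₀ (hw0b n) (by positivity) (prod_le_one (fun _ _ => norm_nonneg _) fun j _ => hwjb j n)
  have hcg : ∀ h n : ℕ, n + h ≡ n % (q * QQ D E) + h [MOD (q * QQ D E)] := fun h n =>
    (Nat.ModEq.add_right h (Nat.mod_modEq n _)).symm
  have hwp : ∀ n, w n = w (n % (q * QQ D E)) := by
    intro n
    rw [hw]
    simp only
    rw [hw0, hwj]
    simp only
    rw [wt_congr D E q χ t z f _ _ (hcg k n)]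
    congr 1
    apply prod_congr rfl
    intro j _
    exact wt_congr D E q (χs j) (ts j) 1 (F j) _ _ (hcg (hs j) n)
  have h1 := (hy0 y (by omega) T hTb w hwb hwp g hgb hgm).2 z hz.le (by linarith)
  refine le_trans ?_ h1
  apply sum_le_sum_of_subset_of_nonneg _ fun i _ _ => by positivity
  intro i hi
  rw [mem_filter] at hi ⊢
  refine ⟨hi.1, ?_⟩
  have h2 := hi.2
  rw [mem_Icc] at hi
  have hpow : 2 ^ i ≤ 2 ^ J := Nat.pow_le_pow_right (by norm_num) hi.1.2
  set M := y / 2 ^ i with hM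
  have hM1 : H + 1 ≤ M := by
    rw [hM, Nat.le_div_iff_mul_le (by positivity)]
    calc (H + 1) * 2 ^ i ≤ (H + 1) * 2 ^ J := Nat.mul_le_mul_left _ hpow
      _ = 2 ^ J * (H + 1) := mul_comm _ _
      _ ≤ y := by omega
  have hM0 : (0 : ℝ) < M := by exact_mod_cast (by omega : 0 < M)
  have hMy : M ≤ y := Nat.div_le_self _ _
  have hMJ : (y : ℝ) / (2 * 2 ^ J) ≤ M := by
    have h2i : (0 : ℝ) < 2 ^ i := by positivity
    have h3 := Nat.lt_div_mul_add (a := y) (b := 2 ^ i) (by positivity)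
    have h4 : (y : ℝ) < (M : ℝ) * 2 ^ i + 2 ^ i := by
      rw [hM]
      exact_mod_cast h3
    have h5 : (1 : ℝ) ≤ M := by exact_mod_cast (by omega : 1 ≤ M)
    have h6 : (2 : ℝ) ^ i ≤ 2 ^ J := pow_le_pow_right₀ one_le_two hi.1.2
    rw [div_le_iff₀ (by positivity)]
    nlinarith
  -- error of the approximations
  have herr : ∀ h : ℕ, h ≤ H → (4 / (D : ℝ) + ε2) * ((M + h : ℕ) : ℝ) ≤ 4 * ε2 * M := by
    intro h hh
    have h3 : ((M + h : ℕ) : ℝ) ≤ 2 * M := by exact_mod_cast (by omega : M + h ≤ 2 * M)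
    calc (4 / (D : ℝ) + ε2) * ((M + h : ℕ) : ℝ) ≤ (ε2 + ε2) * (2 * M) :=
          mul_le_mul (by linarith) h3 (Nat.cast_nonneg _) (by positivity)
      _ = _ := by ring
  have hA := (mean_near hf hz hNf D E (by omega) hD1 hE k M (by omega)).trans (herr k (by omega))
  have hB : ∀ j, ∑ n ∈ Icc 1 M, ‖F j (n + hs j) - wj j n * nit (ts j) (n + hs j)‖ ≤ 4 * ε2 * M := by
    intro j
    have h3 := (mean_near (hF j) (by simp : ‖(1 : ℂ)‖ = 1) (hNF j) D E (by omega) hD1 hE (hs j) M (by have := hHj j; omega)).trans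
      (herr (hs j) (hHj j))
    simp only [one_pow, mul_one] at h3
    exact h3
  have hCn : ∀ j, ∑ n ∈ Icc 1 M, ‖nit (ts j) (n + hs j) - nit (ts j) (n + k)‖ ≤ 3 * ε2 * M := by
    intro j
    have h3 := nit_sum (ts j) (hs j) k M ε2 hε20 (by omega)
    have h4 : |ts j| * ((hs j : ℝ) + k) / ε2 ≤ ε2 * M := by
      rw [div_le_iff₀ hε20]
      have h5 : (hs j : ℝ) + k ≤ 2 * H := by
        have a1 : (hs j : ℝ) ≤ H := by exact_mod_cast hHj j
        have a2 : (k : ℝ) ≤ H := by exact_mod_cast (by omega : k ≤ H)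
        linarith
      calc |ts j| * ((hs j : ℝ) + k) ≤ (ε2 * ε2 / (4 * 2 ^ J * H) * y) * (2 * H) := by
            apply mul_le_mul _ h5 (by positivity) (by positivity)
            exact (hts j).trans (mul_le_mul_of_nonneg_right hδ2 hypos.le)
        _ = ε2 * (y / (2 * 2 ^ J)) * ε2 := by field_simp; ring
        _ ≤ ε2 * M * ε2 := by
            apply mul_le_mul_of_nonneg_right _ hε20.le
            exact mul_le_mul_of_nonneg_left hMJ hε20.le
    linarith
  have h3 : ‖(∑ n ∈ Icc 1 M, f (n + k) * g (n + l) * ∏ j, F j (n + hs j)) / (M : ℂ) - WG w T k l (fun u => z ^ u) g M‖ ≤ ε / 2 := by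
    unfold WG
    rw [← sub_div, ← sum_sub_distrib, norm_div, Complex.norm_natCast, div_le_iff₀ hM0]
    have h4 : ∀ n ∈ Icc 1 M, ‖f (n + k) * g (n + l) * ∏ j, F j (n + hs j) - w n * nit T (n + k) * z ^ (cardFactors (n + k)) * g (n + l)‖ ≤
        ‖f (n + k) - wt D E q χ t z f (n + k) * nit t (n + k) * z ^ (cardFactors (n + k))‖ +
        ∑ j, (‖F j (n + hs j) - wj j n * nit (ts j) (n + hs j)‖ + ‖nit (ts j) (n + hs j) - nit (ts j) (n + k)‖) := by
      intro n _
      have e1 : f (n + k) * g (n + l) * ∏ j, F j (n + hs j) - w n * nit T (n + k) * z ^ (cardFactors (n + k)) * g (n + l) =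
          g (n + l) * (f (n + k) * ∏ j, F j (n + hs j) - (w0 n * nit t (n + k) * z ^ (cardFactors (n + k))) *
            ∏ j, (wj j n * nit (ts j) (n + k))) := by
        rw [hT, nit_add, nit_sumt, prod_mul_distrib, hw]
        ring
      rw [e1, norm_mul]
      refine (mul_le_of_le_one_left (norm_nonneg _) (hgb _)).trans ?_
      have h5 : ‖∏ j, F j (n + hs j)‖ ≤ 1 := by
        rw [norm_prod]
        exact prod_le_one (fun _ _ => norm_nonneg _) fun j _ => (hF j).bd _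
      have h6 : ‖w0 n * nit t (n + k) * z ^ (cardFactors (n + k))‖ ≤ 1 := by
        rw [norm_mul, norm_mul, nit_norm, norm_pow, hz, one_pow, mul_one, mul_one]
        exact hw0b n
      refine (prod2 h5 h6).trans (add_le_add le_rfl ?_)
      refine (prod_diff univ _ _ (fun j => (hF j).bd _) (fun j => ?_)).trans (sum_le_sum fun j _ => ?_)
      · rw [norm_mul, nit_norm, mul_one]
        exact hwjb j n
      · have e2 : F j (n + hs j) - wj j n * nit (ts j) (n + k) = (F j (n + hs j) - wj j n * nit (ts j) (n + hs j)) +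
            wj j n * (nit (ts j) (n + hs j) - nit (ts j) (n + k)) := by ring
        rw [e2]
        refine (norm_add_le _ _).trans (add_le_add le_rfl ?_)
        rw [norm_mul]
        exact mul_le_of_le_one_left (norm_nonneg _) (hwjb j n)
    refine (norm_sum_le _ _).trans ((sum_le_sum h4).trans ?_)
    rw [sum_add_distrib, sum_comm]
    have h7 : ∑ j, ∑ n ∈ Icc 1 M, (‖F j (n + hs j) - wj j n * nit (ts j) (n + hs j)‖ + ‖nit (ts j) (n + hs j) - nit (ts j) (n + k)‖) ≤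
        r * (7 * ε2 * M) := by
      have h8 : ∀ j : Fin r, ∑ n ∈ Icc 1 M, (‖F j (n + hs j) - wj j n * nit (ts j) (n + hs j)‖ + ‖nit (ts j) (n + hs j) - nit (ts j) (n + k)‖) ≤
          7 * ε2 * M := by
        intro j
        rw [sum_add_distrib]
        have := hB j
        have := hCn j
        linarith
      refine (sum_le_sum fun j _ => h8 j).trans (le_of_eq ?_)
      simp
    have h9 : 4 * ε2 * M + r * (7 * ε2 * M) ≤ ε / 2 * M := by
      have e3 : ε / 2 * M = 8 * (r + 1) * ε2 * M := by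
        rw [hε2]
        field_simp
        ring
      rw [e3]
      have : 0 ≤ ε2 * M := by positivity
      have h10 : 0 ≤ (r : ℝ) * (ε2 * M) := by positivity
      nlinarith
    linarith
  have h8 := norm_add_le ((∑ n ∈ Icc 1 M, f (n + k) * g (n + l) * ∏ j, F j (n + hs j)) / (M : ℂ) - WG w T k l (fun u => z ^ u) g M)
    (WG w T k l (fun u => z ^ u) g M)
  rw [sub_add_cancel] at h8
  linarith

end Pool.Agent.TH575.OM
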