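import Mathlib
import Pool.Agent.TH575.OM.FinS

/-!
The theorem for several functions, without the condition `f(1) = 1`.
-/

set_option autoImplicit false

namespace Pool.Agent.TH575.OM

open Finset ArithmeticFunction
open Pool.Agent.TH575.CW

/-- multiplicative functions with values in the unit disc -/
def UD (f : ℕ → ℂ) : Prop :=
  (∀ n, ‖f n‖ ≤ 1) ∧ ∀ m n : ℕ, 1 ≤ m → 1 ≤ n → Nat.Coprime m n → f (m * n) = f m * f n

lemma UD_or {f : ℕ → ℂ} (hf : UD f) : UM f ∨ ∀ n, 1 ≤ n → f n = 0 := by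
  have h1 := hf.2 1 1 le_rfl le_rfl (Nat.coprime_one_right 1)
  rw [mul_one] at h1
  rcases eq_or_ne (f 1) 0 with h | h
  · right
    intro n hn
    have h2 := hf.2 1 n le_rfl hn (Nat.coprime_one_left n)
    rw [one_mul, h, zero_mul] at h2
    exact h2
  · left
    exact ⟨hf.1, by
      have h3 : f 1 * f 1 = f 1 * 1 := by rw [mul_one]; exact h1.symm
      exact mul_left_cancel₀ h h3, hf.2⟩

open scoped Classical in
/-- the main theorem for several functions -/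
theorem mainT (r k l : ℕ) (hs : Fin r → ℕ) (hkl : k ≠ l) (p₀ q : ℕ) (hq : 1 ≤ q) (ε : ℝ) (hε : 0 < ε) :
    ∃ η : ℝ, 0 < η ∧ ∃ C : ℝ, ∀ J : ℕ, ∃ δ : ℝ, 0 < δ ∧ ∃ y0 : ℕ, ∀ y : ℕ, y0 ≤ y →
    ∀ (t : ℝ) (ts : Fin r → ℝ), |t| ≤ δ * y → (∀ j, |ts j| ≤ δ * y) →
    ∀ (χ : DirichletCharacter ℂ q) (χs : Fin r → DirichletCharacter ℂ q) (z : ℂ), ‖z‖ = 1 → ε ≤ ‖z - 1‖ →
    ∀ (f g : ℕ → ℂ) (F : Fin r → ℕ → ℂ), UD f → UD g → (∀ j, UD (F j)) →
    Near p₀ q (2 * y) χ t z η f → (∀ j, Near p₀ q (2 * y) (χs j) (ts j) 1 η (F j)) →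
    ∑ i ∈ (Icc 1 J).filter (fun i => ε < ‖(∑ n ∈ Icc 1 (y / 2 ^ i), f (n + k) * g (n + l) * ∏ j, F j (n + hs j)) /
      ((y / 2 ^ i : ℕ) : ℂ)‖), 1 / (i : ℝ) ≤ C := by
  obtain ⟨η, hη, C, hC⟩ := mainS r k l hs hkl p₀ q hq ε hε
  refine ⟨η, hη, max C 0, fun J => ?_⟩
  obtain ⟨δ, hδ, y0, hy0⟩ := hC J
  refine ⟨δ, hδ, y0 + 1, fun y hy t ts ht hts χ χs z hz hz1 f g F hf hg hF hNf hNF => ?_⟩
  by_cases hall : UM f ∧ ∀ j, UM (F j)
  · exact (hy0 y (by omega) t ts ht hts χ χs z hz hz1 f g F hall.1 hg.1 hg.2 hall.2 hNf hNF).trans (le_max_left _ _)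
  · -- all the correlations vanish, for the shifts at least one
    have hzero : ∀ n, 1 ≤ n → f (n + k) * g (n + l) * ∏ j, F j (n + hs j) = 0 := by
      intro n hn
      rw [not_and_or] at hall
      rcases hall with h | h
      · rw [(UD_or hf).resolve_left h (n + k) (by omega), zero_mul, zero_mul]
      · rw [not_forall] at h
        obtain ⟨j, hj⟩ := h
        rw [prod_eq_zero (mem_univ j) ((UD_or (hF j)).resolve_left hj (n + hs j) (by omega)), mul_zero]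
    have h0 : ∀ M : ℕ, ∑ n ∈ Icc 1 M, f (n + k) * g (n + l) * ∏ j, F j (n + hs j) = 0 := by
      intro M
      apply sum_eq_zero
      intro n hn
      exact hzero n (mem_Icc.1 hn).1
    have hem : (Icc 1 J).filter (fun i => ε < ‖(∑ n ∈ Icc 1 (y / 2 ^ i), f (n + k) * g (n + l) * ∏ j, F j (n + hs j)) /
      ((y / 2 ^ i : ℕ) : ℂ)‖) = ∅ := by
      rw [filter_eq_empty_iff]
      intro i _
      rw [h0, zero_div, norm_zero, not_lt]
      exact hε.le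
    rw [hem, sum_empty]
    exact le_max_right _ _

end Pool.Agent.TH575.OM
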