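import Pool.Agent.H970R2.X.Apl

/-!
Lower bounds for the sums of `1/p` over the primes of a residue class in short multiplicative blocks
(after H970R2/X/Apl).
-/

set_option autoImplicit false

namespace Pool.Agent.TH575.OM

open Finset Filter Topology Pool.Agent.H970R2.X

theorem blk_le (M a : ℕ) (u v : ℝ) (h0 : 0 ≤ u) (huv : u ≤ v) :
    (xapl_th M a (Real.exp v) - xapl_th M a (Real.exp u)) / (Real.exp v * v) ≤
      xapl_bl M a ⌊Real.exp u⌋₊ ⌊Real.exp v⌋₊ ∨ v = 0 := by
  classical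
  rcases eq_or_lt_of_le (h0.trans huv) with hv | hv
  · exact Or.inr hv.symm
  left
  set x := Real.exp u with hxd
  set y := Real.exp v with hyd
  have hxy : x ≤ y := Real.exp_le_exp.2 huv
  have hy0 : 0 < y := Real.exp_pos _
  have hfl : ⌊x⌋₊ ≤ ⌊y⌋₊ := Nat.floor_le_floor hxy
  have hsub : xapl_th M a y - xapl_th M a x =
      ∑ p ∈ (Ioc ⌊x⌋₊ ⌊y⌋₊).filter (fun p : ℕ => p.Prime ∧ p % M = a % M), Real.log p := by
    unfold xapl_th
    rw [Finset.sum_filter, Finset.sum_filter, Finset.sum_filter,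
      ← Finset.sum_Ioc_consecutive _ (Nat.zero_le _) hfl]
    ring
  rw [hsub, div_le_iff₀ (by positivity)]
  unfold xapl_bl
  rw [Finset.sum_mul]
  apply Finset.sum_le_sum
  intro p hp
  rw [mem_filter, mem_Ioc] at hp
  have hp0 : (0:ℝ) < p := by exact_mod_cast hp.2.1.pos
  have hpy : (p : ℝ) ≤ y := (Nat.le_floor_iff hy0.le).1 hp.1.2
  have hlog : Real.log p ≤ v := by
    rw [Real.log_le_iff_le_exp hp0]; exact hpy
  have h3 : 0 ≤ Real.log (p : ℝ) := Real.log_natCast_nonneg _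
  rw [one_div, inv_mul_eq_div, le_div_iff₀ hp0]
  calc Real.log p * p ≤ v * y := by
        apply mul_le_mul hlog hpy hp0.le (by positivity)
    _ = _ := by ring

theorem blk_low (q r H : ℕ) (hq : 0 < q) (hr : Nat.Coprime r q) (hH : 1 ≤ H) :
    ∃ c : ℝ, 0 < c ∧ ∃ v₀ : ℕ, 1 ≤ v₀ ∧ ∀ v : ℕ, v₀ ≤ v →
      c / v ≤ xapl_bl q r ⌊Real.exp ((v : ℝ) / H)⌋₊ ⌊Real.exp (((v : ℝ) + 1) / H)⌋₊ := by
  have hphi : (0:ℝ) < q.totient := by exact_mod_cast Nat.totient_pos.2 hq
  have hH0 : (0 : ℝ) < H := by exact_mod_cast hH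
  have hH1 : (1 : ℝ) ≤ H := by exact_mod_cast hH
  set c : ℝ := ((q.totient : ℝ))⁻¹ with hcdef
  have hc : 0 < c := inv_pos.2 hphi
  have hL := xapl_th_tendsto q r hq hr
  set e : ℝ := Real.exp (-(1 / (H : ℝ))) with he
  have he1 : e < 1 := by rw [he, Real.exp_lt_one_iff]; simp; omega
  have he0 : 0 < e := Real.exp_pos _
  have t1 : Tendsto (fun t : ℕ => (t : ℝ) / H) atTop atTop :=
    tendsto_natCast_atTop_atTop.atTop_div_const hH0
  have t2 : Tendsto (fun t : ℕ => ((t : ℝ) + 1) / H) atTop atTop :=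
    (tendsto_atTop_add_const_right _ _ tendsto_natCast_atTop_atTop).atTop_div_const hH0
  have hg1 : Tendsto (fun t : ℕ => Real.exp ((t : ℝ) / H)) atTop atTop := Real.tendsto_exp_atTop.comp t1
  have hg2 : Tendsto (fun t : ℕ => Real.exp (((t : ℝ) + 1) / H)) atTop atTop := Real.tendsto_exp_atTop.comp t2
  have hlim := (hL.comp hg2).sub ((hL.comp hg1).mul_const e)
  have hlt : c * (1 - e) / 2 < c - c * e := by nlinarith
  obtain ⟨t₀, ht₀⟩ := eventually_atTop.1 (hlim.eventually_const_lt hlt)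
  refine ⟨c * (1 - e) / 2 / 2, by have : 0 < 1 - e := by linarith
                                  positivity, max t₀ 1, le_max_right _ _, fun v hv => ?_⟩
  have hv1 : 1 ≤ v := (le_max_right _ _).trans hv
  have hv1' : (1 : ℝ) ≤ v := by exact_mod_cast hv1
  have h5 := ht₀ v ((le_max_left _ _).trans hv)
  simp only [Function.comp] at h5
  have hu0 : (0 : ℝ) ≤ (v : ℝ) / H := by positivity
  have huv : (v : ℝ) / H ≤ ((v : ℝ) + 1) / H := by gcongr; linarith
  have hy1 : (0 : ℝ) < ((v : ℝ) + 1) / H := by positivity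
  rcases blk_le q r _ _ hu0 huv with h6 | h6
  swap
  · exact absurd h6 hy1.ne'
  refine le_trans ?_ h6
  set x := Real.exp ((v : ℝ) / H) with hxd
  set y := Real.exp (((v : ℝ) + 1) / H) with hyd
  have hx0 : 0 < x := Real.exp_pos _
  have hy0 : 0 < y := Real.exp_pos _
  have hyx : y * e = x := by
    rw [hyd, he, hxd, ← Real.exp_add]
    congr 1
    field_simp
    ring
  have e1 : xapl_th q r y / y - xapl_th q r x / x * e =
      (xapl_th q r y - xapl_th q r x) / y := by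
    rw [← hyx]
    field_simp
  rw [e1] at h5
  rw [← div_div]
  have h7 : c * (1 - e) / 2 / (((v : ℝ) + 1) / H) ≤ (xapl_th q r y - xapl_th q r x) / y / (((v : ℝ) + 1) / H) :=
    div_le_div_of_nonneg_right h5.le hy1.le
  refine le_trans ?_ h7
  have h8 : 0 < c * (1 - e) / 2 := by
    have : 0 < 1 - e := by linarith
    positivity
  have h9 : c * (1 - e) / 2 / 2 / (v : ℝ) = c * (1 - e) / 2 / (2 * v) := by rw [div_div]
  rw [h9]
  apply div_le_div_of_nonneg_left h8.le hy1
  rw [div_le_iff₀ hH0]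
  nlinarith

end Pool.Agent.TH575.OM
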