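import Pool.Agent.H970R2.X.Mom

/-! Mean values with constants which do not depend on the function (after H970R2/X/Mom). -/

set_option autoImplicit false

namespace Pool.Agent.TH575.OM
open Finset Filter Pool.Agent.H376R2.MR Pool.Agent.H970R2.X

theorem mom_zero_fam :
    ∃ C : ℝ, 0 < C ∧ ∀ g : ℕ → ℤ, Bdd g → ∀ (K : ℕ) (Z : ℝ), 3 ≤ Z → 1 ≤ K →
    ∑ k ∈ FK K, ‖GGg g Z k‖ ^ 2 ≤ C * (1 + K / Z) := by
  obtain ⟨C, hC, hmv⟩ := mv
  set e := Real.exp 1 with he
  have he0 : 0 < e := Real.exp_pos 1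
  have he3 : e < 3 := Real.exp_one_lt_three
  have he1 : 1 ≤ e := Real.one_le_exp zero_le_one
  refine ⟨C * 3 * e ^ 3, by positivity, ?_⟩
  intro g hb K Z hZ hK
  have hZ0 : 0 < Z := by linarith
  set t := (WN Z).filter (fun n => bw Z n ≠ 0) with ht
  have hmem : ∀ n ∈ t, Z / e ≤ (n : ℝ) ∧ (n : ℝ) ≤ e * Z := by
    intro n hn
    rw [ht, Finset.mem_filter] at hn
    obtain ⟨h0, h1, h2⟩ := mom_bw_ne hn.2
    have hpos : (0 : ℝ) < n := by exact_mod_cast h0
    constructor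
    · rw [← Real.log_le_log_iff (by positivity) hpos, Real.log_div hZ0.ne' he0.ne', he,
        Real.log_exp]
      exact h1
    · rw [← Real.log_le_log_iff hpos (by positivity), Real.log_mul he0.ne' hZ0.ne', he,
        Real.log_exp]
      linarith
  have h1 : (1 : ℝ) ≤ Z / e := by
    rw [le_div_iff₀ he0]
    linarith
  have h12 : Z / e ≤ e * Z := by
    rw [div_le_iff₀ he0]
    calc Z = 1 * Z * 1 := by ring
      _ ≤ e * Z * e := by gcongr
  have hlog : Real.log (e * Z / (Z / e)) = 2 := by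
    have : e * Z / (Z / e) = e ^ 2 := by field_simp
    rw [this, he, Real.log_pow, Real.log_exp]
    norm_num
  have hm := hmv t (fun n => (g n : ℂ) * (bw Z n : ℂ)) (Z / e) (e * Z) K h1 h12 hmem hK
  rw [hlog] at hm
  have hcard : (t.card : ℝ) ≤ e * Z := by
    have h1 : t.card ≤ ⌊e * Z⌋₊ := by
      calc t.card ≤ (WN Z).card := Finset.card_filter_le _ _
        _ = ⌊e * Z⌋₊ := by
          unfold WN
          rw [Nat.card_Icc]
          simp [he]
    calc (t.card : ℝ) ≤ (⌊e * Z⌋₊ : ℝ) := by exact_mod_cast h1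
      _ ≤ e * Z := Nat.floor_le (by positivity)
  calc ∑ k ∈ FK K, ‖GGg g Z k‖ ^ 2
      = ∑ k ∈ FK K, ‖DP t (fun n => (g n : ℂ) * (bw Z n : ℂ)) k‖ ^ 2 := by
        apply Finset.sum_congr rfl
        intro k _
        rw [xmom_GG_filter]
    _ ≤ _ := hm
    _ ≤ C * (1 + 2) * ∑ n ∈ t, (e / Z + K * (e / Z) ^ 2) := by
        apply mul_le_mul_of_nonneg_left _ (by positivity)
        apply Finset.sum_le_sum
        intro n hn
        have hn1 := (hmem n hn).1
        have hnpos : (0 : ℝ) < n := by linarith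
        have hinv : 1 / (n : ℝ) ≤ e / Z := by
          rw [div_le_div_iff₀ hnpos hZ0, one_mul]
          rw [div_le_iff₀ he0] at hn1
          linarith
        calc ‖(g n : ℂ) * (bw Z n : ℂ)‖ ^ 2 * ((n : ℝ) + K)
            ≤ (1 / (n : ℝ)) ^ 2 * ((n : ℝ) + K) := by
              gcongr
              exact xmom_coef_norm hb Z n
          _ = 1 / (n : ℝ) + K * (1 / (n : ℝ)) ^ 2 := by
              field_simp
          _ ≤ e / Z + K * (e / Z) ^ 2 := by gcongr
    _ = C * 3 * (t.card * (e / Z + K * (e / Z) ^ 2)) := by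
        rw [Finset.sum_const, nsmul_eq_mul]
        norm_num
    _ ≤ C * 3 * (e * Z * (e / Z + K * (e / Z) ^ 2)) := by gcongr
    _ = C * 3 * (e ^ 2 + e ^ 3 * (K / Z)) := by
        field_simp
    _ ≤ C * 3 * (e ^ 3 + e ^ 3 * (K / Z)) := by
        gcongr
        norm_num
    _ = C * 3 * e ^ 3 * (1 + K / Z) := by ring

/-! ### the product -/

theorem mom_fam (P : ℕ → Prop) :
    ∃ C : ℝ, 0 < C ∧ ∀ g : ℕ → ℤ, Bdd g → ∀ (H r ℓ K : ℕ) (Z : ℝ), 1 ≤ H → 3 ≤ Z → 1 ≤ K →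
    (K : ℝ) ≤ Z * Real.exp ((r : ℝ) * ℓ / H) →
    ∑ k ∈ FK K, ‖PPp P H r k ^ ℓ * GGg g Z k‖ ^ 2 ≤
      C * (3 + (ℓ : ℝ) / H) ^ 2 * (ℓ.factorial : ℝ) ^ 2 := by
  obtain ⟨C, hC, hmv⟩ := mv
  obtain ⟨C', hC', hgd⟩ := sum_gd_sq
  set e := Real.exp 1 with he
  have he0 : 0 < e := Real.exp_pos 1
  have he3 : e < 3 := Real.exp_one_lt_three
  have he1 : 1 ≤ e := Real.one_le_exp zero_le_one
  refine ⟨C * 4 * C', by positivity, ?_⟩
  intro g hb H r ℓ K Z hH hZ hK hKe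
  have hZ0 : 0 < Z := by linarith
  have hHpos : (0 : ℝ) < H := by exact_mod_cast hH
  set A : ℝ := Real.exp ((r : ℝ) * ℓ / H) with hA
  set B : ℝ := Real.exp (((r : ℝ) + 1) * ℓ / H) with hB
  have hA1 : (1 : ℝ) ≤ A := Real.one_le_exp (by positivity)
  have hAB : A ≤ B := by
    apply Real.exp_le_exp.2
    gcongr
    linarith
  have hA0 : 0 < A := by linarith
  have hB0 : 0 < B := by linarith
  have hZe : (1 : ℝ) ≤ Z / e := by
    rw [le_div_iff₀ he0]
    linarith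
  have h1 : (1 : ℝ) ≤ Z / e * A := by nlinarith
  have h12 : Z / e * A ≤ e * Z * B := by
    have : Z / e ≤ e * Z := by
      rw [div_le_iff₀ he0]
      calc Z = 1 * Z * 1 := by ring
        _ ≤ e * Z * e := by gcongr
    gcongr
  set t := Icc ⌈Z / e * A⌉₊ ⌊e * Z * B⌋₊ with ht
  have hmem : ∀ n ∈ t, Z / e * A ≤ (n : ℝ) ∧ (n : ℝ) ≤ e * Z * B := by
    intro n hn
    rw [ht, Finset.mem_Icc] at hn
    exact ⟨Nat.ceil_le.1 hn.1, (Nat.le_floor_iff (by positivity)).1 hn.2⟩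
  have hmaps : ∀ x ∈ xmomPr P H r ℓ Z, x.2 * ∏ i, x.1 i ∈ t := by
    intro x hx
    unfold xmomPr at hx
    rw [Finset.mem_product, Finset.mem_filter] at hx
    obtain ⟨hx1, hx2, hx3⟩ := hx
    obtain ⟨h0, hl1, hl2⟩ := mom_bw_ne hx3
    have hp := mom_prod_pos (xmom_pi_sub P H r ℓ hx1)
    obtain ⟨hq1, hq2⟩ := mom_prod_log (xmom_pi_sub P H r ℓ hx1)
    have hpr : (0 : ℝ) < ((∏ i, x.1 i : ℕ) : ℝ) := by exact_mod_cast hp
    have hx2r : (0 : ℝ) < (x.2 : ℝ) := by exact_mod_cast h0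
    have hlogn : Real.log ((x.2 * ∏ i, x.1 i : ℕ) : ℝ) =
        Real.log (x.2 : ℝ) + Real.log ((∏ i, x.1 i : ℕ) : ℝ) := by
      rw [Nat.cast_mul, Real.log_mul hx2r.ne' hpr.ne']
    have hnpos : (0 : ℝ) < ((x.2 * ∏ i, x.1 i : ℕ) : ℝ) := by
      rw [Nat.cast_mul]
      positivity
    rw [ht, Finset.mem_Icc]
    constructor
    · apply Nat.ceil_le.2
      rw [← Real.log_le_log_iff (by positivity) hnpos, hlogn, Real.log_mul (by positivity) hA0.ne',
        Real.log_div hZ0.ne' he0.ne', he, Real.log_exp, hA, Real.log_exp]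
      linarith
    · apply (Nat.le_floor_iff (by positivity)).2
      rw [← Real.log_le_log_iff hnpos (by positivity), hlogn, Real.log_mul (by positivity) hB0.ne',
        Real.log_mul he0.ne' hZ0.ne', he, Real.log_exp, hB, Real.log_exp]
      linarith
  have hlog : Real.log (e * Z * B / (Z / e * A)) = 2 + ℓ / H := by
    rw [Real.log_div (by positivity) (by positivity), Real.log_mul (by positivity) hB0.ne',
      Real.log_mul he0.ne' hZ0.ne', Real.log_mul (by positivity) hA0.ne',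
      Real.log_div hZ0.ne' he0.ne', he, hA, hB, Real.log_exp, Real.log_exp, Real.log_exp]
    ring
  have hm := hmv t (xmomC P g H r ℓ Z) (Z / e * A) (e * Z * B) K h1 h12 hmem hK
  rw [hlog] at hm
  have hg := hgd H r ℓ (Z / e * A) (e * Z * B) hH h1 h12
  rw [hlog, ← ht] at hg
  calc ∑ k ∈ FK K, ‖PPp P H r k ^ ℓ * GGg g Z k‖ ^ 2
      = ∑ k ∈ FK K, ‖DP t (xmomC P g H r ℓ Z) k‖ ^ 2 := by
        apply Finset.sum_congr rfl
        intro k _
        rw [xmom_prod_DP P g H r ℓ Z k t hmaps]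
    _ ≤ _ := hm
    _ ≤ C * (1 + (2 + (ℓ : ℝ) / H)) * ∑ n ∈ t, 4 * ((gd (cell H r) ℓ n : ℝ) ^ 2 / n) := by
        apply mul_le_mul_of_nonneg_left _ (by positivity)
        apply Finset.sum_le_sum
        intro n hn
        have hn1 := (hmem n hn).1
        have hnpos : (0 : ℝ) < n := by linarith
        have hKn : (K : ℝ) ≤ 3 * n := by
          calc (K : ℝ) ≤ Z * A := hKe
            _ = e * (Z / e * A) := by field_simp
            _ ≤ e * n := by gcongr
            _ ≤ 3 * n := by gcongr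
        have hcn := xmom_C_norm P hb H r ℓ Z n
        calc ‖xmomC P g H r ℓ Z n‖ ^ 2 * ((n : ℝ) + K)
            ≤ ((gd (cell H r) ℓ n : ℝ) / n) ^ 2 * ((n : ℝ) + 3 * n) := by gcongr
          _ = 4 * ((gd (cell H r) ℓ n : ℝ) ^ 2 / n) := by
              field_simp
              ring
    _ = C * (1 + (2 + (ℓ : ℝ) / H)) * (4 * ∑ n ∈ t, ((gd (cell H r) ℓ n : ℝ) ^ 2 / n)) := by
        rw [← Finset.mul_sum]
    _ ≤ C * (1 + (2 + (ℓ : ℝ) / H)) *
        (4 * (C' * (ℓ.factorial : ℝ) ^ 2 * (1 + (2 + (ℓ : ℝ) / H)))) := by gcongr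
    _ = C * 4 * C' * (3 + (ℓ : ℝ) / H) ^ 2 * (ℓ.factorial : ℝ) ^ 2 := by ring

end Pool.Agent.TH575.OM
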