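import Pool.Agent.H970R2.X.LevA
import Pool.Agent.TH575.OM.DecS
import Pool.Agent.TH575.OM.MomS

/-! Level 0 for classes of functions (after H970R2/X/LevA). -/

set_option autoImplicit false

namespace Pool.Agent.TH575.OM
open Finset Filter Pool.Agent.H376R2.MR Pool.Agent.H970R2.X

/-- every function of the class has a companion in the class -/
def FlipS (P : ℕ → Prop) (S : Set (ℕ → ℤ)) : Prop := ∀ g ∈ S, ∃ g2 ∈ S, Flip2 P g g2

theorem lev_zero_fam (P : ℕ → Prop) (S : Set (ℕ → ℤ)) (c : ℝ) (hb : ∀ g ∈ S, Bdd g) (hf : FlipS P S)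
    (hc : 0 < c) (hR : Rich P c) :
    ∃ C : ℝ, 0 < C ∧ ∀ α : ℝ, 0 < α → α ≤ 1 → ∃ L₀ : ℕ, ∀ L : ℕ, L₀ ≤ L → ∀ g ∈ S,
    ∀ (Y : ℝ) (K : ℕ), Real.exp (4 * (L : ℝ) ^ 2) ≤ Y → 1 ≤ K → (K : ℝ) * Real.exp ((L : ℝ) ^ 2) ≤ Y →
    (open scoped Classical in
      ∑ k ∈ (FK K).filter (fun k => Smjp P L α 0 k), ‖GGg g Y k‖ ^ 2) ≤ C / Real.log L := by
  classical
  obtain ⟨C₁, hC₁, hdec⟩ := dec_fam
  obtain ⟨C₂, hC₂, hmv⟩ := mv
  obtain ⟨C₃, hC₃, hmom⟩ := mom_zero_fam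
  obtain ⟨C₄, hWW⟩ := hR.1
  refine ⟨4 * C₃ + 100 * (C₁ * C₂) * (2 / c + 1), by positivity, fun α hα hα1 => ?_⟩
  obtain ⟨L₁, hL₁⟩ := leva_decay α hα
  have hlogt : Tendsto (fun L : ℕ => Real.log L) atTop atTop :=
    Real.tendsto_log_atTop.comp tendsto_natCast_atTop_atTop
  obtain ⟨L₂, hL₂⟩ := Filter.eventually_atTop.mp (hlogt.eventually_ge_atTop ((2 * |C₄| + 2) / c))
  refine ⟨max (max L₁ L₂) 1, fun L hL g hg Y K hY hK hKY => ?_⟩
  obtain ⟨g2, hg2, hfl⟩ := hf g hg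
  have hL1 : 1 ≤ L := (le_max_right _ _).trans hL
  have hLa : L₁ ≤ L := ((le_max_left _ _).trans (le_max_left _ _)).trans hL
  have hLb : L₂ ≤ L := ((le_max_right _ _).trans (le_max_left _ _)).trans hL
  have hL1' : (1 : ℝ) ≤ L := by exact_mod_cast hL1
  have hlog0 : (2 * |C₄| + 2) / c ≤ Real.log L := hL₂ L hLb
  have hlogpos : 0 < Real.log L := lt_of_lt_of_le (by positivity) hlog0
  have hlog : 2 * |C₄| + 2 ≤ c * Real.log L := by
    rw [div_le_iff₀ hc] at hlog0; linarith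
  have hC4 := le_abs_self C₄
  have hC4' := abs_nonneg C₄
  have hYpos : 0 < Y := (Real.exp_pos _).trans_le hY
  set W : ℝ := WWp P L (L ^ 2) (L ^ 3) with hW
  have hWlog : c * Real.log L - C₄ ≤ W := by
    have h := hWW L (L ^ 2) (L ^ 3) hL1 (by nlinarith) (Nat.pow_le_pow_right hL1 (by norm_num))
    have e : (((L ^ 3 : ℕ) : ℝ) / ((L ^ 2 : ℕ) : ℝ)) = L := by
      push_cast
      field_simp
    rw [e] at h
    exact h
  have hW1 : 1 ≤ W := by linarith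
  have hW2 : c * Real.log L / 2 ≤ W := by linarith
  have hLpos : (0 : ℝ) < L := by linarith
  obtain ⟨s, a, hs, hGG, ha⟩ := hdec P g g2 (hb g hg) (hb g2 hg2) hfl L (L ^ 2) (L ^ 3) hL1 hW1 Y (by
    have e : 4 * (((L ^ 3 : ℕ) : ℝ)) / (L : ℝ) = 4 * (L : ℝ) ^ 2 := by
      push_cast; field_simp
    rw [e]; exact hY)
  have hexpL : (1 : ℝ) ≤ Real.exp ((L : ℝ) ^ 2) := Real.one_le_exp (by positivity)
  have hKY' : (K : ℝ) ≤ Y := by
    have : (K : ℝ) * 1 ≤ K * Real.exp ((L : ℝ) ^ 2) :=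
      mul_le_mul_of_nonneg_left hexpL (Nat.cast_nonneg _)
    linarith
  have hYe : Real.exp 2 ≤ Y := by
    refine le_trans (Real.exp_le_exp.mpr ?_) hY
    nlinarith
  have herr := leva_err hC₂ hmv s a Y K hYe hK hKY' hs
  -- the main part
  set ρ : ℝ := Real.exp (-(α * L)) with hρ
  have hρ0 : 0 < ρ := Real.exp_pos _
  have hmain : ∀ k ∈ (FK K).filter (fun k => Smjp P L α 0 k), ‖GGg g Y k‖ ^ 2 ≤
      2 * ((L : ℝ) ^ 3 * ρ * ∑ v ∈ Ico (L ^ 2) (L ^ 3), ‖GGg g2 (Y * Real.exp (-((v : ℝ) / L))) k‖ ^ 2) +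
        2 * ‖DP s a k‖ ^ 2 := by
    intro k hk
    have hk2 := (Finset.mem_filter.mp hk).2
    rw [hGG k]
    have hP : ∀ v ∈ Ico (L ^ 2) (L ^ 3), ‖PPp P L v k‖ ^ 2 ≤ ρ := by
      intro v hv
      have hk3 : ‖PPp P (LL L 0) v k‖ ≤ Real.exp (-(aa α 0 * v / (LL L 0 : ℕ))) :=
        hk2 v (by simpa [LL] using hv)
      have e0 : LL L 0 = L := by simp [LL]
      rw [e0] at hk3
      have e1 : aa α 0 = α / 2 := by simp only [aa]; norm_num; ring
      rw [e1] at hk3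
      have hv1 : ((L : ℝ)) ^ 2 ≤ v := by exact_mod_cast (Finset.mem_Ico.mp hv).1
      have h6 : Real.exp (-(α / 2 * v / L)) ^ 2 ≤ ρ := by
        rw [hρ, ← Real.exp_nat_mul]
        apply Real.exp_le_exp.mpr
        push_cast
        have : (L : ℝ) ≤ v / L := by
          rw [le_div_iff₀ hLpos]; nlinarith
        have h7 : α * L ≤ α * (v / L) := mul_le_mul_of_nonneg_left this hα.le
        have h8 : 2 * -(α / 2 * (v : ℝ) / L) = -(α * (v / L)) := by ring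
        rw [h8]
        linarith
      exact (pow_le_pow_left₀ (norm_nonneg _) hk3 2).trans h6
    have h9 := leva_cs (Ico (L ^ 2) (L ^ 3)) W hW1 (fun v => PPp P L v k)
      (fun v => GGg g2 (Y * Real.exp (-((v : ℝ) / L))) k) (DP s a k) ρ hP
    refine h9.trans ?_
    have hcard : ((Ico (L ^ 2) (L ^ 3)).card : ℝ) ≤ (L : ℝ) ^ 3 := by
      rw [Nat.card_Ico]
      exact_mod_cast Nat.sub_le _ _
    have hS : 0 ≤ ∑ v ∈ Ico (L ^ 2) (L ^ 3), ‖GGg g2 (Y * Real.exp (-((v : ℝ) / L))) k‖ ^ 2 :=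
      Finset.sum_nonneg fun v _ => sq_nonneg _
    have : ((Ico (L ^ 2) (L ^ 3)).card : ℝ) * ρ *
        ∑ v ∈ Ico (L ^ 2) (L ^ 3), ‖GGg g2 (Y * Real.exp (-((v : ℝ) / L))) k‖ ^ 2 ≤
        (L : ℝ) ^ 3 * ρ * ∑ v ∈ Ico (L ^ 2) (L ^ 3), ‖GGg g2 (Y * Real.exp (-((v : ℝ) / L))) k‖ ^ 2 :=
      mul_le_mul_of_nonneg_right (mul_le_mul_of_nonneg_right hcard hρ0.le) hS
    linarith
  have hv : ∀ v ∈ Ico (L ^ 2) (L ^ 3),
      ∑ k ∈ FK K, ‖GGg g2 (Y * Real.exp (-((v : ℝ) / L))) k‖ ^ 2 ≤ 2 * C₃ := by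
    intro v hv
    have hv2 : (v : ℝ) / L ≤ (L : ℝ) ^ 2 := by
      rw [div_le_iff₀ hLpos]
      have : (v : ℝ) ≤ (L : ℝ) ^ 3 := by exact_mod_cast (Finset.mem_Ico.mp hv).2.le
      nlinarith
    set Z : ℝ := Y * Real.exp (-((v : ℝ) / L)) with hZ
    have hZ1 : Y * Real.exp (-((L : ℝ) ^ 2)) ≤ Z :=
      mul_le_mul_of_nonneg_left (Real.exp_le_exp.mpr (by linarith)) hYpos.le
    have hZK : (K : ℝ) ≤ Z := by
      refine le_trans ?_ hZ1
      rw [Real.exp_neg, ← div_eq_mul_inv, le_div_iff₀ (Real.exp_pos _)]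
      exact hKY
    have hZ3 : 3 ≤ Z := by
      refine le_trans ?_ hZ1
      have h5 : Real.exp (4 * (L : ℝ) ^ 2) * Real.exp (-((L : ℝ) ^ 2)) ≤
          Y * Real.exp (-((L : ℝ) ^ 2)) :=
        mul_le_mul_of_nonneg_right hY (Real.exp_pos _).le
      rw [← Real.exp_add] at h5
      have h6 := Real.add_one_le_exp (4 * (L : ℝ) ^ 2 + -((L : ℝ) ^ 2))
      nlinarith
    have hZpos : 0 < Z := by linarith
    refine (hmom g2 (hb g2 hg2) K Z hZ3 hK).trans ?_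
    have : (K : ℝ) / Z ≤ 1 := by rw [div_le_one hZpos]; exact hZK
    nlinarith
  calc ∑ k ∈ (FK K).filter (fun k => Smjp P L α 0 k), ‖GGg g Y k‖ ^ 2
      ≤ ∑ k ∈ (FK K).filter (fun k => Smjp P L α 0 k),
        (2 * ((L : ℝ) ^ 3 * ρ *
          ∑ v ∈ Ico (L ^ 2) (L ^ 3), ‖GGg g2 (Y * Real.exp (-((v : ℝ) / L))) k‖ ^ 2) +
        2 * ‖DP s a k‖ ^ 2) := Finset.sum_le_sum hmain
    _ ≤ ∑ k ∈ FK K,
        (2 * ((L : ℝ) ^ 3 * ρ *
          ∑ v ∈ Ico (L ^ 2) (L ^ 3), ‖GGg g2 (Y * Real.exp (-((v : ℝ) / L))) k‖ ^ 2) +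
        2 * ‖DP s a k‖ ^ 2) := by
        refine Finset.sum_le_sum_of_subset_of_nonneg (Finset.filter_subset _ _) ?_
        intro k _ _
        positivity
    _ = 2 * ((L : ℝ) ^ 3 * ρ) * (∑ v ∈ Ico (L ^ 2) (L ^ 3),
          ∑ k ∈ FK K, ‖GGg g2 (Y * Real.exp (-((v : ℝ) / L))) k‖ ^ 2) +
        2 * ∑ k ∈ FK K, ‖DP s a k‖ ^ 2 := by
        rw [Finset.sum_add_distrib, ← Finset.mul_sum, ← Finset.mul_sum, ← Finset.mul_sum,
          Finset.sum_comm]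
        ring
    _ ≤ 2 * ((L : ℝ) ^ 3 * ρ) * ((L : ℝ) ^ 3 * (2 * C₃)) +
        2 * (50 * C₂ * (C₁ * (1 / W + 1 / (L : ℝ) ^ 2))) := by
        refine add_le_add (mul_le_mul_of_nonneg_left ?_ (by positivity)) ?_
        · refine (Finset.sum_le_card_nsmul _ _ _ hv).trans ?_
          rw [nsmul_eq_mul, Nat.card_Ico]
          refine mul_le_mul_of_nonneg_right ?_ (by positivity)
          exact_mod_cast Nat.sub_le _ _
        · refine mul_le_mul_of_nonneg_left (herr.trans ?_) (by norm_num)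
          exact mul_le_mul_of_nonneg_left ha (by positivity)
    _ ≤ (4 * C₃ + 100 * (C₁ * C₂) * (2 / c + 1)) / Real.log L := by
        rw [le_div_iff₀ hlogpos, add_mul]
        have h1 := hL₁ L hLa
        have h2 : 1 / W * Real.log L ≤ 2 / c := by
          rw [one_div, inv_mul_le_iff₀ (by linarith), ← div_le_iff₀ (by positivity)]
          have e9 : Real.log L / (2 / c) = c * Real.log L / 2 := by
            field_simp
          rw [e9]; exact hW2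
        have h3 : 1 / (L : ℝ) ^ 2 * Real.log L ≤ 1 := by
          rw [one_div, inv_mul_le_iff₀ (by positivity), mul_one]
          have : Real.log L ≤ L := (Real.log_le_sub_one_of_pos (by linarith)).trans (by linarith)
          nlinarith
        have h4 : 2 * ((L : ℝ) ^ 3 * ρ) * ((L : ℝ) ^ 3 * (2 * C₃)) * Real.log L =
            4 * C₃ * ((L : ℝ) ^ 6 * ρ * Real.log L) := by ring
        have h5 : 2 * (50 * C₂ * (C₁ * (1 / W + 1 / (L : ℝ) ^ 2))) * Real.log L =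
            100 * (C₁ * C₂) * (1 / W * Real.log L + 1 / (L : ℝ) ^ 2 * Real.log L) := by ring
        rw [h4, h5]
        have h6 : 4 * C₃ * ((L : ℝ) ^ 6 * ρ * Real.log L) ≤ 4 * C₃ * 1 :=
          mul_le_mul_of_nonneg_left h1 (by positivity)
        have h7 : 100 * (C₁ * C₂) * (1 / W * Real.log L + 1 / (L : ℝ) ^ 2 * Real.log L) ≤
            100 * (C₁ * C₂) * (2 / c + 1) := mul_le_mul_of_nonneg_left (by linarith) (by positivity)
        linarith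

end Pool.Agent.TH575.OM
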