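import Pool.Agent.H970R2.X.LevB
import Pool.Agent.TH575.OM.LevAS

/-! Level `j+1` for classes of functions (after H970R2/X/LevB). -/

set_option autoImplicit false

namespace Pool.Agent.TH575.OM
open Finset Filter Pool.Agent.H376R2.MR Pool.Agent.H970R2.X

theorem lev_succ_fam (P : ℕ → Prop) (S : Set (ℕ → ℤ)) (c : ℝ) (hb : ∀ g ∈ S, Bdd g) (hf : FlipS P S)
    (hc : 0 < c) (hR : Rich P c) :
    ∃ C : ℝ, 0 < C ∧ ∀ α : ℝ, 0 < α → α ≤ 1 → ∃ L₀ : ℕ, ∀ L : ℕ, L₀ ≤ L → ∀ g ∈ S,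
    ∀ (j : ℕ) (Y : ℝ) (K : ℕ), Real.exp (4 * (LL L (j + 1) : ℝ) ^ 2) ≤ Y → 1 ≤ K → (K : ℝ) ≤ Y →
    (open scoped Classical in
      ∑ k ∈ (FK K).filter (fun k => Smjp P L α (j + 1) k ∧ ¬ Smjp P L α j k), ‖GGg g Y k‖ ^ 2) ≤
      C / (3 ^ (j + 1) * Real.log L) := by
  classical
  obtain ⟨CM, hCM, hmv⟩ := mv
  obtain ⟨CD, hCD, hdec⟩ := dec_fam
  obtain ⟨C₀, hC₀, hmom0⟩ := mom_fam P
  obtain ⟨CW', hWW⟩ := hR.1
  obtain ⟨CW, hCWdef⟩ : ∃ CW : ℝ, CW = |CW'| := ⟨_, rfl⟩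
  have hCW0 : 0 ≤ CW := by rw [hCWdef]; exact abs_nonneg _
  have hCW1 : CW' ≤ CW := by rw [hCWdef]; exact le_abs_self _
  obtain ⟨CB, hCBdef⟩ : ∃ CB : ℝ, CB = (2 * CW + 2) / c := ⟨_, rfl⟩
  have hCB0 : 0 < CB := by rw [hCBdef]; positivity
  have hcCB : c * CB = 2 * CW + 2 := by rw [hCBdef]; field_simp
  obtain ⟨κ, hκdef⟩ : ∃ κ : ℝ, κ = 2 / c + 1 := ⟨_, rfl⟩
  have hκ0 : 0 < κ := by rw [hκdef]; positivity
  refine ⟨C₀ + 10 * (1 + Real.exp 2) * CM * CD * κ, by positivity, fun α hα hα1 => ?_⟩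
  refine ⟨max 4 (max ⌈(240 / α) ^ 2⌉₊ ⌈Real.exp CB⌉₊), fun L hL g hg j Y K hY hK hKY => ?_⟩
  obtain ⟨g2, hg2, hfl⟩ := hf g hg
  have hmom := hmom0 g2 (hb g2 hg2)
  have hL4 : 4 ≤ L := le_trans (le_max_left _ _) hL
  have hL2 : (240 / α) ^ 2 ≤ (L : ℝ) := by
    have h1 : ⌈(240 / α) ^ 2⌉₊ ≤ L := le_trans (le_trans (le_max_left _ _) (le_max_right _ _)) hL
    exact (Nat.le_ceil _).trans (by exact_mod_cast h1)
  have hL3 : Real.exp CB ≤ (L : ℝ) := by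
    have h1 : ⌈Real.exp CB⌉₊ ≤ L :=
      le_trans (le_trans (le_max_right _ _) (le_max_right _ _)) hL
    exact (Nat.le_ceil _).trans (by exact_mod_cast h1)
  have hLr : (4 : ℝ) ≤ L := by exact_mod_cast hL4
  have hLα : 240 ≤ α * Real.sqrt L := by
    have h1 : 240 / α ≤ Real.sqrt L := Real.le_sqrt_of_sq_le hL2
    rw [div_le_iff₀ hα] at h1
    linarith
  have hlogL : CB ≤ Real.log L := by
    rw [Real.le_log_iff_exp_le (by linarith)]
    exact hL3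
  -- the two levels
  set lN : ℕ := LL L j with hlN
  have hhN : LL L (j + 1) = lN ^ 3 := levb_LL_succ L j
  set hN : ℕ := LL L (j + 1) with hhNdef
  have hl1 : 1 ≤ lN := Nat.one_le_pow _ _ (by omega)
  have hh1 : 1 ≤ hN := Nat.one_le_pow _ _ (by omega)
  have hlr : (1 : ℝ) ≤ lN := by exact_mod_cast hl1
  have hhr : (1 : ℝ) ≤ hN := by exact_mod_cast hh1
  have hlreal : (lN : ℝ) = (L : ℝ) ^ 3 ^ j := by
    rw [hlN]
    unfold LL
    push_cast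
    rfl
  have hhreal : (hN : ℝ) = (lN : ℝ) ^ 3 := by
    rw [hhN]
    push_cast
    rfl
  have hlogl : 3 * Real.log (lN : ℝ) = 3 ^ (j + 1) * Real.log L := by
    rw [hlreal, Real.log_pow]
    push_cast
    ring
  have hlogh : Real.log (hN : ℝ) = 3 ^ (j + 1) * Real.log L := by
    rw [hhreal, Real.log_pow, ← hlogl]
    push_cast
    ring
  set D : ℝ := 3 ^ (j + 1) * Real.log L with hD
  have h3j : (1 : ℝ) ≤ 3 ^ (j + 1) := one_le_pow₀ (by norm_num)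
  have hDge : CB ≤ D := by
    rw [hD]
    nlinarith
  have hD0 : 0 < D := by linarith
  -- `W`
  have hhh2 : hN ≤ hN ^ 2 := Nat.le_self_pow (by norm_num) _
  have hh23 : hN ^ 2 ≤ hN ^ 3 := Nat.pow_le_pow_right hh1 (by norm_num)
  have hWb := hWW hN (hN ^ 2) (hN ^ 3) hh1 hhh2 hh23
  have hratio : ((hN ^ 3 : ℕ) : ℝ) / ((hN ^ 2 : ℕ) : ℝ) = hN := by
    push_cast
    field_simp
  rw [hratio, hlogh] at hWb
  set W := WWp P hN (hN ^ 2) (hN ^ 3) with hWdef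
  have hcD : 2 * CW + 2 ≤ c * D := by
    rw [← hcCB]
    exact mul_le_mul_of_nonneg_left hDge hc.le
  have hWge : c * D / 2 ≤ W := by linarith
  have hW1 : 1 ≤ W := by linarith
  have hYdec : Real.exp (4 * ((hN ^ 3 : ℕ) : ℝ) / hN) ≤ Y := by
    have : 4 * ((hN ^ 3 : ℕ) : ℝ) / hN = 4 * (hN : ℝ) ^ 2 := by
      push_cast
      field_simp
    rw [this]
    exact hY
  obtain ⟨s, a, hs, hGG, hsum⟩ := hdec P g g2 (hb g hg) (hb g2 hg2) hfl hN (hN ^ 2) (hN ^ 3) hh1 hW1 Y hYdec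
  -- second part
  have hYe : Real.exp 4 ≤ Y := by
    refine le_trans (Real.exp_le_exp.2 ?_) hY
    nlinarith
  have hY0 : 0 < Y := lt_of_lt_of_le (Real.exp_pos _) hYe
  have hN1 : 1 ≤ Y / Real.exp 2 := by
    rw [le_div_iff₀ (Real.exp_pos _), one_mul]
    exact le_trans (Real.exp_le_exp.2 (by norm_num)) hYe
  have he2 : 1 ≤ Real.exp 2 := Real.one_le_exp (by norm_num)
  have hN12 : Y / Real.exp 2 ≤ Real.exp 2 * Y := by
    rw [div_le_iff₀ (Real.exp_pos _)]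
    have h1 : Y ≤ Real.exp 2 * Y := by nlinarith
    have h2 : Real.exp 2 * Y ≤ Real.exp 2 * Y * Real.exp 2 := by
      have : 0 ≤ Real.exp 2 * Y := by positivity
      nlinarith
    linarith
  have hlog4 : Real.log (Real.exp 2 * Y / (Y / Real.exp 2)) = 4 := by
    have : Real.exp 2 * Y / (Y / Real.exp 2) = Real.exp 4 := by
      rw [show (4 : ℝ) = 2 + 2 by norm_num, Real.exp_add]
      field_simp
    rw [this, Real.log_exp]
  have hpart2 : ∑ k ∈ FK K, ‖DP s a k‖ ^ 2 ≤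
      5 * (1 + Real.exp 2) * CM * CD * κ / D := by
    have h1 := hmv s a (Y / Real.exp 2) (Real.exp 2 * Y) K hN1 hN12 hs hK
    rw [hlog4] at h1
    have h2 : ∑ n ∈ s, ‖a n‖ ^ 2 * ((n : ℝ) + K) ≤
        (1 + Real.exp 2) * ∑ n ∈ s, (n : ℝ) * ‖a n‖ ^ 2 := by
      rw [Finset.mul_sum]
      refine Finset.sum_le_sum fun n hn => ?_
      have h3 : (K : ℝ) ≤ Real.exp 2 * n := by
        have := (hs n hn).1
        rw [div_le_iff₀ (Real.exp_pos _)] at this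
        linarith
      have h4 : (n : ℝ) + K ≤ (1 + Real.exp 2) * n := by linarith
      calc ‖a n‖ ^ 2 * ((n : ℝ) + K) ≤ ‖a n‖ ^ 2 * ((1 + Real.exp 2) * n) :=
            mul_le_mul_of_nonneg_left h4 (by positivity)
        _ = _ := by ring
    have h5 : 1 / W + 1 / (hN : ℝ) ^ 2 ≤ κ / D := by
      have h6 : 1 / W ≤ (2 / c) / D := by
        rw [div_div, div_le_div_iff₀ (by linarith) (by positivity)]
        linarith
      have h7 : 1 / (hN : ℝ) ^ 2 ≤ 1 / D := by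
        apply one_div_le_one_div_of_le hD0
        rw [← hlogh]
        have := Real.log_le_sub_one_of_pos (show (0:ℝ) < hN by linarith)
        nlinarith
      have h8 : κ / D = (2 / c) / D + 1 / D := by rw [hκdef]; ring
      rw [h8]
      linarith
    calc ∑ k ∈ FK K, ‖DP s a k‖ ^ 2 ≤ CM * (1 + 4) * ∑ n ∈ s, ‖a n‖ ^ 2 * ((n : ℝ) + K) := h1
      _ ≤ CM * (1 + 4) * ((1 + Real.exp 2) * (CD * (κ / D))) := by
          apply mul_le_mul_of_nonneg_left _ (by positivity)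
          refine h2.trans ?_
          apply mul_le_mul_of_nonneg_left _ (by positivity)
          refine hsum.trans ?_
          exact mul_le_mul_of_nonneg_left h5 hCD.le
      _ = _ := by ring
  -- first part
  set T := (FK K).filter (fun k => Smjp P L α (j + 1) k ∧ ¬ Smjp P L α j k) with hT
  have hTs : T ⊆ FK K := Finset.filter_subset _ _
  have hvbound : ∀ v ∈ Ico (hN ^ 2) (hN ^ 3),
      ∑ k ∈ T, ‖PPp P hN v k * GGg g2 (Y * Real.exp (-((v : ℝ) / hN))) k‖ ^ 2 ≤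
        (lN : ℝ) ^ 3 * (C₀ * (1 / D / (2 * (lN : ℝ) ^ 21))) := by
    intro v hv
    rw [Finset.mem_Ico] at hv
    have hcover : ∀ k ∈ T, ‖PPp P hN v k * GGg g2 (Y * Real.exp (-((v : ℝ) / hN))) k‖ ^ 2 ≤
        ∑ r ∈ Ico (lN ^ 2) (lN ^ 3), (if Real.exp (-(aa α j * r / lN)) < ‖PPp P lN r k‖ then
          ‖PPp P hN v k * GGg g2 (Y * Real.exp (-((v : ℝ) / hN))) k‖ ^ 2 else 0) := by
      intro k hk
      rw [hT, Finset.mem_filter] at hk
      have h1 := hk.2.2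
      unfold Smjp Smp at h1
      push Not at h1
      obtain ⟨r, hr, hr2⟩ := h1
      have h2 := Finset.single_le_sum (f := fun r : ℕ => (if Real.exp (-(aa α j * r / lN)) < ‖PPp P lN r k‖
          then ‖PPp P hN v k * GGg g2 (Y * Real.exp (-((v : ℝ) / hN))) k‖ ^ 2 else 0))
          (fun r _ => by split_ifs <;> positivity) hr
      rw [if_pos hr2] at h2
      exact h2
    refine (Finset.sum_le_sum hcover).trans ?_
    rw [Finset.sum_comm]
    have hrb : ∀ r ∈ Ico (lN ^ 2) (lN ^ 3),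
        ∑ k ∈ T, (if Real.exp (-(aa α j * r / lN)) < ‖PPp P lN r k‖ then
          ‖PPp P hN v k * GGg g2 (Y * Real.exp (-((v : ℝ) / hN))) k‖ ^ 2 else 0) ≤
        C₀ * (1 / D / (2 * (lN : ℝ) ^ 21)) := by
      intro r hr
      rw [Finset.mem_Ico] at hr
      obtain ⟨n, hn1, hn2⟩ := xlevb_vr hC₀.le hmom hα hα1 (lN := lN) (hN := hN) (v := v) (r := r)
        (K := K) j (Y := Y) hl1 hh1 hv.2 hr.1 hr.2 hK hKY hY T hTs (fun k hk => by
          rw [hT, Finset.mem_filter] at hk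
          exact hk.2.1 v (Finset.mem_Ico.2 hv))
      refine hn2.trans ?_
      apply mul_le_mul_of_nonneg_left _ hC₀.le
      have hx1 : (lN : ℝ) ^ 3 ≤ (v : ℝ) / hN := by
        rw [le_div_iff₀ (by linarith), ← hhreal]
        have h1 : (hN : ℝ) ^ 2 ≤ v := by exact_mod_cast hv.1
        calc (hN : ℝ) * hN = (hN : ℝ) ^ 2 := by ring
          _ ≤ v := h1
      have hx2 : (v : ℝ) / hN ≤ (lN : ℝ) ^ 6 := by
        rw [div_le_iff₀ (by linarith)]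
        have h1 : (v : ℝ) ≤ (hN : ℝ) ^ 3 := by exact_mod_cast hv.2.le
        have h2 : (lN : ℝ) ^ 6 * hN = (hN : ℝ) ^ 3 := by rw [hhreal]; ring
        rw [h2]
        exact h1
      have hreal := levb_real hα hα1 hL4 hLα j hlreal hx1 hx2 n hn1
      rw [hlogl] at hreal
      rw [le_div_iff₀ (by positivity)]
      linarith
    calc ∑ r ∈ Ico (lN ^ 2) (lN ^ 3), ∑ k ∈ T, (if Real.exp (-(aa α j * r / lN)) < ‖PPp P lN r k‖ then
          ‖PPp P hN v k * GGg g2 (Y * Real.exp (-((v : ℝ) / hN))) k‖ ^ 2 else 0)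
        ≤ ∑ r ∈ Ico (lN ^ 2) (lN ^ 3), C₀ * (1 / D / (2 * (lN : ℝ) ^ 21)) :=
          Finset.sum_le_sum hrb
      _ = ((Ico (lN ^ 2) (lN ^ 3)).card : ℝ) * (C₀ * (1 / D / (2 * (lN : ℝ) ^ 21))) := by
          rw [Finset.sum_const, nsmul_eq_mul]
      _ ≤ (lN : ℝ) ^ 3 * (C₀ * (1 / D / (2 * (lN : ℝ) ^ 21))) := by
          apply mul_le_mul_of_nonneg_right _ (by positivity)
          rw [Nat.card_Ico]
          have : lN ^ 3 - lN ^ 2 ≤ lN ^ 3 := Nat.sub_le _ _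
          exact_mod_cast this
  have hcard : ((Ico (hN ^ 2) (hN ^ 3)).card : ℝ) ≤ (lN : ℝ) ^ 9 := by
    rw [Nat.card_Ico]
    have h1 : hN ^ 3 - hN ^ 2 ≤ hN ^ 3 := Nat.sub_le _ _
    have h2 : hN ^ 3 = lN ^ 9 := by rw [hhN, ← pow_mul]
    rw [h2] at h1
    have h3 : hN ^ 3 - hN ^ 2 ≤ lN ^ 9 := by rw [h2]; exact h1
    exact_mod_cast h3
  have hpart1 : ∑ k ∈ T, 2 * (((Ico (hN ^ 2) (hN ^ 3)).card : ℝ) *
      ∑ v ∈ Ico (hN ^ 2) (hN ^ 3), ‖PPp P hN v k * GGg g2 (Y * Real.exp (-((v : ℝ) / hN))) k‖ ^ 2) ≤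
      C₀ / D := by
    rw [← Finset.mul_sum, ← Finset.mul_sum, Finset.sum_comm]
    have h1 : ∑ v ∈ Ico (hN ^ 2) (hN ^ 3), ∑ k ∈ T,
        ‖PPp P hN v k * GGg g2 (Y * Real.exp (-((v : ℝ) / hN))) k‖ ^ 2 ≤
        (lN : ℝ) ^ 9 * ((lN : ℝ) ^ 3 * (C₀ * (1 / D / (2 * (lN : ℝ) ^ 21)))) := by
      refine (Finset.sum_le_sum hvbound).trans ?_
      rw [Finset.sum_const, nsmul_eq_mul]
      exact mul_le_mul_of_nonneg_right hcard (by positivity)
    have h2 : (0 : ℝ) < (lN : ℝ) ^ 21 := by positivity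
    calc 2 * (((Ico (hN ^ 2) (hN ^ 3)).card : ℝ) * ∑ v ∈ Ico (hN ^ 2) (hN ^ 3), ∑ k ∈ T,
        ‖PPp P hN v k * GGg g2 (Y * Real.exp (-((v : ℝ) / hN))) k‖ ^ 2)
        ≤ 2 * ((lN : ℝ) ^ 9 * ((lN : ℝ) ^ 9 * ((lN : ℝ) ^ 3 *
          (C₀ * (1 / D / (2 * (lN : ℝ) ^ 21)))))) := by
          apply mul_le_mul_of_nonneg_left _ (by norm_num)
          apply mul_le_mul hcard h1 (Finset.sum_nonneg fun v _ =>
            Finset.sum_nonneg fun k _ => by positivity) (by positivity)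
      _ = C₀ / D := by
          field_simp
  -- the total
  have htotal : ∑ k ∈ T, ‖GGg g Y k‖ ^ 2 ≤ ∑ k ∈ T, (2 * (((Ico (hN ^ 2) (hN ^ 3)).card : ℝ) *
      ∑ v ∈ Ico (hN ^ 2) (hN ^ 3), ‖PPp P hN v k * GGg g2 (Y * Real.exp (-((v : ℝ) / hN))) k‖ ^ 2) +
        2 * ‖DP s a k‖ ^ 2) := by
    refine Finset.sum_le_sum fun k _ => ?_
    exact levb_sq _ _ _ _ W hW1 (hGG k)
  rw [Finset.sum_add_distrib] at htotal
  have hlast : ∑ k ∈ T, 2 * ‖DP s a k‖ ^ 2 ≤ 2 * (5 * (1 + Real.exp 2) * CM * CD * κ / D) := by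
    rw [← Finset.mul_sum]
    apply mul_le_mul_of_nonneg_left _ (by norm_num)
    refine le_trans ?_ hpart2
    exact Finset.sum_le_sum_of_subset_of_nonneg hTs fun k _ _ => by positivity
  have hfin : (C₀ + 10 * (1 + Real.exp 2) * CM * CD * κ) / D =
      C₀ / D + 2 * (5 * (1 + Real.exp 2) * CM * CD * κ / D) := by ring
  rw [hfin]
  linarith

end Pool.Agent.TH575.OM
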