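import Pool.Agent.TH575.OM.UpS
import Pool.Agent.TH575.OM.TpS

/-! The mean square over the non-small frequencies, for classes of functions (after H970R2/X/Mrg). -/

set_option autoImplicit false

namespace Pool.Agent.TH575.OM
open Finset Filter Pool.Agent.H376R2.MR Pool.Agent.H970R2.X

theorem mr_fam (P : ℕ → Prop) (S : Set (ℕ → ℤ)) (c : ℝ) (hb : ∀ g ∈ S, Bdd g) (hf : FlipS P S)
    (hc : 0 < c) (hR : Rich P c) {η : ℝ} (hη : 0 < η) :
    ∃ (T₀ : ℕ) (h : ℝ), 1 ≤ h ∧ ∃ Y₀ : ℝ, ∀ Y : ℝ, Y₀ ≤ Y → ∀ g ∈ S,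
      ∑ k ∈ (FK ⌊Y / h⌋₊).filter (fun k : ℤ => (T₀ : ℝ) ≤ |(k : ℝ)|), ‖GGg g Y k‖ ^ 2 ≤ η := by
  have hη3 : 0 < η / 2 := by linarith
  obtain ⟨al, hal, T₀, Y1, hup⟩ := upart_fam P S c hb hf hc hR hη3
  obtain ⟨h, hh, Y2, htp⟩ := tpart_fam P S c hb hf hc hR hal hη3
  refine ⟨T₀, h, hh, max 1 (max Y1 Y2), fun Y hY g hg => ?_⟩
  have hY0 : 1 ≤ Y := le_trans (le_max_left _ _) hY
  have hY' : max Y1 Y2 ≤ Y := le_trans (le_max_right _ _) hY
  have hY1 : Y1 ≤ Y := le_trans (le_max_left _ _) hY'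
  have hY2 : Y2 ≤ Y := le_trans (le_max_right _ _) hY'
  obtain ⟨U, hU1, hU2⟩ := htp Y hY2 g hg
  set F := (FK ⌊Y / h⌋₊).filter (fun k : ℤ => (T₀ : ℝ) ≤ |(k : ℝ)|) with hF
  have hsplit : ∑ k ∈ F, ‖GGg g Y k‖ ^ 2 =
      ∑ k ∈ F ∩ U, ‖GGg g Y k‖ ^ 2 + ∑ k ∈ F \ U, ‖GGg g Y k‖ ^ 2 :=
    (Finset.sum_inter_add_sum_sdiff F U _).symm
  have h2 : ∑ k ∈ F ∩ U, ‖GGg g Y k‖ ^ 2 ≤ η / 2 := by
    refine hup Y hY1 g hg _ ?_ ?_
    · intro k hk
      rw [Finset.mem_inter, hF, Finset.mem_filter] at hk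
      refine ⟨hk.1.2, ?_⟩
      have hkF : k ∈ FK ⌊Y / h⌋₊ := hk.1.1
      rw [FK, Finset.mem_Ioo] at hkF
      have h3 : |(k : ℝ)| ≤ (⌊Y / h⌋₊ : ℝ) := by
        rw [abs_le]
        constructor
        · have : (-(⌊Y / h⌋₊ : ℤ) : ℤ) ≤ k := hkF.1.le
          have := (Int.cast_le (R := ℝ)).2 this
          push_cast at this
          linarith
        · have : k ≤ (⌊Y / h⌋₊ : ℤ) := hkF.2.le
          have := (Int.cast_le (R := ℝ)).2 this
          push_cast at this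
          linarith
      have h4 : (⌊Y / h⌋₊ : ℝ) ≤ Y / h := Nat.floor_le (by positivity)
      have h5 : Y / h ≤ Y := div_le_self (by linarith) hh
      linarith
    · refine le_trans ?_ hU1
      have : (F ∩ U).card ≤ U.card := Finset.card_le_card Finset.inter_subset_right
      exact_mod_cast this
  have h3 : ∑ k ∈ F \ U, ‖GGg g Y k‖ ^ 2 ≤ η / 2 := by
    refine le_trans ?_ hU2
    refine Finset.sum_le_sum_of_subset_of_nonneg ?_ (fun _ _ _ => by positivity)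
    exact Finset.sdiff_subset_sdiff (Finset.filter_subset _ _) (Finset.Subset.refl _)
  rw [hsplit]
  linarith

end Pool.Agent.TH575.OM
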