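import Pool.Agent.TH575.OM.Eqd4
import Pool.Agent.TH575.OM.MrgS
import Pool.Agent.TH575.OM.ExpoC
import Pool.Agent.H970R2.X.Rap
import Pool.Agent.H970R2.X.Smf

/-!
The mean squares of the Dirichlet polynomials of the functions of the number of prime factors with
mean zero.
-/

set_option autoImplicit false

namespace Pool.Agent.TH575.OM

open Finset Filter Topology ArithmeticFunction Pool.Agent.H376R2.MR Pool.Agent.H970R2.X

/-- small sums of the coefficients give small values at the small frequencies -/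
lemma abel_q (g : ℕ → ℝ) (Y : ℝ) (hY6 : 6 ≤ Y) (ε : ℝ) (hε : 0 ≤ ε) (k : ℤ)
    (hS : ∀ n : ℕ, Y / 6 ≤ n → (n : ℝ) ≤ 3 * Y → |∑ m ∈ Icc 1 n, g m| ≤ ε * n) :
    ‖GC (fun n => (g n : ℂ)) Y k‖ ≤ ε * (18 * (2 + |(k : ℝ)|)) := by
  have hYpos : 0 < Y := by linarith
  have he : Real.exp 1 < 3 := by
    have := Real.exp_one_lt_d9
    linarith
  set N := ⌊Real.exp 1 * Y⌋₊ with hN
  have hNle : (N : ℝ) ≤ Real.exp 1 * Y := Nat.floor_le (by positivity)
  have hNlt : Real.exp 1 * Y < N + 1 := Nat.lt_floor_add_one _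
  have h1 : GC (fun n => (g n : ℂ)) Y k =
      ∑ n ∈ Icc 1 N, (g n : ℂ) * ((bw Y n : ℂ) * ch k (Real.log n)) := by
    unfold GC DP WN
    apply Finset.sum_congr rfl
    intro n hn
    ring
  rw [h1, smallk_abel]
  have h2 : bw Y (N + 1) = 0 := smallk_bw_zero_right hYpos (by push_cast; exact hNlt.le)
  rw [h2]
  simp only [Complex.ofReal_zero, zero_mul, mul_zero, zero_add]
  calc ‖∑ n ∈ Icc 1 N, ((∑ m ∈ Icc 1 n, g m : ℝ) : ℂ) *
        ((bw Y n : ℂ) * ch k (Real.log n) - (bw Y (n + 1) : ℂ) * ch k (Real.log (n + 1 : ℕ)))‖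
      ≤ ∑ n ∈ Icc 1 N, ‖((∑ m ∈ Icc 1 n, g m : ℝ) : ℂ) *
        ((bw Y n : ℂ) * ch k (Real.log n) - (bw Y (n + 1) : ℂ) * ch k (Real.log (n + 1 : ℕ)))‖ :=
        norm_sum_le _ _
    _ ≤ ∑ n ∈ Icc 1 N, ε * (2 + |(k : ℝ)|) * 6 / Y := by
        apply Finset.sum_le_sum
        intro n hn
        rw [mem_Icc] at hn
        have hnpos : (0 : ℝ) < n := by exact_mod_cast hn.1
        by_cases hsmall : ((n + 1 : ℕ) : ℝ) * Real.exp 1 ≤ Y
        · have h3 : bw Y (n + 1) = 0 := smallk_bw_zero_left hYpos (by omega) hsmall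
          have h4 : bw Y n = 0 := by
            apply smallk_bw_zero_left hYpos hn.1
            refine le_trans ?_ hsmall
            push_cast
            have := Real.exp_pos 1
            nlinarith
          rw [h3, h4]
          simp only [Complex.ofReal_zero, zero_mul, sub_zero, mul_zero, norm_zero]
          positivity
        · push Not at hsmall
          push_cast at hsmall
          have h5 : Y / 6 ≤ n := by
            have h51 : Y < (n + 1) * 3 := hsmall.trans (by nlinarith)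
            linarith
          have h6 : (n : ℝ) ≤ 3 * Y := by
            have : (n : ℝ) ≤ N := by exact_mod_cast hn.2
            nlinarith
          have h7 := hS n h5 h6
          rw [norm_mul, Complex.norm_real, Real.norm_eq_abs]
          have h8 := smallk_f_diff Y k hn.1
          calc |∑ m ∈ Icc 1 n, g m| * _ ≤ (ε * n) * ((2 + |(k : ℝ)|) / (n : ℝ) ^ 2) :=
                mul_le_mul h7 h8 (norm_nonneg _) (by positivity)
            _ = ε * (2 + |(k : ℝ)|) * (1 / n) := by field_simp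
            _ ≤ ε * (2 + |(k : ℝ)|) * (6 / Y) := by
                apply mul_le_mul_of_nonneg_left _ (by positivity)
                rw [div_le_div_iff₀ hnpos hYpos]
                linarith
            _ = ε * (2 + |(k : ℝ)|) * 6 / Y := by ring
    _ = N * (ε * (2 + |(k : ℝ)|) * 6 / Y) := by
        rw [Finset.sum_const, Nat.card_Icc, nsmul_eq_mul]
        simp
    _ ≤ (3 * Y) * (ε * (2 + |(k : ℝ)|) * 6 / Y) := by
        apply mul_le_mul_of_nonneg_right _ (by positivity)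
        nlinarith
    _ = ε * (18 * (2 + |(k : ℝ)|)) := by field_simp; ring

/-- the real form of an integer sequence -/
def rl (a : ℕ → ℤ) : ℕ → ℝ := fun l => (a l : ℝ)

lemma rl_B0 {a : ℕ → ℤ} (ha : ∀ l, |a l| ≤ 1) : B0 (rl a) := by
  intro l
  unfold rl
  exact_mod_cast ha l

/-- half of a function of the number of prime factors minus its mean at `X` -/
def Hom (X : ℕ) (f : ℕ → ℂ) : Prop :=
  ∃ a : ℕ → ℤ, (∀ l, |a l| ≤ 1) ∧ f = fun n => ((((a (cardFactors n) : ℝ) - Mn (rl a) X) / 2 : ℝ) : ℂ)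

lemma Hom_norm (X : ℕ) (f : ℕ → ℂ) (h : Hom X f) (n : ℕ) : ‖f n‖ ≤ 1 := by
  obtain ⟨a, ha, rfl⟩ := h
  simp only
  rw [Complex.norm_real, Real.norm_eq_abs, abs_div, abs_two, div_le_one two_pos]
  have h1 : |((a (cardFactors n) : ℤ) : ℝ)| ≤ 1 := by exact_mod_cast ha _
  have h2 : |Mn (rl a) X| ≤ 1 := by
    rcases Nat.eq_zero_or_pos X with h | h
    · unfold Mn
      rw [h, Nat.cast_zero, div_zero, abs_zero]
      norm_num
    · exact Mn_abs (rl_B0 ha) (by exact_mod_cast h)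
  refine (abs_sub _ _).trans ?_
  linarith

lemma Hom_flip (X : ℕ) (f : ℕ → ℂ) (h : Hom X f) : ∃ f2 : ℕ → ℂ, (∀ n, ‖f2 n‖ ≤ 1) ∧
    ∀ p m : ℕ, p.Prime → ¬ p ∣ m → f (p * m) = f2 m := by
  have h' := Hom_norm X f h
  obtain ⟨a, ha, hf⟩ := h
  refine ⟨fun n => ((((a (cardFactors n + 1) : ℝ) - Mn (rl a) X) / 2 : ℝ) : ℂ), fun n => ?_, ?_⟩
  · simp only
    rw [Complex.norm_real, Real.norm_eq_abs, abs_div, abs_two, div_le_one two_pos]
    have h1 : |((a (cardFactors n + 1) : ℤ) : ℝ)| ≤ 1 := by exact_mod_cast ha _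
    have h2 : |Mn (rl a) X| ≤ 1 := by
      rcases Nat.eq_zero_or_pos X with h | h
      · unfold Mn
        rw [h, Nat.cast_zero, div_zero, abs_zero]
        norm_num
      · exact Mn_abs (rl_B0 ha) (by exact_mod_cast h)
    refine (abs_sub _ _).trans ?_
    linarith
  · intro p m hp hpm
    have hm : m ≠ 0 := by
      rintro rfl
      exact hpm (dvd_zero _)
    rw [hf]
    simp only
    rw [cardFactors_mul hp.ne_zero hm, cardFactors_apply_prime hp, add_comm 1]

/-- the class of the functions `1_{n = b mod q} a(Ω n)` -/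
def SC (q b : ℕ) : Set (ℕ → ℤ) := {g | ∃ a : ℕ → ℤ, (∀ l, |a l| ≤ 1) ∧ g = fun n => if n % q = b then a (cardFactors n) else 0}

lemma SC_bdd (q b : ℕ) : ∀ g ∈ SC q b, Bdd g := by
  rintro g ⟨a, ha, rfl⟩ n
  simp only
  split_ifs
  · exact ha _
  · simp

lemma SC_flip (q b : ℕ) : FlipS (P1 q) (SC q b) := by
  rintro g ⟨a, ha, rfl⟩
  refine ⟨fun n => if n % q = b then -a (cardFactors n + 1) else 0, ⟨fun l => -a (l + 1), fun l => ?_, rfl⟩, ?_⟩
  · rw [abs_neg]
    exact ha _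
  · intro p m hp hP hpm
    have hm : m ≠ 0 := by
      rintro rfl
      exact hpm (dvd_zero _)
    have h1 : (p * m) % q = m % q := by
      unfold P1 at hP
      rw [Nat.mul_mod, hP, ← Nat.mul_mod, one_mul]
    simp only
    rw [h1, cardFactors_mul hp.ne_zero hm, cardFactors_apply_prime hp, add_comm 1]
    split_ifs <;> simp

/-- the sums of the functions of the class over a residue class are small -/
lemma cls_sum (q b : ℕ) (hq : 1 ≤ q) (δ ε : ℝ) (hδ : 0 < δ) (hε : 0 < ε) :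
    ∃ X₀ : ℕ, ∀ X : ℕ, X₀ ≤ X → ∀ a : ℕ → ℤ, (∀ l, |a l| ≤ 1) → ∀ n : ℕ, δ * X ≤ n → (n : ℝ) ≤ 27 * X →
      |∑ m ∈ Icc 1 n, (if m % q = b then ((a (cardFactors m) : ℝ) - Mn (rl a) X) / 2 else 0)| ≤ ε * n := by
  rcases Nat.lt_or_ge b q with hbq | hbq
  swap
  · refine ⟨0, fun X _ a _ n _ _ => ?_⟩
    have : ∀ m ∈ Icc 1 n, (if m % q = b then ((a (cardFactors m) : ℝ) - Mn (rl a) X) / 2 else 0) = 0 := by
      intro m _
      rw [if_neg]
      intro h
      have := Nat.mod_lt m hq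
      omega
    rw [sum_congr rfl this, sum_const_zero, abs_zero]
    positivity
  have hq0 : (1 : ℝ) ≤ q := by exact_mod_cast hq
  obtain ⟨x₁, hx₁⟩ := equi q hq (ε / 2) (by positivity)
  obtain ⟨x₂, hx₂⟩ := Mn_scale (show (0 : ℝ) < min (δ / 27) (1 / 27) by positivity) (show 0 < ε / 4 by positivity)
  obtain ⟨X₀, hX₀⟩ := exists_nat_ge (max 1 (max ((|x₁| + 1) / δ) |x₂|))
  refine ⟨X₀, fun X hX a ha n hn1 hn2 => ?_⟩
  have hXR : (X₀ : ℝ) ≤ X := by exact_mod_cast hX
  have g1 : (1 : ℝ) ≤ X := (le_max_left _ _).trans (hX₀.trans hXR)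
  have g2 : (|x₁| + 1) / δ ≤ X := (le_max_left _ _).trans ((le_max_right _ _).trans (hX₀.trans hXR))
  have g3 : |x₂| ≤ X := (le_max_right _ _).trans ((le_max_right _ _).trans (hX₀.trans hXR))
  rw [div_le_iff₀ hδ] at g2
  have hn : |x₁| + 1 ≤ n := by linarith
  have hn0 : (0 : ℝ) < n := by have := abs_nonneg x₁; linarith
  have hnx1 : x₁ ≤ n := by have := le_abs_self x₁; linarith
  have c1 := hx₁ n hnx1 b hbq (rl a) (rl_B0 ha)
  have c2 := hx₁ n hnx1 b hbq (fun _ => 1) (fun _ => by simp)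
  rw [Nat.floor_natCast] at c1 c2
  have hone : Mn (fun _ => 1) n = 1 := by
    unfold Mn SA
    rw [Nat.floor_natCast]
    simp only [Nat.mod_one, if_true, sum_const, Nat.card_Icc, nsmul_eq_mul, mul_one, Nat.add_sub_cancel]
    exact div_self hn0.ne'
  rw [hone] at c2
  have h27 : x₂ ≤ 27 * X := by have := le_abs_self x₂; linarith
  have c3 := hx₂ (27 * X) h27 n (by
    have := mul_le_mul_of_nonneg_right (min_le_left (δ / 27) (1 / 27)) (show (0 : ℝ) ≤ 27 * X by linarith)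
    linarith) hn2 (rl a) (rl_B0 ha)
  have c4 := hx₂ (27 * X) h27 X (by
    have := mul_le_mul_of_nonneg_right (min_le_right (δ / 27) (1 / 27)) (show (0 : ℝ) ≤ 27 * X by linarith)
    linarith) (by linarith) (rl a) (rl_B0 ha)
  have e1 : ∑ m ∈ Icc 1 n, (if m % q = b then ((a (cardFactors m) : ℝ) - Mn (rl a) X) / 2 else 0) =
      (SA (rl a) q b n - Mn (rl a) X * SA (fun _ => 1) q b n) / 2 := by
    unfold SA
    rw [mul_sum, ← sum_sub_distrib, sum_div]
    apply sum_congr rfl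
    intro m _
    rw [Nat.mod_eq_of_lt hbq]
    unfold rl
    split_ifs
    · ring
    · ring
  rw [e1]
  set S1 := SA (rl a) q b n
  set S2 := SA (fun _ => 1) q b n
  set M := Mn (rl a) n
  set M27 := Mn (rl a) (27 * X)
  have hMX : |Mn (rl a) X| ≤ 1 := Mn_abs (rl_B0 ha) (by linarith)
  set c := Mn (rl a) X
  have e2 : (S1 - c * S2) / 2 = n / 2 * ((S1 / n - M / q) - c * (S2 / n - 1 / q) + ((M27 - c) - (M27 - M)) / q) := by
    field_simp
    ring
  rw [e2, abs_mul, abs_of_pos (by positivity : (0 : ℝ) < n / 2)]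
  have e3 : |c * (S2 / n - 1 / q)| ≤ ε / 2 := by
    rw [abs_mul]
    calc |c| * |S2 / n - 1 / q| ≤ 1 * (ε / 2) := mul_le_mul hMX c2 (abs_nonneg _) zero_le_one
      _ = _ := one_mul _
  have e4 : |((M27 - c) - (M27 - M)) / (q : ℝ)| ≤ ε / 2 := by
    rw [abs_div, abs_of_pos (by linarith : (0 : ℝ) < q), div_le_iff₀ (by linarith)]
    refine (abs_sub _ _).trans ?_
    nlinarith
  have e5 : |(S1 / n - M / q) - c * (S2 / n - 1 / q) + ((M27 - c) - (M27 - M)) / q| ≤ 2 * ε := by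
    refine (abs_add_le _ _).trans ?_
    have := abs_sub (S1 / n - M / q) (c * (S2 / n - 1 / q))
    linarith
  calc (n : ℝ) / 2 * |(S1 / n - M / q) - c * (S2 / n - 1 / q) + ((M27 - c) - (M27 - M)) / q| ≤ n / 2 * (2 * ε) :=
        mul_le_mul_of_nonneg_left e5 (by positivity)
    _ = ε * n := by ring

/-- the mean squares of the Dirichlet polynomials are small -/
theorem mrc_hom : MRC Hom := by
  intro q b hq δ η hδ hη
  obtain ⟨c, hc, hR⟩ := rich_ap q hq
  obtain ⟨T₀, h, hh, Y₀, hY₀⟩ := mr_fam (P1 q) (SC q b) c (SC_bdd q b) (SC_flip q b) hc hR (show 0 < η / 2 by positivity)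
  set K : ℝ := 2 * T₀ + 1 with hK
  have hK1 : 1 ≤ K := by rw [hK]; have : (0 : ℝ) ≤ T₀ := Nat.cast_nonneg _; linarith
  set ε : ℝ := min 1 (η / 2) / (K * (18 * (2 + T₀))) with hε
  have hε0 : 0 < ε := by positivity
  obtain ⟨X₁, hX₁⟩ := cls_sum q b hq (δ / 6) ε (by positivity) hε0
  obtain ⟨X₂, hX₂⟩ := exists_nat_ge (max 6 |Y₀| / δ)
  refine ⟨h, hh, X₁ + X₂, fun X hX f hf Y hY1 hY2 => ?_⟩
  have hXR : (X₂ : ℝ) ≤ X := by exact_mod_cast (by omega : X₂ ≤ X)
  have hYb : max 6 |Y₀| ≤ Y := by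
    have := hX₂.trans hXR
    rw [div_le_iff₀ hδ] at this
    linarith
  have hY6 : 6 ≤ Y := (le_max_left _ _).trans hYb
  have hYY : Y₀ ≤ Y := (le_abs_self _).trans ((le_max_right _ _).trans hYb)
  obtain ⟨a, ha, hfa⟩ := hf
  set M := Mn (rl a) X with hM
  have hXpos : (0 : ℝ) < X := by
    have : 0 < Y := by linarith
    nlinarith
  have hM1 : |M| ≤ 1 := Mn_abs (rl_B0 ha) hXpos
  set g1 : ℕ → ℤ := fun n => if n % q = b then a (cardFactors n) else 0 with hg1
  set g2 : ℕ → ℤ := fun n => if n % q = b then 1 else 0 with hg2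
  have hg1S : g1 ∈ SC q b := ⟨a, ha, rfl⟩
  have hg2S : g2 ∈ SC q b := ⟨fun _ => 1, fun _ => by simp, rfl⟩
  set gr : ℕ → ℝ := fun n => if n % q = b then ((a (cardFactors n) : ℝ) - M) / 2 else 0 with hgr
  have hfr : rsC f q b = fun n => (gr n : ℂ) := by
    funext n
    unfold rsC
    rw [hgr, hfa]
    simp only
    split_ifs
    · rfl
    · simp
  have hdec : ∀ k : ℤ, GC (rsC f q b) Y k = (GGg g1 Y k - (M : ℂ) * GGg g2 Y k) / 2 := by
    intro k
    rw [hfr]
    unfold GC GGg DP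
    rw [mul_sum, ← sum_sub_distrib, sum_div]
    apply sum_congr rfl
    intro n _
    rw [hgr, hg1, hg2]
    simp only
    split_ifs
    · push_cast
      ring
    · simp
  have hsq : ∀ k : ℤ, ‖GC (rsC f q b) Y k‖ ^ 2 ≤ (‖GGg g1 Y k‖ ^ 2 + ‖GGg g2 Y k‖ ^ 2) / 2 := by
    intro k
    rw [hdec]
    have e1 : ‖(GGg g1 Y k - (M : ℂ) * GGg g2 Y k) / 2‖ ≤ (‖GGg g1 Y k‖ + ‖GGg g2 Y k‖) / 2 := by
      rw [norm_div, Complex.norm_two]
      apply div_le_div_of_nonneg_right _ two_pos.le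
      refine (norm_sub_le _ _).trans ?_
      rw [norm_mul, Complex.norm_real, Real.norm_eq_abs]
      have := mul_le_mul_of_nonneg_right hM1 (norm_nonneg (GGg g2 Y k))
      linarith
    have e2 := pow_le_pow_left₀ (norm_nonneg _) e1 2
    refine e2.trans ?_
    nlinarith [sq_nonneg (‖GGg g1 Y k‖ - ‖GGg g2 Y k‖)]
  set F := FK ⌊Y / h⌋₊ with hF
  have hbig : ∑ k ∈ F.filter (fun k : ℤ => (T₀ : ℝ) ≤ |(k : ℝ)|), ‖GC (rsC f q b) Y k‖ ^ 2 ≤ η / 2 := by
    refine (sum_le_sum fun k _ => hsq k).trans ?_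
    rw [← sum_div, sum_add_distrib]
    have a1 := hY₀ Y hYY g1 hg1S
    have a2 := hY₀ Y hYY g2 hg2S
    linarith
  have hsmall : ∑ k ∈ F.filter (fun k : ℤ => ¬ (T₀ : ℝ) ≤ |(k : ℝ)|), ‖GC (rsC f q b) Y k‖ ^ 2 ≤ η / 2 := by
    have hk : ∀ k ∈ F.filter (fun k : ℤ => ¬ (T₀ : ℝ) ≤ |(k : ℝ)|), ‖GC (rsC f q b) Y k‖ ^ 2 ≤ min 1 (η / 2) / K := by
      intro k hk
      rw [mem_filter, not_le] at hk
      have e1 := abel_q gr Y hY6 ε hε0.le k (by
        intro n h1 h2
        exact hX₁ X (by omega) a ha n (by linarith) (by linarith))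
      rw [← hfr] at e1
      have e2 : ε * (18 * (2 + |(k : ℝ)|)) ≤ min 1 (η / 2) / K := by
        have e3 : ε * (18 * (2 + |(k : ℝ)|)) ≤ ε * (18 * (2 + T₀)) := by
          apply mul_le_mul_of_nonneg_left _ hε0.le
          linarith [hk.2]
        refine e3.trans (le_of_eq ?_)
        rw [hε]
        field_simp
      have e4 : ‖GC (rsC f q b) Y k‖ ≤ min 1 (η / 2) / K := e1.trans e2
      have e5 : min 1 (η / 2) / K ≤ 1 := by
        rw [div_le_one (by linarith)]
        exact (min_le_left _ _).trans hK1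
      have e6 : (0 : ℝ) ≤ ‖GC (rsC f q b) Y k‖ := norm_nonneg _
      nlinarith
    refine (sum_le_sum hk).trans ?_
    rw [sum_const, nsmul_eq_mul]
    have hcard : ((F.filter (fun k : ℤ => ¬ (T₀ : ℝ) ≤ |(k : ℝ)|)).card : ℝ) ≤ K := by
      have h1 : F.filter (fun k : ℤ => ¬ (T₀ : ℝ) ≤ |(k : ℝ)|) ⊆ Icc (-(T₀ : ℤ)) T₀ := by
        intro k hk
        rw [mem_filter, not_le] at hk
        rw [mem_Icc]
        have h2 := abs_lt.1 hk.2
        constructor
        · have : (-(T₀ : ℝ)) < k := h2.1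
          exact_mod_cast this.le
        · exact_mod_cast h2.2.le
      have h3 := card_le_card h1
      rw [Int.card_Icc] at h3
      have h4 : (F.filter (fun k : ℤ => ¬ (T₀ : ℝ) ≤ |(k : ℝ)|)).card ≤ 2 * T₀ + 1 := by omega
      rw [hK]
      exact_mod_cast h4
    have hm0 : 0 ≤ min 1 (η / 2) / K := by positivity
    calc ((F.filter (fun k : ℤ => ¬ (T₀ : ℝ) ≤ |(k : ℝ)|)).card : ℝ) * (min 1 (η / 2) / K) ≤ K * (min 1 (η / 2) / K) :=
          mul_le_mul_of_nonneg_right hcard hm0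
      _ = min 1 (η / 2) := by field_simp
      _ ≤ η / 2 := min_le_right _ _
  have hsplit := Finset.sum_filter_add_sum_filter_not F (fun k : ℤ => (T₀ : ℝ) ≤ |(k : ℝ)|) (fun k => ‖GC (rsC f q b) Y k‖ ^ 2)
  rw [← hsplit]
  linarith

/-- exponential sums of the class -/
theorem expo_hom : ExpoU Hom := expoU Hom Hom_norm Hom_flip mrc_hom

end Pool.Agent.TH575.OM
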