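import Mathlib
import Pool.Agent.TH575.CW.Cyc

/-! The Turan-Kubilius inequality with weights. -/

set_option autoImplicit false

namespace Pool.Agent.TH575.OM

open Finset
open Pool.Agent.TH575.CW (sum_mult)

/-- the Turan-Kubilius inequality for a weighted finite set of primes -/
lemma tkw (S : Finset ℕ) (hS : ∀ p ∈ S, p.Prime) (c : ℕ → ℝ) (hc : ∀ p, 0 ≤ c p) (C : ℝ)
    (hC : ∀ p ∈ S, c p ≤ C) (L : ℝ) (hL : L = ∑ p ∈ S, c p / p) (N : ℕ) :
    ∑ n ∈ Icc 1 N, ((∑ p ∈ S, if p ∣ n then c p else 0) - L) ^ 2 ≤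
      C * L * N + 2 * L * ∑ p ∈ S, c p := by
  classical
  have hcount : ∀ d : ℕ, 1 ≤ d → ∑ n ∈ Icc 1 N, (if d ∣ n then (1 : ℝ) else 0) = ((N / d : ℕ) : ℝ) := by
    intro d hd
    rw [← sum_filter, sum_const, nsmul_eq_mul, mul_one]
    congr 1
    have : (Icc 1 N).filter (fun n => d ∣ n) = (Ioc 0 N).filter (fun n => d ∣ n) := rfl
    rw [this, Nat.Ioc_filter_dvd_card_eq_div]
  have hL0 : 0 ≤ L := by
    rw [hL]
    exact sum_nonneg fun p _ => div_nonneg (hc p) (Nat.cast_nonneg _)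
  set w : ℕ → ℝ := fun n => ∑ p ∈ S, if p ∣ n then c p else 0 with hw
  have h1 : ∑ n ∈ Icc 1 N, w n ^ 2 ≤ N * L ^ 2 + C * L * N := by
    have e1 : ∑ n ∈ Icc 1 N, w n ^ 2 =
        ∑ p ∈ S, ∑ q ∈ S, (c p * c q) * ∑ n ∈ Icc 1 N, (if p ∣ n ∧ q ∣ n then (1 : ℝ) else 0) := by
      simp_rw [mul_sum]
      rw [sum_congr rfl fun p _ => sum_comm, sum_comm]
      apply sum_congr rfl
      intro n _
      rw [hw]
      simp only
      rw [sq, sum_mul_sum]
      apply sum_congr rfl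
      intro p _
      apply sum_congr rfl
      intro q _
      by_cases hp : p ∣ n <;> by_cases hq : q ∣ n <;> simp [hp, hq]
    rw [e1]
    have e2 : ∀ p ∈ S, ∀ q ∈ S, (c p * c q) * ∑ n ∈ Icc 1 N, (if p ∣ n ∧ q ∣ n then (1 : ℝ) else 0) ≤
        N * (c p / p * (c q / q)) + (if p = q then C * N * (c p / p) else 0) := by
      intro p hp q hq
      have hp0 : (0 : ℝ) < p := by exact_mod_cast (hS p hp).pos
      have hq0 : (0 : ℝ) < q := by exact_mod_cast (hS q hq).pos
      by_cases hpq : p = q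
      · subst hpq
        simp only [and_self, if_true]
        rw [hcount p (hS p hp).pos]
        have e3 := Nat.cast_div_le (α := ℝ) (m := N) (n := p)
        have e4 : (c p * c p) * ((N / p : ℕ) : ℝ) ≤ C * N * (c p / p) := by
          calc (c p * c p) * ((N / p : ℕ) : ℝ) ≤ (C * c p) * ((N : ℝ) / p) := by
                apply mul_le_mul _ e3 (Nat.cast_nonneg _)
                · exact mul_nonneg ((hc p).trans (hC p hp)) (hc p)
                · exact mul_le_mul_of_nonneg_right (hC p hp) (hc p)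
            _ = _ := by ring
        have h3 : (0 : ℝ) ≤ N * (c p / p * (c p / p)) := by
          have := hc p
          positivity
        linarith
      · rw [if_neg hpq, add_zero]
        have hcop : Nat.Coprime p q := (Nat.coprime_primes (hS p hp) (hS q hq)).2 hpq
        have e3 : ∀ n, (p ∣ n ∧ q ∣ n) ↔ p * q ∣ n := fun n =>
          ⟨fun h => hcop.mul_dvd_of_dvd_of_dvd h.1 h.2, fun h => ⟨(dvd_mul_right _ _).trans h, (dvd_mul_left _ _).trans h⟩⟩
        simp only [e3]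
        rw [hcount (p * q) (Nat.mul_pos (hS p hp).pos (hS q hq).pos)]
        have e4 := Nat.cast_div_le (α := ℝ) (m := N) (n := p * q)
        refine (mul_le_mul_of_nonneg_left e4 (mul_nonneg (hc p) (hc q))).trans (le_of_eq ?_)
        push_cast
        field_simp
    refine (sum_le_sum fun p hp => sum_le_sum fun q hq => e2 p hp q hq).trans ?_
    simp only [sum_add_distrib]
    apply add_le_add
    · apply le_of_eq
      rw [hL, sq, sum_mul_sum, mul_sum]
      apply sum_congr rfl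
      intro p _
      rw [mul_sum]
    · apply le_of_eq
      have e5 : ∀ p ∈ S, ∑ q ∈ S, (if p = q then C * N * (c p / p) else 0) = C * N * (c p / p) := by
        intro p hp
        rw [sum_ite_eq, if_pos hp]
      rw [sum_congr rfl e5, ← mul_sum, ← hL]
      ring
  have h2 : (N : ℝ) * L - ∑ p ∈ S, c p ≤ ∑ n ∈ Icc 1 N, w n := by
    have e1 : ∑ n ∈ Icc 1 N, w n = ∑ p ∈ S, c p * ((N / p : ℕ) : ℝ) := by
      rw [hw]
      simp only
      rw [sum_comm]
      apply sum_congr rfl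
      intro p hp
      rw [← hcount p (hS p hp).pos, mul_sum]
      apply sum_congr rfl
      intro n _
      split_ifs <;> simp
    rw [e1, hL, mul_sum, ← sum_sub_distrib]
    apply sum_le_sum
    intro p hp
    have hp0 : (0 : ℝ) < p := by exact_mod_cast (hS p hp).pos
    have e3 : N < (N / p + 1) * p := Nat.lt_mul_of_div_lt (Nat.lt_succ_self _) (hS p hp).pos
    have e4 : (N : ℝ) < (((N / p : ℕ) : ℝ) + 1) * p := by exact_mod_cast e3
    have e5 : (N : ℝ) / p ≤ ((N / p : ℕ) : ℝ) + 1 := by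
      rw [div_le_iff₀ hp0]
      exact e4.le
    have e6 := mul_le_mul_of_nonneg_left e5 (hc p)
    have e7 : (N : ℝ) * (c p / p) = c p * (N / p) := by ring
    rw [e7]
    linarith
  have h3 : ∑ n ∈ Icc 1 N, (w n - L) ^ 2 =
      ∑ n ∈ Icc 1 N, w n ^ 2 - 2 * L * ∑ n ∈ Icc 1 N, w n + N * L ^ 2 := by
    have e1 : ∀ n ∈ Icc 1 N, (w n - L) ^ 2 = w n ^ 2 - 2 * L * w n + L ^ 2 := by
      intro n _
      ring
    rw [sum_congr rfl e1, sum_add_distrib, sum_sub_distrib, ← mul_sum, sum_const, Nat.card_Icc, nsmul_eq_mul, Nat.add_sub_cancel]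
  rw [h3]
  have h4 := mul_le_mul_of_nonneg_left h2 (by positivity : 0 ≤ 2 * L)
  nlinarith

/-- sums of bounded functions in terms of the sums over the multiples of the primes -/
lemma tkw_sum (S : Finset ℕ) (hS : ∀ p ∈ S, p.Prime) (c : ℕ → ℝ) (hc : ∀ p, 0 ≤ c p) (C : ℝ) (hC0 : 0 ≤ C)
    (hC : ∀ p ∈ S, c p ≤ C) (L : ℝ) (hL : L = ∑ p ∈ S, c p / p) (N : ℕ) (F : ℕ → ℝ) (hF : ∀ n, |F n| ≤ 1)
    (hN : 2 * ∑ p ∈ S, c p ≤ C * N) :
    |L * ∑ n ∈ Icc 1 N, F n - ∑ p ∈ S, c p * ∑ m ∈ Icc 1 (N / p), F (p * m)| ≤ N * √(2 * C * L) := by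
  have hL0 : 0 ≤ L := by
    rw [hL]
    exact sum_nonneg fun p _ => div_nonneg (hc p) (Nat.cast_nonneg _)
  set w : ℕ → ℝ := fun n => ∑ p ∈ S, if p ∣ n then c p else 0 with hw
  have h1 : ∑ p ∈ S, c p * ∑ m ∈ Icc 1 (N / p), F (p * m) = ∑ n ∈ Icc 1 N, w n * F n := by
    rw [hw]
    simp only
    simp_rw [sum_mul]
    rw [sum_comm]
    apply sum_congr rfl
    intro p hp
    rw [← sum_mult p N (hS p hp).pos, mul_sum]
    apply sum_congr rfl
    intro n _
    split_ifs <;> ring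
  rw [h1, mul_sum, ← sum_sub_distrib]
  have h2 : |∑ n ∈ Icc 1 N, (L * F n - w n * F n)| ≤ ∑ n ∈ Icc 1 N, |w n - L| := by
    refine (abs_sum_le_sum_abs _ _).trans ?_
    apply sum_le_sum
    intro n _
    have e1 : L * F n - w n * F n = (L - w n) * F n := by ring
    rw [e1, abs_mul, abs_sub_comm]
    exact mul_le_of_le_one_right (abs_nonneg _) (hF n)
  refine h2.trans ?_
  have hN0 : (0 : ℝ) ≤ N := Nat.cast_nonneg _
  have h3 : (∑ n ∈ Icc 1 N, |w n - L|) ^ 2 ≤ (N * √(2 * C * L)) ^ 2 := by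
    have e2 := sq_sum_le_card_mul_sum_sq (s := Icc 1 N) (f := fun n => |w n - L|)
    rw [Nat.card_Icc, Nat.add_sub_cancel] at e2
    refine e2.trans ?_
    rw [mul_pow, Real.sq_sqrt (by positivity)]
    have e3 : ∑ n ∈ Icc 1 N, |w n - L| ^ 2 ≤ 2 * C * L * N := by
      have e4 := tkw S hS c hc C hC L hL N
      have e5 : ∑ n ∈ Icc 1 N, |w n - L| ^ 2 = ∑ n ∈ Icc 1 N, (w n - L) ^ 2 := by
        apply sum_congr rfl
        intro n _
        rw [sq_abs]
      rw [e5]
      refine e4.trans ?_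
      have e6 := mul_le_mul_of_nonneg_left hN hL0
      nlinarith
    calc (N : ℝ) * ∑ n ∈ Icc 1 N, |w n - L| ^ 2 ≤ N * (2 * C * L * N) := mul_le_mul_of_nonneg_left e3 hN0
      _ = _ := by ring
  exact abs_le_of_sq_le_sq' h3 (by positivity) |>.2

end Pool.Agent.TH575.OM
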