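import Pool.Agent.TH575.OM.Blk
import Pool.Agent.TH575.OM.TKw

/-!
Means of functions of the number of prime factors and of a residue class, in terms of the means at
smaller scales.
-/

set_option autoImplicit false

namespace Pool.Agent.TH575.OM

open Finset Filter Topology ArithmeticFunction Pool.Agent.H970R2.X

/-- the weighted inequality for a family of disjoint sets of primes -/
lemma tk_fam {ι : Type*} [DecidableEq ι] (T : Finset ι) (P : ι → Finset ℕ)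
    (hP : ∀ i ∈ T, ∀ p ∈ P i, p.Prime) (hd : ∀ i ∈ T, ∀ j ∈ T, i ≠ j → Disjoint (P i) (P j))
    (w : ι → ℝ) (hw : ∀ i ∈ T, 0 ≤ w i) (C : ℝ) (hC0 : 0 ≤ C) (hwC : ∀ i ∈ T, w i ≤ C) (L : ℝ)
    (hL : L = ∑ i ∈ T, w i * ∑ p ∈ P i, 1 / (p : ℝ)) (N : ℕ) (F : ℕ → ℝ) (hF : ∀ n, |F n| ≤ 1)
    (hN : 2 * ∑ i ∈ T, w i * (P i).card ≤ C * N) :
    |L * ∑ n ∈ Icc 1 N, F n - ∑ i ∈ T, w i * ∑ p ∈ P i, ∑ m ∈ Icc 1 (N / p), F (p * m)| ≤ N * √(2 * C * L) := by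
  classical
  set c : ℕ → ℝ := fun p => ∑ i ∈ T, if p ∈ P i then w i else 0 with hc
  have hcv : ∀ j ∈ T, ∀ p ∈ P j, c p = w j := by
    intro j hj p hp
    rw [hc]
    simp only
    rw [sum_eq_single j]
    · rw [if_pos hp]
    · intro i hi hij
      rw [if_neg]
      intro hpi
      exact (Finset.disjoint_left.1 (hd i hi j hj hij)) hpi hp
    · intro h
      exact absurd hj h
  have hdis : (T : Set ι).PairwiseDisjoint P := by
    intro i hi j hj hij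
    exact hd i hi j hj hij
  have hsum : ∀ G : ℕ → ℝ, ∑ p ∈ T.biUnion P, c p * G p = ∑ i ∈ T, w i * ∑ p ∈ P i, G p := by
    intro G
    rw [sum_biUnion hdis]
    apply sum_congr rfl
    intro i hi
    rw [mul_sum]
    apply sum_congr rfl
    intro p hp
    rw [hcv i hi p hp]
  have hcnn : ∀ p, 0 ≤ c p := by
    intro p
    rw [hc]
    exact sum_nonneg fun i hi => by split_ifs; exacts [hw i hi, le_refl _]
  have h := tkw_sum (T.biUnion P) (by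
    intro p hp
    rw [mem_biUnion] at hp
    obtain ⟨i, hi, hp⟩ := hp
    exact hP i hi p hp) c hcnn C hC0 (by
    intro p hp
    rw [mem_biUnion] at hp
    obtain ⟨i, hi, hp⟩ := hp
    rw [hcv i hi p hp]
    exact hwC i hi) L (by
    rw [hL, ← hsum]
    apply sum_congr rfl
    intro p _
    ring) N F hF (by
    have e := hsum (fun _ => 1)
    simp only [mul_one, sum_const, nsmul_eq_mul] at e
    rw [e]
    exact hN)
  rw [hsum] at h
  exact h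

/-- the sum of a function of the number of prime factors and of the residue class -/
noncomputable def SP (q : ℕ) (φ : ℕ → ZMod q → ℝ) (N : ℕ) : ℝ :=
  ∑ n ∈ Icc 1 N, φ (cardFactors n) (n : ZMod q)

/-- its mean -/
noncomputable def ME (q : ℕ) (φ : ℕ → ZMod q → ℝ) (x : ℝ) : ℝ := SP q φ ⌊x⌋₊ / x

/-- bounded by one -/
def B1 {q : ℕ} (φ : ℕ → ZMod q → ℝ) : Prop := ∀ l b, |φ l b| ≤ 1

/-- the action of a prime in the class `r` -/
def act {q : ℕ} (r : (ZMod q)ˣ) (φ : ℕ → ZMod q → ℝ) : ℕ → ZMod q → ℝ := fun l b => φ (l + 1) (r * b)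

/-- the action on the residue class only -/
def uact {q : ℕ} (r : (ZMod q)ˣ) (φ : ℕ → ZMod q → ℝ) : ℕ → ZMod q → ℝ := fun l b => φ l (r * b)

/-- the shift -/
def up {q : ℕ} (φ : ℕ → ZMod q → ℝ) : ℕ → ZMod q → ℝ := fun l b => φ (l + 1) b

lemma act_B1 {q : ℕ} {r : (ZMod q)ˣ} {φ : ℕ → ZMod q → ℝ} (h : B1 φ) : B1 (act r φ) := fun _ _ => h _ _
lemma uact_B1 {q : ℕ} {r : (ZMod q)ˣ} {φ : ℕ → ZMod q → ℝ} (h : B1 φ) : B1 (uact r φ) := fun _ _ => h _ _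
lemma up_B1 {q : ℕ} {φ : ℕ → ZMod q → ℝ} (h : B1 φ) : B1 (up φ) := fun _ _ => h _ _

lemma SP_abs {q : ℕ} {φ : ℕ → ZMod q → ℝ} (h : B1 φ) (N : ℕ) : |SP q φ N| ≤ N := by
  unfold SP
  refine (abs_sum_le_sum_abs _ _).trans ?_
  refine (sum_le_sum fun n _ => h _ _).trans ?_
  simp

lemma SP_lip {q : ℕ} {φ : ℕ → ZMod q → ℝ} (h : B1 φ) {M N : ℕ} (hMN : N ≤ M) :
    |SP q φ M - SP q φ N| ≤ M - N := by
  unfold SP
  have e : ∑ n ∈ Icc 1 M, φ (cardFactors n) (n : ZMod q) - ∑ n ∈ Icc 1 N, φ (cardFactors n) (n : ZMod q) =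
      ∑ n ∈ Ioc N M, φ (cardFactors n) (n : ZMod q) := by
    have h1 : Icc 1 M = Ioc 0 M := rfl
    have h2 : Icc 1 N = Ioc 0 N := rfl
    rw [h1, h2, ← sum_Ioc_consecutive _ (Nat.zero_le N) hMN]
    ring
  rw [e]
  refine (abs_sum_le_sum_abs _ _).trans ?_
  refine (sum_le_sum fun n _ => h _ _).trans ?_
  simp only [sum_const, Nat.card_Ioc, nsmul_eq_mul, mul_one]
  rw [Nat.cast_sub hMN]

lemma ME_abs {q : ℕ} {φ : ℕ → ZMod q → ℝ} (h : B1 φ) {x : ℝ} (hx : 0 < x) : |ME q φ x| ≤ 1 := by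
  unfold ME
  rw [abs_div, abs_of_pos hx, div_le_one hx]
  exact (SP_abs h _).trans (Nat.floor_le hx.le)

lemma ME_lip {q : ℕ} {φ : ℕ → ZMod q → ℝ} (h : B1 φ) {y z : ℝ} (hy : 0 < y) (hyz : y ≤ z) :
    |SP q φ ⌊y⌋₊ - y * ME q φ z| ≤ 2 * (z - y) + 1 := by
  have hz : 0 < z := hy.trans_le hyz
  have e1 : |SP q φ ⌊z⌋₊ - SP q φ ⌊y⌋₊| ≤ z - y + 1 := by
    refine (SP_lip h (Nat.floor_le_floor hyz)).trans ?_
    have := Nat.floor_le hz.le
    have := Nat.lt_floor_add_one y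
    linarith
  have e2 : |SP q φ ⌊z⌋₊ - y * ME q φ z| ≤ z - y := by
    unfold ME
    have e3 : SP q φ ⌊z⌋₊ - y * (SP q φ ⌊z⌋₊ / z) = SP q φ ⌊z⌋₊ * ((z - y) / z) := by
      field_simp
    rw [e3, abs_mul, abs_of_nonneg (div_nonneg (by linarith) hz.le : 0 ≤ (z - y) / z)]
    have e4 := (SP_abs h ⌊z⌋₊).trans (Nat.floor_le hz.le)
    calc |SP q φ ⌊z⌋₊| * ((z - y) / z) ≤ z * ((z - y) / z) :=
          mul_le_mul_of_nonneg_right e4 (div_nonneg (by linarith) hz.le)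
      _ = z - y := by field_simp
  have e5 : SP q φ ⌊y⌋₊ - y * ME q φ z =
      -(SP q φ ⌊z⌋₊ - SP q φ ⌊y⌋₊) + (SP q φ ⌊z⌋₊ - y * ME q φ z) := by ring
  rw [e5]
  refine (abs_add_le _ _).trans ?_
  rw [abs_neg]
  linarith

lemma exp_sub_le {H : ℕ} (hH : 1 ≤ H) : Real.exp (1 / (H : ℝ)) - 1 ≤ 2 / H := by
  have hH1 : (1 : ℝ) ≤ H := by exact_mod_cast hH
  have h1 : |1 / (H : ℝ)| ≤ 1 := by
    rw [abs_of_nonneg (by positivity)]
    exact (div_le_one (by linarith)).2 hH1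
  have h2 := Real.abs_exp_sub_one_le h1
  rw [abs_of_nonneg (by positivity : (0 : ℝ) ≤ 1 / (H : ℝ))] at h2
  have h3 := le_abs_self (Real.exp (1 / (H : ℝ)) - 1)
  calc _ ≤ _ := h3.trans h2
    _ = _ := by ring

lemma SP_cmp {q : ℕ} {φ : ℕ → ZMod q → ℝ} (h : B1 φ) {H : ℕ} (hH : 1 ≤ H) {y z : ℝ} (hy : 0 < y) (hyz : y ≤ z)
    (hz : z ≤ y * Real.exp (1 / (H : ℝ))) :
    |SP q φ ⌊y⌋₊ - y * ME q φ z| ≤ 4 * y / H + 1 := by
  refine (ME_lip h hy hyz).trans ?_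
  have e := mul_le_mul_of_nonneg_left (exp_sub_le hH) hy.le
  have e2 : 4 * y / (H : ℝ) = 2 * (y * (2 / H)) := by ring
  rw [e2]
  linarith

end Pool.Agent.TH575.OM
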