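import Pool.Agent.TH575.OM.Eqd

/-!
Means of functions of the number of prime factors and of a residue class, in terms of the means at
smaller scales: the averaging identity.
-/

set_option autoImplicit false

namespace Pool.Agent.TH575.OM

open Finset Filter Topology ArithmeticFunction Pool.Agent.H970R2.X

open Classical in
/-- the primes in a short multiplicative block and a residue class -/
noncomputable def PB (q H : ℕ) (i : ℕ × (ZMod q)ˣ) : Finset ℕ :=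
  (Ioc ⌊Real.exp ((i.1 : ℝ) / H)⌋₊ ⌊Real.exp (((i.1 : ℝ) + 1) / H)⌋₊).filter
    (fun p => p.Prime ∧ (p : ZMod q) = i.2)

lemma PB_mem {q H : ℕ} {i : ℕ × (ZMod q)ˣ} {p : ℕ} (hp : p ∈ PB q H i) :
    p.Prime ∧ Real.exp ((i.1 : ℝ) / H) < p ∧ (p : ℝ) ≤ Real.exp (((i.1 : ℝ) + 1) / H) ∧ (p : ZMod q) = i.2 := by
  unfold PB at hp
  rw [mem_filter, mem_Ioc] at hp
  obtain ⟨⟨h1, h2⟩, h3, h4⟩ := hp
  exact ⟨h3, (Nat.floor_lt (Real.exp_pos _).le).1 h1, (Nat.le_floor_iff (Real.exp_pos _).le).1 h2, h4⟩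

lemma PB_disj {q H : ℕ} (hH : 1 ≤ H) (i j : ℕ × (ZMod q)ˣ) (hij : i ≠ j) : Disjoint (PB q H i) (PB q H j) := by
  have hH0 : (0 : ℝ) < H := by exact_mod_cast hH
  rw [Finset.disjoint_left]
  intro p hp hp'
  obtain ⟨_, a1, a2, a3⟩ := PB_mem hp
  obtain ⟨_, b1, b2, b3⟩ := PB_mem hp'
  apply hij
  have key : ∀ u v : ℕ, Real.exp ((u : ℝ) / H) < p → (p : ℝ) ≤ Real.exp (((v : ℝ) + 1) / H) → u ≤ v := by
    intro u v h1 h2
    have h3 := Real.exp_lt_exp.1 (h1.trans_le h2)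
    rw [div_lt_div_iff_of_pos_right hH0] at h3
    have h4 : u < v + 1 := by exact_mod_cast h3
    omega
  have e1 : i.1 = j.1 := le_antisymm (key _ _ a1 b2) (key _ _ b1 a2)
  have e2 : i.2 = j.2 := Units.ext (a3.symm.trans b3)
  exact Prod.ext e1 e2

lemma PB_sum (q H : ℕ) [NeZero q] (v : ℕ) (r : (ZMod q)ˣ) :
    ∑ p ∈ PB q H (v, r), 1 / (p : ℝ) = xapl_bl q (r : ZMod q).val ⌊Real.exp ((v : ℝ) / H)⌋₊
      ⌊Real.exp (((v : ℝ) + 1) / H)⌋₊ := by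
  unfold PB xapl_bl
  apply sum_congr _ (fun _ _ => rfl)
  apply filter_congr
  intro p _
  have e : ((p : ZMod q) = (r : ZMod q)) ↔ p % q = (r : ZMod q).val % q := by
    rw [← ZMod.natCast_eq_natCast_iff', ZMod.natCast_zmod_val]
  rw [e]

lemma PB_low (q : ℕ) [NeZero q] (H : ℕ) (hH : 1 ≤ H) :
    ∃ c : ℝ, 0 < c ∧ ∃ v₀ : ℕ, 1 ≤ v₀ ∧ ∀ v : ℕ, v₀ ≤ v → ∀ r : (ZMod q)ˣ,
      c / v ≤ ∑ p ∈ PB q H (v, r), 1 / (p : ℝ) := by
  have h : ∀ r : (ZMod q)ˣ, ∃ c : ℝ, 0 < c ∧ ∃ v₀ : ℕ, 1 ≤ v₀ ∧ ∀ v : ℕ, v₀ ≤ v →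
      c / v ≤ ∑ p ∈ PB q H (v, r), 1 / (p : ℝ) := by
    intro r
    obtain ⟨c, hc, v₀, hv, h⟩ := blk_low q (r : ZMod q).val H (NeZero.pos q) (ZMod.val_coe_unit_coprime r) hH
    refine ⟨c, hc, v₀, hv, fun v hv' => ?_⟩
    rw [PB_sum]
    exact h v hv'
  choose c hc v₀ hv₀ h using h
  obtain ⟨r0, _, hr0⟩ := Finset.exists_min_image (univ : Finset (ZMod q)ˣ) c ⟨1, mem_univ _⟩
  refine ⟨c r0, hc r0, (univ : Finset (ZMod q)ˣ).sup v₀ + 1, by omega, fun v hv r => ?_⟩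
  refine le_trans ?_ (h r v ?_)
  · exact div_le_div_of_nonneg_right (hr0 r (mem_univ _)) (Nat.cast_nonneg _)
  · have : v₀ r ≤ (univ : Finset (ZMod q)ˣ).sup v₀ := Finset.le_sup (mem_univ r)
    omega

lemma harm_big (v₀ : ℕ) (K : ℝ) : ∃ V : ℕ, v₀ ≤ V ∧ K ≤ ∑ v ∈ Ico v₀ V, 1 / (v : ℝ) := by
  have h1 : Tendsto (fun n => ∑ i ∈ range n, 1 / (i : ℝ)) atTop atTop := by
    rw [← not_summable_iff_tendsto_nat_atTop_of_nonneg (fun i => by positivity)]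
    exact Real.not_summable_one_div_natCast
  obtain ⟨V, hV⟩ := ((h1.eventually_ge_atTop (K + ∑ i ∈ range v₀, 1 / (i : ℝ))).and (eventually_ge_atTop v₀)).exists
  refine ⟨V, hV.2, ?_⟩
  rw [Finset.sum_Ico_eq_sub _ hV.2]
  linarith [hV.1]

lemma SP_mul {q : ℕ} (φ : ℕ → ZMod q → ℝ) (p : ℕ) (hp : p.Prime) (r : (ZMod q)ˣ) (hr : (p : ZMod q) = r) (N : ℕ) :
    ∑ m ∈ Icc 1 N, φ (cardFactors (p * m)) ((p * m : ℕ) : ZMod q) = SP q (act r φ) N := by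
  unfold SP act
  apply sum_congr rfl
  intro m hm
  rw [mem_Icc] at hm
  rw [cardFactors_mul hp.ne_zero (by omega), cardFactors_apply_prime hp, Nat.cast_mul, hr, add_comm 1]

/-- the averaging identity -/
theorem claimA (q : ℕ) [NeZero q] (H : ℕ) (hH : 1 ≤ H) (K : ℝ) {ε : ℝ} (hε : 0 < ε) :
    ∃ v₀ V : ℕ, 1 ≤ v₀ ∧ v₀ ≤ V ∧ K ≤ ∑ v ∈ Ico v₀ V, 1 / (v : ℝ) ∧ ∃ x₀ : ℝ, ∀ x ≥ x₀,
      ∀ φ : ℕ → ZMod q → ℝ, B1 φ →
      |ME q φ x - 1 / ((Fintype.card (ZMod q)ˣ : ℝ) * ∑ v ∈ Ico v₀ V, 1 / (v : ℝ)) *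
        ∑ v ∈ Ico v₀ V, 1 / (v : ℝ) * ∑ r : (ZMod q)ˣ, ME q (act r φ) (x * Real.exp (-((v : ℝ) / H)))| ≤
      ε + 4 / H := by
  classical
  have hH0 : (0 : ℝ) < H := by exact_mod_cast hH
  obtain ⟨c, hc, v₀, hv₀, hlow⟩ := PB_low q H hH
  set C : ℝ := 1 / c with hC
  have hC0 : 0 < C := by positivity
  obtain ⟨V, hV1, hV2⟩ := harm_big v₀ (max (max K 1) (8 * C / ε ^ 2))
  have hK : K ≤ ∑ v ∈ Ico v₀ V, 1 / (v : ℝ) := (le_max_left _ _).trans ((le_max_left _ _).trans hV2)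
  have h1 : 1 ≤ ∑ v ∈ Ico v₀ V, 1 / (v : ℝ) := (le_max_right _ _).trans ((le_max_left _ _).trans hV2)
  have h2 : 8 * C / ε ^ 2 ≤ ∑ v ∈ Ico v₀ V, 1 / (v : ℝ) := (le_max_right _ _).trans hV2
  refine ⟨v₀, V, hv₀, hV1, hK, ?_⟩
  set LL := ∑ v ∈ Ico v₀ V, 1 / (v : ℝ) with hLL
  set f : ℝ := (Fintype.card (ZMod q)ˣ : ℝ) with hf
  have hf1 : 1 ≤ f := by
    rw [hf]
    exact_mod_cast Fintype.card_pos
  set L : ℝ := f * LL with hL
  have hLL : 0 < LL := by linarith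
  have hL1 : 1 ≤ L := by rw [hL]; nlinarith
  have hL2 : 8 * C / ε ^ 2 ≤ L := h2.trans (by rw [hL]; nlinarith)
  set T : Finset (ℕ × (ZMod q)ˣ) := Ico v₀ V ×ˢ univ with hT
  set mm : ℕ × (ZMod q)ˣ → ℝ := fun i => ∑ p ∈ PB q H i, 1 / (p : ℝ) with hmm
  set w : ℕ × (ZMod q)ˣ → ℝ := fun i => 1 / (i.1 * mm i) with hw
  have hTm : ∀ i ∈ T, (1 : ℝ) ≤ i.1 ∧ c / i.1 ≤ mm i := by
    intro i hi
    rw [hT, mem_product, mem_Ico] at hi
    refine ⟨by exact_mod_cast hv₀.trans hi.1.1, ?_⟩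
    have := hlow i.1 hi.1.1 i.2
    exact this
  have hmpos : ∀ i ∈ T, 0 < mm i := fun i hi =>
    lt_of_lt_of_le (div_pos hc (by linarith [(hTm i hi).1])) (hTm i hi).2
  have hw0 : ∀ i ∈ T, 0 ≤ w i := by
    intro i hi
    have e1 := (hTm i hi).1
    have e2 := hmpos i hi
    rw [hw]
    simp only
    positivity
  have hwC : ∀ i ∈ T, w i ≤ C := by
    intro i hi
    have e1 := (hTm i hi).1
    have e2 := (hTm i hi).2
    rw [hw, hC]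
    simp only
    apply one_div_le_one_div_of_le hc
    rw [div_le_iff₀ (by linarith)] at e2
    linarith
  have hwm : ∀ i ∈ T, w i * mm i = 1 / (i.1 : ℝ) := by
    intro i hi
    have e1 := (hTm i hi).1
    have e2 := (hmpos i hi).ne'
    have e3 : (i.1 : ℝ) ≠ 0 := by linarith
    rw [hw]
    simp only
    field_simp
  have hLs : L = ∑ i ∈ T, w i * ∑ p ∈ PB q H i, 1 / (p : ℝ) := by
    have e : ∑ i ∈ T, w i * ∑ p ∈ PB q H i, 1 / (p : ℝ) = ∑ i ∈ T, 1 / (i.1 : ℝ) :=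
      sum_congr rfl fun i hi => hwm i hi
    rw [e, hT, sum_product]
    simp only [sum_const, card_univ, nsmul_eq_mul]
    rw [← mul_sum]
  set W : ℝ := ∑ i ∈ T, w i * ((PB q H i).card : ℝ) with hW
  have hW0 : 0 ≤ W := sum_nonneg fun i hi => mul_nonneg (hw0 i hi) (Nat.cast_nonneg _)
  refine ⟨max (max 1 (2 * W / C + 1)) (2 * W / ε), fun x hx φ hφ => ?_⟩
  have hx1 : 1 ≤ x := (le_max_left _ _).trans ((le_max_left _ _).trans hx)
  have hx2 : 2 * W / C + 1 ≤ x := (le_max_right _ _).trans ((le_max_left _ _).trans hx)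
  have hx3 : 2 * W / ε ≤ x := (le_max_right _ _).trans hx
  have hx0 : 0 < x := by linarith
  have hNx : ((⌊x⌋₊ : ℕ) : ℝ) ≤ x := Nat.floor_le hx0.le
  have hN : 2 * ∑ i ∈ T, w i * ((PB q H i).card : ℝ) ≤ C * (⌊x⌋₊ : ℕ) := by
    have e1 : 2 * W / C ≤ (⌊x⌋₊ : ℕ) := by
      have := Nat.lt_floor_add_one x
      linarith
    rw [div_le_iff₀ hC0] at e1
    rw [← hW]
    linarith
  have hk := tk_fam T (PB q H) (fun i _ p hp => (PB_mem hp).1) (fun i _ j _ hij => PB_disj hH i j hij) w hw0 C hC0.le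
    hwC L hLs ⌊x⌋₊ (fun n => φ (cardFactors n) (n : ZMod q)) (fun n => hφ _ _) hN
  have hS : ∑ n ∈ Icc 1 ⌊x⌋₊, φ (cardFactors n) (n : ZMod q) = SP q φ ⌊x⌋₊ := rfl
  rw [hS] at hk
  have hin : ∑ i ∈ T, w i * ∑ p ∈ PB q H i, ∑ m ∈ Icc 1 (⌊x⌋₊ / p), φ (cardFactors (p * m)) ((p * m : ℕ) : ZMod q) =
      ∑ i ∈ T, w i * ∑ p ∈ PB q H i, SP q (act i.2 φ) ⌊x / p⌋₊ := by
    apply sum_congr rfl
    intro i _
    congr 1
    apply sum_congr rfl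
    intro p hp
    rw [SP_mul φ p (PB_mem hp).1 i.2 (PB_mem hp).2.2.2, Nat.floor_div_natCast]
  rw [hin] at hk
  set MM : ℕ × (ZMod q)ˣ → ℝ := fun i => ME q (act i.2 φ) (x * Real.exp (-((i.1 : ℝ) / H))) with hMM
  have hcmp : |∑ i ∈ T, w i * ∑ p ∈ PB q H i, SP q (act i.2 φ) ⌊x / p⌋₊ - x * ∑ i ∈ T, 1 / (i.1 : ℝ) * MM i| ≤
      4 * x * L / H + W := by
    have e1 : x * ∑ i ∈ T, 1 / (i.1 : ℝ) * MM i = ∑ i ∈ T, w i * ∑ p ∈ PB q H i, x / p * MM i := by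
      rw [mul_sum]
      apply sum_congr rfl
      intro i hi
      rw [← hwm i hi, hmm]
      simp only
      rw [mul_sum, mul_sum, sum_mul, mul_sum]
      apply sum_congr rfl
      intro p _
      ring
    rw [e1, ← sum_sub_distrib]
    refine (abs_sum_le_sum_abs _ _).trans ?_
    have e2 : ∀ i ∈ T, |w i * ∑ p ∈ PB q H i, SP q (act i.2 φ) ⌊x / p⌋₊ - w i * ∑ p ∈ PB q H i, x / p * MM i| ≤
        (4 * x / H) * (w i * ∑ p ∈ PB q H i, 1 / (p : ℝ)) + w i * ((PB q H i).card : ℝ) := by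
      intro i hi
      rw [← mul_sub, ← sum_sub_distrib, abs_mul, abs_of_nonneg (hw0 i hi)]
      have e3 : |∑ p ∈ PB q H i, ((SP q (act i.2 φ) ⌊x / p⌋₊) - x / p * MM i)| ≤
          ∑ p ∈ PB q H i, (4 * (x / p) / H + 1) := by
        refine (abs_sum_le_sum_abs _ _).trans ?_
        apply sum_le_sum
        intro p hp
        obtain ⟨p1, p2, p3, _⟩ := PB_mem hp
        have hp0 : (0 : ℝ) < p := by exact_mod_cast p1.pos
        apply SP_cmp (act_B1 hφ) hH (by positivity)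
        · rw [Real.exp_neg, div_eq_mul_inv]
          apply mul_le_mul_of_nonneg_left _ hx0.le
          rw [inv_le_inv₀ hp0 (Real.exp_pos _)]
          exact p2.le
        · rw [Real.exp_neg]
          have e4 : ((i.1 : ℝ) + 1) / H = (i.1 : ℝ) / H + 1 / H := by ring
          rw [e4, Real.exp_add] at p3
          have e5 : 0 < Real.exp ((i.1 : ℝ) / H) := Real.exp_pos _
          rw [div_mul_eq_mul_div, ← div_eq_mul_inv, div_le_div_iff₀ e5 hp0]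
          have := mul_le_mul_of_nonneg_left p3 hx0.le
          linarith
      refine (mul_le_mul_of_nonneg_left e3 (hw0 i hi)).trans (le_of_eq ?_)
      rw [sum_add_distrib, sum_const, nsmul_eq_mul, mul_one, mul_add]
      congr 1
      rw [mul_left_comm (4 * x / (H : ℝ))]
      congr 1
      rw [mul_sum]
      apply sum_congr rfl
      intro p _
      ring
    refine (sum_le_sum e2).trans (le_of_eq ?_)
    rw [sum_add_distrib, ← mul_sum, ← hLs]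
    ring
  have hfin : |L * SP q φ ⌊x⌋₊ - x * ∑ i ∈ T, 1 / (i.1 : ℝ) * MM i| ≤ x * √(2 * C * L) + (4 * x * L / H + W) := by
    have e1 : L * SP q φ ⌊x⌋₊ - x * ∑ i ∈ T, 1 / (i.1 : ℝ) * MM i =
        (L * SP q φ ⌊x⌋₊ - ∑ i ∈ T, w i * ∑ p ∈ PB q H i, SP q (act i.2 φ) ⌊x / p⌋₊) +
        (∑ i ∈ T, w i * ∑ p ∈ PB q H i, SP q (act i.2 φ) ⌊x / p⌋₊ - x * ∑ i ∈ T, 1 / (i.1 : ℝ) * MM i) := by ring
    rw [e1]
    refine (abs_add_le _ _).trans (add_le_add (hk.trans ?_) hcmp)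
    exact mul_le_mul_of_nonneg_right hNx (Real.sqrt_nonneg _)
  have hsq : √(2 * C * L) ≤ ε / 2 * L := by
    rw [Real.sqrt_le_left (by positivity)]
    rw [div_le_iff₀ (by positivity)] at hL2
    nlinarith
  have hTs : ∑ v ∈ Ico v₀ V, 1 / (v : ℝ) * ∑ r : (ZMod q)ˣ, ME q (act r φ) (x * Real.exp (-((v : ℝ) / H))) =
      ∑ i ∈ T, 1 / (i.1 : ℝ) * MM i := by
    rw [hT, sum_product]
    apply sum_congr rfl
    intro v _
    rw [mul_sum]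
  rw [hTs]
  have e2 : ME q φ x - 1 / L * ∑ i ∈ T, 1 / (i.1 : ℝ) * MM i =
      (L * SP q φ ⌊x⌋₊ - x * ∑ i ∈ T, 1 / (i.1 : ℝ) * MM i) / (L * x) := by
    unfold ME
    field_simp
  rw [e2, abs_div, abs_of_pos (by positivity : 0 < L * x), div_le_iff₀ (by positivity)]
  refine hfin.trans ?_
  have e3 : W ≤ ε / 2 * (L * x) := by
    rw [div_le_iff₀ hε] at hx3
    nlinarith
  have e4 : x * √(2 * C * L) ≤ ε / 2 * (L * x) := by
    have := mul_le_mul_of_nonneg_left hsq hx0.le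
    linarith
  have e5 : (ε + 4 / H) * (L * x) = ε / 2 * (L * x) + (4 * x * L / H + ε / 2 * (L * x)) := by ring
  rw [e5]
  linarith

end Pool.Agent.TH575.OM
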