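import Pool.Agent.TH575.OM.Eqd2

/-!
Invariance of the means of functions of the number of prime factors and of a residue class under
scaling, under multiplication of the residue class by a unit, and under the shift.
-/

set_option autoImplicit false

namespace Pool.Agent.TH575.OM

open Finset Filter Topology ArithmeticFunction

lemma shift_one (A : ℕ → ℝ) (hA : ∀ v, |A v| ≤ 1) (v₀ V : ℕ) (h0 : 1 ≤ v₀) (hV : v₀ ≤ V) :
    |∑ v ∈ Ico v₀ V, 1 / (v : ℝ) * (A v - A (v + 1))| ≤ 3 := by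
  have h1 : (1 : ℝ) ≤ v₀ := by exact_mod_cast h0
  have key : ∀ n, v₀ ≤ n → |∑ v ∈ Ico v₀ n, 1 / (v : ℝ) * (A v - A (v + 1)) + A n / n| ≤ 2 - 1 / (n : ℝ) := by
    intro n hn
    induction n, hn using Nat.le_induction with
    | base =>
      rw [Ico_self, sum_empty, zero_add, abs_div, abs_of_nonneg (Nat.cast_nonneg v₀ : (0 : ℝ) ≤ (v₀ : ℝ))]
      have e1 : |A v₀| / v₀ ≤ 1 / v₀ := div_le_div_of_nonneg_right (hA _) (by linarith)
      have e2 : 1 / (v₀ : ℝ) ≤ 1 := by rw [div_le_one (by linarith)]; exact h1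
      linarith
    | succ n hn ih =>
      have hn1 : (1 : ℝ) ≤ n := by exact_mod_cast h0.trans hn
      rw [sum_Ico_succ_top hn]
      have e1 : ∑ v ∈ Ico v₀ n, 1 / (v : ℝ) * (A v - A (v + 1)) + 1 / (n : ℝ) * (A n - A (n + 1)) + A (n + 1) / ((n + 1 : ℕ) : ℝ) =
          (∑ v ∈ Ico v₀ n, 1 / (v : ℝ) * (A v - A (v + 1)) + A n / n) - A (n + 1) * (1 / n - 1 / ((n : ℝ) + 1)) := by
        push_cast
        ring
      rw [e1]
      refine (abs_sub _ _).trans ?_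
      have e2 : 0 ≤ 1 / (n : ℝ) - 1 / ((n : ℝ) + 1) := by
        rw [sub_nonneg]
        exact one_div_le_one_div_of_le (by linarith) (by linarith)
      rw [abs_mul, abs_of_nonneg e2]
      have e3 := mul_le_mul_of_nonneg_right (hA (n + 1)) e2
      push_cast
      linarith
  have h2 := key V hV
  have hV1 : (1 : ℝ) ≤ V := by exact_mod_cast h0.trans hV
  have e4 : |A V / V| ≤ 1 / V := by
    rw [abs_div, abs_of_nonneg (Nat.cast_nonneg V : (0 : ℝ) ≤ (V : ℝ))]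
    exact div_le_div_of_nonneg_right (hA _) (by linarith)
  have e5 : ∑ v ∈ Ico v₀ V, 1 / (v : ℝ) * (A v - A (v + 1)) =
      (∑ v ∈ Ico v₀ V, 1 / (v : ℝ) * (A v - A (v + 1)) + A V / V) - A V / V := by ring
  rw [e5]
  refine (abs_sub _ _).trans ?_
  linarith

lemma shift_many (A : ℕ → ℝ) (hA : ∀ v, |A v| ≤ 1) (v₀ V : ℕ) (h0 : 1 ≤ v₀) (hV : v₀ ≤ V) (s : ℕ) :
    |∑ v ∈ Ico v₀ V, 1 / (v : ℝ) * (A v - A (v + s))| ≤ 3 * s := by
  induction s with
  | zero => simp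
  | succ s ih =>
    have e : ∑ v ∈ Ico v₀ V, 1 / (v : ℝ) * (A v - A (v + (s + 1))) =
        ∑ v ∈ Ico v₀ V, 1 / (v : ℝ) * (A v - A (v + s)) +
        ∑ v ∈ Ico v₀ V, 1 / (v : ℝ) * ((fun u => A (u + s)) v - (fun u => A (u + s)) (v + 1)) := by
      rw [← sum_add_distrib]
      apply sum_congr rfl
      intro v _
      simp only
      have : v + (s + 1) = v + 1 + s := by ring
      rw [this]
      ring
    rw [e]
    refine (abs_add_le _ _).trans ?_
    have h2 := shift_one (fun u => A (u + s)) (fun v => hA _) v₀ V h0 hV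
    push_cast
    linarith

/-- invariance under a fixed number of steps of the lattice of scales -/
lemma scale_lat (q : ℕ) [NeZero q] (H : ℕ) (hH : 1 ≤ H) (s : ℕ) {ε : ℝ} (hε : 0 < ε) :
    ∃ x₀ : ℝ, ∀ x ≥ x₀, ∀ φ : ℕ → ZMod q → ℝ, B1 φ →
      |ME q φ x - ME q φ (x * Real.exp (-((s : ℝ) / H)))| ≤ ε + 8 / H := by
  obtain ⟨v₀, V, h0, hV, hK, x₀, hx₀⟩ := claimA q H hH (max 1 (3 * 3 * s / ε)) (by positivity : 0 < ε / 3)
  have hK1 : 1 ≤ ∑ v ∈ Ico v₀ V, 1 / (v : ℝ) := (le_max_left _ _).trans hK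
  have hK2 : 3 * 3 * s / ε ≤ ∑ v ∈ Ico v₀ V, 1 / (v : ℝ) := (le_max_right _ _).trans hK
  set LL := ∑ v ∈ Ico v₀ V, 1 / (v : ℝ) with hLL
  set f : ℝ := (Fintype.card (ZMod q)ˣ : ℝ) with hf
  have hf1 : 1 ≤ f := by
    rw [hf]
    exact_mod_cast Fintype.card_pos
  have he : 0 < Real.exp (-((s : ℝ) / H)) := Real.exp_pos _
  refine ⟨max 1 (max x₀ (x₀ / Real.exp (-((s : ℝ) / H)))), fun x hx φ hφ => ?_⟩
  have hx1 : 1 ≤ x := (le_max_left _ _).trans hx
  have hx2 : x₀ ≤ x := (le_max_left _ _).trans ((le_max_right _ _).trans hx)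
  have hx3 : x₀ ≤ x * Real.exp (-((s : ℝ) / H)) := by
    rw [← div_le_iff₀ he]
    exact (le_max_right _ _).trans ((le_max_right _ _).trans hx)
  have hx0 : 0 < x := by linarith
  have a1 := hx₀ x hx2 φ hφ
  have a2 := hx₀ _ hx3 φ hφ
  set A : ℕ → ℝ := fun v => 1 / f * ∑ r : (ZMod q)ˣ, ME q (act r φ) (x * Real.exp (-((v : ℝ) / H))) with hA
  have hA1 : ∀ v, |A v| ≤ 1 := by
    intro v
    rw [hA]
    simp only
    rw [abs_mul, abs_of_nonneg (by positivity : 0 ≤ 1 / f), div_mul_eq_mul_div, one_mul, div_le_one (by linarith)]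
    refine (abs_sum_le_sum_abs _ _).trans ?_
    refine (sum_le_sum fun r _ => ME_abs (act_B1 hφ) (by positivity)).trans ?_
    rw [sum_const, card_univ, nsmul_eq_mul, mul_one]
  have b1 : 1 / (f * LL) * ∑ v ∈ Ico v₀ V, 1 / (v : ℝ) * ∑ r : (ZMod q)ˣ, ME q (act r φ) (x * Real.exp (-((v : ℝ) / H))) =
      1 / LL * ∑ v ∈ Ico v₀ V, 1 / (v : ℝ) * A v := by
    have e1 : 1 / (f * LL) = 1 / LL * (1 / f) := by field_simp
    rw [e1, mul_assoc, mul_sum]
    congr 1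
    apply sum_congr rfl
    intro v _
    rw [hA]
    ring
  have b2 : 1 / (f * LL) * ∑ v ∈ Ico v₀ V, 1 / (v : ℝ) * ∑ r : (ZMod q)ˣ, ME q (act r φ)
      (x * Real.exp (-((s : ℝ) / H)) * Real.exp (-((v : ℝ) / H))) =
      1 / LL * ∑ v ∈ Ico v₀ V, 1 / (v : ℝ) * A (v + s) := by
    have e1 : 1 / (f * LL) = 1 / LL * (1 / f) := by field_simp
    rw [e1, mul_assoc, mul_sum]
    congr 1
    apply sum_congr rfl
    intro v _
    rw [hA]
    simp only
    have e2 : x * Real.exp (-((s : ℝ) / H)) * Real.exp (-((v : ℝ) / H)) = x * Real.exp (-(((v + s : ℕ) : ℝ) / H)) := by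
      rw [mul_assoc, ← Real.exp_add]
      congr 2
      push_cast
      ring
    rw [e2]
    ring
  rw [b1] at a1
  rw [b2] at a2
  have c1 := shift_many A hA1 v₀ V h0 hV s
  have c2 : |1 / LL * ∑ v ∈ Ico v₀ V, 1 / (v : ℝ) * A v - 1 / LL * ∑ v ∈ Ico v₀ V, 1 / (v : ℝ) * A (v + s)| ≤ ε / 3 := by
    rw [← mul_sub, ← sum_sub_distrib, abs_mul, abs_of_nonneg (by positivity : 0 ≤ 1 / LL)]
    have e3 : ∑ v ∈ Ico v₀ V, (1 / (v : ℝ) * A v - 1 / (v : ℝ) * A (v + s)) = ∑ v ∈ Ico v₀ V, 1 / (v : ℝ) * (A v - A (v + s)) := by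
      apply sum_congr rfl
      intro v _
      ring
    rw [e3, div_mul_eq_mul_div, one_mul, div_le_iff₀ (by linarith)]
    rw [div_le_iff₀ hε] at hK2
    linarith
  set X1 := ME q φ x
  set X2 := ME q φ (x * Real.exp (-((s : ℝ) / H)))
  set Y1 := 1 / LL * ∑ v ∈ Ico v₀ V, 1 / (v : ℝ) * A v
  set Y2 := 1 / LL * ∑ v ∈ Ico v₀ V, 1 / (v : ℝ) * A (v + s)
  have e : X1 - X2 = (X1 - Y1) + (Y1 - Y2) - (X2 - Y2) := by ring
  rw [e]
  refine (abs_sub _ _).trans ?_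
  have := abs_add_le (X1 - Y1) (Y1 - Y2)
  have e8 : (8 : ℝ) / H = 4 / H + 4 / H := by ring
  linarith

/-- invariance of the means under a change of scale -/
lemma scale_inv (q : ℕ) [NeZero q] {δ ε : ℝ} (hδ : 0 < δ) (hε : 0 < ε) :
    ∃ x₀ : ℝ, ∀ x ≥ x₀, ∀ x', δ * x ≤ x' → x' ≤ x → ∀ φ : ℕ → ZMod q → ℝ, B1 φ →
      |ME q φ x - ME q φ x'| ≤ ε := by
  obtain ⟨H, hH⟩ := exists_nat_ge (max 1 (36 / ε))
  have hH1 : (1 : ℝ) ≤ H := (le_max_left _ _).trans hH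
  have hH2 : 36 / ε ≤ H := (le_max_right _ _).trans hH
  have hHn : 1 ≤ H := by exact_mod_cast hH1
  have h12 : 12 / (H : ℝ) ≤ ε / 3 := by
    rw [div_le_iff₀ hε] at hH2
    rw [div_le_iff₀ (by linarith)]
    linarith
  have hl : ∀ s : ℕ, ∃ x₀ : ℝ, ∀ x ≥ x₀, ∀ φ : ℕ → ZMod q → ℝ, B1 φ →
      |ME q φ x - ME q φ (x * Real.exp (-((s : ℝ) / H)))| ≤ ε / 3 + 8 / H := fun s => scale_lat q H hHn s (by positivity)
  choose X hX using hl
  set S : ℕ := ⌈(H : ℝ) * Real.log (1 / δ)⌉₊ with hS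
  refine ⟨max (max 1 (3 / (ε * δ))) (∑ s ∈ range (S + 1), |X s|), fun x hx x' h1 h2 φ hφ => ?_⟩
  have hx1 : 1 ≤ x := (le_max_left _ _).trans ((le_max_left _ _).trans hx)
  have hx2 : 3 / (ε * δ) ≤ x := (le_max_right _ _).trans ((le_max_left _ _).trans hx)
  have hx3 : ∑ s ∈ range (S + 1), |X s| ≤ x := (le_max_right _ _).trans hx
  have hx0 : 0 < x := by linarith
  have hx'0 : 0 < x' := lt_of_lt_of_le (by positivity) h1
  have hlog0 : 0 ≤ Real.log (x / x') := Real.log_nonneg (by rw [le_div_iff₀ hx'0]; linarith)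
  set s : ℕ := ⌊(H : ℝ) * Real.log (x / x')⌋₊ with hs
  have hsS : s ≤ S := by
    refine (Nat.floor_le_ceil _).trans (Nat.ceil_le_ceil ?_)
    apply mul_le_mul_of_nonneg_left _ (by linarith)
    apply Real.log_le_log (by positivity)
    rw [div_le_div_iff₀ hx'0 hδ]
    linarith
  have hs1 : (s : ℝ) / H ≤ Real.log (x / x') := by
    rw [div_le_iff₀ (by linarith), mul_comm]
    exact Nat.floor_le (by positivity)
  have hs2 : Real.log (x / x') ≤ (s : ℝ) / H + 1 / H := by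
    rw [← add_div, le_div_iff₀ (by linarith), mul_comm]
    exact (Nat.lt_floor_add_one _).le
  have hxs : X s ≤ x := by
    refine (le_abs_self _).trans ((single_le_sum (f := fun s => |X s|) (fun i _ => abs_nonneg _) ?_).trans hx3)
    exact mem_range.2 (by omega)
  have a1 := hX s x hxs φ hφ
  have hxe : x / x' = Real.exp (Real.log (x / x')) := (Real.exp_log (by positivity)).symm
  have g1 : x' ≤ x * Real.exp (-((s : ℝ) / H)) := by
    rw [Real.exp_neg, ← div_eq_mul_inv, le_div_iff₀ (Real.exp_pos _)]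
    have := Real.exp_le_exp.2 hs1
    rw [← hxe, le_div_iff₀ hx'0] at this
    linarith
  have g2 : x * Real.exp (-((s : ℝ) / H)) ≤ x' * Real.exp (1 / (H : ℝ)) := by
    rw [Real.exp_neg, ← div_eq_mul_inv, div_le_iff₀ (Real.exp_pos _)]
    have := Real.exp_le_exp.2 hs2
    rw [← hxe, div_le_iff₀ hx'0, Real.exp_add] at this
    linarith
  have a2 := SP_cmp hφ hHn hx'0 g1 g2
  have a3 : |ME q φ x' - ME q φ (x * Real.exp (-((s : ℝ) / H)))| ≤ 4 / H + ε / 3 := by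
    have e1 : ME q φ x' - ME q φ (x * Real.exp (-((s : ℝ) / H))) =
        (SP q φ ⌊x'⌋₊ - x' * ME q φ (x * Real.exp (-((s : ℝ) / H)))) / x' := by
      rw [sub_div, mul_div_cancel_left₀ _ hx'0.ne']
      rfl
    rw [e1, abs_div, abs_of_pos hx'0, div_le_iff₀ hx'0]
    refine a2.trans ?_
    have e2 : 1 ≤ ε / 3 * x' := by
      rw [div_le_iff₀ (by positivity)] at hx2
      have := mul_le_mul_of_nonneg_left h1 hε.le
      nlinarith
    have e3 : (4 / H + ε / 3) * x' = 4 * x' / H + ε / 3 * x' := by ring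
    rw [e3]
    linarith
  set Z := ME q φ (x * Real.exp (-((s : ℝ) / H)))
  have e : ME q φ x - ME q φ x' = (ME q φ x - Z) - (ME q φ x' - Z) := by ring
  rw [e]
  refine (abs_sub _ _).trans ?_
  have e12 : (12 : ℝ) / H = 8 / H + 4 / H := by ring
  linarith

/-- invariance of the means under units -/
lemma unit_inv (q : ℕ) [NeZero q] {ε : ℝ} (hε : 0 < ε) :
    ∃ x₀ : ℝ, ∀ x ≥ x₀, ∀ u : (ZMod q)ˣ, ∀ φ : ℕ → ZMod q → ℝ, B1 φ →
      |ME q φ x - ME q (uact u φ) x| ≤ ε := by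
  obtain ⟨H, hH⟩ := exists_nat_ge (max 1 (16 / ε))
  have hH1 : (1 : ℝ) ≤ H := (le_max_left _ _).trans hH
  have hH2 : 16 / ε ≤ H := (le_max_right _ _).trans hH
  have hHn : 1 ≤ H := by exact_mod_cast hH1
  obtain ⟨v₀, V, h0, hV, hK, x₀, hx₀⟩ := claimA q H hHn 1 (by positivity : 0 < ε / 4)
  refine ⟨x₀, fun x hx u φ hφ => ?_⟩
  have a1 := hx₀ x hx φ hφ
  have a2 := hx₀ x hx (uact u φ) (uact_B1 hφ)
  have e1 : ∀ y : ℝ, ∑ r : (ZMod q)ˣ, ME q (act r (uact u φ)) y = ∑ r : (ZMod q)ˣ, ME q (act r φ) y := by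
    intro y
    rw [← Equiv.sum_comp (Equiv.mulLeft u) (fun r => ME q (act r φ) y)]
    apply sum_congr rfl
    intro r _
    congr 1
    funext l b
    simp only [act, uact, Equiv.coe_mulLeft, Units.val_mul, mul_assoc]
  simp_rw [e1] at a2
  set Y := 1 / ((Fintype.card (ZMod q)ˣ : ℝ) * ∑ v ∈ Ico v₀ V, 1 / (v : ℝ)) *
        ∑ v ∈ Ico v₀ V, 1 / (v : ℝ) * ∑ r : (ZMod q)ˣ, ME q (act r φ) (x * Real.exp (-((v : ℝ) / H)))
  have e : ME q φ x - ME q (uact u φ) x = (ME q φ x - Y) - (ME q (uact u φ) x - Y) := by ring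
  rw [e]
  refine (abs_sub _ _).trans ?_
  have h4 : 4 / (H : ℝ) ≤ ε / 4 := by
    rw [div_le_iff₀ hε] at hH2
    rw [div_le_iff₀ (by linarith)]
    linarith
  linarith

/-- invariance of the means under the shift -/
lemma up_inv (q : ℕ) [NeZero q] {ε : ℝ} (hε : 0 < ε) :
    ∃ x₀ : ℝ, ∀ x ≥ x₀, ∀ φ : ℕ → ZMod q → ℝ, B1 φ → |ME q φ x - ME q (up φ) x| ≤ ε := by
  obtain ⟨H, hH⟩ := exists_nat_ge (max 1 (16 / ε))
  have hH1 : (1 : ℝ) ≤ H := (le_max_left _ _).trans hH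
  have hH2 : 16 / ε ≤ H := (le_max_right _ _).trans hH
  have hHn : 1 ≤ H := by exact_mod_cast hH1
  obtain ⟨v₀, V, h0, hV, hK, x₀, hx₀⟩ := claimA q H hHn 1 (by positivity : 0 < ε / 4)
  set δ : ℝ := Real.exp (-((V : ℝ) / H)) with hδ
  have hδ0 : 0 < δ := Real.exp_pos _
  obtain ⟨x₁, hx₁⟩ := scale_inv q hδ0 (by positivity : 0 < ε / 4)
  obtain ⟨x₂, hx₂⟩ := unit_inv q (by positivity : 0 < ε / 4)
  refine ⟨max (max 1 x₀) (max x₁ (x₂ / δ)), fun x hx φ hφ => ?_⟩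
  have g1 : 1 ≤ x := (le_max_left _ _).trans ((le_max_left _ _).trans hx)
  have g2 : x₀ ≤ x := (le_max_right _ _).trans ((le_max_left _ _).trans hx)
  have g3 : x₁ ≤ x := (le_max_left _ _).trans ((le_max_right _ _).trans hx)
  have g4 : x₂ ≤ δ * x := by
    have := (le_max_right _ _).trans ((le_max_right _ _).trans hx)
    rw [div_le_iff₀ hδ0] at this
    linarith
  have hx0 : 0 < x := by linarith
  have a1 := hx₀ x g2 φ hφ
  set LL := ∑ v ∈ Ico v₀ V, 1 / (v : ℝ) with hLL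
  set f : ℝ := (Fintype.card (ZMod q)ˣ : ℝ) with hf
  have hf1 : 1 ≤ f := by
    rw [hf]
    exact_mod_cast Fintype.card_pos
  have hLL0 : 0 < LL := by linarith
  have hd : ∀ v ∈ Ico v₀ V, ∀ r : (ZMod q)ˣ, |ME q (act r φ) (x * Real.exp (-((v : ℝ) / H))) - ME q (up φ) x| ≤ ε / 2 := by
    intro v hv r
    rw [mem_Ico] at hv
    have e1 : act r φ = uact r (up φ) := rfl
    rw [e1]
    set y := x * Real.exp (-((v : ℝ) / H)) with hy
    have hvV : (v : ℝ) ≤ V := by exact_mod_cast hv.2.le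
    have y1 : δ * x ≤ y := by
      rw [hy, mul_comm]
      apply mul_le_mul_of_nonneg_left _ hx0.le
      rw [hδ]
      apply Real.exp_le_exp.2
      rw [neg_le_neg_iff]
      exact div_le_div_of_nonneg_right hvV (by linarith)
    have y2 : y ≤ x := by
      rw [hy]
      apply mul_le_of_le_one_right hx0.le
      rw [Real.exp_le_one_iff, neg_nonpos]
      positivity
    have b1 := hx₁ x g3 y y1 y2 (up φ) (up_B1 hφ)
    have b2 := hx₂ y (g4.trans y1) r (up φ) (up_B1 hφ)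
    have e2 : ME q (uact r (up φ)) y - ME q (up φ) x = -(ME q (up φ) y - ME q (uact r (up φ)) y) - (ME q (up φ) x - ME q (up φ) y) := by ring
    rw [e2]
    refine (abs_sub _ _).trans ?_
    rw [abs_neg]
    linarith
  have a2 : |1 / (f * LL) * ∑ v ∈ Ico v₀ V, 1 / (v : ℝ) * ∑ r : (ZMod q)ˣ, ME q (act r φ) (x * Real.exp (-((v : ℝ) / H))) -
      ME q (up φ) x| ≤ ε / 2 := by
    have e3 : 1 / (f * LL) * ∑ v ∈ Ico v₀ V, 1 / (v : ℝ) * ∑ r : (ZMod q)ˣ, ME q (act r φ) (x * Real.exp (-((v : ℝ) / H))) -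
      ME q (up φ) x = 1 / (f * LL) * ∑ v ∈ Ico v₀ V, 1 / (v : ℝ) * ∑ r : (ZMod q)ˣ,
        (ME q (act r φ) (x * Real.exp (-((v : ℝ) / H))) - ME q (up φ) x) := by
      have e4 : ∑ v ∈ Ico v₀ V, 1 / (v : ℝ) * ∑ r : (ZMod q)ˣ,
        (ME q (act r φ) (x * Real.exp (-((v : ℝ) / H))) - ME q (up φ) x) =
        ∑ v ∈ Ico v₀ V, 1 / (v : ℝ) * ∑ r : (ZMod q)ˣ, ME q (act r φ) (x * Real.exp (-((v : ℝ) / H))) -
        LL * f * ME q (up φ) x := by
        rw [hLL, sum_mul, sum_mul, ← sum_sub_distrib]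
        apply sum_congr rfl
        intro v _
        rw [sum_sub_distrib, sum_const, card_univ, nsmul_eq_mul]
        ring
      rw [e4]
      field_simp
    rw [e3, abs_mul, abs_of_nonneg (by positivity : 0 ≤ 1 / (f * LL))]
    have e5 : |∑ v ∈ Ico v₀ V, 1 / (v : ℝ) * ∑ r : (ZMod q)ˣ,
        (ME q (act r φ) (x * Real.exp (-((v : ℝ) / H))) - ME q (up φ) x)| ≤ LL * (f * (ε / 2)) := by
      rw [hLL, sum_mul]
      refine (abs_sum_le_sum_abs _ _).trans (sum_le_sum fun v hv => ?_)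
      rw [abs_mul, abs_of_nonneg (by positivity : (0 : ℝ) ≤ 1 / v)]
      apply mul_le_mul_of_nonneg_left _ (by positivity)
      refine (abs_sum_le_sum_abs _ _).trans ((sum_le_sum fun r _ => hd v hv r).trans ?_)
      rw [sum_const, card_univ, nsmul_eq_mul]
    rw [div_mul_eq_mul_div, one_mul, div_le_iff₀ (by positivity)]
    refine e5.trans (le_of_eq (by ring))
  set Y := 1 / (f * LL) * ∑ v ∈ Ico v₀ V, 1 / (v : ℝ) * ∑ r : (ZMod q)ˣ, ME q (act r φ) (x * Real.exp (-((v : ℝ) / H)))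
  have e : ME q φ x - ME q (up φ) x = (ME q φ x - Y) + (Y - ME q (up φ) x) := by ring
  rw [e]
  refine (abs_add_le _ _).trans ?_
  have h4 : 4 / (H : ℝ) ≤ ε / 4 := by
    rw [div_le_iff₀ hε] at hH2
    rw [div_le_iff₀ (by linarith)]
    linarith
  linarith

end Pool.Agent.TH575.OM
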