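import Pool.Agent.H970R2.X.Upart
import Pool.Agent.TH575.OM.LevAS

/-! The sparse large values for classes of functions (after H970R2/X/Upart). -/

set_option autoImplicit false

namespace Pool.Agent.TH575.OM
open Finset Filter Pool.Agent.H376R2.MR Pool.Agent.H970R2.X

/-- one step of the iteration -/
lemma supart_step (P : ℕ → Prop) (g g2 : ℕ → ℤ) (c' : ℝ) (hc'0 : 0 < c') (hc'1 : c' ≤ 1)
    (H m m' : ℕ) (Z : ℝ) (U : Finset ℤ) (W : ℝ) (hW : 0 < W) (hWW : WWp P H m m' = W)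
    (s : Finset ℕ) (a : ℕ → ℂ)
    (hGG : ∀ k : ℤ, GGg g Z k = -(1 / (W : ℂ)) *
        ∑ v ∈ Ico m m', PPp P H v k * GGg g2 (Z * Real.exp (-((v : ℝ) / H))) k + DP s a k)
    (D : ℝ) (hD : ∑ k ∈ U, ‖DP s a k‖ ^ 2 ≤ D)
    (hP : ∀ v ∈ Ico m m', ∀ k ∈ U, ‖PPp P H v k‖ ≤ (1 - c') * mmp P H v)
    (A : ℝ) (hA : 0 ≤ A)
    (hG : ∀ v ∈ Ico m m', ∑ k ∈ U, ‖GGg g2 (Z * Real.exp (-((v : ℝ) / H))) k‖ ^ 2 ≤ A) :
    ∑ k ∈ U, ‖GGg g Z k‖ ^ 2 ≤ (1 - c') * A + (1 + 1 / c') * D := by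
  have hmm : ∀ v ∈ Ico m m', 0 ≤ mmp P H v := fun v _ =>
    Finset.sum_nonneg fun p _ => by positivity
  have hmain := upart_mean (Ico m m') U (fun v => mmp P H v) hmm W hW hWW
    (fun v k => PPp P H v k) (fun v k => GGg g2 (Z * Real.exp (-((v : ℝ) / H))) k) (1 - c') A
    hP hG
  calc ∑ k ∈ U, ‖GGg g Z k‖ ^ 2
      ≤ ∑ k ∈ U, ((1 + c') * ‖-(1 / (W : ℂ)) * ∑ v ∈ Ico m m', PPp P H v k *
          GGg g2 (Z * Real.exp (-((v : ℝ) / H))) k‖ ^ 2 + (1 + 1 / c') * ‖DP s a k‖ ^ 2) := by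
        refine Finset.sum_le_sum fun k _ => ?_
        rw [hGG k]
        exact xupart_add c' hc'0 _ _
    _ = (1 + c') * (∑ k ∈ U, ‖-(1 / (W : ℂ)) * ∑ v ∈ Ico m m', PPp P H v k *
          GGg g2 (Z * Real.exp (-((v : ℝ) / H))) k‖ ^ 2) + (1 + 1 / c') * ∑ k ∈ U, ‖DP s a k‖ ^ 2 := by
        rw [Finset.sum_add_distrib, ← Finset.mul_sum, ← Finset.mul_sum]
    _ ≤ (1 + c') * ((1 - c') ^ 2 * A) + (1 + 1 / c') * D := by
        refine add_le_add (mul_le_mul_of_nonneg_left hmain (by linarith))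
          (mul_le_mul_of_nonneg_left hD (by positivity))
    _ ≤ (1 - c') * A + (1 + 1 / c') * D := by
        have h1 : (1 + c') * ((1 - c') ^ 2 * A) = (1 - c' ^ 2) * ((1 - c') * A) := by ring
        have h2 : 0 ≤ (1 - c') * A := mul_nonneg (by linarith) hA
        have h3 : (1 - c' ^ 2) * ((1 - c') * A) ≤ 1 * ((1 - c') * A) :=
          mul_le_mul_of_nonneg_right (by nlinarith) h2
        linarith

theorem upart_fam (P : ℕ → Prop) (S : Set (ℕ → ℤ)) (c : ℝ) (hb : ∀ g ∈ S, Bdd g) (hf : FlipS P S)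
    (hc : 0 < c) (hR : Rich P c) {η : ℝ} (hη : 0 < η) :
    ∃ α : ℝ, 0 < α ∧ ∃ (T₀ : ℕ) (Y₀ : ℝ), ∀ Y : ℝ, Y₀ ≤ Y → ∀ g ∈ S, ∀ U : Finset ℤ,
    (∀ k ∈ U, (T₀ : ℝ) ≤ |(k : ℝ)| ∧ |(k : ℝ)| ≤ Y) → (U.card : ℝ) ≤ Y ^ α →
    ∑ k ∈ U, ‖GGg g Y k‖ ^ 2 ≤ η := by
  classical
  obtain ⟨C₁, hC₁, hdec⟩ := dec_fam
  obtain ⟨C₂, hWW⟩ := hR.1
  obtain ⟨c', hc'0, hc'1, hcellM⟩ := cell_bound_gen P c hc hR
  obtain ⟨β, hβ, hls⟩ := ls
  obtain ⟨Z₁, hZ₁⟩ := hls (1 / 10000) (by norm_num)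
  obtain ⟨Z₂, hZ₂⟩ := Filter.eventually_atTop.mp
    (wnorm.eventually (ge_mem_nhds (show (2 / 3 : ℝ) < 2 / 3 + 1 / 10000 by norm_num)))
  -- number of iterations
  obtain ⟨N₀, hN₀⟩ := exists_pow_lt_of_lt_one (show (0 : ℝ) < η / 10 by positivity)
    (show 1 - c' < 1 by linarith)
  set N : ℕ := N₀ + 1 with hN
  have hNpos : (0 : ℝ) < N := by rw [hN]; positivity
  have hN1 : (1 : ℝ) ≤ N := by rw [hN]; push_cast; linarith [Nat.cast_nonneg (α := ℝ) N₀]
  have hNpow : 5 * (1 - c') ^ N ≤ η / 2 := by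
    have h1 : (1 - c') ^ N ≤ (1 - c') ^ N₀ := by
      rw [hN, pow_succ]
      have h2 : 0 ≤ (1 - c') ^ N₀ := pow_nonneg (by linarith) _
      nlinarith
    linarith
  -- the error
  set B₀ : ℝ := 32 * (1 + 1 / c') * C₁ / (c' * η) + 1 with hB₀
  have hB₀1 : 1 ≤ B₀ := by
    rw [hB₀]
    have : 0 ≤ 32 * (1 + 1 / c') * C₁ / (c' * η) := by positivity
    linarith
  have hB₀pos : 0 < B₀ := by linarith
  have hBE : (1 + 1 / c') * (8 * (C₁ * (1 / B₀ + 1 / B₀))) ≤ c' * (η / 2) := by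
    have h1 : 32 * (1 + 1 / c') * C₁ / (c' * η) ≤ B₀ := by rw [hB₀]; linarith
    rw [div_le_iff₀ (by positivity)] at h1
    have h2 : (1 + 1 / c') * (8 * (C₁ * (1 / B₀ + 1 / B₀))) = (32 * (1 + 1 / c') * C₁) / (2 * B₀) := by
      field_simp
      ring
    rw [h2, div_le_iff₀ (by positivity)]
    nlinarith
  obtain ⟨H, hH⟩ := exists_nat_ge B₀
  have hHr : (1 : ℝ) ≤ H := by linarith
  have hH1 : 1 ≤ H := by exact_mod_cast hHr
  have hHpos : (0 : ℝ) < H := by linarith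
  obtain ⟨q, hq⟩ := exists_nat_ge (Real.exp ((|C₂| + B₀) / c))
  have hq0 : (1 : ℝ) ≤ q := (Real.one_le_exp (by positivity)).trans hq
  have hqpos : (0 : ℝ) < q := by linarith
  have hqlog : C₂ + B₀ ≤ c * Real.log q := by
    have h1 : (|C₂| + B₀) / c ≤ Real.log q := by
      rw [Real.le_log_iff_exp_le hqpos]; exact hq
    rw [div_le_iff₀ hc] at h1
    have := le_abs_self C₂
    linarith
  have hq1 : 1 ≤ q := by exact_mod_cast hq0
  obtain ⟨T₀, v₀, hcell⟩ := hcellM (32 * N * q) H hH1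
  have ev : ∀ᶠ Y : ℝ in atTop, 1 ≤ Y ∧ Z₁ ≤ Y ^ (3 / 4 : ℝ) ∧ Z₂ ≤ Y ^ (3 / 4 : ℝ) ∧
      32 * N * q * ((H : ℝ) + v₀ + 1) ≤ H * Real.log Y := by
    have t1 : Tendsto (fun Y : ℝ => Y ^ (3 / 4 : ℝ)) atTop atTop :=
      tendsto_rpow_atTop (by norm_num)
    have t2 : Tendsto (fun Y : ℝ => (H : ℝ) * Real.log Y) atTop atTop :=
      Real.tendsto_log_atTop.const_mul_atTop hHpos
    filter_upwards [eventually_ge_atTop 1, t1.eventually_ge_atTop Z₁, t1.eventually_ge_atTop Z₂,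
      t2.eventually_ge_atTop (32 * N * q * ((H : ℝ) + v₀ + 1))] with Y h1 h2 h3 h4
    exact ⟨h1, h2, h3, h4⟩
  obtain ⟨Y₀, hY₀⟩ := Filter.eventually_atTop.mp ev
  refine ⟨3 / 4 * β, by positivity, T₀, Y₀, fun Y hY g0 hg0 U hU hcard => ?_⟩
  obtain ⟨hY1, hYZ₁, hYZ₂, hYlog⟩ := hY₀ Y hY
  have hYpos : 0 < Y := by linarith
  set m : ℕ := ⌊(H : ℝ) * Real.log Y / (16 * N * q)⌋₊ with hm
  have hlogY : 0 ≤ Real.log Y := Real.log_nonneg hY1
  have hnle : (m : ℝ) ≤ H * Real.log Y / (16 * N * q) := Nat.floor_le (by positivity)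
  have hnge : (H : ℝ) * Real.log Y / (16 * N * q) - 1 < m := Nat.sub_one_lt_floor _
  have h2x : 2 * ((H : ℝ) + v₀ + 1) ≤ H * Real.log Y / (16 * N * q) := by
    rw [le_div_iff₀ (by positivity)]
    linarith
  have hv₀nn : (0 : ℝ) ≤ v₀ := Nat.cast_nonneg _
  have hnH : (H : ℝ) ≤ m := by linarith
  have hnv : (v₀ : ℝ) ≤ m := by linarith
  have hn8 : (H : ℝ) * Real.log Y / (32 * N * q) ≤ m := by
    have e : (H : ℝ) * Real.log Y / (32 * N * q) = (H * Real.log Y / (16 * N * q)) / 2 := by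
      field_simp; ring
    rw [e]
    linarith
  have hnpos : (0 : ℝ) < m := by linarith
  have hnH' : H ≤ m := by exact_mod_cast hnH
  have hnv' : v₀ ≤ m := by exact_mod_cast hnv
  set W : ℝ := WWp P H m (q * m) with hW
  have hWge : B₀ ≤ W := by
    have h := hWW H m (q * m) hH1 hnH' (Nat.le_mul_of_pos_left m hq1)
    have e : (((q * m : ℕ) : ℝ) / (m : ℝ)) = q := by
      push_cast
      field_simp
    rw [e] at h
    linarith
  have hW1 : 1 ≤ W := by linarith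
  have hWpos : 0 < W := by linarith
  -- `q m / H ≤ log Y / (16 N)`
  have hqm : ((q * m : ℕ) : ℝ) / H ≤ Real.log Y / (16 * N) := by
    rw [div_le_div_iff₀ hHpos (by positivity)]
    push_cast
    rw [le_div_iff₀ (by positivity)] at hnle
    linarith
  have hexp : ∀ Z : ℝ, Y ^ (3 / 4 : ℝ) ≤ Z → Real.exp (4 * ((q * m : ℕ) : ℝ) / H) ≤ Z := by
    intro Z hZ
    refine le_trans ?_ hZ
    rw [Real.rpow_def_of_pos hYpos]
    apply Real.exp_le_exp.mpr
    have h1 : Real.log Y / (16 * N) ≤ Real.log Y / 16 := by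
      apply div_le_div_of_nonneg_left hlogY (by norm_num)
      linarith
    have h2 : 4 * ((q * m : ℕ) : ℝ) / H = 4 * (((q * m : ℕ) : ℝ) / H) := by ring
    rw [h2]
    linarith
  have hpi1 := Real.pi_gt_three
  have hpi2 := Real.pi_lt_d2
  have hls' : ∀ Z : ℝ, Y ^ (3 / 4 : ℝ) ≤ Z → ∀ (s : Finset ℕ) (a : ℕ → ℂ),
      (∀ n ∈ s, Z / Real.exp 2 ≤ (n : ℝ) ∧ (n : ℝ) ≤ Real.exp 2 * Z) →
      ∑ k ∈ U, ‖DP s a k‖ ^ 2 ≤ (2 * Real.pi + 1 / 10000) * ∑ n ∈ s, (n : ℝ) * ‖a n‖ ^ 2 := by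
    intro Z hZ
    have hYp : (0 : ℝ) ≤ Y ^ (3 / 4 : ℝ) := Real.rpow_nonneg hYpos.le _
    refine hZ₁ Z (hYZ₁.trans hZ) U (fun k hk => ?_) ?_
    · refine (hU k hk).2.trans ?_
      calc Y = (Y ^ (3 / 4 : ℝ)) ^ (4 / 3 : ℝ) := by
            rw [← Real.rpow_mul hYpos.le]; norm_num
        _ ≤ Z ^ (4 / 3 : ℝ) := Real.rpow_le_rpow hYp hZ (by norm_num)
    · refine hcard.trans ?_
      calc Y ^ (3 / 4 * β) = (Y ^ (3 / 4 : ℝ)) ^ β := by
            rw [← Real.rpow_mul hYpos.le]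
        _ ≤ Z ^ β := Real.rpow_le_rpow hYp hZ hβ.le
  have hbase : ∀ g ∈ S, ∀ Z : ℝ, Y ^ (3 / 4 : ℝ) ≤ Z → ∑ k ∈ U, ‖GGg g Z k‖ ^ 2 ≤ 5 := by
    intro g hg Z hZge
    have hZpos : 0 < Z := (Real.rpow_pos_of_pos hYpos _).trans_le hZge
    refine (xupart_GG g (hb g hg) Z hZpos _ (by positivity) U (hls' Z hZge)).trans ?_
    refine (mul_le_mul_of_nonneg_left (hZ₂ Z (hYZ₂.trans hZge)) (by positivity)).trans ?_
    norm_num at *
    nlinarith
  have hPv : ∀ v ∈ Ico m (q * m), ∀ k ∈ U, ‖PPp P H v k‖ ≤ (1 - c') * mmp P H v := by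
    intro v hv k hk
    have hv1 : m ≤ v := (Finset.mem_Ico.mp hv).1
    refine hcell v (hnv'.trans hv1) k (hU k hk).1 ((hU k hk).2.trans ?_)
    calc Y = Real.exp (Real.log Y) := (Real.exp_log hYpos).symm
      _ ≤ Real.exp (((32 * N * q : ℕ) : ℝ) * (v : ℝ) / H) := by
        apply Real.exp_le_exp.mpr
        rw [le_div_iff₀ hHpos]
        rw [div_le_iff₀ (by positivity)] at hn8
        have hv2 : (m : ℝ) ≤ v := by exact_mod_cast hv1
        push_cast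
        have : (m : ℝ) * (32 * N * q) ≤ v * (32 * N * q) :=
          mul_le_mul_of_nonneg_right hv2 (by positivity)
        linarith
  -- the induction
  have key : ∀ i : ℕ, i ≤ N → ∀ g ∈ S, ∀ Z : ℝ, Y ^ (3 / 4 + (i : ℝ) / (4 * N)) ≤ Z →
      ∑ k ∈ U, ‖GGg g Z k‖ ^ 2 ≤ 5 * (1 - c') ^ i + η / 2 := by
    intro i
    induction i with
    | zero =>
      intro _ g hg Z hZ
      have h1 := hbase g hg Z (by simpa using hZ)
      simp only [pow_zero, mul_one]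
      linarith
    | succ i ih =>
      intro hi g hg Z hZ
      obtain ⟨g2, hg2, hfl⟩ := hf g hg
      have hi' : i ≤ N := by omega
      have hZ34 : Y ^ (3 / 4 : ℝ) ≤ Z := by
        refine le_trans (Real.rpow_le_rpow_of_exponent_le hY1 ?_) hZ
        have : (0 : ℝ) ≤ ((i + 1 : ℕ) : ℝ) / (4 * N) := by positivity
        linarith
      have hZpos : 0 < Z := (Real.rpow_pos_of_pos hYpos _).trans_le hZ34
      obtain ⟨s, a, hs, hGG, ha⟩ := hdec P g g2 (hb g hg) (hb g2 hg2) hfl H m (q * m) hH1 hW1 Z (hexp Z hZ34)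
      have herr : ∑ k ∈ U, ‖DP s a k‖ ^ 2 ≤ 8 * (C₁ * (1 / B₀ + 1 / B₀)) := by
        refine (hls' Z hZ34 s a hs).trans ?_
        refine mul_le_mul (by norm_num at *; linarith) (ha.trans ?_)
          (Finset.sum_nonneg fun n _ => by positivity) (by norm_num)
        refine mul_le_mul_of_nonneg_left (add_le_add ?_ ?_) hC₁.le
        · exact div_le_div_of_nonneg_left (by norm_num) hB₀pos hWge
        · exact div_le_div_of_nonneg_left (by norm_num) hB₀pos (by nlinarith)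
      have hstep := supart_step P g g2 c' hc'0 hc'1 H m (q * m) Z U W hWpos rfl s a hGG _ herr hPv
        (5 * (1 - c') ^ i + η / 2)
        (add_nonneg (mul_nonneg (by norm_num) (pow_nonneg (by linarith) _)) (by positivity)) (by
          intro v hv
          apply ih hi' g2 hg2
          have h1 : (v : ℝ) / H ≤ Real.log Y / (16 * N) := by
            refine le_trans ?_ hqm
            have h3 : (v : ℝ) ≤ ((q * m : ℕ) : ℝ) := by exact_mod_cast (Finset.mem_Ico.mp hv).2.le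
            exact div_le_div_of_nonneg_right h3 hHpos.le
          rw [Real.rpow_def_of_pos hYpos] at hZ
          calc Y ^ (3 / 4 + (i : ℝ) / (4 * N))
              = Real.exp (Real.log Y * (3 / 4 + (i : ℝ) / (4 * N))) := Real.rpow_def_of_pos hYpos _
            _ ≤ Real.exp (Real.log Y * (3 / 4 + ((i + 1 : ℕ) : ℝ) / (4 * N)) +
                  -((v : ℝ) / H)) := by
                apply Real.exp_le_exp.mpr
                have e1 : Real.log Y * (3 / 4 + ((i + 1 : ℕ) : ℝ) / (4 * N)) =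
                    Real.log Y * (3 / 4 + (i : ℝ) / (4 * N)) + Real.log Y / (4 * N) := by
                  push_cast
                  field_simp
                  ring
                have e2 : Real.log Y / (16 * N) ≤ Real.log Y / (4 * N) := by
                  apply div_le_div_of_nonneg_left hlogY (by positivity)
                  nlinarith
                rw [e1]
                linarith
            _ = Real.exp (Real.log Y * (3 / 4 + ((i + 1 : ℕ) : ℝ) / (4 * N))) *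
                  Real.exp (-((v : ℝ) / H)) := Real.exp_add _ _
            _ ≤ Z * Real.exp (-((v : ℝ) / H)) :=
                mul_le_mul_of_nonneg_right hZ (Real.exp_pos _).le)
      refine hstep.trans ?_
      rw [pow_succ]
      have h1 : (1 - c') * (5 * (1 - c') ^ i + η / 2) + c' * (η / 2) =
          5 * ((1 - c') ^ i * (1 - c')) + η / 2 := by ring
      linarith
  have hfin := key N le_rfl g0 hg0 Y (by
    have : (3 / 4 + (N : ℝ) / (4 * N)) = 1 := by field_simp; ring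
    rw [this, Real.rpow_one])
  linarith

end Pool.Agent.TH575.OM
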